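import Pool.Agent.Lib.G9.ZDefs
import Pool.Agent.Lib.VK.XDef

/-!
# GU, phase 2: definitions for the full count
-/

set_option autoImplicit false

open Finset

namespace Pool.Agent.Lib.GU

open Pool.Agent.Lib.G3 (SS)

/-- number of the primes `p ≤ H` such that `N - p` has exactly `k` prime factors -/
def CF (k H N : ℕ) : ℕ := ((Icc 1 H).filter fun p => p.Prime ∧ ArithmeticFunction.cardFactors (N - p) = k).card

/-- the main term of the full count -/
noncomputable def MF (k H N : ℕ) : ℝ :=
  SS N * (H / (Real.log H * Real.log N) * ((Real.log (Real.log N)) ^ (k - 1) / (Nat.factorial (k - 1) : ℝ)))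

/-- number of the primes `p ≤ H` such that `N - p` has exactly `k` prime factors, the least one outside `(z, w]` -/
def RF (k z w H N : ℕ) : ℕ := ((Icc 1 H).filter fun p => p.Prime ∧ ArithmeticFunction.cardFactors (N - p) = k ∧
  ¬ (z < (N - p).minFac ∧ (N - p).minFac ≤ w)).card

/-- the numbers `g ≤ x` with at most `K` prime factors (with multiplicity), all of them in `(w, U]` -/
def QR (K w U x : ℕ) : Finset ℕ := (Icc 1 x).filter fun g => g.primeFactorsList.length ≤ K ∧ ∀ p ∈ g.primeFactors, w < p ∧ p ≤ U

/-- the primes `q ≤ w`, `q ≥ (log X)^c` -/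
noncomputable def SP (X c w : ℕ) : Finset ℕ := (Icc 1 w).filter fun q => q.Prime ∧ (Real.log X) ^ c ≤ q

end Pool.Agent.Lib.GU
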