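import Pool.Agent.Lib.G9.Rh

/-!
# GU, row Fa: the primes `p ≤ H` with `N - p` divisible by `d`, weighted over `d ≤ D ≤ H^(1/4)`, by Bombieri-Vinogradov (compare `rhB` in G9/Rh.lean)

PROOF IN WORDS. `lp = th` (BV/Defs). As `p ≤ H < N`: `∑_{p ≤ H} lp p ∑_{d ∣ N - p} u d = ∑_{d ≤ D} u d θ(d)`, `θ(d) = ∑_{p ≤ H, p ≡ N (d)} th p`. If `gcd(d, N) > 1` then only the primes `p ∣ d` are `≡ N mod d`: `0 ≤ θ(d) ≤ log d` (`∑_{p ∣ d} log p ≤ log d`). If `gcd(d, N) = 1`: `θ(d) = EE th H d (N mod d) + θ'/φ(d)`,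
`θ' = ∑_{n ≤ H, (n,d) = 1} th n`, `|θ' - ∑_{n ≤ H} th n| ≤ log d`, `∑_{n ≤ H} th n = H + O(H/(log H)^6)` (`theta_one` in Rh.lean, private, from `SW.theta_ap` with `q = 1`). `∑_{d ≤ D} |EE th H d (N mod d)| ≤ H/(log H)^4` by `BV.bvp` (`D ≤ H^(1/4)`), for `d` coprime to `N` (take any coprime class, e.g. `1`, for the other `d`).
Errors: `H/(log H)^4 + 2 D log D + (∑_{d ≤ D} 1/φ(d)) (C H/(log H)^6 + log D)` with `∑_{d ≤ D} 1/φ(d) ≤ C' (1 + log D)^2` (see the treatment in Rh.lean; `1/φ(d) ≤ 2 (log d + 1)/d` or any landed bound), `≤ H/(log H)^2` for large `H`. All the tools are in the proof of `rhB`: copy the private lemmas.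
-/

set_option autoImplicit false

open Finset

namespace Pool.Agent.Lib.GU

open Pool.Agent.Lib.G3 (lp)

private theorem th_nonneg' (n : ℕ) : 0 ≤ BV.th n := by
  unfold BV.th
  split_ifs
  · exact Real.log_natCast_nonneg n
  · exact le_rfl

private theorem non_le {q : ℕ} (hq : 1 ≤ q) (H : ℕ) (c : ℕ → ℝ) (hc : ∀ n, |c n| ≤ 1) :
    |∑ n ∈ (Icc 1 H).filter (fun n => ¬ n.Coprime q), BV.th n * c n| ≤ Real.log q := by
  calc |∑ n ∈ (Icc 1 H).filter (fun n => ¬ n.Coprime q), BV.th n * c n|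
      ≤ ∑ n ∈ (Icc 1 H).filter (fun n => ¬ n.Coprime q), BV.th n := by
        refine (abs_sum_le_sum_abs _ _).trans (sum_le_sum fun n _ => ?_)
        rw [abs_mul, abs_of_nonneg (th_nonneg' n)]
        exact mul_le_of_le_one_right (th_nonneg' n) (hc n)
    _ = ∑ n ∈ ((Icc 1 H).filter (fun n => ¬ n.Coprime q)).filter Nat.Prime, Real.log n := by
        exact (sum_filter Nat.Prime (fun n : ℕ => Real.log (n : ℝ))).symm
    _ ≤ ∑ n ∈ q.primeFactors, Real.log n := by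
        refine sum_le_sum_of_subset_of_nonneg (fun n hn => ?_) fun n _ _ => Real.log_natCast_nonneg n
        rw [mem_filter, mem_filter] at hn
        obtain ⟨⟨-, h1⟩, h2⟩ := hn
        refine Nat.mem_primeFactors.2 ⟨h2, ?_, by omega⟩
        by_contra h3
        exact h1 ((Nat.Prime.coprime_iff_not_dvd h2).2 h3)
    _ = Real.log ((∏ n ∈ q.primeFactors, n : ℕ) : ℝ) := by
        rw [Nat.cast_prod, Real.log_prod]
        intro n hn
        have := (Nat.prime_of_mem_primeFactors hn).pos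
        positivity
    _ ≤ Real.log q := by
        refine Real.log_le_log ?_ ?_
        · exact_mod_cast prod_pos fun n hn => (Nat.prime_of_mem_primeFactors hn).pos
        · exact_mod_cast Nat.le_of_dvd hq (Nat.prod_primeFactors_dvd q)

private theorem theta_one (B : ℕ) : ∃ C : ℝ, 0 < C ∧ ∀ H : ℕ, 2 ≤ H →
    |∑ n ∈ Icc 1 H, BV.th n - H| ≤ C * H / (Real.log H) ^ B := by
  obtain ⟨C, hC, h⟩ := SW.theta_ap B 1 one_pos
  refine ⟨C, hC, fun H hH => ?_⟩
  have h1 := h 1 0 le_rfl (by simp) (H : ℝ) (by exact_mod_cast hH)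
  have h2 : ∑ n ∈ (Icc 1 ⌊(H : ℝ)⌋₊).filter (fun n => n.Prime ∧ n ≡ 0 [MOD 1]), Real.log n =
      ∑ n ∈ Icc 1 H, BV.th n := by
    rw [Nat.floor_natCast]
    have h3 : (Icc 1 H).filter (fun n => n.Prime ∧ n ≡ 0 [MOD 1]) = (Icc 1 H).filter (fun n => n.Prime) := by
      refine filter_congr fun n _ => ?_
      simp [Nat.modEq_one]
    rw [h3, sum_filter]
    rfl
  rw [h2] at h1
  simpa using h1

private theorem ev_log (k : ℕ) : ∃ H0 : ℕ, ∀ H : ℕ, H0 ≤ H → 2 * (Real.log H) ^ k ≤ (H : ℝ) ^ (3 / 4 : ℝ) := by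
  have h1 := isLittleO_log_rpow_rpow_atTop (k : ℝ) (show (0 : ℝ) < 3 / 4 by norm_num)
  have h2 := (h1.bound (show (0 : ℝ) < 1 / 2 by norm_num))
  have h3 := tendsto_natCast_atTop_atTop (R := ℝ) |>.eventually h2
  obtain ⟨H0, h4⟩ := Filter.eventually_atTop.1 h3
  refine ⟨H0, fun H hH => ?_⟩
  have h5 := h4 H hH
  rw [Real.rpow_natCast, Real.norm_of_nonneg (pow_nonneg (Real.log_natCast_nonneg H) k),
    Real.norm_of_nonneg (by positivity)] at h5
  linarith

private theorem fa_one {d : ℕ} (hd : 1 ≤ d) (H N a : ℕ) (ha : N.Coprime d → a = N) (x : ℝ) (hx : |x| ≤ 1) :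
    |x * ∑ n ∈ (Icc 1 H).filter (fun n => n ≡ N [MOD d]), BV.th n -
        H * (if Nat.Coprime d N then x / (d.totient : ℝ) else 0)| ≤
      |BV.EE BV.th H d a| + |∑ n ∈ Icc 1 H, BV.th n - H| * (1 / (d.totient : ℝ)) + 2 * Real.log d := by
  set φ : ℝ := (d.totient : ℝ) with hφ
  have hφ1 : 1 ≤ φ := by
    rw [hφ]
    exact_mod_cast Nat.totient_pos.2 hd
  have hφ0 : 0 < φ := by linarith
  have hf0 : 0 ≤ 1 / φ := by positivity
  have hf1 : 1 / φ ≤ 1 := by
    rw [div_le_one hφ0]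
    exact hφ1
  set θ : ℝ := ∑ n ∈ Icc 1 H, BV.th n with hθ
  set θn : ℝ := ∑ n ∈ (Icc 1 H).filter (fun n => ¬ n.Coprime d), BV.th n with hθn
  set θc : ℝ := ∑ n ∈ (Icc 1 H).filter (fun n => n.Coprime d), BV.th n with hθc
  set S : ℝ := ∑ n ∈ (Icc 1 H).filter (fun n => n ≡ N [MOD d]), BV.th n with hS
  have h1 : θc + θn = θ := sum_filter_add_sum_filter_not _ _ _
  have hn0 : 0 ≤ θn := sum_nonneg fun n _ => th_nonneg' n
  have hn2 : θn ≤ Real.log d := by
    have := non_le hd H (fun _ => 1) fun n => by simp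
    have h2 := (le_abs_self _).trans this
    simpa using h2
  have hl0 : 0 ≤ Real.log (d : ℝ) := Real.log_natCast_nonneg d
  have hS0 : 0 ≤ S := sum_nonneg fun n _ => th_nonneg' n
  by_cases hc : Nat.Coprime d N
  · rw [if_pos hc]
    have haN := ha hc.symm
    subst haN
    have h2 : S = BV.EE BV.th H d a + 1 / φ * θc := by
      unfold BV.EE
      ring
    have h3 : x * S - H * (x / φ) = x * (BV.EE BV.th H d a + (θ - H) * (1 / φ) - 1 / φ * θn) := by
      rw [h2, ← h1]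
      ring
    rw [h3, abs_mul]
    have h4 : |(θ - H) * (1 / φ)| = |θ - H| * (1 / φ) := by
      rw [abs_mul, abs_of_nonneg hf0]
    have h5 : |1 / φ * θn| ≤ Real.log d := by
      rw [abs_of_nonneg (by positivity)]
      have := mul_le_mul hf1 hn2 hn0 zero_le_one
      linarith
    have h6 := abs_sub (BV.EE BV.th H d a + (θ - H) * (1 / φ)) (1 / φ * θn)
    have h7 := abs_add_le (BV.EE BV.th H d a) ((θ - H) * (1 / φ))
    have h8 : |x| * |BV.EE BV.th H d a + (θ - H) * (1 / φ) - 1 / φ * θn| ≤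
        1 * |BV.EE BV.th H d a + (θ - H) * (1 / φ) - 1 / φ * θn| :=
      mul_le_mul_of_nonneg_right hx (abs_nonneg _)
    linarith
  · rw [if_neg hc, mul_zero, sub_zero, abs_mul, abs_of_nonneg hS0]
    have h2 : S ≤ θn := by
      refine sum_le_sum_of_subset_of_nonneg (fun n hn => ?_) fun n _ _ => th_nonneg' n
      rw [mem_filter] at hn ⊢
      refine ⟨hn.1, fun h => hc ?_⟩
      have h3 : n % d = N % d := hn.2
      have h4 : Nat.gcd n d = Nat.gcd N d := by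
        rw [Nat.gcd_comm n d, Nat.gcd_rec d n, h3, ← Nat.gcd_rec d N, Nat.gcd_comm d N]
      have h5 : Nat.gcd N d = 1 := h4 ▸ h
      rw [Nat.coprime_comm]
      exact h5
    have h3 : |x| * S ≤ 1 * S := mul_le_mul_of_nonneg_right hx hS0
    have h4 : 0 ≤ |BV.EE BV.th H d a| := abs_nonneg _
    have h5 : 0 ≤ |θ - H| * (1 / φ) := by positivity
    linarith

private theorem fa_swap (H D N : ℕ) (hHN : H < N) (u : ℕ → ℝ) (hu : ∀ d, u d ≠ 0 → 1 ≤ d ∧ d ≤ D) :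
    ∑ p ∈ Icc 1 H, lp p * ∑ d ∈ (N - p).divisors, u d =
      ∑ d ∈ Icc 1 D, u d * ∑ n ∈ (Icc 1 H).filter (fun n => n ≡ N [MOD d]), BV.th n := by
  have h1 : ∀ p ∈ Icc 1 H, lp p * ∑ d ∈ (N - p).divisors, u d =
      ∑ d ∈ Icc 1 D, (if p ≡ N [MOD d] then u d * BV.th p else 0) := by
    intro p hp
    rw [mem_Icc] at hp
    have h2 : ∑ d ∈ (N - p).divisors, u d = ∑ d ∈ (Icc 1 D).filter (fun d => p ≡ N [MOD d]), u d := by
      rw [← sum_filter_add_sum_filter_not (N - p).divisors (fun d => d ≤ D)]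
      have h3 : ∑ d ∈ (N - p).divisors.filter (fun d => ¬ d ≤ D), u d = 0 := by
        refine sum_eq_zero fun d hd => ?_
        rw [mem_filter] at hd
        by_contra h
        exact hd.2 (hu d h).2
      rw [h3, add_zero]
      refine sum_congr ?_ fun _ _ => rfl
      ext d
      rw [mem_filter, mem_filter, Nat.mem_divisors, mem_Icc, Nat.modEq_iff_dvd' (by omega)]
      constructor
      · rintro ⟨⟨h4, h5⟩, h6⟩
        exact ⟨⟨Nat.pos_of_dvd_of_pos h4 (by omega), h6⟩, h4⟩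
      · rintro ⟨⟨h4, h5⟩, h6⟩
        exact ⟨⟨h6, by omega⟩, h5⟩
    have h3 : lp p = BV.th p := rfl
    rw [h2, h3, mul_sum, sum_filter]
    refine sum_congr rfl fun d _ => ?_
    split_ifs
    · ring
    · rfl
  rw [sum_congr rfl h1, sum_comm]
  refine sum_congr rfl fun d _ => ?_
  rw [mul_sum, sum_filter]

private theorem fa_le (H D N : ℕ) (hHN : H < N) (u : ℕ → ℝ) (hu : ∀ d, u d ≠ 0 → 1 ≤ d ∧ d ≤ D) (hu1 : ∀ d, |u d| ≤ 1) :
    ∃ a : ℕ → ℕ, (∀ q ∈ Icc 1 D, (a q).Coprime q) ∧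
    |∑ p ∈ Icc 1 H, lp p * ∑ d ∈ (N - p).divisors, u d - H * ∑ d ∈ (Icc 1 D).filter (fun d => Nat.Coprime d N), u d / (Nat.totient d : ℝ)| ≤
      ∑ q ∈ Icc 1 D, ((1 : ℕ) : ℝ) ^ q.primeFactors.card * |BV.EE BV.th H q (a q)| +
      |∑ n ∈ Icc 1 H, BV.th n - H| * (1 + Real.log D) ^ 2 + 2 * (D * Real.log D) := by
  refine ⟨fun q => if N.Coprime q then N else 1, fun q _ => ?_, ?_⟩
  · show Nat.Coprime (if N.Coprime q then N else 1) q
    by_cases h : N.Coprime q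
    · rw [if_pos h]
      exact h
    · rw [if_neg h]
      exact Nat.coprime_one_left q
  rw [fa_swap H D N hHN u hu, sum_filter, mul_sum, ← sum_sub_distrib]
  refine (abs_sum_le_sum_abs _ _).trans ?_
  have h3 : ∀ q ∈ Icc 1 D,
      |u q * ∑ n ∈ (Icc 1 H).filter (fun n => n ≡ N [MOD q]), BV.th n -
        H * (if Nat.Coprime q N then u q / (q.totient : ℝ) else 0)| ≤
      ((1 : ℕ) : ℝ) ^ q.primeFactors.card * |BV.EE BV.th H q (if N.Coprime q then N else 1)| +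
        |∑ n ∈ Icc 1 H, BV.th n - H| * (1 / (q.totient : ℝ)) + 2 * Real.log D := by
    intro q hq
    rw [mem_Icc] at hq
    have h4 := fa_one hq.1 H N (if N.Coprime q then N else 1) (fun h => if_pos h) (u q) (hu1 q)
    have h5 : Real.log q ≤ Real.log D :=
      Real.log_le_log (by exact_mod_cast hq.1) (by exact_mod_cast hq.2)
    rw [Nat.cast_one, one_pow, one_mul]
    linarith
  refine (sum_le_sum h3).trans ?_
  rw [sum_add_distrib, sum_add_distrib, ← mul_sum, sum_const, Nat.card_Icc]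
  have h7 := BV.sum_pow_omega 1 D
  have h8 : ∑ q ∈ Icc 1 D, (1 / (q.totient : ℝ)) ≤ (1 + Real.log D) ^ 2 := by
    simpa using h7
  have h9 := mul_le_mul_of_nonneg_left h8 (abs_nonneg (∑ n ∈ Icc 1 H, BV.th n - (H : ℝ)))
  have h10 : (D + 1 - 1) • (2 * Real.log D) = 2 * (D * Real.log D) := by
    rw [Nat.add_sub_cancel, nsmul_eq_mul]
    ring
  rw [h10]
  linarith

theorem faU : ∃ H0 : ℕ, ∀ H D N : ℕ, H0 ≤ H → D ^ 4 ≤ H → H < N → ∀ u : ℕ → ℝ, (∀ d, u d ≠ 0 → 1 ≤ d ∧ d ≤ D) → (∀ d, |u d| ≤ 1) →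
    |∑ p ∈ Icc 1 H, lp p * ∑ d ∈ (N - p).divisors, u d - H * ∑ d ∈ (Icc 1 D).filter (fun d => Nat.Coprime d N), u d / (Nat.totient d : ℝ)| ≤
      H / (Real.log H) ^ 2 := by
  obtain ⟨C, hC, hθ⟩ := theta_one 5
  obtain ⟨H1, hbv⟩ := BV.bvp 3 1 (1 / 4) (by norm_num)
  obtain ⟨H2, hlog⟩ := ev_log 4
  obtain ⟨H3, hbig⟩ := Filter.eventually_atTop.1
    ((Real.tendsto_log_atTop.comp (tendsto_natCast_atTop_atTop (R := ℝ))).eventually_ge_atTop (2 + C + 4))
  refine ⟨max 2 (max H1 (max H2 H3)), fun H Q N hH hQ hHN u hu hu1 => ?_⟩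
  simp only [max_le_iff] at hH
  obtain ⟨hH2, hH1', hH2', hH3'⟩ := hH
  have hL : 2 + C + 4 ≤ Real.log H := hbig H hH3'
  set L := Real.log H with hLdef
  have hL0 : 0 < L := by linarith
  have hHpos : (0 : ℝ) < H := by exact_mod_cast (by omega : 0 < H)
  have hQr : (Q : ℝ) ≤ (H : ℝ) ^ (1 / 4 : ℝ) := by
    have h1 : ((Q : ℝ) ^ 4) ≤ H := by exact_mod_cast hQ
    calc (Q : ℝ) = ((Q : ℝ) ^ 4) ^ (1 / 4 : ℝ) := by
          rw [← Real.rpow_natCast, ← Real.rpow_mul (by positivity)]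
          norm_num
      _ ≤ _ := Real.rpow_le_rpow (by positivity) h1 (by norm_num)
  obtain ⟨a, hac, hle⟩ := fa_le H Q N hHN u hu hu1
  have hb := hbv H hH1' Q (by
    have : (1 / 2 - 1 / 4 : ℝ) = 1 / 4 := by norm_num
    rw [this]
    exact hQr) a hac
  have hQlog : Real.log Q ≤ L / 4 := by
    rcases Nat.eq_zero_or_pos Q with h0 | h0
    · rw [h0]
      simp only [CharP.cast_eq_zero, Real.log_zero]
      linarith
    · have h1 : Real.log Q ≤ Real.log ((H : ℝ) ^ (1 / 4 : ℝ)) :=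
        Real.log_le_log (by exact_mod_cast h0) hQr
      rw [Real.log_rpow hHpos] at h1
      linarith
  have hQ0 : 0 ≤ Real.log Q := Real.log_natCast_nonneg Q
  have h2 : |∑ n ∈ Icc 1 H, BV.th n - H| * (1 + Real.log Q) ^ 2 ≤ C * (H / L ^ 3) := by
    calc |∑ n ∈ Icc 1 H, BV.th n - H| * (1 + Real.log Q) ^ 2 ≤ (C * H / L ^ 5) * L ^ 2 := by
          have h3 := hθ H hH2
          have h4 : 1 + Real.log Q ≤ L := by linarith
          gcongr
      _ = C * (H / L ^ 3) := by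
          rw [show 5 = 3 + 2 by norm_num, pow_add]
          field_simp
  have h3 : 2 * (Q * Real.log Q) ≤ H / L ^ 3 := by
    rw [le_div_iff₀ (by positivity)]
    have h4 := hlog H hH2'
    calc 2 * (Q * Real.log Q) * L ^ 3 ≤ 2 * ((H : ℝ) ^ (1 / 4 : ℝ) * L) * L ^ 3 := by
          have : Real.log Q ≤ L := by linarith
          gcongr
      _ = (H : ℝ) ^ (1 / 4 : ℝ) * (2 * L ^ 4) := by ring
      _ ≤ (H : ℝ) ^ (1 / 4 : ℝ) * (H : ℝ) ^ (3 / 4 : ℝ) := by gcongr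
      _ = H := by
          rw [← Real.rpow_add hHpos]
          norm_num
  have h4 : (2 + C) * (H / L ^ 3) ≤ H / L ^ 2 := by
    rw [show (3 : ℕ) = 2 + 1 by norm_num, pow_succ, mul_div_assoc', div_le_div_iff₀ (by positivity) (by positivity)]
    have h5 : (2 + C) * (H * L ^ 2) ≤ L * (H * L ^ 2) := by
      refine mul_le_mul_of_nonneg_right ?_ (by positivity)
      linarith
    nlinarith [h5]
  linarith

end Pool.Agent.Lib.GU
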