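import Pool.Agent.Lib.GU.Fg
import Pool.Agent.Lib.VK.XSp
import Pool.Agent.Lib.G6.Ph
import Pool.Agent.Lib.G5.Q8
import Pool.Agent.Lib.MP_7b7e48_nt.TC.FLM
import Pool.Agent.Lib.MP_7b7e48_nt.GT.RoughCount

/-!
# GU, row Fh: the small sieve of row Fs for the numbers with a prescribed `z`-smooth part in a finite set `Sm` (compare GU/Fs.lean, GU/Mj.lean)

PROOF IN WORDS. `flm 2` with `b = 1`, `z`, `P` = the primes `≤ z`: `v : Finset ℕ → ℝ`. `up d = ∑_{s ∈ Sm} ∑_{D ∈ P.powerset} [s ∏ D = d] v D`: `|up d|` is at most the number of the `s` with `d/s` squarefree, so `≤ 2^ω(d)`. `∑_{d ∣ n} up d = ∑_{s ∈ Sm, s ∣ n} ∑_{D ⊆ P, ∏ D ∣ n/s} v D`: every inner sum is `≥ 0`, and `≥ 1` for `s = smo z n` (no prime `≤ z` divides `n/s`: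
`mj_smo` in WL/Mj.lean or GU/Mj.lean, private). Pointwise bound, as in Fs: `F p = ∑_{d ∣ N - p} up d ≥ 0`. Primes `p ≤ √H`: at most `√H ∑_{d ≤ z^(K+12)} τ(d) ≤ √H z^(2K+24) ≤ H^(1 - 1/(4K+50)) ≤ H/(log H)^3` (`z^(4K+50) ≤ H`). The others: at most `(2/log H) ∑_{p ≤ H} lp p F p ≤ (2/log H) (H ∑_{(d,N)=1} up d/φ(d) + H/(log H)^2)` by `faG` (`D = z^(K+12)`, `D^4 ≤ H`).
`∑_{(d,N)=1} up d/φ(d) = ∑_{s ∈ Sm, (s,N)=1} (1/φ(s)) ∑_{D ⊆ P} v D ∏_{r ∈ D} g_s r`, `g_s r = 0` if `r ∣ N`, `1/r` if `r ∣ s`, `1/(r-1)` otherwise (`φ(s r) = r φ(s)` if `r ∣ s`). Fourth clause of `flm`: each inner sum is between `0`... and `(1 + K'/2) ∏_{r ∈ P} (1 - g_s r) ≤ (1 + K'/2) ∏_{r ∈ P, r ∤ N} (1 - 1/r) ≤ (1 + K'/2) 4 SS N/log z` (as in Fs).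
-/

set_option autoImplicit false

open Finset

namespace Pool.Agent.Lib.GU

open Pool.Agent.Lib.G3 (SS)
open Pool.Agent.Lib.VKT (smo)

private noncomputable def fhMu (Q P : Finset ℕ) (up : Finset ℕ → ℝ) (e : ℕ) : ℝ :=
  ∑ g ∈ Q, ∑ d ∈ P.powerset, if g * ∏ r ∈ d, r = e then up d else 0

private theorem fh_sum (Q P : Finset ℕ) (up : Finset ℕ → ℝ) (D : Finset ℕ) (f : ℕ → ℝ) :
    ∑ e ∈ D, fhMu Q P up e * f e =
      ∑ g ∈ Q, ∑ d ∈ P.powerset, if g * ∏ r ∈ d, r ∈ D then up d * f (g * ∏ r ∈ d, r) else 0 := by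
  unfold fhMu
  simp only [Finset.sum_mul]
  rw [Finset.sum_comm]
  refine Finset.sum_congr rfl fun g hg => ?_
  rw [Finset.sum_comm]
  refine Finset.sum_congr rfl fun d hd => ?_
  simp only [ite_mul, zero_mul]
  rw [Finset.sum_ite_eq]

private theorem fh_div (Q P : Finset ℕ) (hQ : ∀ g ∈ Q, 1 ≤ g) (hP : ∀ r ∈ P, r.Prime) (up : Finset ℕ → ℝ) (n : ℕ)
    (hn : 1 ≤ n) : ∑ e ∈ n.divisors, fhMu Q P up e =
      ∑ g ∈ Q.filter (fun g => g ∣ n), ∑ d ∈ (P.filter fun r => r ∣ n / g).powerset, up d := by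
  have h := fh_sum Q P up n.divisors (fun _ => 1)
  simp only [mul_one] at h
  rw [h, Finset.sum_filter]
  refine Finset.sum_congr rfl fun g hg => ?_
  split_ifs with hgn
  · obtain ⟨m, rfl⟩ := hgn
    have hg0 : 0 < g := hQ g hg
    rw [Nat.mul_div_cancel_left m hg0, ← Finset.sum_filter]
    refine Finset.sum_congr ?_ fun _ _ => rfl
    ext d
    simp only [mem_filter, mem_powerset, Nat.mem_divisors]
    constructor
    · rintro ⟨hd, hdv, -⟩
      have hdm : ∏ r ∈ d, r ∣ m := (Nat.mul_dvd_mul_iff_left hg0).mp hdv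
      intro r hr
      exact mem_filter.mpr ⟨hd hr, (Finset.dvd_prod_of_mem _ hr).trans hdm⟩
    · intro hd
      have h1 : d ⊆ P := fun r hr => (mem_filter.mp (hd hr)).1
      exact ⟨h1, Nat.mul_dvd_mul_left g (Finset.prod_primes_dvd m (fun r hr => (hP r (h1 hr)).prime)
        fun r hr => (mem_filter.mp (hd hr)).2), by omega⟩
  · apply Finset.sum_eq_zero
    intro d hd
    rw [if_neg]
    intro h'
    exact hgn ((Dvd.intro _ rfl).trans (Nat.dvd_of_mem_divisors h'))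

private theorem fh_two (Q P : Finset ℕ) (hQ : ∀ g ∈ Q, 1 ≤ g) (hP : ∀ r ∈ P, r.Prime) (up : Finset ℕ → ℝ)
    (hup : ∀ d, |up d| ≤ 1) (e : ℕ) : |fhMu Q P up e| ≤ (2 : ℝ) ^ e.primeFactors.card := by
  have h1 : |fhMu Q P up e| ≤ ∑ d ∈ P.powerset, if d ⊆ e.primeFactors then (1 : ℝ) else 0 := by
    unfold fhMu
    rw [Finset.sum_comm]
    refine (Finset.abs_sum_le_sum_abs _ _).trans (Finset.sum_le_sum fun d hd => ?_)
    refine (Finset.abs_sum_le_sum_abs _ _).trans ?_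
    have hdpos : 0 < ∏ r ∈ d, r := Finset.prod_pos fun r hr => (hP r (mem_powerset.mp hd hr)).pos
    by_cases hge : ∃ g ∈ Q, g * ∏ r ∈ d, r = e
    · obtain ⟨g0, hg0, h0⟩ := hge
      have hsub : d ⊆ e.primeFactors := by
        intro r hr
        rw [Nat.mem_primeFactors]
        refine ⟨hP r (mem_powerset.mp hd hr), ?_, ?_⟩
        · rw [← h0]
          exact (Finset.dvd_prod_of_mem _ hr).mul_left _
        · rw [← h0]
          exact (Nat.mul_pos (hQ g0 hg0) hdpos).ne'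
      rw [if_pos hsub, Finset.sum_eq_single_of_mem g0 hg0, if_pos h0]
      · exact hup d
      · intro g hg hne
        rw [if_neg]
        · exact abs_zero
        · intro h3
          exact hne (Nat.eq_of_mul_eq_mul_right hdpos (h3.trans h0.symm))
    · rw [Finset.sum_eq_zero]
      · split_ifs <;> norm_num
      · intro g hg
        rw [if_neg fun h => hge ⟨g, hg, h⟩, abs_zero]
  refine h1.trans ?_
  rw [← Finset.sum_filter, Finset.sum_const, nsmul_eq_mul, mul_one]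
  have h2 : (P.powerset.filter fun d => d ⊆ e.primeFactors).card ≤ e.primeFactors.powerset.card :=
    Finset.card_le_card fun d hd => mem_powerset.mpr (mem_filter.mp hd).2
  rw [Finset.card_powerset] at h2
  exact_mod_cast h2

/-- a list is split by a condition -/
private theorem fh_split (l : List ℕ) (w : ℕ) :
    (l.filter fun p => p ≤ w).prod * (l.filter fun p => !decide (p ≤ w)).prod = l.prod := by
  induction l with
  | nil => simp
  | cons a l ih =>
    by_cases h : a ≤ w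
    · rw [List.filter_cons_of_pos (by simpa using h), List.filter_cons_of_neg (by simpa using h),
        List.prod_cons, List.prod_cons, ← ih, mul_assoc]
    · rw [List.filter_cons_of_neg (by simpa using h), List.filter_cons_of_pos (by simpa using h),
        List.prod_cons, List.prod_cons, ← ih]
      ring

private theorem fh_smo (w n : ℕ) (hn : 1 ≤ n) {p : ℕ} (hp : p.Prime) (hpn : p ∣ n / smo w n) : w < p := by
  have h1 : smo w n * (n.primeFactorsList.filter fun p => !decide (p ≤ w)).prod = n := by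
    unfold smo
    rw [fh_split, Nat.prod_primeFactorsList (by omega)]
  have h2 : 0 < smo w n := (Pool.Agent.Lib.VKT.smo_spec w n hn).2.1
  have h3 : n / smo w n = (n.primeFactorsList.filter fun p => !decide (p ≤ w)).prod :=
    Nat.div_eq_of_eq_mul_right h2 h1.symm
  rw [h3] at hpn
  obtain ⟨q, hq, hpq⟩ := (hp.prime.dvd_prod_iff).mp hpn
  obtain ⟨hq1, hq2⟩ := List.mem_filter.mp hq
  have hqp : q.Prime := Nat.prime_of_mem_primeFactorsList hq1
  rw [(Nat.prime_dvd_prime_iff_eq hp hqp).mp hpq]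
  simpa using hq2

/-- `∏_{r ≤ z} (1 - g r)` against the singular series -/
private theorem fh_prod (z N : ℕ) (hz : 2 ≤ z) (hN : Even N) (hN1 : 1 ≤ N) (g : ℕ → ℝ)
    (hg0 : ∀ r ∈ Pool.Agent.Lib.GT.pr z, r ∣ N → g r = 0) (hg1 : ∀ r ∈ Pool.Agent.Lib.GT.pr z, ¬ r ∣ N → 1 / (r : ℝ) ≤ g r)
    (hg2 : ∀ r ∈ Pool.Agent.Lib.GT.pr z, g r ≤ 1) :
    ∏ r ∈ Pool.Agent.Lib.GT.pr z, (1 - g r) ≤ 4 * SS N / Real.log z := by
  have hpr : ∀ r ∈ Pool.Agent.Lib.GT.pr z, r.Prime := fun r hr => by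
    unfold Pool.Agent.Lib.GT.pr at hr
    exact (mem_filter.mp hr).2
  have hzr : (2 : ℝ) ≤ z := by exact_mod_cast hz
  have hlz : 0 < Real.log z := Real.log_pos (by linarith)
  have h1 : ∏ r ∈ Pool.Agent.Lib.GT.pr z, (1 - g r) ≤
      ∏ r ∈ Pool.Agent.Lib.GT.pr z, ((1 - 1 / (r : ℝ)) * (if r ∣ N then (1 - (1 : ℝ) / r)⁻¹ else 1)) := by
    refine Finset.prod_le_prod (fun r hr => ?_) (fun r hr => ?_)
    · have := hg2 r hr
      linarith
    · have h2 : (2 : ℝ) ≤ r := by exact_mod_cast (hpr r hr).two_le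
      split_ifs with h
      · have h3 : (1 : ℝ) - 1 / r ≠ 0 := by
          have : (1 : ℝ) / r ≤ 1 / 2 := one_div_le_one_div_of_le (by norm_num) h2
          intro h5
          linarith
        rw [mul_inv_cancel₀ h3, hg0 r hr h, sub_zero]
      · rw [mul_one]
        have := hg1 r hr h
        linarith
  have h2 : ∏ r ∈ Pool.Agent.Lib.GT.pr z, (if r ∣ N then (1 - (1 : ℝ) / r)⁻¹ else 1) ≤ 4 * SS N := by
    refine le_trans ?_ (Pool.Agent.Lib.G6.ph hN hN1)
    rw [Pool.Agent.Lib.Sieve.div_totient_eq_prod_inv N (by omega), ← Finset.prod_filter]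
    have hsub : (Pool.Agent.Lib.GT.pr z).filter (fun r => r ∣ N) ⊆ N.primeFactors := by
      intro r hr
      rw [mem_filter] at hr
      exact Nat.mem_primeFactors.mpr ⟨hpr r hr.1, hr.2, by omega⟩
    have hone : ∀ r ∈ N.primeFactors, (1 : ℝ) ≤ (1 - (1 : ℝ) / r)⁻¹ := by
      intro r hr
      have h3 : (2 : ℝ) ≤ r := by exact_mod_cast (Nat.prime_of_mem_primeFactors hr).two_le
      have h4 : (1 : ℝ) / r ≤ 1 / 2 := one_div_le_one_div_of_le (by norm_num) h3
      have h5 : (0 : ℝ) < 1 / r := by positivity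
      exact (one_le_inv₀ (by linarith)).mpr (by linarith)
    rw [← Finset.prod_sdiff hsub]
    have ha : (1 : ℝ) ≤ ∏ r ∈ N.primeFactors \ (Pool.Agent.Lib.GT.pr z).filter (fun r => r ∣ N), (1 - (1 : ℝ) / r)⁻¹ := by
      refine Finset.prod_induction _ (fun x : ℝ => 1 ≤ x) (fun a b ha hb => by nlinarith) le_rfl fun r hr => ?_
      exact hone r (mem_sdiff.mp hr).1
    have hb : (0 : ℝ) ≤ ∏ r ∈ (Pool.Agent.Lib.GT.pr z).filter (fun r => r ∣ N), (1 - (1 : ℝ) / r)⁻¹ :=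
      Finset.prod_nonneg fun r hr => zero_le_one.trans (hone r (hsub hr))
    nlinarith
  have hV : ∏ r ∈ Pool.Agent.Lib.GT.pr z, (1 - 1 / (r : ℝ)) ≤ 1 / Real.log z := Pool.Agent.Lib.GT.V_le z hz
  have hV0 : 0 ≤ ∏ r ∈ Pool.Agent.Lib.GT.pr z, (1 - 1 / (r : ℝ)) := (Pool.Agent.Lib.GT.V_pos z).le
  have hS : 0 ≤ 4 * SS N := by
    have := Pool.Agent.Lib.G5.q8 N hN
    linarith
  calc ∏ r ∈ Pool.Agent.Lib.GT.pr z, (1 - g r)
      ≤ (∏ r ∈ Pool.Agent.Lib.GT.pr z, (1 - 1 / (r : ℝ))) * ∏ r ∈ Pool.Agent.Lib.GT.pr z, (if r ∣ N then (1 - (1 : ℝ) / r)⁻¹ else 1) := by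
        rw [← Finset.prod_mul_distrib]
        exact h1
    _ ≤ (∏ r ∈ Pool.Agent.Lib.GT.pr z, (1 - 1 / (r : ℝ))) * (4 * SS N) := mul_le_mul_of_nonneg_left h2 hV0
    _ ≤ 1 / Real.log z * (4 * SS N) := mul_le_mul_of_nonneg_right hV hS
    _ = 4 * SS N / Real.log z := by ring

/-- the totient of `s ∏ D` -/
private theorem fh_tot (s : ℕ) (d : Finset ℕ) (hd : ∀ r ∈ d, r.Prime) :
    ((Nat.totient (s * ∏ r ∈ d, r) : ℝ))⁻¹ = ((Nat.totient s : ℝ))⁻¹ *
      ∏ r ∈ d, (if r ∣ s then 1 / (r : ℝ) else 1 / ((r : ℝ) - 1)) := by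
  induction d using Finset.induction_on with
  | empty => simp
  | insert a t ha ih =>
    have hap : a.Prime := hd a (mem_insert_self a t)
    have ih' := ih (fun r hr => hd r (mem_insert_of_mem hr))
    rw [Finset.prod_insert ha, Finset.prod_insert ha]
    have e1 : s * (a * ∏ r ∈ t, r) = a * (s * ∏ r ∈ t, r) := by ring
    rw [e1]
    have hat : ¬ a ∣ ∏ r ∈ t, r := by
      intro h
      obtain ⟨r, hr, har⟩ := (hap.prime.dvd_finsetProd_iff _).mp h
      have := (Nat.prime_dvd_prime_iff_eq hap (hd r (mem_insert_of_mem hr))).mp har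
      rw [this] at ha
      exact ha hr
    by_cases has : a ∣ s
    · rw [if_pos has, Nat.totient_mul_of_prime_of_dvd hap (has.mul_right _), Nat.cast_mul, mul_inv, ih']
      ring
    · rw [if_neg has]
      have h2 : ¬ a ∣ s * ∏ r ∈ t, r := by
        intro h
        rcases (hap.dvd_mul).mp h with h3 | h3
        · exact has h3
        · exact hat h3
      rw [Nat.totient_mul_of_prime_of_not_dvd hap h2, Nat.cast_mul, mul_inv, ih', Nat.cast_sub hap.one_le,
        Nat.cast_one]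
      ring

/-- the density sum -/
private theorem fh_dens (K : ℝ) (hK : 0 ≤ K) (k z N : ℕ) (hz : 2 ≤ z) (hN : Even N) (hN1 : 1 ≤ N) (Sm : Finset ℕ)
    (hSm : ∀ s ∈ Sm, 1 ≤ s ∧ s ≤ z ^ k) (up : Finset ℕ → ℝ)
    (hs : ∀ d ⊆ Pool.Agent.Lib.GT.pr z, up d ≠ 0 → ∏ r ∈ d, r ≤ z ^ 12)
    (hd : ∀ g : ℕ → ℝ, (∀ r ∈ Pool.Agent.Lib.GT.pr z, 0 ≤ g r ∧ g r ≤ 2 / r ∧ g r ≤ 2 / 3) →
      ∑ d ∈ (Pool.Agent.Lib.GT.pr z).powerset, up d * ∏ r ∈ d, g r ≤ (1 + K / 2) * ∏ r ∈ Pool.Agent.Lib.GT.pr z, (1 - g r)) :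
    ∑ d ∈ (Icc 1 (z ^ (k + 12))).filter (fun d => Nat.Coprime d N), fhMu Sm (Pool.Agent.Lib.GT.pr z) up d / (Nat.totient d : ℝ) ≤
      (1 + K / 2) * (4 * SS N / Real.log z) * ∑ s ∈ Sm, 1 / (Nat.totient s : ℝ) := by
  have hpr : ∀ r ∈ Pool.Agent.Lib.GT.pr z, r.Prime := fun r hr => by
    unfold Pool.Agent.Lib.GT.pr at hr
    exact (mem_filter.mp hr).2
  have hzr : (2 : ℝ) ≤ z := by exact_mod_cast hz
  have hlz : 0 < Real.log z := Real.log_pos (by linarith)
  have hS : 0 ≤ SS N := by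
    have := Pool.Agent.Lib.G5.q8 N hN
    linarith
  have hfac : 0 ≤ (1 + K / 2) * (4 * SS N / Real.log z) := by positivity
  have h1 := fh_sum Sm (Pool.Agent.Lib.GT.pr z) up ((Icc 1 (z ^ (k + 12))).filter (fun d => Nat.Coprime d N)) (fun d => ((Nat.totient d : ℝ))⁻¹)
  simp only [div_eq_mul_inv] at h1 ⊢
  rw [h1, Finset.mul_sum]
  refine Finset.sum_le_sum fun s hsS => ?_
  obtain ⟨hs1, hs2⟩ := hSm s hsS
  have hphi : 0 ≤ ((Nat.totient s : ℝ))⁻¹ := by positivity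
  have hfac' : 0 ≤ (1 + K * 2⁻¹) * (4 * SS N * (Real.log z)⁻¹) := by positivity
  by_cases hsN : Nat.Coprime s N
  · obtain ⟨g, hg⟩ : ∃ g : ℕ → ℝ, g = fun r => if r ∣ N then (0 : ℝ) else if r ∣ s then 1 / (r : ℝ) else 1 / ((r : ℝ) - 1) := ⟨_, rfl⟩
    have h2 : ∑ d ∈ (Pool.Agent.Lib.GT.pr z).powerset,
        (if s * ∏ r ∈ d, r ∈ (Icc 1 (z ^ (k + 12))).filter (fun d => Nat.Coprime d N) then
          up d * ((Nat.totient (s * ∏ r ∈ d, r) : ℝ))⁻¹ else 0) =
        ((Nat.totient s : ℝ))⁻¹ * ∑ d ∈ (Pool.Agent.Lib.GT.pr z).powerset, up d * ∏ r ∈ d, g r := by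
      rw [Finset.mul_sum]
      refine Finset.sum_congr rfl fun d hdm => ?_
      rw [mem_powerset] at hdm
      have h4 : ∀ r ∈ d, r.Prime := fun r hr => hpr r (hdm hr)
      by_cases hc : ∃ r ∈ d, r ∣ N
      · obtain ⟨r, hr, hrN⟩ := hc
        have h9 : ∏ x ∈ d, g x = 0 := Finset.prod_eq_zero hr (by rw [hg]; exact if_pos hrN)
        rw [if_neg, h9, mul_zero, mul_zero]
        rw [mem_filter]
        rintro ⟨-, h2⟩
        have h3 : r ∣ Nat.gcd (s * ∏ r ∈ d, r) N := Nat.dvd_gcd ((Finset.dvd_prod_of_mem _ hr).mul_left _) hrN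
        rw [h2] at h3
        exact (h4 r hr).one_lt.ne' (Nat.dvd_one.mp h3)
      · push Not at hc
        have h5 : ∏ r ∈ d, g r = ∏ r ∈ d, (if r ∣ s then 1 / (r : ℝ) else 1 / ((r : ℝ) - 1)) := by
          refine Finset.prod_congr rfl fun r hr => ?_
          rw [hg]
          exact if_neg (hc r hr)
        by_cases hu : up d = 0
        · rw [hu, zero_mul, zero_mul, ite_self, mul_zero]
        · rw [if_pos, h5, fh_tot s d h4]
          · ring
          · rw [mem_filter, mem_Icc]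
            refine ⟨⟨Nat.mul_pos hs1 (Finset.prod_pos fun r hr => (h4 r hr).pos), ?_⟩, ?_⟩
            · rw [pow_add]
              exact Nat.mul_le_mul hs2 (hs d hdm hu)
            · exact Nat.Coprime.mul_left hsN (Nat.Coprime.prod_left fun r hr => ((h4 r hr).coprime_iff_not_dvd).mpr (hc r hr))
    rw [h2]
    have hr3 : ∀ r ∈ Pool.Agent.Lib.GT.pr z, ¬ r ∣ N → (3 : ℝ) ≤ r := by
      intro r hr h
      have h2 : 2 ≤ r := (hpr r hr).two_le
      have h3 : 3 ≤ r := by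
        rcases Nat.lt_or_ge r 3 with h4 | h4
        · exfalso
          have : r = 2 := by omega
          rw [this] at h
          exact h hN.two_dvd
        · exact h4
      exact_mod_cast h3
    have h6 := hd g (fun r hr => by
      have h2r : (2 : ℝ) ≤ r := by exact_mod_cast (hpr r hr).two_le
      rw [hg]
      show 0 ≤ (if r ∣ N then (0 : ℝ) else if r ∣ s then 1 / (r : ℝ) else 1 / ((r : ℝ) - 1)) ∧
        (if r ∣ N then (0 : ℝ) else if r ∣ s then 1 / (r : ℝ) else 1 / ((r : ℝ) - 1)) ≤ 2 / r ∧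
        (if r ∣ N then (0 : ℝ) else if r ∣ s then 1 / (r : ℝ) else 1 / ((r : ℝ) - 1)) ≤ 2 / 3
      split_ifs with h h'
      · exact ⟨le_rfl, by positivity, by norm_num⟩
      · refine ⟨by positivity, ?_, ?_⟩
        · rw [div_le_div_iff_of_pos_right (by linarith)]
          norm_num
        · rw [div_le_div_iff₀ (by linarith) (by norm_num)]
          linarith
      · have h4 := hr3 r hr h
        refine ⟨?_, ?_, ?_⟩
        · exact div_nonneg (by norm_num) (by linarith)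
        · rw [div_le_div_iff₀ (by linarith) (by linarith)]
          linarith
        · rw [div_le_div_iff₀ (by linarith) (by norm_num)]
          linarith)
    have h7 : ∏ r ∈ Pool.Agent.Lib.GT.pr z, (1 - g r) ≤ 4 * SS N / Real.log z := by
      refine fh_prod z N hz hN hN1 g (fun r hr h => ?_) (fun r hr h => ?_) (fun r hr => ?_)
      · rw [hg]
        exact if_pos h
      · rw [hg]
        show 1 / (r : ℝ) ≤ (if r ∣ N then (0 : ℝ) else if r ∣ s then 1 / (r : ℝ) else 1 / ((r : ℝ) - 1))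
        rw [if_neg h]
        have h4 := hr3 r hr h
        split_ifs
        · exact le_rfl
        · exact one_div_le_one_div_of_le (by linarith) (by linarith)
      · rw [hg]
        show (if r ∣ N then (0 : ℝ) else if r ∣ s then 1 / (r : ℝ) else 1 / ((r : ℝ) - 1)) ≤ 1
        have h2r : (2 : ℝ) ≤ r := by exact_mod_cast (hpr r hr).two_le
        split_ifs with h h'
        · norm_num
        · rw [div_le_one (by linarith)]
          linarith
        · rw [div_le_one (by linarith)]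
          linarith
    have h8 : ∑ d ∈ (Pool.Agent.Lib.GT.pr z).powerset, up d * ∏ r ∈ d, g r ≤ (1 + K / 2) * (4 * SS N / Real.log z) :=
      h6.trans (mul_le_mul_of_nonneg_left h7 (by linarith))
    have h9 := mul_le_mul_of_nonneg_left h8 hphi
    refine h9.trans (le_of_eq ?_)
    ring
  · rw [Finset.sum_eq_zero]
    · positivity
    · intro d hdm
      rw [if_neg]
      rw [mem_filter]
      rintro ⟨-, h2⟩
      exact hsN (Nat.Coprime.coprime_dvd_left (dvd_mul_right _ _) h2)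

/-- the small error -/
private theorem fh_ev (K : ℕ) : ∃ H0 : ℕ, ∀ H : ℕ, H0 ≤ H →
    (H : ℝ) ^ (1 - 1 / (4 * K + 50) : ℝ) ≤ H / (Real.log H) ^ 3 := by
  have hpos : (0 : ℝ) < 1 / (4 * K + 50) := by positivity
  have h1 := isLittleO_log_rpow_rpow_atTop (3 : ℝ) hpos
  have h2 := (h1.bound (show (0 : ℝ) < 1 by norm_num))
  have h3 := tendsto_natCast_atTop_atTop (R := ℝ) |>.eventually h2
  obtain ⟨H0, h4⟩ := Filter.eventually_atTop.1 h3
  refine ⟨max H0 3, fun H hH => ?_⟩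
  have h5 := h4 H ((le_max_left _ _).trans hH)
  have hH3 : (3 : ℝ) ≤ H := by exact_mod_cast (le_max_right _ _).trans hH
  have hH0 : (0 : ℝ) < H := by linarith
  have hlog : 0 < Real.log H := Real.log_pos (by linarith)
  have e3 : Real.log H ^ (3 : ℝ) = Real.log H ^ 3 := by
    rw [← Real.rpow_natCast]
    norm_num
  rw [e3, Real.norm_of_nonneg (by positivity), Real.norm_of_nonneg (by positivity), one_mul] at h5
  rw [le_div_iff₀ (by positivity)]
  calc (H : ℝ) ^ (1 - 1 / (4 * K + 50) : ℝ) * Real.log H ^ 3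
      ≤ (H : ℝ) ^ (1 - 1 / (4 * K + 50) : ℝ) * (H : ℝ) ^ (1 / (4 * K + 50) : ℝ) :=
        mul_le_mul_of_nonneg_left h5 (by positivity)
    _ = H := by
      rw [← Real.rpow_add hH0]
      norm_num

private theorem fh_two_le (d : ℕ) (hd : 1 ≤ d) : (2 : ℝ) ^ d.primeFactors.card ≤ d := by
  have h1 : 2 ^ d.primeFactors.card ≤ ∏ p ∈ d.primeFactors, p := by
    rw [← Finset.prod_const]
    exact Finset.prod_le_prod' fun p hp => (Nat.prime_of_mem_primeFactors hp).two_le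
  have h2 := h1.trans (Nat.le_of_dvd hd (Nat.prod_primeFactors_dvd d))
  exact_mod_cast h2

theorem fsG (K : ℕ) : ∃ C : ℝ, 0 < C ∧ ∃ H0 : ℕ, ∀ (H z : ℕ) (Sm : Finset ℕ), H0 ≤ H → 2 ≤ z → z ^ (4 * K + 50) ≤ H →
    (∀ s ∈ Sm, 1 ≤ s ∧ s ≤ z ^ K ∧ ∀ p : ℕ, p.Prime → p ∣ s → p ≤ z) →
    ∃ up : ℕ → ℝ, (∀ d, up d ≠ 0 → 1 ≤ d ∧ d ≤ z ^ (K + 12) ∧ ∀ p : ℕ, p.Prime → p ∣ d → p ≤ z) ∧
      (∀ d, |up d| ≤ (2 : ℝ) ^ d.primeFactors.card) ∧ (∀ n : ℕ, 1 ≤ n → 0 ≤ ∑ d ∈ n.divisors, up d) ∧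
      (∀ n : ℕ, 1 ≤ n → smo z n ∈ Sm → 1 ≤ ∑ d ∈ n.divisors, up d) ∧
      ∀ N : ℕ, Even N → H < N → ∑ p ∈ (Icc 1 H).filter Nat.Prime, ∑ d ∈ (N - p).divisors, up d ≤
        C * (SS N * (H / (Real.log H * Real.log z))) * ∑ s ∈ Sm, 1 / (Nat.totient s : ℝ) + C * (H / (Real.log H) ^ 3) := by
  obtain ⟨K', hK', hfl⟩ := Pool.Agent.Lib.TC.flm 2 zero_le_two
  obtain ⟨H0, hfa⟩ := faG
  obtain ⟨H1, hev⟩ := fh_ev K
  refine ⟨8 * (1 + K' / 2) + 3, by linarith, max (max H0 H1) 3, fun H z Sm hH hz hzH hSm => ?_⟩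
  have hH0 : H0 ≤ H := ((le_max_left _ _).trans (le_max_left _ _)).trans hH
  have hH1 : H1 ≤ H := ((le_max_right _ _).trans (le_max_left _ _)).trans hH
  have hH3 : 3 ≤ H := (le_max_right _ _).trans hH
  have hP : ∀ r ∈ Pool.Agent.Lib.GT.pr z, r.Prime ∧ r ≤ z := by
    intro r hr
    unfold Pool.Agent.Lib.GT.pr at hr
    rw [mem_filter, mem_range] at hr
    exact ⟨hr.2, by omega⟩
  obtain ⟨up, lo, hup, hsup, hB, hdens⟩ := hfl 1 le_rfl z hz (Pool.Agent.Lib.GT.pr z) hP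
  have hs : ∀ d ⊆ Pool.Agent.Lib.GT.pr z, up d ≠ 0 → ∏ r ∈ d, r ≤ z ^ 12 := by
    intro d hd hu
    have h := hsup d hd (Or.inl hu)
    rw [mul_one] at h
    exact_mod_cast h
  have hPp : ∀ r ∈ Pool.Agent.Lib.GT.pr z, r.Prime := fun r hr => (hP r hr).1
  have hSm1 : ∀ s ∈ Sm, 1 ≤ s := fun s h => (hSm s h).1
  have hsu : ∀ e, fhMu Sm (Pool.Agent.Lib.GT.pr z) up e ≠ 0 → 1 ≤ e ∧ e ≤ z ^ (K + 12) ∧ ∀ p : ℕ, p.Prime → p ∣ e → p ≤ z := by
    intro e he
    unfold fhMu at he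
    obtain ⟨g, hg, he⟩ := Finset.exists_ne_zero_of_sum_ne_zero he
    obtain ⟨d, hd, he⟩ := Finset.exists_ne_zero_of_sum_ne_zero he
    rw [mem_powerset] at hd
    have h1 : g * ∏ r ∈ d, r = e := by
      by_contra h2
      exact he (if_neg h2)
    rw [if_pos h1] at he
    rw [← h1]
    refine ⟨Nat.mul_pos (hSm1 g hg) (Finset.prod_pos fun r hr => (hPp r (hd hr)).pos), ?_, ?_⟩
    · rw [pow_add]
      exact Nat.mul_le_mul (hSm g hg).2.1 (hs d hd he)
    · intro p hp hpe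
      rcases (hp.dvd_mul).mp hpe with h2 | h2
      · exact (hSm g hg).2.2 p hp h2
      · obtain ⟨r, hr, hpr⟩ := (hp.prime.dvd_finsetProd_iff _).mp h2
        rw [(Nat.prime_dvd_prime_iff_eq hp (hPp r (hd hr))).mp hpr]
        exact (hP r (hd hr)).2
  have hon := fh_two Sm (Pool.Agent.Lib.GT.pr z) hSm1 hPp up (fun d => (hup d).1)
  have hin : ∀ B ⊆ Pool.Agent.Lib.GT.pr z, 0 ≤ ∑ d ∈ B.powerset, up d := by
    intro B hBs
    refine le_trans ?_ (hB _ hBs).2
    split_ifs <;> norm_num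
  have hnn : ∀ n : ℕ, 1 ≤ n → 0 ≤ ∑ d ∈ n.divisors, fhMu Sm (Pool.Agent.Lib.GT.pr z) up d := by
    intro n hn
    rw [fh_div Sm (Pool.Agent.Lib.GT.pr z) hSm1 hPp up n hn]
    exact Finset.sum_nonneg fun g hg => hin _ (filter_subset _ _)
  refine ⟨fhMu Sm (Pool.Agent.Lib.GT.pr z) up, hsu, hon, hnn, ?_, ?_⟩
  · intro n hn hsm
    rw [fh_div Sm (Pool.Agent.Lib.GT.pr z) hSm1 hPp up n hn]
    have hmem : smo z n ∈ Sm.filter (fun g => g ∣ n) :=
      mem_filter.mpr ⟨hsm, (Pool.Agent.Lib.VKT.smo_spec z n hn).1⟩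
    have hemp : ((Pool.Agent.Lib.GT.pr z).filter fun r => r ∣ n / smo z n) = ∅ := by
      rw [Finset.filter_eq_empty_iff]
      intro r hr hdv
      have := fh_smo z n hn (hPp r hr) hdv
      have := (hP r hr).2
      omega
    have h1 : (1 : ℝ) ≤ ∑ d ∈ ((Pool.Agent.Lib.GT.pr z).filter fun r => r ∣ n / smo z n).powerset, up d := by
      have := (hB ((Pool.Agent.Lib.GT.pr z).filter fun r => r ∣ n / smo z n) (filter_subset _ _)).2
      rwa [if_pos hemp] at this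
    refine h1.trans ?_
    exact Finset.single_le_sum (f := fun g => ∑ d ∈ ((Pool.Agent.Lib.GT.pr z).filter fun r => r ∣ n / g).powerset, up d)
      (fun g hg => hin _ (filter_subset _ _)) hmem
  · intro N hN hHN
    have hzr : (2 : ℝ) ≤ z := by exact_mod_cast hz
    have hlz : 0 < Real.log z := Real.log_pos (by linarith)
    have hHr : (3 : ℝ) ≤ H := by exact_mod_cast hH3
    have hH0r : (0 : ℝ) < H := by linarith
    have hlH : 0 < Real.log H := Real.log_pos (by linarith)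
    have hSS := Pool.Agent.Lib.G5.q8 N hN
    obtain ⟨F, hF⟩ : ∃ F : ℕ → ℝ, F = fun p => ∑ d ∈ (N - p).divisors, fhMu Sm (Pool.Agent.Lib.GT.pr z) up d := ⟨_, rfl⟩
    have hF0 : ∀ p ∈ Icc 1 H, 0 ≤ F p := by
      intro p hp
      rw [mem_Icc] at hp
      rw [hF]
      exact hnn _ (by omega)
    have hF1 : ∀ p ∈ Icc 1 H, F p ≤ (z : ℝ) ^ (2 * K + 24) := by
      intro p hp
      rw [hF]
      have h1 : ∑ d ∈ (N - p).divisors, fhMu Sm (Pool.Agent.Lib.GT.pr z) up d ≤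
          ∑ d ∈ (N - p).divisors, if d ∈ Icc 1 (z ^ (K + 12)) then (z : ℝ) ^ (K + 12) else 0 := by
        refine Finset.sum_le_sum fun d _ => ?_
        split_ifs with h
        · rw [mem_Icc] at h
          have h2 : (d : ℝ) ≤ (z : ℝ) ^ (K + 12) := by exact_mod_cast h.2
          exact (le_abs_self _).trans ((hon d).trans ((fh_two_le d h.1).trans h2))
        · by_contra h2
          push Not at h2
          have := hsu d h2.ne'
          exact h (mem_Icc.mpr ⟨this.1, this.2.1⟩)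
      refine h1.trans ?_
      rw [← Finset.sum_filter, Finset.sum_const, nsmul_eq_mul]
      have h3 : ((N - p).divisors.filter fun d => d ∈ Icc 1 (z ^ (K + 12))).card ≤ (Icc 1 (z ^ (K + 12))).card :=
        Finset.card_le_card fun d hd => (mem_filter.mp hd).2
      rw [Nat.card_Icc, Nat.add_sub_cancel] at h3
      have h4 : ((((N - p).divisors.filter fun d => d ∈ Icc 1 (z ^ (K + 12))).card : ℕ) : ℝ) ≤ (z : ℝ) ^ (K + 12) := by
        exact_mod_cast h3
      calc _ ≤ (z : ℝ) ^ (K + 12) * (z : ℝ) ^ (K + 12) := mul_le_mul_of_nonneg_right h4 (by positivity)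
        _ = (z : ℝ) ^ (2 * K + 24) := by
          rw [← pow_add]
          congr 1
          ring
    have hmain : ∑ p ∈ Icc 1 H, Pool.Agent.Lib.G3.lp p * F p ≤
        H * ((1 + K' / 2) * (4 * SS N / Real.log z) * ∑ s ∈ Sm, 1 / (Nat.totient s : ℝ)) + H / Real.log H ^ 2 := by
      have h1 := hfa H (z ^ (K + 12)) N hH0 (by
        calc (z ^ (K + 12)) ^ 4 = z ^ (4 * K + 48) := by
              rw [← pow_mul]
              congr 1
              ring
          _ ≤ z ^ (4 * K + 50) := Nat.pow_le_pow_right (by omega) (by omega)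
          _ ≤ H := hzH) hHN (fhMu Sm (Pool.Agent.Lib.GT.pr z) up) (fun d hd => ⟨(hsu d hd).1, (hsu d hd).2.1⟩) hon
      have h2 := fh_dens K' (by linarith) K z N hz hN (by omega) Sm (fun s h => ⟨(hSm s h).1, (hSm s h).2.1⟩) up hs (fun g hg => by
        have h3 := (hdens g hg).1
        have h4 := (abs_le.mp h3).2
        nlinarith)
      have h5 := (abs_le.mp h1).2
      have h6 := mul_le_mul_of_nonneg_left h2 hH0r.le
      rw [hF]
      linarith
    have hs34 : ((z : ℝ) ^ (2 * K + 24)) * ((H : ℝ) ^ (1 / 2 : ℝ)) ≤ (H : ℝ) ^ (1 - 1 / (4 * K + 50) : ℝ) := by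
      have hk0 : (0 : ℝ) < 4 * K + 50 := by positivity
      have h1 : (z : ℝ) ^ (2 * K + 24) ≤ (H : ℝ) ^ (1 / 2 - 1 / (4 * K + 50) : ℝ) := by
        have h2 : (z : ℝ) ^ (4 * K + 50) ≤ H := by exact_mod_cast hzH
        have h3 : (z : ℝ) ^ (2 * K + 24) = ((z : ℝ) ^ (4 * K + 50)) ^ (1 / 2 - 1 / (4 * K + 50) : ℝ) := by
          rw [← Real.rpow_natCast (z : ℝ) (4 * K + 50), ← Real.rpow_mul (by linarith), ← Real.rpow_natCast]
          congr 1
          push_cast
          field_simp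
          ring
        rw [h3]
        refine Real.rpow_le_rpow (by positivity) h2 ?_
        rw [sub_nonneg]
        exact one_div_le_one_div_of_le (by norm_num) (by linarith [show (0 : ℝ) ≤ K from Nat.cast_nonneg K])
      calc ((z : ℝ) ^ (2 * K + 24)) * ((H : ℝ) ^ (1 / 2 : ℝ)) ≤
            (H : ℝ) ^ (1 / 2 - 1 / (4 * K + 50) : ℝ) * ((H : ℝ) ^ (1 / 2 : ℝ)) :=
            mul_le_mul_of_nonneg_right h1 (by positivity)
        _ = (H : ℝ) ^ (1 - 1 / (4 * K + 50) : ℝ) := by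
          rw [← Real.rpow_add hH0r]
          congr 1
          ring
    have hsmall : ∑ p ∈ ((Icc 1 H).filter Nat.Prime).filter (fun p => p * p ≤ H), F p ≤ H / (Real.log H) ^ 3 := by
      have h1 : ∑ p ∈ ((Icc 1 H).filter Nat.Prime).filter (fun p => p * p ≤ H), F p ≤
          ∑ p ∈ ((Icc 1 H).filter Nat.Prime).filter (fun p => p * p ≤ H), (z : ℝ) ^ (2 * K + 24) :=
        Finset.sum_le_sum fun p hp => hF1 p (mem_filter.mp (mem_filter.mp hp).1).1
      rw [Finset.sum_const, nsmul_eq_mul] at h1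
      have h2 : (((Icc 1 H).filter Nat.Prime).filter (fun p => p * p ≤ H)).card ≤ Nat.sqrt H := by
        calc (((Icc 1 H).filter Nat.Prime).filter (fun p => p * p ≤ H)).card ≤ (Icc 1 (Nat.sqrt H)).card := by
              refine Finset.card_le_card fun p hp => ?_
              rw [mem_filter, mem_filter, mem_Icc] at hp
              exact mem_Icc.mpr ⟨hp.1.1.1, Nat.le_sqrt.mpr hp.2⟩
          _ = Nat.sqrt H := by rw [Nat.card_Icc, Nat.add_sub_cancel]
      have h3 : ((Nat.sqrt H : ℕ) : ℝ) ≤ (H : ℝ) ^ (1 / 2 : ℝ) := by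
        rw [← Real.sqrt_eq_rpow]
        refine Real.le_sqrt_of_sq_le ?_
        have := Nat.sqrt_le' H
        exact_mod_cast this
      have h4 : ((((Icc 1 H).filter Nat.Prime).filter (fun p => p * p ≤ H)).card : ℝ) ≤ (H : ℝ) ^ (1 / 2 : ℝ) :=
        le_trans (by exact_mod_cast h2) h3
      calc _ ≤ _ := h1
        _ ≤ (H : ℝ) ^ (1 / 2 : ℝ) * (z : ℝ) ^ (2 * K + 24) := mul_le_mul_of_nonneg_right h4 (by positivity)
        _ = (z : ℝ) ^ (2 * K + 24) * (H : ℝ) ^ (1 / 2 : ℝ) := mul_comm _ _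
        _ ≤ _ := hs34
        _ ≤ _ := hev H hH1
    have hlarge : ∑ p ∈ ((Icc 1 H).filter Nat.Prime).filter (fun p => ¬ p * p ≤ H), F p ≤
        2 / Real.log H * ∑ p ∈ Icc 1 H, Pool.Agent.Lib.G3.lp p * F p := by
      rw [Finset.mul_sum]
      have h1 : ∀ p ∈ ((Icc 1 H).filter Nat.Prime).filter (fun p => ¬ p * p ≤ H), F p ≤ 2 / Real.log H * (Pool.Agent.Lib.G3.lp p * F p) := by
        intro p hp
        rw [mem_filter, mem_filter] at hp
        obtain ⟨⟨hp1, hpp⟩, hp2⟩ := hp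
        have h0 := hF0 p hp1
        have h3 : (H : ℝ) ≤ (p : ℝ) ^ 2 := by
          rw [sq]
          exact_mod_cast (not_le.mp hp2).le
        have h4 : Real.log H ≤ 2 * Real.log p := by
          have := Real.log_le_log hH0r h3
          rwa [Real.log_pow, Nat.cast_two] at this
        have h5 : 1 ≤ 2 / Real.log H * Real.log p := by
          rw [div_mul_eq_mul_div, le_div_iff₀ hlH]
          linarith
        unfold Pool.Agent.Lib.G3.lp
        rw [if_pos hpp, ← mul_assoc]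
        nlinarith
      refine (Finset.sum_le_sum h1).trans ?_
      refine Finset.sum_le_sum_of_subset_of_nonneg ?_ ?_
      · intro p hp
        exact (mem_filter.mp (mem_filter.mp hp).1).1
      · intro p hp _
        have h0 := hF0 p hp
        have h3 : 0 ≤ Pool.Agent.Lib.G3.lp p := by
          unfold Pool.Agent.Lib.G3.lp
          split_ifs
          · exact Real.log_natCast_nonneg p
          · exact le_rfl
        positivity
    have htot : ∑ p ∈ (Icc 1 H).filter Nat.Prime, F p ≤ H / (Real.log H) ^ 3 +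
        2 / Real.log H * (H * ((1 + K' / 2) * (4 * SS N / Real.log z) * ∑ s ∈ Sm, 1 / (Nat.totient s : ℝ)) + H / Real.log H ^ 2) := by
      rw [← Finset.sum_filter_add_sum_filter_not ((Icc 1 H).filter Nat.Prime) (fun p => p * p ≤ H)]
      have := mul_le_mul_of_nonneg_left hmain (show 0 ≤ 2 / Real.log H by positivity)
      linarith
    rw [hF] at htot
    refine htot.trans ?_
    obtain ⟨E, hE⟩ : ∃ E : ℝ, E = H / (Real.log H * Real.log z) := ⟨_, rfl⟩
    obtain ⟨Sg, hSg⟩ : ∃ Sg : ℝ, Sg = ∑ s ∈ Sm, 1 / (Nat.totient s : ℝ) := ⟨_, rfl⟩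
    obtain ⟨G, hG⟩ : ∃ G : ℝ, G = H / Real.log H ^ 3 := ⟨_, rfl⟩
    have hE0 : 0 ≤ E := by rw [hE]; positivity
    have hG0 : 0 ≤ G := by rw [hG]; positivity
    have hSg0 : 0 ≤ Sg := by rw [hSg]; exact Finset.sum_nonneg fun s _ => by positivity
    have e2 : 2 / Real.log H * (H * ((1 + K' / 2) * (4 * SS N / Real.log z) * Sg)) = 8 * (1 + K' / 2) * (SS N * E) * Sg := by
      rw [hE]
      field_simp
      ring
    have e3 : 2 / Real.log H * (H / Real.log H ^ 2) = 2 * G := by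
      rw [hG]
      field_simp
    rw [← hE, ← hSg, ← hG, mul_add, e2, e3]
    have e4 : 0 ≤ SS N * E * Sg := by
      have : 0 ≤ SS N := by linarith
      positivity
    have e5 : 0 ≤ (1 + K' / 2) * G := mul_nonneg (by linarith) hG0
    nlinarith

end Pool.Agent.Lib.GU
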