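import Pool.Agent.Lib.GU.Fa
import Pool.Agent.Lib.G5.Q8
import Pool.Agent.Lib.G6.Ph
import Pool.Agent.Lib.MP_7b7e48_nt.TC.FLM
import Pool.Agent.Lib.MP_7b7e48_nt.GT.RoughCount

/-!
# GU, row Fs: a small upper bound sieve for `N - p`, `p ≤ H` prime, pointwise in `N`, by Bombieri-Vinogradov

PROOF IN WORDS. `TC.flm 2` with `b = 1`, `z`, `P` = the primes `≤ z`: `up : Finset ℕ → ℝ`, `|up d| ≤ 1`, `∏ d ≤ z^12` if `up d ≠ 0` (`d ⊆ P`). Let `ups d = up d.primeFactors` for squarefree `d ≥ 1` with all prime factors `≤ z`, `0` otherwise. For `n ≥ 1`: `∑_{d ∣ n} ups d = ∑_{D ⊆ B} up D`, `B = {p ∈ P : p ∣ n}`: `≥ 0`, and `≥ 1` if `B = ∅`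
(third clause of `flm`). Pointwise bound, `N` even, `N > H`: `F p = ∑_{d ∣ N - p} ups d ≥ 0`. (a) primes `p ≤ √H`: `F p ≤ z^12`, at most `√H z^12 ≤ H^(1/2 + 12/50) ≤ H^(3/4)`. (b) the others: `1 ≤ (2/log H) log p`, so they contribute at most `(2/log H) ∑_{p ≤ H} lp p F p`, and by `faU` (row Fa, `D = z^12`, `D^4 ≤ z^50 ≤ H`)
`∑_{p ≤ H} lp p F p ≤ H ∑_{(d, N) = 1} ups d/φ(d) + H/(log H)^2`, `∑_{(d, N) = 1} ups d/φ(d) = ∑_{D ⊆ P} up D ∏_{r ∈ D} g r` with `g r = 1/(r-1)` if `r ∤ N`, `0` otherwise (`g 2 = 0`, `N` is even; `0 ≤ g r ≤ 2/r`, `g r ≤ 1/2`; terms with `∏ D > z^12` vanish). Fourth clause of `flm`: `≤ (1 + K/2) ∏_{r ∈ P} (1 - g r)`, and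
`∏_{r ∈ P} (1 - g r) ≤ ∏_{r ∈ P, r ∤ N} (1 - 1/r) = GT.V z ∏_{r ∈ P, r ∣ N} (1 - 1/r)^(-1) ≤ (1/log z) N/φ(N) ≤ 4 SS N/log z` (`GT.V_le`, `Sieve.div_totient_eq_prod_inv`, `G6.ph`). The errors `H^(3/4)` and `(2/log H) H/(log H)^2` are `≤ C SS N H/(log H log z)` as `SS N ≥ 1/2` (`G5.q8`), `log z ≤ log H`, `H` large.
-/

set_option autoImplicit false

open Finset

namespace Pool.Agent.Lib.GU

open Pool.Agent.Lib.G3 (SS)

private noncomputable def fsMu (P : Finset ℕ) (up : Finset ℕ → ℝ) (e : ℕ) : ℝ :=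
  ∑ d ∈ P.powerset, if ∏ r ∈ d, r = e then up d else 0

private theorem fs_sum (P : Finset ℕ) (up : Finset ℕ → ℝ) (D : Finset ℕ) (f : ℕ → ℝ) :
    ∑ e ∈ D, fsMu P up e * f e =
      ∑ d ∈ P.powerset, if ∏ r ∈ d, r ∈ D then up d * f (∏ r ∈ d, r) else 0 := by
  unfold fsMu
  simp only [Finset.sum_mul]
  rw [Finset.sum_comm]
  refine Finset.sum_congr rfl fun d hd => ?_
  simp only [ite_mul, zero_mul]
  rw [Finset.sum_ite_eq]

private theorem fs_div (P : Finset ℕ) (hP : ∀ r ∈ P, r.Prime) (up : Finset ℕ → ℝ) (n : ℕ)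
    (hn : 1 ≤ n) : ∑ e ∈ n.divisors, fsMu P up e = ∑ d ∈ (P.filter fun r => r ∣ n).powerset, up d := by
  have h := fs_sum P up n.divisors (fun _ => 1)
  simp only [mul_one] at h
  rw [h, ← Finset.sum_filter]
  refine Finset.sum_congr ?_ fun _ _ => rfl
  ext d
  simp only [mem_filter, mem_powerset, Nat.mem_divisors]
  constructor
  · rintro ⟨hd, hdv, -⟩
    intro r hr
    exact mem_filter.mpr ⟨hd hr, (Finset.dvd_prod_of_mem _ hr).trans hdv⟩
  · intro hd
    have h1 : d ⊆ P := fun r hr => (mem_filter.mp (hd hr)).1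
    exact ⟨h1, Finset.prod_primes_dvd n (fun r hr => (hP r (h1 hr)).prime)
        fun r hr => (mem_filter.mp (hd hr)).2, by omega⟩

private theorem fs_one (P : Finset ℕ) (hP : ∀ r ∈ P, r.Prime) (up : Finset ℕ → ℝ) (hup : ∀ d, |up d| ≤ 1) (e : ℕ) :
    |fsMu P up e| ≤ 1 := by
  by_cases hge : ∃ d ∈ P.powerset, ∏ r ∈ d, r = e
  · obtain ⟨d0, hd0, h0⟩ := hge
    unfold fsMu
    rw [Finset.sum_eq_single_of_mem d0 hd0, if_pos h0]
    · exact hup d0
    · intro d hd hne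
      rw [if_neg]
      intro h3
      apply hne
      have h4 : ∏ r ∈ d, r = ∏ r ∈ d0, r := h3.trans h0.symm
      rw [← Nat.primeFactors_prod (fun p hp => hP p (mem_powerset.mp hd hp)), h4,
        Nat.primeFactors_prod (fun p hp => hP p (mem_powerset.mp hd0 hp))]
  · unfold fsMu
    rw [Finset.sum_eq_zero]
    · simp
    · intro d hd
      exact if_neg fun h => hge ⟨d, hd, h⟩

private theorem fs_supp (P : Finset ℕ) (z : ℕ) (hP : ∀ r ∈ P, r.Prime ∧ r ≤ z) (up : Finset ℕ → ℝ)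
    (hs : ∀ d ⊆ P, up d ≠ 0 → ∏ r ∈ d, r ≤ z ^ 12) (e : ℕ) (he : fsMu P up e ≠ 0) :
    1 ≤ e ∧ e ≤ z ^ 12 ∧ ∀ p : ℕ, p.Prime → p ∣ e → p ≤ z := by
  unfold fsMu at he
  obtain ⟨d, hd, h⟩ := Finset.exists_ne_zero_of_sum_ne_zero he
  rw [mem_powerset] at hd
  have h1 : ∏ r ∈ d, r = e := by
    by_contra h2
    exact h (if_neg h2)
  rw [if_pos h1] at h
  refine ⟨?_, ?_, ?_⟩
  · rw [← h1]
    exact Finset.prod_pos fun r hr => (hP r (hd hr)).1.pos
  · rw [← h1]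
    exact hs d hd h
  · intro p hp hpe
    rw [← h1] at hpe
    obtain ⟨r, hr, hpr⟩ := (hp.prime.dvd_finsetProd_iff _).mp hpe
    rw [(Nat.prime_dvd_prime_iff_eq hp (hP r (hd hr)).1).mp hpr]
    exact (hP r (hd hr)).2

/-- `∏_{r ≤ z} (1 - g r)` against the singular series -/
private theorem fs_prod (z N : ℕ) (hz : 2 ≤ z) (hN : Even N) (hN1 : 1 ≤ N) :
    ∏ r ∈ Pool.Agent.Lib.GT.pr z, (1 - (if r ∣ N then (0 : ℝ) else 1 / ((r : ℝ) - 1))) ≤ 4 * SS N / Real.log z := by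
  have hpr : ∀ r ∈ Pool.Agent.Lib.GT.pr z, r.Prime := fun r hr => by
    unfold Pool.Agent.Lib.GT.pr at hr
    exact (mem_filter.mp hr).2
  have hzr : (2 : ℝ) ≤ z := by exact_mod_cast hz
  have hlz : 0 < Real.log z := Real.log_pos (by linarith)
  have h1 : ∏ r ∈ Pool.Agent.Lib.GT.pr z, (1 - (if r ∣ N then (0 : ℝ) else 1 / ((r : ℝ) - 1))) ≤
      ∏ r ∈ Pool.Agent.Lib.GT.pr z, ((1 - 1 / (r : ℝ)) * (if r ∣ N then (1 - (1 : ℝ) / r)⁻¹ else 1)) := by
    refine Finset.prod_le_prod (fun r hr => ?_) (fun r hr => ?_)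
    · have h2 : 2 ≤ r := (hpr r hr).two_le
      split_ifs with h
      · norm_num
      · have h3 : 3 ≤ r := by
          rcases Nat.lt_or_ge r 3 with h4 | h4
          · exfalso
            have : r = 2 := by omega
            rw [this] at h
            exact h hN.two_dvd
          · exact h4
        have h4 : (3 : ℝ) ≤ r := by exact_mod_cast h3
        rw [sub_nonneg, div_le_one (by linarith)]
        linarith
    · have h2 : (2 : ℝ) ≤ r := by exact_mod_cast (hpr r hr).two_le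
      split_ifs with h
      · have h3 : (1 : ℝ) - 1 / r ≠ 0 := by
          have : (1 : ℝ) / r ≤ 1 / 2 := one_div_le_one_div_of_le (by norm_num) h2
          intro h5
          linarith
        rw [mul_inv_cancel₀ h3, sub_zero]
      · rw [mul_one]
        have : 1 / (r : ℝ) ≤ 1 / ((r : ℝ) - 1) := one_div_le_one_div_of_le (by linarith) (by linarith)
        linarith
  have h2 : ∏ r ∈ Pool.Agent.Lib.GT.pr z, (if r ∣ N then (1 - (1 : ℝ) / r)⁻¹ else 1) ≤ 4 * SS N := by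
    refine le_trans ?_ (Pool.Agent.Lib.G6.ph hN hN1)
    rw [Pool.Agent.Lib.Sieve.div_totient_eq_prod_inv N (by omega), ← Finset.prod_filter]
    have hsub : (Pool.Agent.Lib.GT.pr z).filter (fun r => r ∣ N) ⊆ N.primeFactors := by
      intro r hr
      rw [mem_filter] at hr
      exact Nat.mem_primeFactors.mpr ⟨hpr r hr.1, hr.2, by omega⟩
    have hone : ∀ r ∈ N.primeFactors, (1 : ℝ) ≤ (1 - (1 : ℝ) / r)⁻¹ := by
      intro r hr
      have h3 : (2 : ℝ) ≤ r := by exact_mod_cast (Nat.prime_of_mem_primeFactors hr).two_le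
      have h4 : (1 : ℝ) / r ≤ 1 / 2 := one_div_le_one_div_of_le (by norm_num) h3
      have h5 : (0 : ℝ) < 1 / r := by positivity
      exact (one_le_inv₀ (by linarith)).mpr (by linarith)
    rw [← Finset.prod_sdiff hsub]
    have ha : (1 : ℝ) ≤ ∏ r ∈ N.primeFactors \ (Pool.Agent.Lib.GT.pr z).filter (fun r => r ∣ N), (1 - (1 : ℝ) / r)⁻¹ := by
      refine Finset.prod_induction _ (fun x : ℝ => 1 ≤ x) (fun a b ha hb => by nlinarith) le_rfl fun r hr => ?_
      exact hone r (mem_sdiff.mp hr).1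
    have hb : (0 : ℝ) ≤ ∏ r ∈ (Pool.Agent.Lib.GT.pr z).filter (fun r => r ∣ N), (1 - (1 : ℝ) / r)⁻¹ :=
      Finset.prod_nonneg fun r hr => zero_le_one.trans (hone r (hsub hr))
    nlinarith
  have hV : ∏ r ∈ Pool.Agent.Lib.GT.pr z, (1 - 1 / (r : ℝ)) ≤ 1 / Real.log z := Pool.Agent.Lib.GT.V_le z hz
  have hV0 : 0 ≤ ∏ r ∈ Pool.Agent.Lib.GT.pr z, (1 - 1 / (r : ℝ)) := (Pool.Agent.Lib.GT.V_pos z).le
  have hS : 0 ≤ 4 * SS N := by
    have := Pool.Agent.Lib.G5.q8 N hN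
    linarith
  calc ∏ r ∈ Pool.Agent.Lib.GT.pr z, (1 - (if r ∣ N then (0 : ℝ) else 1 / ((r : ℝ) - 1)))
      ≤ (∏ r ∈ Pool.Agent.Lib.GT.pr z, (1 - 1 / (r : ℝ))) * ∏ r ∈ Pool.Agent.Lib.GT.pr z, (if r ∣ N then (1 - (1 : ℝ) / r)⁻¹ else 1) := by
        rw [← Finset.prod_mul_distrib]
        exact h1
    _ ≤ (∏ r ∈ Pool.Agent.Lib.GT.pr z, (1 - 1 / (r : ℝ))) * (4 * SS N) := mul_le_mul_of_nonneg_left h2 hV0
    _ ≤ 1 / Real.log z * (4 * SS N) := mul_le_mul_of_nonneg_right hV hS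
    _ = 4 * SS N / Real.log z := by ring

/-- the density sum -/
private theorem fs_dens (K : ℝ) (hK : 0 ≤ K) (z N : ℕ) (hz : 2 ≤ z) (hN : Even N) (hN1 : 1 ≤ N) (up : Finset ℕ → ℝ)
    (hs : ∀ d ⊆ Pool.Agent.Lib.GT.pr z, up d ≠ 0 → ∏ r ∈ d, r ≤ z ^ 12)
    (hd : ∀ g : ℕ → ℝ, (∀ r ∈ Pool.Agent.Lib.GT.pr z, 0 ≤ g r ∧ g r ≤ 2 / r ∧ g r ≤ 2 / 3) →
      ∑ d ∈ (Pool.Agent.Lib.GT.pr z).powerset, up d * ∏ r ∈ d, g r ≤ (1 + K / 2) * ∏ r ∈ Pool.Agent.Lib.GT.pr z, (1 - g r)) :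
    ∑ d ∈ (Icc 1 (z ^ 12)).filter (fun d => Nat.Coprime d N), fsMu (Pool.Agent.Lib.GT.pr z) up d / (Nat.totient d : ℝ) ≤
      (1 + K / 2) * (4 * SS N / Real.log z) := by
  have hpr : ∀ r ∈ Pool.Agent.Lib.GT.pr z, r.Prime := fun r hr => by
    unfold Pool.Agent.Lib.GT.pr at hr
    exact (mem_filter.mp hr).2
  have h0 : ∑ d ∈ (Icc 1 (z ^ 12)).filter (fun d => Nat.Coprime d N), fsMu (Pool.Agent.Lib.GT.pr z) up d / (Nat.totient d : ℝ) =
      ∑ d ∈ (Pool.Agent.Lib.GT.pr z).powerset, up d * ∏ r ∈ d, (if r ∣ N then (0 : ℝ) else 1 / ((r : ℝ) - 1)) := by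
    have h1 := fs_sum (Pool.Agent.Lib.GT.pr z) up ((Icc 1 (z ^ 12)).filter (fun d => Nat.Coprime d N)) (fun d => ((Nat.totient d : ℝ))⁻¹)
    simp only [div_eq_mul_inv] at h1 ⊢
    rw [h1]
    refine Finset.sum_congr rfl fun d hd => ?_
    rw [mem_powerset] at hd
    by_cases hc : ∃ r ∈ d, r ∣ N
    · obtain ⟨r, hr, hrN⟩ := hc
      have h9 : ∏ x ∈ d, (if x ∣ N then (0 : ℝ) else 1 * ((x : ℝ) - 1)⁻¹) = 0 := Finset.prod_eq_zero hr (if_pos hrN)
      rw [if_neg, h9, mul_zero]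
      rw [mem_filter]
      rintro ⟨-, h2⟩
      have h3 : r ∣ Nat.gcd (∏ r ∈ d, r) N := Nat.dvd_gcd (Finset.dvd_prod_of_mem _ hr) hrN
      rw [h2] at h3
      exact (hpr r (hd hr)).one_lt.ne' (Nat.dvd_one.mp h3)
    · push Not at hc
      have h4 : ∀ r ∈ d, r.Prime := fun r hr => hpr r (hd hr)
      have h5 : ((Nat.totient (∏ r ∈ d, r) : ℝ))⁻¹ = ∏ r ∈ d, (if r ∣ N then (0 : ℝ) else 1 * ((r : ℝ) - 1)⁻¹) := by
        have h6 : Nat.totient (∏ r ∈ d, r) = ∏ r ∈ d, (r - 1) := by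
          clear h1 hc
          induction d using Finset.induction_on with
          | empty => simp
          | insert a s ha ih =>
            rw [Finset.prod_insert ha, Finset.prod_insert ha, Nat.totient_mul, Nat.totient_prime (h4 a (mem_insert_self a s)),
              ih (fun r hr => hd (mem_insert_of_mem hr)) (fun r hr => h4 r (mem_insert_of_mem hr))]
            refine Nat.Coprime.prod_right fun r hr => ?_
            refine (Nat.coprime_primes (h4 a (mem_insert_self a s)) (h4 r (mem_insert_of_mem hr))).mpr ?_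
            rintro rfl
            exact ha hr
        rw [h6, Nat.cast_prod, ← Finset.prod_inv_distrib]
        refine Finset.prod_congr rfl fun r hr => ?_
        rw [if_neg (hc r hr), one_mul, Nat.cast_sub (h4 r hr).one_le, Nat.cast_one]
      by_cases hu : up d = 0
      · rw [hu, zero_mul, zero_mul, ite_self]
      · rw [if_pos, h5]
        rw [mem_filter, mem_Icc]
        refine ⟨⟨Finset.prod_pos fun r hr => (h4 r hr).pos, hs d hd hu⟩, ?_⟩
        exact Nat.Coprime.prod_left fun r hr => ((h4 r hr).coprime_iff_not_dvd).mpr (hc r hr)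
  rw [h0]
  have h6 := hd (fun r => if r ∣ N then (0 : ℝ) else 1 / ((r : ℝ) - 1)) (fun r hr => by
    have h2 : 2 ≤ r := (hpr r hr).two_le
    have h2r : (2 : ℝ) ≤ r := by exact_mod_cast h2
    show 0 ≤ (if r ∣ N then (0 : ℝ) else 1 / ((r : ℝ) - 1)) ∧ (if r ∣ N then (0 : ℝ) else 1 / ((r : ℝ) - 1)) ≤ 2 / r ∧
      (if r ∣ N then (0 : ℝ) else 1 / ((r : ℝ) - 1)) ≤ 2 / 3
    split_ifs with h
    · exact ⟨le_rfl, by positivity, by norm_num⟩
    · have h3 : 3 ≤ r := by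
        rcases Nat.lt_or_ge r 3 with h4 | h4
        · exfalso
          have : r = 2 := by omega
          rw [this] at h
          exact h hN.two_dvd
        · exact h4
      have h4 : (3 : ℝ) ≤ r := by exact_mod_cast h3
      refine ⟨?_, ?_, ?_⟩
      · exact div_nonneg (by norm_num) (by linarith)
      · rw [div_le_div_iff₀ (by linarith) (by linarith)]
        linarith
      · rw [div_le_div_iff₀ (by linarith) (by norm_num)]
        linarith)
  refine h6.trans ?_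
  exact mul_le_mul_of_nonneg_left (fs_prod z N hz hN hN1) (by linarith)

private theorem fs_log (x : ℝ) (hx : 1 ≤ x) : x ^ (3 / 4 : ℝ) * Real.log x ^ 2 ≤ 64 * x := by
  have hx0 : 0 < x := by linarith
  have h1 := Real.log_le_rpow_div hx0.le (show (0 : ℝ) < 1 / 8 by norm_num)
  have h2 : Real.log x ≤ 8 * x ^ (1 / 8 : ℝ) := by
    refine h1.trans (le_of_eq ?_)
    ring
  have h0 := Real.log_nonneg hx
  have h3 : Real.log x ^ 2 ≤ 64 * x ^ (1 / 4 : ℝ) := by
    calc Real.log x ^ 2 ≤ (8 * x ^ (1 / 8 : ℝ)) ^ 2 := pow_le_pow_left₀ h0 h2 2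
      _ = 64 * (x ^ (1 / 8 : ℝ) * x ^ (1 / 8 : ℝ)) := by ring
      _ = 64 * x ^ (1 / 4 : ℝ) := by
        rw [← Real.rpow_add hx0]
        norm_num
  calc x ^ (3 / 4 : ℝ) * Real.log x ^ 2 ≤ x ^ (3 / 4 : ℝ) * (64 * x ^ (1 / 4 : ℝ)) :=
        mul_le_mul_of_nonneg_left h3 (by positivity)
    _ = 64 * (x ^ (3 / 4 : ℝ) * x ^ (1 / 4 : ℝ)) := by ring
    _ = 64 * x := by
      rw [← Real.rpow_add hx0]
      norm_num

theorem fsU : ∃ C : ℝ, 0 < C ∧ ∃ H0 : ℕ, ∀ H z : ℕ, H0 ≤ H → 2 ≤ z → z ^ 50 ≤ H →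
    ∃ up : ℕ → ℝ, (∀ d, up d ≠ 0 → 1 ≤ d ∧ d ≤ z ^ 12 ∧ ∀ p : ℕ, p.Prime → p ∣ d → p ≤ z) ∧ (∀ d, |up d| ≤ 1) ∧
      (∀ n : ℕ, 1 ≤ n → 0 ≤ ∑ d ∈ n.divisors, up d) ∧
      (∀ n : ℕ, 1 ≤ n → (∀ p : ℕ, p.Prime → p ∣ n → z < p) → 1 ≤ ∑ d ∈ n.divisors, up d) ∧
      ∀ N : ℕ, Even N → H < N → ∑ p ∈ (Icc 1 H).filter Nat.Prime, ∑ d ∈ (N - p).divisors, up d ≤
        C * (SS N * (H / (Real.log H * Real.log z))) := by
  obtain ⟨K, hK, hfl⟩ := Pool.Agent.Lib.TC.flm 2 zero_le_two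
  obtain ⟨H0, hfa⟩ := faU
  refine ⟨256 + 8 * (1 + K / 2), by linarith, max H0 3, fun H z hH hz hzH => ?_⟩
  have hH0 : H0 ≤ H := (le_max_left _ _).trans hH
  have hH3 : 3 ≤ H := (le_max_right _ _).trans hH
  have hP : ∀ r ∈ Pool.Agent.Lib.GT.pr z, r.Prime ∧ r ≤ z := by
    intro r hr
    unfold Pool.Agent.Lib.GT.pr at hr
    rw [mem_filter, mem_range] at hr
    exact ⟨hr.2, by omega⟩
  obtain ⟨up, lo, hup, hsup, hB, hdens⟩ := hfl 1 le_rfl z hz (Pool.Agent.Lib.GT.pr z) hP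
  have hs : ∀ d ⊆ Pool.Agent.Lib.GT.pr z, up d ≠ 0 → ∏ r ∈ d, r ≤ z ^ 12 := by
    intro d hd hu
    have h := hsup d hd (Or.inl hu)
    rw [mul_one] at h
    exact_mod_cast h
  have hPp : ∀ r ∈ Pool.Agent.Lib.GT.pr z, r.Prime := fun r hr => (hP r hr).1
  have hsu := fs_supp (Pool.Agent.Lib.GT.pr z) z hP up hs
  have hon := fs_one (Pool.Agent.Lib.GT.pr z) hPp up (fun d => (hup d).1)
  have hnn : ∀ n : ℕ, 1 ≤ n → 0 ≤ ∑ d ∈ n.divisors, fsMu (Pool.Agent.Lib.GT.pr z) up d := by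
    intro n hn
    rw [fs_div (Pool.Agent.Lib.GT.pr z) hPp up n hn]
    refine le_trans ?_ (hB _ (filter_subset _ _)).2
    split_ifs <;> norm_num
  refine ⟨fsMu (Pool.Agent.Lib.GT.pr z) up, hsu, hon, hnn, ?_, ?_⟩
  · intro n hn hr
    rw [fs_div (Pool.Agent.Lib.GT.pr z) hPp up n hn]
    have h1 := (hB ((Pool.Agent.Lib.GT.pr z).filter fun r => r ∣ n) (filter_subset _ _)).2
    rw [if_pos] at h1
    · exact h1
    · rw [Finset.filter_eq_empty_iff]
      intro r hr1 hr2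
      have := hr r (hP r hr1).1 hr2
      have := (hP r hr1).2
      omega
  · intro N hN hHN
    have hzr : (2 : ℝ) ≤ z := by exact_mod_cast hz
    have hlz : 0 < Real.log z := Real.log_pos (by linarith)
    have hHr : (3 : ℝ) ≤ H := by exact_mod_cast hH3
    have hH0r : (0 : ℝ) < H := by linarith
    have hlH1 : 1 ≤ Real.log H := by
      rw [Real.le_log_iff_exp_le hH0r]
      have := Real.exp_one_lt_d9
      linarith
    have hlH : 0 < Real.log H := by linarith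
    have hzH' : (z : ℝ) ≤ H := by
      have : z ≤ z ^ 50 := Nat.le_self_pow (by norm_num) z
      exact_mod_cast this.trans hzH
    have hll : Real.log z ≤ Real.log H := Real.log_le_log (by linarith) hzH'
    have hSS := Pool.Agent.Lib.G5.q8 N hN
    obtain ⟨F, hF⟩ : ∃ F : ℕ → ℝ, F = fun p => ∑ d ∈ (N - p).divisors, fsMu (Pool.Agent.Lib.GT.pr z) up d := ⟨_, rfl⟩
    have hF0 : ∀ p ∈ Icc 1 H, 0 ≤ F p := by
      intro p hp
      rw [mem_Icc] at hp
      rw [hF]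
      exact hnn _ (by omega)
    have hF1 : ∀ p ∈ Icc 1 H, F p ≤ (z : ℝ) ^ 12 := by
      intro p hp
      rw [hF]
      have h1 : ∑ d ∈ (N - p).divisors, fsMu (Pool.Agent.Lib.GT.pr z) up d ≤ ∑ d ∈ (N - p).divisors, if d ∈ Icc 1 (z ^ 12) then (1 : ℝ) else 0 := by
        refine Finset.sum_le_sum fun d _ => ?_
        split_ifs with h
        · exact (le_abs_self _).trans (hon d)
        · by_contra h2
          push Not at h2
          have := hsu d h2.ne'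
          exact h (mem_Icc.mpr ⟨this.1, this.2.1⟩)
      refine h1.trans ?_
      rw [← Finset.sum_filter, Finset.sum_const, nsmul_eq_mul, mul_one]
      have h3 : ((N - p).divisors.filter fun d => d ∈ Icc 1 (z ^ 12)).card ≤ (Icc 1 (z ^ 12)).card :=
        Finset.card_le_card fun d hd => (mem_filter.mp hd).2
      rw [Nat.card_Icc, Nat.add_sub_cancel] at h3
      exact_mod_cast h3
    have hmain : ∑ p ∈ Icc 1 H, Pool.Agent.Lib.G3.lp p * F p ≤ H * ((1 + K / 2) * (4 * SS N / Real.log z)) + H / Real.log H ^ 2 := by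
      have h1 := hfa H (z ^ 12) N hH0 (by
        calc (z ^ 12) ^ 4 = z ^ 48 := by rw [← pow_mul]
          _ ≤ z ^ 50 := Nat.pow_le_pow_right (by omega) (by norm_num)
          _ ≤ H := hzH) hHN (fsMu (Pool.Agent.Lib.GT.pr z) up) (fun d hd => ⟨(hsu d hd).1, (hsu d hd).2.1⟩) hon
      have h2 := fs_dens K (by linarith) z N hz hN (by omega) up hs (fun g hg => by
        have h3 := (hdens g hg).1
        have h4 := (abs_le.mp h3).2
        nlinarith)
      have h5 := (abs_le.mp h1).2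
      have h6 := mul_le_mul_of_nonneg_left h2 hH0r.le
      rw [hF]
      linarith
    have hs34 : ((z : ℝ) ^ 12) * ((H : ℝ) ^ (1 / 2 : ℝ)) ≤ (H : ℝ) ^ (3 / 4 : ℝ) := by
      have h1 : (z : ℝ) ^ 12 ≤ (H : ℝ) ^ (1 / 4 : ℝ) := by
        have h2 : ((z : ℝ) ^ 12) ^ 4 ≤ H := by
          rw [← pow_mul]
          calc (z : ℝ) ^ (12 * 4) ≤ (z : ℝ) ^ 50 := pow_le_pow_right₀ (by linarith) (by norm_num)
            _ ≤ H := by exact_mod_cast hzH
        calc (z : ℝ) ^ 12 = (((z : ℝ) ^ 12) ^ 4) ^ (1 / 4 : ℝ) := by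
              rw [← Real.rpow_natCast (((z : ℝ) ^ 12)) 4, ← Real.rpow_mul (by positivity)]
              norm_num
          _ ≤ (H : ℝ) ^ (1 / 4 : ℝ) := Real.rpow_le_rpow (by positivity) h2 (by norm_num)
      calc ((z : ℝ) ^ 12) * ((H : ℝ) ^ (1 / 2 : ℝ)) ≤ (H : ℝ) ^ (1 / 4 : ℝ) * ((H : ℝ) ^ (1 / 2 : ℝ)) :=
            mul_le_mul_of_nonneg_right h1 (by positivity)
        _ = (H : ℝ) ^ (3 / 4 : ℝ) := by
          rw [← Real.rpow_add hH0r]
          norm_num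
    have hsmall : ∑ p ∈ ((Icc 1 H).filter Nat.Prime).filter (fun p => p * p ≤ H), F p ≤ (H : ℝ) ^ (3 / 4 : ℝ) := by
      have h1 : ∑ p ∈ ((Icc 1 H).filter Nat.Prime).filter (fun p => p * p ≤ H), F p ≤
          ∑ p ∈ ((Icc 1 H).filter Nat.Prime).filter (fun p => p * p ≤ H), (z : ℝ) ^ 12 :=
        Finset.sum_le_sum fun p hp => hF1 p (mem_filter.mp (mem_filter.mp hp).1).1
      rw [Finset.sum_const, nsmul_eq_mul] at h1
      have h2 : (((Icc 1 H).filter Nat.Prime).filter (fun p => p * p ≤ H)).card ≤ Nat.sqrt H := by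
        calc (((Icc 1 H).filter Nat.Prime).filter (fun p => p * p ≤ H)).card ≤ (Icc 1 (Nat.sqrt H)).card := by
              refine Finset.card_le_card fun p hp => ?_
              rw [mem_filter, mem_filter, mem_Icc] at hp
              exact mem_Icc.mpr ⟨hp.1.1.1, Nat.le_sqrt.mpr hp.2⟩
          _ = Nat.sqrt H := by rw [Nat.card_Icc, Nat.add_sub_cancel]
      have h3 : ((Nat.sqrt H : ℕ) : ℝ) ≤ (H : ℝ) ^ (1 / 2 : ℝ) := by
        rw [← Real.sqrt_eq_rpow]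
        refine Real.le_sqrt_of_sq_le ?_
        have := Nat.sqrt_le' H
        exact_mod_cast this
      have h4 : ((((Icc 1 H).filter Nat.Prime).filter (fun p => p * p ≤ H)).card : ℝ) ≤ (H : ℝ) ^ (1 / 2 : ℝ) :=
        le_trans (by exact_mod_cast h2) h3
      calc _ ≤ _ := h1
        _ ≤ (H : ℝ) ^ (1 / 2 : ℝ) * (z : ℝ) ^ 12 := mul_le_mul_of_nonneg_right h4 (by positivity)
        _ = (z : ℝ) ^ 12 * (H : ℝ) ^ (1 / 2 : ℝ) := mul_comm _ _
        _ ≤ _ := hs34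
    have hlarge : ∑ p ∈ ((Icc 1 H).filter Nat.Prime).filter (fun p => ¬ p * p ≤ H), F p ≤
        2 / Real.log H * ∑ p ∈ Icc 1 H, Pool.Agent.Lib.G3.lp p * F p := by
      rw [Finset.mul_sum]
      have h1 : ∀ p ∈ ((Icc 1 H).filter Nat.Prime).filter (fun p => ¬ p * p ≤ H), F p ≤ 2 / Real.log H * (Pool.Agent.Lib.G3.lp p * F p) := by
        intro p hp
        rw [mem_filter, mem_filter] at hp
        obtain ⟨⟨hp1, hpp⟩, hp2⟩ := hp
        have h0 := hF0 p hp1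
        have h3 : (H : ℝ) ≤ (p : ℝ) ^ 2 := by
          rw [sq]
          exact_mod_cast (not_le.mp hp2).le
        have h4 : Real.log H ≤ 2 * Real.log p := by
          have := Real.log_le_log hH0r h3
          rwa [Real.log_pow, Nat.cast_two] at this
        have h5 : 1 ≤ 2 / Real.log H * Real.log p := by
          rw [div_mul_eq_mul_div, le_div_iff₀ hlH]
          linarith
        unfold Pool.Agent.Lib.G3.lp
        rw [if_pos hpp, ← mul_assoc]
        nlinarith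
      refine (Finset.sum_le_sum h1).trans ?_
      refine Finset.sum_le_sum_of_subset_of_nonneg ?_ ?_
      · intro p hp
        exact (mem_filter.mp (mem_filter.mp hp).1).1
      · intro p hp _
        have h0 := hF0 p hp
        have h3 : 0 ≤ Pool.Agent.Lib.G3.lp p := by
          unfold Pool.Agent.Lib.G3.lp
          split_ifs
          · exact Real.log_natCast_nonneg p
          · exact le_rfl
        positivity
    have htot : ∑ p ∈ (Icc 1 H).filter Nat.Prime, F p ≤ (H : ℝ) ^ (3 / 4 : ℝ) +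
        2 / Real.log H * (H * ((1 + K / 2) * (4 * SS N / Real.log z)) + H / Real.log H ^ 2) := by
      rw [← Finset.sum_filter_add_sum_filter_not ((Icc 1 H).filter Nat.Prime) (fun p => p * p ≤ H)]
      have := mul_le_mul_of_nonneg_left hmain (show 0 ≤ 2 / Real.log H by positivity)
      linarith
    rw [hF] at htot
    refine htot.trans ?_
    obtain ⟨E, hE⟩ : ∃ E : ℝ, E = H / (Real.log H * Real.log z) := ⟨_, rfl⟩
    have hE0 : 0 ≤ E := by rw [hE]; positivity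
    have e1 : (H : ℝ) ^ (3 / 4 : ℝ) ≤ 64 * E := by
      rw [hE, ← mul_div_assoc, le_div_iff₀ (by positivity)]
      calc (H : ℝ) ^ (3 / 4 : ℝ) * (Real.log H * Real.log z) ≤ (H : ℝ) ^ (3 / 4 : ℝ) * Real.log H ^ 2 := by
            refine mul_le_mul_of_nonneg_left ?_ (by positivity)
            rw [sq]
            exact mul_le_mul_of_nonneg_left hll hlH.le
        _ ≤ 64 * H := fs_log H (by linarith)
    have e2 : 2 / Real.log H * (H * ((1 + K / 2) * (4 * SS N / Real.log z))) = 8 * (1 + K / 2) * (SS N * E) := by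
      rw [hE]
      field_simp
      ring
    have e3 : 2 / Real.log H * (H / Real.log H ^ 2) ≤ 2 * E := by
      rw [hE, div_mul_div_comm, ← mul_div_assoc]
      refine div_le_div_of_nonneg_left (by positivity) (by positivity) ?_
      refine mul_le_mul_of_nonneg_left ?_ hlH.le
      nlinarith
    rw [← hE, mul_add, e2]
    have e4 : E ≤ 2 * (SS N * E) := by nlinarith
    nlinarith

end Pool.Agent.Lib.GU
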