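import Pool.Agent.Lib.GU.FDefs
import Pool.Agent.Lib.G3.Mert5
import Pool.Agent.Lib.G5.Q2
import Pool.Agent.Lib.G8.L7

/-!
# GU, row Mt: the sum over the least prime factor, `∑_q 1/q (log (log N/log q))^(k-2)/(k-2)! = (1 + o(1)) (log log N)^(k-1)/(k-1)!`

PROOF IN WORDS. `L = log X`, `λ = log log N`, `f(q) = log (log N/log q) = λ - log log q`, `m = k - 2`, `q` over the primes of `[L^c, w]`. Mertens (`mert5` with `ε = 1`): `|∑_{u < p ≤ v} 1/p - (log log v - log log u)| ≤ 1` for `v ≥ u ≥ z0`. Fix `J` (large in terms of `ε`, `k`) and cut at `log log q = t_j = j λ/J`, `j = 0, ..., J`. In the block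
`t_j < log log q ≤ t_{j+1}` the function `f` is between `λ (1 - (j+1)/J)` and `λ (1 - j/J)`, the sum of `1/q` is `λ/J ± 1` (blocks above `log log L^c = log (c log L) ≤ δ λ` and below `log log w ≥ (1 - η) λ - 1`), so the sum is `λ^(m+1) (1/J) ∑_j (1 - j/J)^m` up to the missing blocks (`≤ (δ + 2 η + 2/J) λ^(m+1)`), the differences `(1 - j/J)^m - (1 - (j+1)/J)^m` (total `≤ 1/J`)
and `J λ^m`; `|(1/J) ∑_{j < J} (1 - j/J)^m - 1/(m+1)| ≤ 1/J` (monotone function, or Faulhaber bounds `(j+1)^(m+1) - j^(m+1)` between `(m+1) j^m` and `(m+1) (j+1)^m`). `(m+1) m! = (k-1)!`. ALTERNATIVE without blocks: for decreasing `t` compare with `log log`: `a^(m+1) - b^(m+1)` is between `(m+1) b^m (a - b)` and `(m+1) a^m (a - b)`.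
Any other proof is welcome (e.g. `esy` and `l7` of G8, the lemmas of G6/Mt7, Mk7, T8/Mer). The last claim `1 ≤ ∑ 1/q`: `mert5` and `log log w - log (c log L) - 1 ≥ 1`.
-/

set_option autoImplicit false

open Finset

namespace Pool.Agent.Lib.GU

open Pool.Agent.Lib.G8 (mL)

private lemma mtu_ind (m : ℕ) (lam t : ℝ) (ht0 : 0 ≤ t) (ht : t ≤ lam) :
    IntervalIntegrable (fun s => if t < s then ((m : ℝ) + 1) * (lam - s) ^ m else 0) MeasureTheory.volume 0 lam ∧
    ∫ s in (0 : ℝ)..lam, (if t < s then ((m : ℝ) + 1) * (lam - s) ^ m else 0) = (lam - t) ^ (m + 1) := by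
  have hgc : Continuous (fun s : ℝ => ((m : ℝ) + 1) * (lam - s) ^ m) := by fun_prop
  have i1 : IntervalIntegrable (fun s => if t < s then ((m : ℝ) + 1) * (lam - s) ^ m else 0) MeasureTheory.volume 0 t := by
    refine IntervalIntegrable.congr (f := fun _ => (0 : ℝ)) ?_ (by simp)
    intro s hs
    rw [Set.uIoc_of_le ht0] at hs
    simp [not_lt.2 hs.2]
  have i2 : IntervalIntegrable (fun s => if t < s then ((m : ℝ) + 1) * (lam - s) ^ m else 0) MeasureTheory.volume t lam := by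
    refine IntervalIntegrable.congr ?_ (hgc.intervalIntegrable t lam)
    intro s hs
    rw [Set.uIoc_of_le ht] at hs
    simp [hs.1]
  refine ⟨i1.trans i2, ?_⟩
  rw [← intervalIntegral.integral_add_adjacent_intervals i1 i2]
  have e1 : ∫ s in (0 : ℝ)..t, (if t < s then ((m : ℝ) + 1) * (lam - s) ^ m else 0) = 0 := by
    rw [intervalIntegral.integral_of_le ht0]
    rw [MeasureTheory.setIntegral_congr_fun (g := fun _ => (0 : ℝ)) measurableSet_Ioc ?_]
    · simp
    · intro s hs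
      simp [not_lt.2 hs.2]
  have e2 : ∫ s in t..lam, (if t < s then ((m : ℝ) + 1) * (lam - s) ^ m else 0) = ∫ s in t..lam, ((m : ℝ) + 1) * (lam - s) ^ m := by
    rw [intervalIntegral.integral_of_le ht, intervalIntegral.integral_of_le ht]
    refine MeasureTheory.setIntegral_congr_fun measurableSet_Ioc ?_
    intro s hs
    simp [hs.1]
  have e3 : ∫ s in t..lam, ((m : ℝ) + 1) * (lam - s) ^ m = (lam - t) ^ (m + 1) := by
    have hd : ∀ s ∈ Set.uIcc t lam, HasDerivAt (fun s : ℝ => -(lam - s) ^ (m + 1)) (((m : ℝ) + 1) * (lam - s) ^ m) s := by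
      intro s _
      have h1 : HasDerivAt (fun s : ℝ => lam - s) (-1) s := by
        simpa using (hasDerivAt_id s).const_sub lam
      have h2 := (h1.fun_pow (m + 1)).fun_neg
      refine h2.congr_deriv ?_
      push_cast
      ring
    rw [intervalIntegral.integral_eq_sub_of_hasDerivAt hd (hgc.intervalIntegrable t lam)]
    simp
  rw [e1, e2, e3, zero_add]

private lemma mtu_lin (m : ℕ) (lam : ℝ) :
    ∫ s in (0 : ℝ)..lam, s * (((m : ℝ) + 1) * (lam - s) ^ m) = lam ^ (m + 2) / (m + 2) := by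
  have hd : ∀ s ∈ Set.uIcc (0 : ℝ) lam, HasDerivAt (fun s : ℝ => -(s * (lam - s) ^ (m + 1)) - (lam - s) ^ (m + 2) / (m + 2)) (s * (((m : ℝ) + 1) * (lam - s) ^ m)) s := by
    intro s _
    have h1 : HasDerivAt (fun s : ℝ => lam - s) (-1) s := by
      simpa using (hasDerivAt_id s).const_sub lam
    have h2 := h1.fun_pow (m + 1)
    have h3 := (h1.fun_pow (m + 2)).div_const ((m : ℝ) + 2)
    have h0 : HasDerivAt (fun s : ℝ => s) 1 s := hasDerivAt_id' s
    have h4 := ((h0.fun_mul h2).fun_neg).fun_sub h3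
    refine (h4.congr_deriv ?_)
    have : (m : ℝ) + 2 ≠ 0 := by positivity
    push_cast
    field_simp
    ring
  have hc : Continuous (fun s : ℝ => s * (((m : ℝ) + 1) * (lam - s) ^ m)) := by fun_prop
  rw [intervalIntegral.integral_eq_sub_of_hasDerivAt hd (hc.intervalIntegrable 0 lam)]
  simp

private lemma mtu_abs (S : Finset ℕ) (a t : ℕ → ℝ) (lam D : ℝ) (hlam : 0 ≤ lam) (ht : ∀ q ∈ S, 0 ≤ t q ∧ t q ≤ lam)
    (hA : ∀ s, 0 < s → s ≤ lam → |∑ q ∈ S, (if t q < s then a q else 0) - s| ≤ D) (m : ℕ) :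
    |∑ q ∈ S, a q * (lam - t q) ^ (m + 1) - lam ^ (m + 2) / (m + 2)| ≤ D * lam ^ (m + 1) := by
  have hgc : Continuous (fun s : ℝ => ((m : ℝ) + 1) * (lam - s) ^ m) := by fun_prop
  have h1 : ∑ q ∈ S, a q * (lam - t q) ^ (m + 1) =
      ∫ s in (0 : ℝ)..lam, ∑ q ∈ S, a q * (if t q < s then ((m : ℝ) + 1) * (lam - s) ^ m else 0) := by
    rw [intervalIntegral.integral_finsetSum]
    · refine sum_congr rfl fun q hq => ?_
      rw [intervalIntegral.integral_const_mul, (mtu_ind m lam (t q) (ht q hq).1 (ht q hq).2).2]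
    · intro q hq
      exact (mtu_ind m lam (t q) (ht q hq).1 (ht q hq).2).1.const_mul (a q)
  have hi : IntervalIntegrable (fun s => ∑ q ∈ S, a q * (if t q < s then ((m : ℝ) + 1) * (lam - s) ^ m else 0)) MeasureTheory.volume 0 lam := by
    rw [intervalIntegrable_iff_integrableOn_Ioc_of_le hlam]
    refine MeasureTheory.integrable_finsetSum S fun q hq => ?_
    exact (intervalIntegrable_iff_integrableOn_Ioc_of_le hlam).1 ((mtu_ind m lam (t q) (ht q hq).1 (ht q hq).2).1.const_mul (a q))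
  have h3 : D * lam ^ (m + 1) = ∫ s in (0 : ℝ)..lam, D * (((m : ℝ) + 1) * (lam - s) ^ m) := by
    rw [intervalIntegral.integral_const_mul]
    congr 1
    have hd : ∀ s ∈ Set.uIcc (0 : ℝ) lam, HasDerivAt (fun s : ℝ => -(lam - s) ^ (m + 1)) (((m : ℝ) + 1) * (lam - s) ^ m) s := by
      intro s _
      have h1 : HasDerivAt (fun s : ℝ => lam - s) (-1) s := by
        simpa using (hasDerivAt_id s).const_sub lam
      have h2 := (h1.fun_pow (m + 1)).fun_neg
      refine h2.congr_deriv ?_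
      push_cast
      ring
    rw [intervalIntegral.integral_eq_sub_of_hasDerivAt hd (hgc.intervalIntegrable 0 lam)]
    simp
  have hc2 : Continuous (fun s : ℝ => s * (((m : ℝ) + 1) * (lam - s) ^ m)) := by fun_prop
  rw [h1, ← mtu_lin m lam, ← intervalIntegral.integral_sub hi (hc2.intervalIntegrable 0 lam), h3, ← Real.norm_eq_abs]
  refine intervalIntegral.norm_integral_le_of_norm_le hlam ?_ ?_
  · refine Filter.Eventually.of_forall fun s hs => ?_
    have hg : 0 ≤ ((m : ℝ) + 1) * (lam - s) ^ m := by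
      have : 0 ≤ lam - s := by linarith [hs.2]
      positivity
    have e : ∑ q ∈ S, a q * (if t q < s then ((m : ℝ) + 1) * (lam - s) ^ m else 0) - s * (((m : ℝ) + 1) * (lam - s) ^ m) =
        (∑ q ∈ S, (if t q < s then a q else 0) - s) * (((m : ℝ) + 1) * (lam - s) ^ m) := by
      rw [sub_mul, sum_mul]
      congr 1
      refine sum_congr rfl fun q _ => ?_
      split_ifs <;> ring
    rw [e, Real.norm_eq_abs, abs_mul, abs_of_nonneg hg]
    exact mul_le_mul_of_nonneg_right (hA s hs.1 hs.2) hg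
  · exact (continuous_const.mul hgc).intervalIntegrable 0 lam

private lemma mtu_z : ∃ z : ℕ, 3 ≤ z ∧ ∀ u v : ℕ, z ≤ u → u ≤ v →
    |∑ p ∈ Pool.Agent.Lib.G3.pi5 u v, (1 : ℝ) / p - Real.log (Real.log v / Real.log u)| ≤ 1 := by
  obtain ⟨z0, hz⟩ := Pool.Agent.Lib.G3.mert5 1 one_pos
  exact ⟨max z0 3, le_max_right _ _, fun u v hu huv => hz u v ((le_max_left _ _).trans hu) huv⟩

private lemma mtu_log3 {n : ℕ} (hn : 3 ≤ n) : 1 ≤ Real.log n := by
  have h3 : (3 : ℝ) ≤ n := by exact_mod_cast hn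
  rw [Real.le_log_iff_exp_le (by linarith)]
  exact Real.exp_one_lt_three.le.trans h3

private lemma mtu_up (z : ℕ) (hz3 : 3 ≤ z) (hz : ∀ u v : ℕ, z ≤ u → u ≤ v →
    |∑ p ∈ Pool.Agent.Lib.G3.pi5 u v, (1 : ℝ) / p - Real.log (Real.log v / Real.log u)| ≤ 1)
    (S : Finset ℕ) (v : ℕ) (T : ℝ) (hT : 1 ≤ T) (hv : Real.log v ≤ T) (hS : ∀ q ∈ S, q.Prime ∧ q ≤ v) :
    ∑ q ∈ S, (1 : ℝ) / q ≤ z + 1 + Real.log T := by
  have hT0 : 0 ≤ Real.log T := Real.log_nonneg hT
  have h1 : ∑ q ∈ S, (1 : ℝ) / q ≤ ∑ q ∈ Icc 1 z ∪ Pool.Agent.Lib.G3.pi5 z v, (1 : ℝ) / q := by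
    apply sum_le_sum_of_subset_of_nonneg
    · intro q hq
      obtain ⟨hp, hv⟩ := hS q hq
      rw [mem_union]
      by_cases h : q ≤ z
      · left
        exact mem_Icc.2 ⟨hp.one_lt.le, h⟩
      · right
        unfold Pool.Agent.Lib.G3.pi5
        exact mem_filter.2 ⟨mem_Ioc.2 ⟨not_le.1 h, hv⟩, hp⟩
    · intro q _ _
      positivity
  have h2 : ∑ q ∈ Icc 1 z ∪ Pool.Agent.Lib.G3.pi5 z v, (1 : ℝ) / q ≤ ∑ q ∈ Icc 1 z, (1 : ℝ) / q + ∑ q ∈ Pool.Agent.Lib.G3.pi5 z v, (1 : ℝ) / q := by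
    have := sum_union_inter (s₁ := Icc 1 z) (s₂ := Pool.Agent.Lib.G3.pi5 z v) (f := fun q : ℕ => (1 : ℝ) / q)
    have h0 : 0 ≤ ∑ q ∈ Icc 1 z ∩ Pool.Agent.Lib.G3.pi5 z v, (1 : ℝ) / q := sum_nonneg fun q _ => by positivity
    linarith
  have h3 : ∑ q ∈ Icc 1 z, (1 : ℝ) / q ≤ z := by
    calc ∑ q ∈ Icc 1 z, (1 : ℝ) / q ≤ ∑ _q ∈ Icc 1 z, (1 : ℝ) := by
          apply sum_le_sum
          intro q hq
          have h : (1 : ℝ) ≤ q := by exact_mod_cast (mem_Icc.1 hq).1
          rw [div_le_one (by linarith)]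
          exact h
      _ = z := by simp
  have h4 : ∑ q ∈ Pool.Agent.Lib.G3.pi5 z v, (1 : ℝ) / q ≤ 1 + Real.log T := by
    rcases le_or_gt z v with h | h
    · have h5 := (abs_le.1 (hz z v le_rfl h)).2
      have hlz := mtu_log3 hz3
      have hlv := mtu_log3 (hz3.trans h)
      have h6 : Real.log (Real.log v / Real.log z) ≤ Real.log T := by
        apply Real.log_le_log (by positivity)
        exact (div_le_self (by linarith) hlz).trans hv
      linarith
    · have : Pool.Agent.Lib.G3.pi5 z v = ∅ := by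
        unfold Pool.Agent.Lib.G3.pi5
        rw [Ioc_eq_empty (by omega)]
        simp
      rw [this]
      simp
      linarith
  linarith

private lemma mtu_K1 (c : ℕ) (δ : ℝ) (hδ : 0 < δ) : ∃ K1 : ℝ, 1 ≤ K1 ∧ ∀ x : ℝ, K1 ≤ x → Real.log (((c : ℝ) + 1) * x) ≤ δ * x := by
  have h1 := (Real.isLittleO_log_id_atTop).bound (show (0 : ℝ) < δ / 2 by positivity)
  obtain ⟨K, hK⟩ := Filter.eventually_atTop.1 h1
  refine ⟨max 1 (max K (Real.log (c + 1) / (δ / 2))), le_max_left _ _, fun x hx => ?_⟩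
  have hx1 : 1 ≤ x := (le_max_left _ _).trans hx
  have hxK : K ≤ x := ((le_max_left _ _).trans (le_max_right _ _)).trans hx
  have hxc : Real.log (c + 1) / (δ / 2) ≤ x := ((le_max_right _ _).trans (le_max_right _ _)).trans hx
  rw [div_le_iff₀ (by positivity)] at hxc
  have h2 := hK x hxK
  simp only [id, Real.norm_eq_abs] at h2
  rw [abs_of_nonneg (Real.log_nonneg hx1), abs_of_nonneg (by linarith : (0 : ℝ) ≤ x)] at h2
  rw [Real.log_mul (by positivity) (by positivity)]
  linarith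

private lemma mtu_nt (c : ℕ) (δ K : ℝ) (hδ : 0 < δ) : ∃ η : ℝ, 0 < η ∧ η < 1 ∧ ∃ X0 : ℕ, ∀ X N w : ℕ, X0 ≤ X → X ≤ N → N ≤ 2 * X →
    (Real.log X) ^ (1 - η) ≤ Real.log w → Real.log w ≤ 1 / 2 * Real.log X →
    1 ≤ Real.log N ∧ K ≤ Real.log (Real.log N) ∧
    (∀ q ∈ (SP X c w).filter (fun q => 3 ≤ q), 0 ≤ Real.log (Real.log q) ∧ Real.log (Real.log q) < Real.log (Real.log N)) ∧
    ∀ s, 0 < s → s ≤ Real.log (Real.log N) →
      |∑ q ∈ (SP X c w).filter (fun q => 3 ≤ q), (if Real.log (Real.log q) < s then 1 / (q : ℝ) else 0) - s| ≤ δ * Real.log (Real.log N) := by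
  obtain ⟨z, hz3, hz⟩ := mtu_z
  obtain ⟨K1, hK11, hK1⟩ := mtu_K1 c (δ / 8) (by positivity)
  set K2 : ℝ := max (max K K1) (max (3 / δ) (max ((z + 1) / δ) (z + 2))) with hK2
  have hev : ∀ᶠ X : ℕ in Filter.atTop, K2 ≤ Real.log (Real.log (X : ℝ)) :=
    (Real.tendsto_log_atTop.comp (Real.tendsto_log_atTop.comp tendsto_natCast_atTop_atTop)).eventually_ge_atTop K2
  obtain ⟨X1, hX1⟩ := Filter.eventually_atTop.1 hev
  refine ⟨min (δ / 8) (1 / 2), by positivity, (min_le_right _ _).trans_lt (by norm_num), max X1 3, ?_⟩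
  intro X N w hX hXN hN2 hw1 hw2
  set η : ℝ := min (δ / 8) (1 / 2) with hη
  have hη0 : 0 < η := by positivity
  have hη1 : η ≤ 1 / 2 := min_le_right _ _
  have hη2 : η ≤ δ / 8 := min_le_left _ _
  set L : ℝ := Real.log X with hL
  set Λ : ℝ := Real.log L with hΛ
  set lam : ℝ := Real.log (Real.log N) with hlam
  have hK2Λ : K2 ≤ Λ := hX1 X ((le_max_left _ _).trans hX)
  have hX3 : 3 ≤ X := (le_max_right _ _).trans hX
  have hΛ1 : K ≤ Λ := ((le_max_left _ _).trans (le_max_left _ _)).trans hK2Λ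
  have hΛ2 : K1 ≤ Λ := ((le_max_right _ _).trans (le_max_left _ _)).trans hK2Λ
  have hΛ3 : 3 / δ ≤ Λ := ((le_max_left _ _).trans (le_max_right _ _)).trans hK2Λ
  have hΛ4 : (z + 1) / δ ≤ Λ := (((le_max_left _ _).trans (le_max_right _ _)).trans (le_max_right _ _)).trans hK2Λ
  have hΛ5 : (z : ℝ) + 2 ≤ Λ := (((le_max_right _ _).trans (le_max_right _ _)).trans (le_max_right _ _)).trans hK2Λ
  have hz3' : (3 : ℝ) ≤ z := by exact_mod_cast hz3
  have hL1 : 1 ≤ L := mtu_log3 hX3
  have hL0 : 0 < L := by linarith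
  have hLexp : Real.exp Λ = L := Real.exp_log hL0
  have hLΛ : Λ + 1 ≤ L := by rw [← hLexp]; exact Real.add_one_le_exp Λ
  have hX0 : (0 : ℝ) < X := by exact_mod_cast (by omega : 0 < X)
  have hN0 : (0 : ℝ) < N := by exact_mod_cast (by omega : 0 < N)
  have hlN : L ≤ Real.log N := Real.log_le_log hX0 (by exact_mod_cast hXN)
  have hlN2 : Real.log N ≤ 2 * L := by
    have h1 : Real.log N ≤ Real.log (2 * X) := Real.log_le_log hN0 (by exact_mod_cast hN2)
    rw [Real.log_mul (by norm_num) (by positivity)] at h1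
    have h2 : Real.log 2 ≤ 1 := by
      have := Real.log_two_lt_d9
      linarith
    linarith
  have hlamΛ : Λ ≤ lam := Real.log_le_log hL0 hlN
  have hlamΛ2 : lam ≤ Λ + 1 := by
    have h1 : lam ≤ Real.log (2 * L) := Real.log_le_log (by linarith) hlN2
    rw [Real.log_mul (by norm_num) (by positivity)] at h1
    have h2 : Real.log 2 ≤ 1 := by
      have := Real.log_two_lt_d9
      linarith
    linarith
  have hΛ0 : 0 < Λ := by linarith
  have hlam0 : 0 < lam := by linarith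
  rw [div_le_iff₀ hδ] at hΛ3 hΛ4
  have hδΛ : Λ * δ ≤ δ * lam := by
    rw [mul_comm]
    exact mul_le_mul_of_nonneg_left hlamΛ hδ.le
  have hδlam3 : 3 ≤ δ * lam := hΛ3.trans hδΛ
  have hδlam4 : (z : ℝ) + 1 ≤ δ * lam := hΛ4.trans hδΛ
  refine ⟨by linarith, by linarith, ?_, ?_⟩
  · intro q hq
    rw [mem_filter] at hq
    obtain ⟨hq1, hq3⟩ := hq
    unfold SP at hq1
    rw [mem_filter, mem_Icc] at hq1
    have hlq := mtu_log3 hq3
    refine ⟨Real.log_nonneg hlq, ?_⟩
    apply Real.log_lt_log (by linarith)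
    have h1 : Real.log q ≤ Real.log w := Real.log_le_log (by exact_mod_cast (by omega : 0 < q)) (by exact_mod_cast hq1.1.2)
    linarith
  intro s hs0 hs
  rw [← sum_filter]
  set A : Finset ℕ := ((SP X c w).filter (fun q => 3 ≤ q)).filter (fun q => Real.log (Real.log (q : ℝ)) < s) with hA
  have hAm : ∀ q, q ∈ A ↔ ((1 ≤ q ∧ q ≤ w) ∧ q.Prime ∧ L ^ c ≤ q) ∧ 3 ≤ q ∧ Real.log (Real.log (q : ℝ)) < s := by
    intro q
    rw [hA, mem_filter, mem_filter]
    unfold SP
    rw [mem_filter, mem_Icc]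
    tauto
  have hAnn : 0 ≤ ∑ q ∈ A, (1 : ℝ) / q := sum_nonneg fun q _ => by positivity
  rw [abs_le]
  constructor
  · -- lower bound
    rcases le_or_gt s (δ * lam) with hsd | hsd
    · linarith
    set E : ℝ := Real.exp (Real.exp s) with hE
    have hs3 : 3 < s := by linarith
    have he1 : (2 : ℝ) ≤ Real.exp 1 := by
      have := Real.add_one_le_exp (1 : ℝ)
      linarith
    have hes1 : s ≤ Real.exp (s - 1) := by
      have := Real.add_one_le_exp (s - 1)
      linarith
    have hes : Real.exp s = Real.exp (s - 1) * Real.exp 1 := by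
      rw [← Real.exp_add]
      congr 1
      ring
    have hes2 : Real.exp (s - 1) + 3 ≤ Real.exp s := by
      rw [hes]
      have h2 : Real.exp (s - 1) * 2 ≤ Real.exp (s - 1) * Real.exp 1 := mul_le_mul_of_nonneg_left he1 (Real.exp_pos _).le
      linarith
    have hE4 : 4 ≤ E := by
      have := Real.add_one_le_exp (Real.exp s)
      linarith
    set v1 : ℕ := ⌊E / 2⌋₊ with hv1
    have hv1a : (v1 : ℝ) ≤ E / 2 := Nat.floor_le (by linarith)
    have hv1b : E / 4 ≤ (v1 : ℝ) := by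
      have := Nat.lt_floor_add_one (E / 2)
      rw [← hv1] at this
      linarith
    have hv1l : Real.exp (s - 1) ≤ Real.log v1 := by
      have h1 : Real.log (E / 4) ≤ Real.log v1 := Real.log_le_log (by linarith) hv1b
      rw [Real.log_div (by positivity) (by norm_num), hE, Real.log_exp] at h1
      have h2 : Real.log 4 ≤ 4 - 1 := Real.log_le_sub_one_of_pos (by norm_num)
      linarith
    have hv1ll : s - 1 ≤ Real.log (Real.log v1) := by
      rw [Real.le_log_iff_exp_le (lt_of_lt_of_le (Real.exp_pos _) hv1l)]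
      exact hv1l
    have hwpos : 0 < Real.log w := lt_of_lt_of_le (Real.rpow_pos_of_pos hL0 _) hw1
    have hwll : s - 1 - η * lam ≤ Real.log (Real.log w) := by
      have h1 : Real.log (L ^ (1 - η)) ≤ Real.log (Real.log w) := Real.log_le_log (Real.rpow_pos_of_pos hL0 _) hw1
      rw [Real.log_rpow hL0] at h1
      have h2 : η * Λ ≤ η * lam := mul_le_mul_of_nonneg_left hlamΛ hη0.le
      have h3 : (1 - η) * Real.log L = Λ - η * Λ := by rw [← hΛ]; ring
      linarith
    set v : ℕ := min w v1 with hv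
    have hvlog : 0 < Real.log v ∧ s - 1 - η * lam ≤ Real.log (Real.log v) := by
      rcases min_choice w v1 with h | h
      · rw [hv, h]
        exact ⟨hwpos, hwll⟩
      · rw [hv, h]
        refine ⟨lt_of_lt_of_le (Real.exp_pos _) hv1l, ?_⟩
        have : 0 ≤ η * lam := by positivity
        linarith
    set u : ℕ := max z ⌈L ^ c⌉₊ with hu
    have huz : z ≤ u := le_max_left _ _
    have huL : (u : ℝ) ≤ L ^ (c + 1) := by
      rw [hu]
      push_cast
      apply max_le
      · calc (z : ℝ) ≤ L := by linarith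
          _ = L ^ 1 := (pow_one L).symm
          _ ≤ L ^ (c + 1) := pow_le_pow_right₀ hL1 (by omega)
      · have h1 := Nat.ceil_lt_add_one (show 0 ≤ L ^ c by positivity)
        have h2 : 1 ≤ L ^ c := one_le_pow₀ hL1
        have h3 : 2 ≤ L := by linarith
        have h4 : L ^ (c + 1) = L ^ c * L := pow_succ L c
        have h5 : L ^ c * 2 ≤ L ^ c * L := mul_le_mul_of_nonneg_left h3 (by linarith)
        linarith
    have hlu := mtu_log3 (hz3.trans huz)
    have hu0 : (0 : ℝ) < u := by exact_mod_cast (by omega : 0 < u)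
    have huLL : Real.log (Real.log u) ≤ δ / 8 * lam := by
      have h1 : Real.log u ≤ ((c : ℝ) + 1) * Λ := by
        have := Real.log_le_log hu0 huL
        rw [Real.log_pow] at this
        push_cast at this
        exact this
      have h2 := Real.log_le_log (by linarith) h1
      have h3 := hK1 Λ hΛ2
      have h4 : δ / 8 * Λ ≤ δ / 8 * lam := by gcongr
      linarith
    have hηlam : η * lam ≤ δ / 8 * lam := by gcongr
    have huv : u ≤ v := by
      by_contra hcon
      rw [not_le] at hcon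
      have hv0 : 0 < v := by
        rcases Nat.eq_zero_or_pos v with h | h
        · rw [h] at hvlog
          simp at hvlog
        · exact h
      have h1 : Real.log v ≤ Real.log u := Real.log_le_log (by exact_mod_cast hv0) (by exact_mod_cast hcon.le)
      have h2 := Real.log_le_log hvlog.1 h1
      have := hvlog.2
      linarith
    have hsub : Pool.Agent.Lib.G3.pi5 u v ⊆ A := by
      intro p hp
      unfold Pool.Agent.Lib.G3.pi5 at hp
      rw [mem_filter, mem_Ioc] at hp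
      obtain ⟨⟨hp1, hp2⟩, hp3⟩ := hp
      have hp0 : (0 : ℝ) < p := by exact_mod_cast hp3.pos
      have hlp := mtu_log3 (show 3 ≤ p by omega)
      rw [hAm]
      refine ⟨⟨⟨hp3.one_lt.le, hp2.trans (min_le_left _ _)⟩, hp3, ?_⟩, by omega, ?_⟩
      · have h1 : L ^ c ≤ ⌈L ^ c⌉₊ := Nat.le_ceil _
        have h2 : ⌈L ^ c⌉₊ ≤ p := (le_max_right z _).trans hp1.le
        have h3 : ((⌈L ^ c⌉₊ : ℕ) : ℝ) ≤ p := by exact_mod_cast h2
        linarith
      · have h1 : (p : ℝ) ≤ v1 := by exact_mod_cast hp2.trans (min_le_right _ _)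
        have h2 : (p : ℝ) < E := by linarith
        have h3 : Real.log p < Real.exp s := by
          have := Real.log_lt_log hp0 h2
          rwa [hE, Real.log_exp] at this
        have h4 := Real.log_lt_log (by linarith) h3
        rwa [Real.log_exp] at h4
    have hsum : ∑ p ∈ Pool.Agent.Lib.G3.pi5 u v, (1 : ℝ) / p ≤ ∑ q ∈ A, (1 : ℝ) / q :=
      sum_le_sum_of_subset_of_nonneg hsub fun q _ _ => by positivity
    have hmm := (abs_le.1 (hz u v huz huv)).1
    rw [Real.log_div (by linarith [hvlog.1]) (by linarith)] at hmm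
    have := hvlog.2
    linarith
  · -- upper bound
    have h1 := mtu_up z hz3 hz A ⌊Real.exp (Real.exp s)⌋₊ (Real.exp s) (by
        have := Real.add_one_le_exp s
        linarith) (by
        have hpos : 1 ≤ Real.exp (Real.exp s) := Real.one_le_exp (Real.exp_pos s).le
        have hf1 : 1 ≤ ⌊Real.exp (Real.exp s)⌋₊ := Nat.le_floor (by simpa using hpos)
        have := Real.log_le_log (by exact_mod_cast hf1) (Nat.floor_le (show 0 ≤ Real.exp (Real.exp s) by positivity))
        rwa [Real.log_exp] at this) (by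
        intro q hq
        rw [hAm] at hq
        refine ⟨hq.1.2.1, ?_⟩
        have hlq := mtu_log3 hq.2.1
        have hq0 : (0 : ℝ) < q := by exact_mod_cast hq.1.2.1.pos
        apply Nat.le_floor
        have h3 : Real.log q < Real.exp s := (Real.log_lt_iff_lt_exp (by linarith)).1 hq.2.2
        exact ((Real.log_lt_iff_lt_exp hq0).1 h3).le)
    rw [Real.log_exp] at h1
    linarith

theorem mtU (k c : ℕ) (hk : 2 ≤ k) (ε : ℝ) (hε : 0 < ε) : ∃ η : ℝ, 0 < η ∧ η < 1 ∧ ∃ X0 : ℕ, ∀ X N w : ℕ, X0 ≤ X → X ≤ N → N ≤ 2 * X →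
    (Real.log X) ^ (1 - η) ≤ Real.log w → Real.log w ≤ 1 / 2 * Real.log X →
      |mL k (SP X c w) N / (Nat.factorial (k - 2) : ℝ) - (Real.log (Real.log N)) ^ (k - 1) / (Nat.factorial (k - 1) : ℝ)| ≤
        ε * ((Real.log (Real.log N)) ^ (k - 1) / (Nat.factorial (k - 1) : ℝ)) ∧ 1 ≤ ∑ q ∈ SP X c w, 1 / (q : ℝ) := by
  obtain ⟨m, rfl⟩ : ∃ m, k = m + 2 := ⟨k - 2, by omega⟩
  rw [show m + 2 - 2 = m by omega, show m + 2 - 1 = m + 1 by omega]
  have hm0 : (0 : ℝ) < (m : ℝ) + 1 := by positivity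
  set δ : ℝ := min (ε / (2 * ((m : ℝ) + 1))) (1 / 2) with hδ
  have hδ0 : 0 < δ := by positivity
  have hδ1 : δ ≤ 1 / 2 := min_le_right _ _
  have hδ2 : δ * (2 * ((m : ℝ) + 1)) ≤ ε := by
    have : δ ≤ ε / (2 * ((m : ℝ) + 1)) := min_le_left _ _
    rwa [le_div_iff₀ (by positivity)] at this
  obtain ⟨η, hη0, hη1, X0, hX0⟩ := mtu_nt c δ (max 2 (2 ^ m / δ)) hδ0
  refine ⟨η, hη0, hη1, X0, fun X N w hX hXN hN2 hw1 hw2 => ?_⟩
  obtain ⟨hN1, hK, ht, hA⟩ := hX0 X N w hX hXN hN2 hw1 hw2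
  set lam : ℝ := Real.log (Real.log N) with hlam
  have hl2 : 2 ≤ lam := (le_max_left _ _).trans hK
  have hlm : 2 ^ m ≤ lam * δ := by
    have := (le_max_right _ _).trans hK
    rwa [div_le_iff₀ hδ0] at this
  have hl0 : 0 < lam := by linarith
  set S : Finset ℕ := SP X c w with hS
  have hSm : ∀ q ∈ S, q.Prime := by
    intro q hq
    rw [hS] at hq
    unfold SP at hq
    exact (mem_filter.1 hq).2.1
  set S' : Finset ℕ := S.filter (fun q => 3 ≤ q) with hS'
  have hAl := hA lam hl0 le_rfl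
  have hAe : ∑ q ∈ S', (if Real.log (Real.log (q : ℝ)) < lam then 1 / (q : ℝ) else 0) = ∑ q ∈ S', 1 / (q : ℝ) := by
    refine sum_congr rfl fun q hq => ?_
    rw [if_pos (ht q hq).2]
  rw [hAe] at hAl
  have hmain : |∑ q ∈ S', 1 / (q : ℝ) * (lam - Real.log (Real.log (q : ℝ))) ^ m - lam ^ (m + 1) / (m + 1)| ≤ δ * lam ^ (m + 1) := by
    rcases Nat.eq_zero_or_pos m with h0 | h0
    · subst h0
      simpa using hAl
    · obtain ⟨j, rfl⟩ : ∃ j, m = j + 1 := ⟨m - 1, by omega⟩
      have := mtu_abs S' (fun q => 1 / (q : ℝ)) (fun q => Real.log (Real.log (q : ℝ))) lam (δ * lam) hl0.le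
        (fun q hq => ⟨(ht q hq).1, (ht q hq).2.le⟩) hA j
      push_cast
      calc _ = |∑ q ∈ S', 1 / (q : ℝ) * (lam - Real.log (Real.log (q : ℝ))) ^ (j + 1) - lam ^ (j + 2) / ((j : ℝ) + 2)| := by
            congr 3
            ring
        _ ≤ δ * lam * lam ^ (j + 1) := this
        _ = δ * lam ^ (j + 1 + 1) := by ring
  have hmL : mL (m + 2) S N = ∑ q ∈ S', 1 / (q : ℝ) * (lam - Real.log (Real.log (q : ℝ))) ^ m +
      ∑ q ∈ S.filter (fun q => ¬ 3 ≤ q), 1 / (q : ℝ) * (lam - Real.log (Real.log (q : ℝ))) ^ m := by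
    rw [hS', sum_filter_add_sum_filter_not]
    unfold mL
    rw [show m + 2 - 2 = m by omega]
    refine sum_congr rfl fun q hq => ?_
    have hq2 := (hSm q hq).two_le
    have : 0 < Real.log q := Real.log_pos (by exact_mod_cast (by omega : 1 < q))
    rw [Real.log_div (by linarith) (by linarith)]
  have h2 : (0 : ℝ) < 1 / 2 * (lam - Real.log (Real.log 2)) := by
    have : Real.log (Real.log 2) < 0 := Real.log_neg (Real.log_pos (by norm_num)) (by
      have := Real.log_two_lt_d9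
      linarith)
    linarith
  have hll2 : -1 ≤ Real.log (Real.log 2) := by
    rw [Real.le_log_iff_exp_le (Real.log_pos (by norm_num))]
    have h1 := Real.log_two_gt_d9
    have h3 : Real.exp (-1) ≤ 1 / 2 := by
      rw [Real.exp_neg]
      rw [inv_eq_one_div]
      apply one_div_le_one_div_of_le (by norm_num)
      have := Real.add_one_le_exp (1 : ℝ)
      linarith
    linarith
  have hrest : 0 ≤ ∑ q ∈ S.filter (fun q => ¬ 3 ≤ q), 1 / (q : ℝ) * (lam - Real.log (Real.log (q : ℝ))) ^ m ∧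
      ∑ q ∈ S.filter (fun q => ¬ 3 ≤ q), 1 / (q : ℝ) * (lam - Real.log (Real.log (q : ℝ))) ^ m ≤ δ * lam ^ (m + 1) := by
    have hsub : S.filter (fun q => ¬ 3 ≤ q) ⊆ {2} := by
      intro q hq
      rw [mem_filter] at hq
      have := (hSm q hq.1).two_le
      rw [mem_singleton]
      omega
    have hnn : ∀ q ∈ ({2} : Finset ℕ), 0 ≤ 1 / (q : ℝ) * (lam - Real.log (Real.log (q : ℝ))) ^ m := by
      intro q hq
      rw [mem_singleton] at hq
      subst hq
      have : 0 ≤ lam - Real.log (Real.log ((2 : ℕ) : ℝ)) := by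
        push_cast
        linarith
      positivity
    refine ⟨sum_nonneg fun q hq => hnn q (hsub hq), ?_⟩
    calc ∑ q ∈ S.filter (fun q => ¬ 3 ≤ q), 1 / (q : ℝ) * (lam - Real.log (Real.log (q : ℝ))) ^ m
        ≤ ∑ q ∈ ({2} : Finset ℕ), 1 / (q : ℝ) * (lam - Real.log (Real.log (q : ℝ))) ^ m :=
          sum_le_sum_of_subset_of_nonneg hsub fun q hq _ => hnn q hq
      _ = 1 / 2 * (lam - Real.log (Real.log 2)) ^ m := by simp
      _ ≤ 1 * (2 * lam) ^ m := by
          apply mul_le_mul (by norm_num) _ (by apply pow_nonneg; linarith) (by norm_num)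
          apply pow_le_pow_left₀ (by linarith)
          linarith
      _ = 2 ^ m * lam ^ m := by rw [mul_pow, one_mul]
      _ ≤ lam * δ * lam ^ m := by gcongr
      _ = δ * lam ^ (m + 1) := by ring
  constructor
  · have hf : (0 : ℝ) < (Nat.factorial m : ℝ) := by exact_mod_cast Nat.factorial_pos m
    have e1 : mL (m + 2) S N / (Nat.factorial m : ℝ) - lam ^ (m + 1) / (Nat.factorial (m + 1) : ℝ) =
        (mL (m + 2) S N - lam ^ (m + 1) / (m + 1)) / (Nat.factorial m : ℝ) := by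
      rw [Nat.factorial_succ]
      push_cast
      field_simp
    have e2 : ε * (lam ^ (m + 1) / (Nat.factorial (m + 1) : ℝ)) = (ε / (m + 1) * lam ^ (m + 1)) / (Nat.factorial m : ℝ) := by
      rw [Nat.factorial_succ]
      push_cast
      field_simp
    rw [e1, e2, abs_div, abs_of_pos hf]
    apply div_le_div_of_nonneg_right _ hf.le
    have h5 : |mL (m + 2) S N - lam ^ (m + 1) / (m + 1)| ≤ 2 * δ * lam ^ (m + 1) := by
      rw [hmL]
      have := abs_le.1 hmain
      rw [abs_le]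
      constructor <;> linarith [hrest.1, hrest.2]
    refine h5.trans ?_
    have h6 : 2 * δ ≤ ε / (m + 1) := by
      rw [le_div_iff₀ hm0]
      linarith
    gcongr
  · have h5 : ∑ q ∈ S', 1 / (q : ℝ) ≤ ∑ q ∈ S, 1 / (q : ℝ) :=
      sum_le_sum_of_subset_of_nonneg (filter_subset _ _) fun q _ _ => by positivity
    have h6 := (abs_le.1 hAl).1
    have h7 : δ * lam ≤ 1 / 2 * lam := mul_le_mul_of_nonneg_right hδ1 hl0.le
    linarith

end Pool.Agent.Lib.GU
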