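import Pool.Agent.Lib.GU.FDefs
import Pool.Agent.Lib.VK.XSp

/-!
# GU, row Nb: the numbers `N - p` with exactly `k` prime factors, the least one outside `(z, w]`, and the majorants, for one `N`

PROOF IN WORDS. Let `p` be counted by `RF k z w H N`, `n = N - p > X ≥ U^k`, `Ω(n) = k` (`ArithmeticFunction.cardFactors_apply`). `G = smo U n`, `s = smo z n` (products of the prime factors `≤ U`, `≤ z` with multiplicity; `smo w n = (n.primeFactorsList.filter (· ≤ w)).prod`, see VK/XDef, XSp). If all the prime factors of `n` were `≤ U`, then `n ≤ U^k`: so `G` has at most `k - 1`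
prime factors (compare T8/Sp.lean, `xsp_gen` in XSp.lean), `G ≤ U^k`. (a) `w < n.minFac`: `G ∈ QR (k-1) w U (U^k)`, `G ∣ n`, no prime `≤ U` divides `n/G` (compare `mj_smo` in GU/Mj.lean), and all the primes of `n` are `> w ≥ z`: both factors of the first product are `≥ 1`. (b) `n.minFac ≤ z`: `s ≥ 2`, `s` has at most `k - 1` prime factors, `s ≤ z^k`: `s ∈ Sm`.
`s ∣ G`, `g = G/s` = the product of the prime factors in `(z, U]` with multiplicity; `g` has at most `k - 2` prime factors: `g ∈ QR (k-2) z U (U^k)`, `g ∣ n` and no prime of `(z, U]` divides `n/g`: both factors of the second product are `≥ 1`. All the products are `≥ 0`.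
-/

set_option autoImplicit false

open Finset

namespace Pool.Agent.Lib.GU

open Pool.Agent.Lib.VKT (smo)

/-- a list is split by a condition -/
private theorem nb_split (l : List ℕ) (w : ℕ) :
    (l.filter fun p => p ≤ w).prod * (l.filter fun p => !decide (p ≤ w)).prod = l.prod := by
  induction l with
  | nil => simp
  | cons a l ih =>
    by_cases h : a ≤ w
    · rw [List.filter_cons_of_pos (by simpa using h), List.filter_cons_of_neg (by simpa using h),
        List.prod_cons, List.prod_cons, ← ih, mul_assoc]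
    · rw [List.filter_cons_of_neg (by simpa using h), List.filter_cons_of_pos (by simpa using h),
        List.prod_cons, List.prod_cons, ← ih]
      ring

private theorem nb_perm {l : List ℕ} (h : ∀ p ∈ l, p.Prime) : l.Perm l.prod.primeFactorsList := Nat.primeFactorsList_unique rfl h

private theorem nb_pos {l : List ℕ} (h : ∀ p ∈ l, p.Prime) : 1 ≤ l.prod := by
  refine Nat.one_le_iff_ne_zero.2 fun h0 => ?_
  exact Nat.not_prime_zero (h _ (List.prod_eq_zero_iff.1 h0))

private theorem nb_smo (w n : ℕ) (hn : 1 ≤ n) {p : ℕ} (hp : p.Prime) (hpn : p ∣ n / smo w n) : w < p := by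
  have h1 : smo w n * (n.primeFactorsList.filter fun p => !decide (p ≤ w)).prod = n := by
    unfold smo
    rw [nb_split, Nat.prod_primeFactorsList (by omega)]
  have h2 : 0 < smo w n := (Pool.Agent.Lib.VKT.smo_spec w n hn).2.1
  have h3 : n / smo w n = (n.primeFactorsList.filter fun p => !decide (p ≤ w)).prod :=
    Nat.div_eq_of_eq_mul_right h2 h1.symm
  rw [h3] at hpn
  have hq : ∀ q ∈ (n.primeFactorsList.filter fun p => !decide (p ≤ w)), q.Prime := fun q hq =>
    Nat.prime_of_mem_primeFactorsList (List.mem_filter.1 hq).1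
  have h4 : p ∈ (n.primeFactorsList.filter fun p => !decide (p ≤ w)) := by
    rw [(nb_perm hq).mem_iff]
    exact (Nat.mem_primeFactorsList (by have := nb_pos hq; omega)).2 ⟨hp, hpn⟩
  have h5 := (List.mem_filter.1 h4).2
  simpa using h5

/-- the prime factors in `(z, U]` -/
private theorem nb_g {k U z n : ℕ} (hk : 2 ≤ k) (hz : 2 ≤ z) (hzU : z ≤ U) (hn : U ^ k < n) (hl : n.primeFactorsList.length = k)
    (hm : n.minFac ≤ z) : (2 ≤ smo z n ∧ smo z n ≤ z ^ k ∧ (smo z n).primeFactorsList.length ≤ k - 1 ∧ ∀ p ∈ (smo z n).primeFactors, p ≤ z) ∧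
    ∃ g ∈ QR (k - 2) z U (U ^ k), g ∣ n ∧ ∀ p : ℕ, p.Prime → z < p → p ≤ U → ¬ p ∣ n / g := by
  have hU1 : 1 ≤ U ^ k := Nat.one_le_pow _ _ (by omega)
  have hn1 : 1 ≤ n := by omega
  have hn0 : n ≠ 0 := by omega
  obtain ⟨hsn, hs1, hsz, hsd⟩ := Pool.Agent.Lib.VKT.smo_spec z n hn1
  obtain ⟨hGn, hG1, hGU, hGd⟩ := Pool.Agent.Lib.VKT.smo_spec U n hn1
  obtain ⟨e1, e2, -⟩ := Pool.Agent.Lib.VKT.smo_exc (k := k) (w := 0) (w' := U) (by omega) (Nat.zero_le _) hn hl
  have hmp : n.minFac.Prime := Nat.minFac_prime (by omega)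
  have hms : n.minFac ∣ smo z n := hsd _ hmp hm (Nat.minFac_dvd n)
  have hs2 : 2 ≤ smo z n := hmp.two_le.trans (Nat.le_of_dvd (by omega) hms)
  -- the lists
  let L := n.primeFactorsList
  let A := L.filter fun p => p ≤ U
  let B := A.filter fun p => p ≤ z
  let C := A.filter fun p => !decide (p ≤ z)
  have hA : ∀ p ∈ A, p.Prime ∧ p ≤ U := fun p hp => by
    have := List.mem_filter.1 hp
    exact ⟨Nat.prime_of_mem_primeFactorsList this.1, by simpa using this.2⟩
  have hAl : A.length = (smo U n).primeFactorsList.length := (nb_perm fun p hp => (hA p hp).1).length_eq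
  have hB : B = L.filter fun p => p ≤ z := by
    show (L.filter _).filter _ = _
    rw [List.filter_filter]
    refine List.filter_congr fun p _ => ?_
    by_cases h : p ≤ z
    · simp [h, h.trans hzU]
    · simp [h]
  have hBs : B.prod = smo z n := by rw [hB]; rfl
  have hBp : ∀ p ∈ B, p.Prime := fun p hp => (hA p (List.mem_filter.1 hp).1).1
  have hCp : ∀ p ∈ C, p.Prime ∧ z < p ∧ p ≤ U := fun p hp => by
    have h := List.mem_filter.1 hp
    exact ⟨(hA p h.1).1, by simpa using h.2, (hA p h.1).2⟩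
  have hCq : ∀ p ∈ C, p.Prime := fun p hp => (hCp p hp).1
  have hBl : B.length = (smo z n).primeFactorsList.length := by
    rw [(nb_perm hBp).length_eq, hBs]
  have hlen : A.length = B.length + C.length := List.length_eq_length_filter_add (l := A) (fun p => decide (p ≤ z))
  have hB1 : 1 ≤ B.length := by
    rw [Nat.one_le_iff_ne_zero]
    intro h
    have h0 : B = [] := List.length_eq_zero_iff.1 h
    rw [h0, List.prod_nil] at hBs
    omega
  have hprod : B.prod * C.prod = smo U n := nb_split A z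
  have hC1 := nb_pos hCq
  have hCle : C.prod ≤ smo U n := by
    rw [← hprod]
    exact Nat.le_mul_of_pos_left _ (by omega)
  have hCG : C.prod ∣ smo U n := ⟨B.prod, by rw [mul_comm, hprod]⟩
  refine ⟨⟨hs2, ?_, by omega, hsz⟩, C.prod, ?_, hCG.trans hGn, fun p hp hzp hpU hd => ?_⟩
  · rw [← hBs]
    refine (List.prod_le_pow_card B z fun p hp => ?_).trans (Nat.pow_le_pow_right (by omega) (by omega))
    simpa using (List.mem_filter.1 hp).2
  · unfold QR
    rw [Finset.mem_filter, Finset.mem_Icc]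
    refine ⟨⟨hC1, hCle.trans e2⟩, ?_, fun p hp => ?_⟩
    · rw [← (nb_perm hCq).length_eq]
      omega
    · rw [Nat.primeFactors, List.mem_toFinset, ← (nb_perm hCq).mem_iff] at hp
      exact (hCp p hp).2
  · have h1 : n / C.prod = smo z n * (n / smo U n) := by
      refine Nat.div_eq_of_eq_mul_right (by omega) ?_
      calc n = smo U n * (n / smo U n) := (Nat.mul_div_cancel' hGn).symm
        _ = B.prod * C.prod * (n / smo U n) := by rw [hprod]
        _ = C.prod * (smo z n * (n / smo U n)) := by rw [hBs]; ring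
    rw [h1] at hd
    rcases (hp.dvd_mul).1 hd with h | h
    · have := hsz p (Nat.mem_primeFactors.2 ⟨hp, h, by omega⟩)
      omega
    · have := nb_smo U n hn1 hp h
      omega

theorem nbU (k U z w X H N : ℕ) (up μ up' μ' : ℕ → ℝ) (Sm : Finset ℕ) (hk : 2 ≤ k) (hz : 2 ≤ z) (hzw : z ≤ w) (hw : w ≤ U) (hU : U ^ k ≤ X) (hN : X + H < N)
    (h1 : ∀ n : ℕ, 1 ≤ n → 0 ≤ ∑ d ∈ n.divisors, up d) (h2 : ∀ n : ℕ, 1 ≤ n → (∀ p : ℕ, p.Prime → p ∣ n → z < p) → 1 ≤ ∑ d ∈ n.divisors, up d)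
    (h3 : ∀ n : ℕ, 1 ≤ n → 0 ≤ ∑ e ∈ n.divisors, μ e) (h4 : ∀ n : ℕ, 1 ≤ n → ∀ g ∈ QR (k - 1) w U (U ^ k), g ∣ n →
      (∀ p : ℕ, p.Prime → z < p → p ≤ U → ¬ p ∣ n / g) → 1 ≤ ∑ e ∈ n.divisors, μ e)
    (h5 : ∀ n : ℕ, 1 ≤ n → 0 ≤ ∑ d ∈ n.divisors, up' d) (h6 : ∀ n : ℕ, 1 ≤ n → smo z n ∈ Sm → 1 ≤ ∑ d ∈ n.divisors, up' d)
    (h7 : ∀ n : ℕ, 1 ≤ n → 0 ≤ ∑ e ∈ n.divisors, μ' e) (h8 : ∀ n : ℕ, 1 ≤ n → ∀ g ∈ QR (k - 2) z U (U ^ k), g ∣ n →
      (∀ p : ℕ, p.Prime → z < p → p ≤ U → ¬ p ∣ n / g) → 1 ≤ ∑ e ∈ n.divisors, μ' e)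
    (hSm : ∀ s : ℕ, 2 ≤ s → s ≤ z ^ k → s.primeFactorsList.length ≤ k - 1 → (∀ p ∈ s.primeFactors, p ≤ z) → s ∈ Sm) :
    (RF k z w H N : ℝ) ≤ ∑ p ∈ (Icc 1 H).filter Nat.Prime, (∑ d ∈ (N - p).divisors, up d) * (∑ e ∈ (N - p).divisors, μ e) +
      ∑ p ∈ (Icc 1 H).filter Nat.Prime, (∑ d ∈ (N - p).divisors, up' d) * (∑ e ∈ (N - p).divisors, μ' e) := by
  classical
  have hU2 : 2 ≤ U := by omega
  have hkey : ∀ p ∈ (Icc 1 H).filter (fun p => p.Prime ∧ ArithmeticFunction.cardFactors (N - p) = k ∧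
      ¬ (z < (N - p).minFac ∧ (N - p).minFac ≤ w)), 1 ≤ (∑ d ∈ (N - p).divisors, up d) * (∑ e ∈ (N - p).divisors, μ e) +
        (∑ d ∈ (N - p).divisors, up' d) * (∑ e ∈ (N - p).divisors, μ' e) := by
    intro p hp
    rw [Finset.mem_filter, Finset.mem_Icc] at hp
    obtain ⟨⟨hp1, hp2⟩, hpp, hcf, hmz⟩ := hp
    have hn1 : 1 ≤ N - p := by omega
    have hn : U ^ k < N - p := by omega
    have hl : (N - p).primeFactorsList.length = k := by
      rw [← ArithmeticFunction.cardFactors_apply]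
      exact hcf
    have a1 := mul_nonneg (h1 _ hn1) (h3 _ hn1)
    have a2 := mul_nonneg (h5 _ hn1) (h7 _ hn1)
    rcases Nat.lt_or_ge w (N - p).minFac with hw1 | hw1
    · have hall : ∀ q : ℕ, q.Prime → q ∣ N - p → w < q := fun q hq hqd =>
        lt_of_lt_of_le hw1 (Nat.minFac_le_of_dvd hq.two_le hqd)
      obtain ⟨hGn, hG1, hGU, -⟩ := Pool.Agent.Lib.VKT.smo_spec U (N - p) hn1
      obtain ⟨e1, e2, -⟩ := Pool.Agent.Lib.VKT.smo_exc (k := k) (w := 0) (w' := U) (by omega) (Nat.zero_le _) hn hl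
      have b1 := h2 (N - p) hn1 fun q hq hqd => lt_of_le_of_lt hzw (hall q hq hqd)
      have b2 := h4 (N - p) hn1 (smo U (N - p)) (by
        unfold QR
        rw [Finset.mem_filter, Finset.mem_Icc]
        refine ⟨⟨hG1, e2⟩, by omega, fun q hq => ⟨hall q (Nat.prime_of_mem_primeFactors hq) ((Nat.dvd_of_mem_primeFactors hq).trans hGn), hGU q hq⟩⟩)
        hGn fun q hq _ hqU hd => by
          have := nb_smo U (N - p) hn1 hq hd
          omega
      nlinarith
    · have hmz' : (N - p).minFac ≤ z := by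
        by_contra hc
        exact hmz ⟨by omega, hw1⟩
      obtain ⟨⟨c1, c2, c3, c4⟩, g, c5, c6, c7⟩ := nb_g hk hz (hzw.trans hw) hn hl hmz'
      have b1 := h6 (N - p) hn1 (hSm _ c1 c2 c3 c4)
      have b2 := h8 (N - p) hn1 g c5 c6 c7
      nlinarith
  have hnn : ∀ p ∈ (Icc 1 H).filter Nat.Prime, 0 ≤ (∑ d ∈ (N - p).divisors, up d) * (∑ e ∈ (N - p).divisors, μ e) +
        (∑ d ∈ (N - p).divisors, up' d) * (∑ e ∈ (N - p).divisors, μ' e) := by
    intro p hp
    rw [Finset.mem_filter, Finset.mem_Icc] at hp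
    have hn1 : 1 ≤ N - p := by omega
    exact add_nonneg (mul_nonneg (h1 _ hn1) (h3 _ hn1)) (mul_nonneg (h5 _ hn1) (h7 _ hn1))
  rw [← Finset.sum_add_distrib]
  unfold RF
  rw [Finset.card_eq_sum_ones, Nat.cast_sum]
  refine (Finset.sum_le_sum fun p hp => ?_).trans (Finset.sum_le_sum_of_subset_of_nonneg (fun p hp => ?_) fun p hp _ => hnn p hp)
  · rw [Nat.cast_one]
    exact hkey p hp
  · rw [Finset.mem_filter] at hp ⊢
    exact ⟨hp.1, hp.2.1⟩

end Pool.Agent.Lib.GU
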