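import Pool.Agent.Lib.GU.FDefs
import Pool.Agent.Lib.G6.Ph
import Pool.Agent.Lib.G5.QDefs

/-!
# GU, row Sb: the sums of `1/g` and `1/φ(s)` over the numbers with few prime factors

PROOF IN WORDS. `sg1 w U = ∑_{w < p ≤ U} 1/p` (G5). Every `g ∈ QR K w U x` is a product of `j ≤ K` primes of `(w, U]`; pad the list with `1`: `∑_g 1/g ≤ ∑ over the K-tuples of {1} ∪ primes of the product of the reciprocals = (1 + sg1 w U)^K`. By induction on `K`: `QR (K+1) w U x ⊆ {1} ∪ {p g : p prime in (w, U], g ∈ QR K w U x}` (`p = g.minFac`, `g/p ≤ x`), and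
`1 + sg1 (1 + sg1)^K ≤ (1 + sg1)^(K+1)`. `sbU2`: `1/φ(s) ≤ 2^K/s` (`G6.ph2`, `2^j ≤ 2^K`), and `sbU1` with `w = 0`.
-/

set_option autoImplicit false

open Finset

namespace Pool.Agent.Lib.GU

open Pool.Agent.Lib.G5 (sg1)

private theorem sb_sg_nonneg (w U : ℕ) : 0 ≤ sg1 w U := by
  unfold Pool.Agent.Lib.G5.sg1
  exact sum_nonneg fun _ _ => by positivity

theorem sbU1 (K w U x : ℕ) : ∑ g ∈ QR K w U x, (1 : ℝ) / g ≤ (1 + sg1 w U) ^ K := by
  classical
  have hs := sb_sg_nonneg w U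
  induction K with
  | zero =>
    have hsub : QR 0 w U x ⊆ {1} := by
      intro g hg
      unfold QR at hg
      rw [mem_filter, mem_Icc] at hg
      rw [mem_singleton]
      have h1 : g.primeFactorsList = [] := List.length_eq_zero_iff.1 (Nat.le_zero.1 hg.2.1)
      rcases (Nat.primeFactorsList_eq_nil g).1 h1 with h | h
      · omega
      · exact h
    refine (sum_le_sum_of_subset_of_nonneg hsub fun _ _ _ => by positivity).trans ?_
    simp
  | succ K ih =>
    obtain ⟨S, hS⟩ : ∃ S, S = (QR (K + 1) w U x).filter fun g => g ≠ 1 := ⟨_, rfl⟩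
    have hmem : ∀ g ∈ S, 1 ≤ g ∧ g.minFac.Prime ∧ g.minFac * (g / g.minFac) = g ∧ g.minFac ∈ Pool.Agent.Lib.G5.PP w U ∧
        g / g.minFac ∈ QR K w U x := by
      intro g hg
      rw [hS, mem_filter] at hg
      obtain ⟨hg1, hg2⟩ := hg
      unfold QR at hg1
      rw [mem_filter, mem_Icc] at hg1
      obtain ⟨⟨h1, h2⟩, h3, h4⟩ := hg1
      have hp := Nat.minFac_prime hg2
      have hmul : g.minFac * (g / g.minFac) = g := Nat.mul_div_cancel' (Nat.minFac_dvd g)
      have hq0 : g / g.minFac ≠ 0 := by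
        intro h
        rw [h, mul_zero] at hmul
        omega
      refine ⟨h1, hp, hmul, ?_, ?_⟩
      · unfold Pool.Agent.Lib.G5.PP
        rw [mem_filter, mem_Ioc]
        exact ⟨h4 _ (Nat.mem_primeFactors.2 ⟨hp, Nat.minFac_dvd g, by omega⟩), hp⟩
      · unfold QR
        rw [mem_filter, mem_Icc]
        refine ⟨⟨Nat.pos_of_ne_zero hq0, (Nat.div_le_self _ _).trans h2⟩, ?_, fun p hp' => ?_⟩
        · have h5 : ArithmeticFunction.cardFactors g = 1 + ArithmeticFunction.cardFactors (g / g.minFac) := by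
            conv_lhs => rw [← hmul]
            rw [ArithmeticFunction.cardFactors_mul hp.ne_zero hq0, ArithmeticFunction.cardFactors_apply_prime hp]
          rw [ArithmeticFunction.cardFactors_apply, ArithmeticFunction.cardFactors_apply] at h5
          omega
        · refine h4 p (Nat.mem_primeFactors.2 ⟨Nat.prime_of_mem_primeFactors hp', ?_, by omega⟩)
          exact (Nat.dvd_of_mem_primeFactors hp').trans (Nat.div_dvd_of_dvd (Nat.minFac_dvd g))
    have hsplit : ∑ g ∈ QR (K + 1) w U x, (1 : ℝ) / g ≤ 1 + ∑ g ∈ S, (1 : ℝ) / g := by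
      have hsub : QR (K + 1) w U x ⊆ insert 1 S := by
        intro g hg
        rw [mem_insert, hS, mem_filter]
        by_cases h : g = 1
        · exact Or.inl h
        · exact Or.inr ⟨hg, h⟩
      refine (sum_le_sum_of_subset_of_nonneg hsub fun _ _ _ => by positivity).trans ?_
      have h1 : (1 : ℕ) ∉ S := by rw [hS, mem_filter]; exact fun h => h.2 rfl
      rw [sum_insert h1]
      simp
    have hS2 : ∑ g ∈ S, (1 : ℝ) / g ≤ sg1 w U * ∑ g ∈ QR K w U x, (1 : ℝ) / g := by
      have hinj : Set.InjOn (fun g : ℕ => (g.minFac, g / g.minFac)) S := by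
        intro g hg g' hg' h
        have e1 := (hmem g hg).2.2.1
        have e2 := (hmem g' hg').2.2.1
        have h1 : g.minFac = g'.minFac := congrArg Prod.fst h
        have h2 : g / g.minFac = g' / g'.minFac := congrArg Prod.snd h
        rw [← e1, ← e2, h2, h1]
      have h1 : ∑ g ∈ S, (1 : ℝ) / g = ∑ y ∈ S.image (fun g : ℕ => (g.minFac, g / g.minFac)), (1 : ℝ) / y.1 * (1 / y.2) := by
        rw [sum_image hinj]
        refine sum_congr rfl fun g hg => ?_
        have e1 := (hmem g hg).2.2.1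
        rw [one_div_mul_one_div]
        congr 1
        change (g : ℝ) = (g.minFac : ℝ) * ((g / g.minFac : ℕ) : ℝ)
        exact_mod_cast e1.symm
      rw [h1, Pool.Agent.Lib.G5.sg1, sum_mul_sum, ← sum_product']
      refine sum_le_sum_of_subset_of_nonneg ?_ fun _ _ _ => by positivity
      intro y hy
      obtain ⟨g, hg, rfl⟩ := mem_image.1 hy
      exact mem_product.2 ⟨(hmem g hg).2.2.2.1, (hmem g hg).2.2.2.2⟩
    have h2 : 1 ≤ (1 + sg1 w U) ^ K := one_le_pow₀ (by linarith)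
    calc ∑ g ∈ QR (K + 1) w U x, (1 : ℝ) / g ≤ 1 + ∑ g ∈ S, (1 : ℝ) / g := hsplit
      _ ≤ 1 + sg1 w U * ∑ g ∈ QR K w U x, (1 : ℝ) / g := by linarith
      _ ≤ (1 + sg1 w U) ^ K + sg1 w U * (1 + sg1 w U) ^ K := add_le_add h2 (mul_le_mul_of_nonneg_left ih hs)
      _ = (1 + sg1 w U) ^ (K + 1) := by ring

theorem sbU2 (K z x : ℕ) : ∑ s ∈ QR K 0 z x, (1 : ℝ) / (Nat.totient s : ℝ) ≤ 2 ^ K * (1 + sg1 0 z) ^ K := by
  refine le_trans ?_ (mul_le_mul_of_nonneg_left (sbU1 K 0 z x) (by positivity))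
  rw [mul_sum]
  refine sum_le_sum fun s hs => ?_
  unfold QR at hs
  rw [mem_filter, mem_Icc] at hs
  have hs0 : (0 : ℝ) < s := by exact_mod_cast hs.1.1
  have h1 := Pool.Agent.Lib.G6.ph2 hs.1.1 (rfl : ArithmeticFunction.cardFactors s = _)
  have h2 : (2 : ℝ) ^ (ArithmeticFunction.cardFactors s) ≤ 2 ^ K := by
    refine pow_le_pow_right₀ (by norm_num) ?_
    rw [ArithmeticFunction.cardFactors_apply]
    exact hs.2.1
  have h3 : (1 : ℝ) / (Nat.totient s : ℝ) = (s : ℝ) / (Nat.totient s : ℝ) * (1 / s) := by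
    field_simp
  rw [h3]
  exact mul_le_mul_of_nonneg_right (h1.trans h2) (by positivity)

end Pool.Agent.Lib.GU
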