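import Mathlib

/-!
# GU, row Va: one term of the variance

PROOF IN WORDS. The number of the `N ∈ (A, A + V]` in a residue class modulo `M ≥ 1` is `V/M + θ`, `|θ| ≤ 1` (`Nat.Ioc_filter_modEq_card` or `Int.Ioc_filter_modEq_card`). As `p, p' ≤ A < N`: `d ∣ N - p` means `N ≡ p mod d` etc. If `gcd(d, d') ∤ p - p'` then no `N` has `d ∣ N - p` and `d' ∣ N - p'`: the sum is `0`. Otherwise these `N` are one class
modulo `m = lcm(d, d')` (`Nat.chineseRemainder'`). `e` and `f` are coprime to `m`. Expand the product of the two brackets: `C11 - C01/e - C10/f + C00/(e f)`, where `C00` counts the `N` of this class: `V/m + θ`; `C10`: with `e ∣ N - p` too: `V/(m e) + θ`; `C01`: with `f ∣ N - p'`: `V/(m f) + θ`; `C11`: with both: `0` if `g = gcd(e, f) ∤ p - p'`,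
otherwise one class modulo `m lcm(e, f)`: `V g/(m e f) + θ`. Total: `(V/m) (1/(e f)) (g [g ∣ p - p'] - 1) + θ'`, `|θ'| ≤ 1 + 1/e + 1/f + 1/(e f) ≤ 4`. (Helpful: one lemma for a system `N ≡ a_i mod m_i`: either empty or one class modulo the lcm; compare WL/Va.lean.)
-/

set_option autoImplicit false

open Finset

namespace Pool.Agent.Lib.GU

/-- the `N` of a window in a residue class -/
private theorem va_count (A V m v : ℕ) (hm : 0 < m) :
    |(((Ioc A (A + V)).filter fun N => N ≡ v [MOD m]).card : ℝ) - (V : ℝ) / m| ≤ 1 := by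
  have h1 := Nat.Ioc_filter_modEq_card A (A + V) hm v
  have hm' : (0 : ℚ) < m := by exact_mod_cast hm
  have e1 : (((A + V : ℕ) : ℚ) - v) / m = ((A : ℚ) - v) / m + (V : ℚ) / m := by
    push_cast
    ring
  have a1 := Int.floor_le ((((A + V : ℕ) : ℚ) - v) / m)
  have a2 := Int.lt_floor_add_one ((((A + V : ℕ) : ℚ) - v) / m)
  have a3 := Int.floor_le (((A : ℚ) - v) / m)
  have a4 := Int.lt_floor_add_one (((A : ℚ) - v) / m)
  have hV : (0 : ℚ) ≤ (V : ℚ) / m := by positivity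
  have h2 : |(((Ioc A (A + V)).filter fun N => N ≡ v [MOD m]).card : ℚ) - (V : ℚ) / m| ≤ 1 := by
    have h3 : (((Ioc A (A + V)).filter fun N => N ≡ v [MOD m]).card : ℚ) =
        ((max (⌊(((A + V : ℕ) : ℚ) - v) / m⌋ - ⌊((A : ℚ) - v) / m⌋) 0 : ℤ) : ℚ) := by
      rw [← h1]
      norm_cast
    rw [h3]
    rw [e1] at a1 a2 ⊢
    set x := ⌊((A : ℚ) - v) / m + (V : ℚ) / m⌋
    set y := ⌊((A : ℚ) - v) / m⌋
    have h4 : y ≤ x := by
      have : (y : ℚ) < x + 1 := by linarith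
      have : y < x + 1 := by exact_mod_cast this
      omega
    rw [max_eq_left (by omega)]
    push_cast
    rw [abs_le]
    constructor <;> linarith
  have h5 : ((|(((Ioc A (A + V)).filter fun N => N ≡ v [MOD m]).card : ℚ) - (V : ℚ) / m| : ℚ) : ℝ) ≤ ((1 : ℚ) : ℝ) := by
    exact_mod_cast h2
  push_cast at h5
  exact h5

/-- a system of two congruences in a window -/
private theorem va_two (A V p p' D D' : ℕ) (hp : p ≤ A) (hp' : p' ≤ A) (hD : 0 < D) (hD' : 0 < D') :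
    |(((Ioc A (A + V)).filter fun N => D ∣ N - p ∧ D' ∣ N - p').card : ℝ) -
      (if p ≡ p' [MOD Nat.gcd D D'] then (V : ℝ) / (Nat.lcm D D' : ℕ) else 0)| ≤ 1 := by
  by_cases h : p ≡ p' [MOD Nat.gcd D D']
  · rw [if_pos h]
    obtain ⟨r, hr1, hr2⟩ := Nat.chineseRemainder' h
    have h1 : ((Ioc A (A + V)).filter fun N => D ∣ N - p ∧ D' ∣ N - p') =
        (Ioc A (A + V)).filter fun N => N ≡ r [MOD Nat.lcm D D'] := by
      refine filter_congr fun N hN => ?_
      rw [mem_Ioc] at hN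
      rw [← Nat.modEq_iff_dvd' (show p ≤ N by omega), ← Nat.modEq_iff_dvd' (show p' ≤ N by omega)]
      constructor
      · rintro ⟨h2, h3⟩
        have h4 : N ≡ r [MOD D] := h2.symm.trans hr1.symm
        have h5 : N ≡ r [MOD D'] := h3.symm.trans hr2.symm
        have h6 := Int.modEq_and_modEq_iff_modEq_lcm.1 ⟨Int.natCast_modEq_iff.2 h4, Int.natCast_modEq_iff.2 h5⟩
        rw [Int.lcm_natCast_natCast] at h6
        exact Int.natCast_modEq_iff.1 h6
      · intro h2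
        exact ⟨((h2.of_dvd (Nat.dvd_lcm_left D D')).trans hr1).symm, ((h2.of_dvd (Nat.dvd_lcm_right D D')).trans hr2).symm⟩
    rw [h1]
    exact va_count A V _ r (Nat.lcm_pos hD hD')
  · rw [if_neg h]
    have h1 : ((Ioc A (A + V)).filter fun N => D ∣ N - p ∧ D' ∣ N - p') = ∅ := by
      refine filter_eq_empty_iff.2 fun N hN h2 => h ?_
      rw [mem_Ioc] at hN
      have h3 : p ≡ N [MOD Nat.gcd D D'] :=
        ((Nat.modEq_iff_dvd' (show p ≤ N by omega)).2 h2.1).of_dvd (Nat.gcd_dvd_left D D')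
      have h4 : p' ≡ N [MOD Nat.gcd D D'] :=
        ((Nat.modEq_iff_dvd' (show p' ≤ N by omega)).2 h2.2).of_dvd (Nat.gcd_dvd_right D D')
      exact h3.trans h4.symm
    rw [h1]
    simp

/-- `1 / lcm` -/
private theorem va_lcm (D D' : ℕ) (hD : 0 < D) (hD' : 0 < D') :
    (1 : ℝ) / (Nat.lcm D D' : ℕ) = (Nat.gcd D D' : ℝ) / (D * D') := by
  have h := Nat.gcd_mul_lcm D D'
  have h' : (Nat.gcd D D' : ℝ) * (Nat.lcm D D' : ℕ) = D * D' := by exact_mod_cast h
  have h1 : (0 : ℝ) < (Nat.lcm D D' : ℕ) := by exact_mod_cast Nat.lcm_pos hD hD'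
  have h2 : (0 : ℝ) < D := by exact_mod_cast hD
  have h3 : (0 : ℝ) < D' := by exact_mod_cast hD'
  rw [div_eq_div_iff h1.ne' (by positivity), one_mul, h']

theorem vaU (A V p p' d d' e f : ℕ) (hp : p ≤ A) (hp' : p' ≤ A) (hd : 1 ≤ d) (hd' : 1 ≤ d') (he : 1 ≤ e) (hf : 1 ≤ f)
    (h1 : Nat.Coprime e d) (h2 : Nat.Coprime e d') (h3 : Nat.Coprime f d) (h4 : Nat.Coprime f d') :
    |∑ N ∈ Ioc A (A + V), (if d ∣ N - p then (1 : ℝ) else 0) * (if d' ∣ N - p' then (1 : ℝ) else 0) *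
      (((if e ∣ N - p then (1 : ℝ) else 0) - 1 / e) * ((if f ∣ N - p' then (1 : ℝ) else 0) - 1 / f))| ≤
      V / (Nat.lcm d d' : ℝ) * (1 / ((e : ℝ) * f) *
        |(Nat.gcd e f : ℝ) * (if ((Nat.gcd e f : ℕ) : ℤ) ∣ (p : ℤ) - p' then (1 : ℝ) else 0) - 1|) + 4 := by
  have hd0 : 0 < d := hd
  have hd0' : 0 < d' := hd'
  have he0 : 0 < e := he
  have hf0 : 0 < f := hf
  have heR : (1 : ℝ) ≤ e := by exact_mod_cast he
  have hfR : (1 : ℝ) ≤ f := by exact_mod_cast hf
  have hdR : (1 : ℝ) ≤ d := by exact_mod_cast hd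
  have hdR' : (1 : ℝ) ≤ d' := by exact_mod_cast hd'
  by_cases hG : p ≡ p' [MOD Nat.gcd d d']
  · -- the gcds
    have g10 : Nat.gcd (d * e) d' = Nat.gcd d d' := Nat.Coprime.gcd_mul_right_cancel d h2
    have g01 : Nat.gcd d (d' * f) = Nat.gcd d d' := Nat.Coprime.gcd_mul_right_cancel_right d' h3
    have g11 : Nat.gcd (d * e) (d' * f) = Nat.gcd d d' * Nat.gcd e f := by
      rw [Nat.Coprime.gcd_mul (d * e) h4.symm, g10]
      congr 1
      exact Nat.Coprime.gcd_mul_left_cancel e h3.symm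
    have hcop : Nat.Coprime (Nat.gcd d d') (Nat.gcd e f) :=
      Nat.Coprime.coprime_dvd_left (Nat.gcd_dvd_left d d') (Nat.Coprime.coprime_dvd_right (Nat.gcd_dvd_left e f) h1.symm)
    -- the four counts
    have c00 := va_two A V p p' d d' hp hp' hd0 hd0'
    have c10 := va_two A V p p' (d * e) d' hp hp' (Nat.mul_pos hd0 he0) hd0'
    have c01 := va_two A V p p' d (d' * f) hp hp' hd0 (Nat.mul_pos hd0' hf0)
    have c11 := va_two A V p p' (d * e) (d' * f) hp hp' (Nat.mul_pos hd0 he0) (Nat.mul_pos hd0' hf0)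
    rw [if_pos hG, ← mul_one_div, va_lcm d d' hd0 hd0'] at c00
    rw [g10, if_pos hG, ← mul_one_div, va_lcm (d * e) d' (Nat.mul_pos hd0 he0) hd0', g10] at c10
    rw [g01, if_pos hG, ← mul_one_div, va_lcm d (d' * f) hd0 (Nat.mul_pos hd0' hf0), g01] at c01
    rw [← mul_one_div, va_lcm (d * e) (d' * f) (Nat.mul_pos hd0 he0) (Nat.mul_pos hd0' hf0), g11] at c11
    have hiff : (p ≡ p' [MOD Nat.gcd d d' * Nat.gcd e f]) ↔ (((Nat.gcd e f : ℕ) : ℤ) ∣ (p : ℤ) - p') := by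
      rw [← Nat.modEq_and_modEq_iff_modEq_mul hcop]
      constructor
      · intro h
        have := Nat.modEq_iff_dvd.1 h.2.symm
        exact this
      · intro h
        exact ⟨hG, (Nat.modEq_iff_dvd.2 h).symm⟩
    have hexp : ∑ N ∈ Ioc A (A + V), (if d ∣ N - p then (1 : ℝ) else 0) * (if d' ∣ N - p' then (1 : ℝ) else 0) *
        (((if e ∣ N - p then (1 : ℝ) else 0) - 1 / e) * ((if f ∣ N - p' then (1 : ℝ) else 0) - 1 / f)) =
        (((Ioc A (A + V)).filter fun N => d * e ∣ N - p ∧ d' * f ∣ N - p').card : ℝ) -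
          1 / e * (((Ioc A (A + V)).filter fun N => d ∣ N - p ∧ d' * f ∣ N - p').card : ℝ) -
          1 / f * (((Ioc A (A + V)).filter fun N => d * e ∣ N - p ∧ d' ∣ N - p').card : ℝ) +
          1 / (e * f) * (((Ioc A (A + V)).filter fun N => d ∣ N - p ∧ d' ∣ N - p').card : ℝ) := by
      rw [← sum_boole, ← sum_boole, ← sum_boole, ← sum_boole, mul_sum, mul_sum, mul_sum, ← sum_sub_distrib,
        ← sum_sub_distrib, ← sum_add_distrib]
      refine sum_congr rfl fun N _ => ?_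
      have i1 : d * e ∣ N - p ↔ d ∣ N - p ∧ e ∣ N - p :=
        ⟨fun h => ⟨(Dvd.intro _ rfl).trans h, (Dvd.intro_left _ rfl).trans h⟩, fun h => h1.symm.mul_dvd_of_dvd_of_dvd h.1 h.2⟩
      have i2 : d' * f ∣ N - p' ↔ d' ∣ N - p' ∧ f ∣ N - p' :=
        ⟨fun h => ⟨(Dvd.intro _ rfl).trans h, (Dvd.intro_left _ rfl).trans h⟩, fun h => h4.symm.mul_dvd_of_dvd_of_dvd h.1 h.2⟩
      by_cases b1 : d ∣ N - p <;> by_cases b2 : d' ∣ N - p' <;> by_cases b3 : e ∣ N - p <;> by_cases b4 : f ∣ N - p' <;>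
        simp [i1, i2, b1, b2, b3, b4] <;> ring
    rw [hexp]
    set C11 : ℝ := (((Ioc A (A + V)).filter fun N => d * e ∣ N - p ∧ d' * f ∣ N - p').card : ℝ)
    set C01 : ℝ := (((Ioc A (A + V)).filter fun N => d ∣ N - p ∧ d' * f ∣ N - p').card : ℝ)
    set C10 : ℝ := (((Ioc A (A + V)).filter fun N => d * e ∣ N - p ∧ d' ∣ N - p').card : ℝ)
    set C00 : ℝ := (((Ioc A (A + V)).filter fun N => d ∣ N - p ∧ d' ∣ N - p').card : ℝ)
    have hm : (V : ℝ) / (Nat.lcm d d' : ℝ) = V * ((Nat.gcd d d' : ℝ) / (d * d')) := by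
      rw [← va_lcm d d' hd0 hd0', mul_one_div]
    rw [hm]
    have c11' : |C11 - V * ((Nat.gcd d d' : ℝ) / (d * d')) * (1 / ((e : ℝ) * f) * ((Nat.gcd e f : ℝ) *
        (if ((Nat.gcd e f : ℕ) : ℤ) ∣ (p : ℤ) - p' then (1 : ℝ) else 0)))| ≤ 1 := by
      refine le_trans (le_of_eq ?_) c11
      congr 2
      by_cases b : ((Nat.gcd e f : ℕ) : ℤ) ∣ (p : ℤ) - p'
      · rw [if_pos b, if_pos (hiff.2 b)]
        push_cast
        field_simp
      · rw [if_neg b, if_neg (fun h => b (hiff.1 h))]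
        ring
    set u : ℝ := (if ((Nat.gcd e f : ℕ) : ℤ) ∣ (p : ℤ) - p' then (1 : ℝ) else 0)
    set M : ℝ := V * ((Nat.gcd d d' : ℝ) / (d * d')) with hM
    have hM0 : 0 ≤ M := by positivity
    have c10' : |C10 - M / e| ≤ 1 := by
      refine le_trans (le_of_eq ?_) c10
      congr 2
      rw [hM]
      push_cast
      field_simp
    have c01' : |C01 - M / f| ≤ 1 := by
      refine le_trans (le_of_eq ?_) c01
      congr 2
      rw [hM]
      push_cast
      field_simp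
    have c00' : |C00 - M| ≤ 1 := c00
    have he1 : 1 / (e : ℝ) ≤ 1 := by
      rw [div_le_one (by linarith)]
      exact heR
    have hf1 : 1 / (f : ℝ) ≤ 1 := by
      rw [div_le_one (by linarith)]
      exact hfR
    have he2 : 0 ≤ 1 / (e : ℝ) := by positivity
    have hf2 : 0 ≤ 1 / (f : ℝ) := by positivity
    have hid : C11 - 1 / e * C01 - 1 / f * C10 + 1 / (e * f) * C00 =
        M * (1 / ((e : ℝ) * f)) * ((Nat.gcd e f : ℝ) * u - 1) +
          ((C11 - M * (1 / ((e : ℝ) * f) * ((Nat.gcd e f : ℝ) * u))) - 1 / e * (C01 - M / f) -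
            1 / f * (C10 - M / e) + 1 / e * (1 / f) * (C00 - M)) := by
      field_simp
      ring
    rw [hid]
    have t1 : |M * (1 / ((e : ℝ) * f)) * ((Nat.gcd e f : ℝ) * u - 1)| =
        M * (1 / ((e : ℝ) * f) * |(Nat.gcd e f : ℝ) * u - 1|) := by
      rw [abs_mul, abs_of_nonneg (by positivity), mul_assoc]
    have t2 : |1 / (e : ℝ) * (C01 - M / f)| ≤ 1 := by
      rw [abs_mul, abs_of_nonneg he2]
      calc 1 / (e : ℝ) * |C01 - M / f| ≤ 1 * 1 := mul_le_mul he1 c01' (abs_nonneg _) zero_le_one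
        _ = 1 := by ring
    have t3 : |1 / (f : ℝ) * (C10 - M / e)| ≤ 1 := by
      rw [abs_mul, abs_of_nonneg hf2]
      calc 1 / (f : ℝ) * |C10 - M / e| ≤ 1 * 1 := mul_le_mul hf1 c10' (abs_nonneg _) zero_le_one
        _ = 1 := by ring
    have t4 : |1 / (e : ℝ) * (1 / f) * (C00 - M)| ≤ 1 := by
      rw [abs_mul, abs_of_nonneg (mul_nonneg he2 hf2)]
      calc 1 / (e : ℝ) * (1 / f) * |C00 - M| ≤ 1 * 1 * 1 :=
            mul_le_mul (mul_le_mul he1 hf1 hf2 zero_le_one) c00' (abs_nonneg _) (by norm_num)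
        _ = 1 := by ring
    refine (abs_add_le _ _).trans ?_
    rw [t1]
    have t5 : |(C11 - M * (1 / ((e : ℝ) * f) * ((Nat.gcd e f : ℝ) * u))) - 1 / e * (C01 - M / f) -
            1 / f * (C10 - M / e) + 1 / e * (1 / f) * (C00 - M)| ≤ 4 := by
      rw [abs_le] at c11' t2 t3 t4 ⊢
      constructor <;> linarith [c11'.1, c11'.2, t2.1, t2.2, t3.1, t3.2, t4.1, t4.2]
    linarith
  · have hz : ∑ N ∈ Ioc A (A + V), (if d ∣ N - p then (1 : ℝ) else 0) * (if d' ∣ N - p' then (1 : ℝ) else 0) *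
        (((if e ∣ N - p then (1 : ℝ) else 0) - 1 / e) * ((if f ∣ N - p' then (1 : ℝ) else 0) - 1 / f)) = 0 := by
      refine sum_eq_zero fun N hN => ?_
      rw [mem_Ioc] at hN
      by_cases b1 : d ∣ N - p
      · by_cases b2 : d' ∣ N - p'
        · exfalso
          refine hG ?_
          have h3' : p ≡ N [MOD Nat.gcd d d'] :=
            ((Nat.modEq_iff_dvd' (show p ≤ N by omega)).2 b1).of_dvd (Nat.gcd_dvd_left d d')
          have h4' : p' ≡ N [MOD Nat.gcd d d'] :=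
            ((Nat.modEq_iff_dvd' (show p' ≤ N by omega)).2 b2).of_dvd (Nat.gcd_dvd_right d d')
          exact h3'.trans h4'.symm
        · simp [b2]
      · simp [b1]
    rw [hz, abs_zero]
    positivity

end Pool.Agent.Lib.GU
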