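import Mathlib

/-!
# GU, row Vb: two elementary sums

PROOF IN WORDS. `vbU1`: `1/lcm(d, d') = gcd(d, d')/(d d') ≤ ∑_{c ∣ d, c ∣ d'} c/(d d')` (the term `c = gcd` alone suffices), so the sum is at most `∑_{c ≤ D} c (∑_{d ≤ D, c ∣ d} 1/d)^2 ≤ ∑_{c ≤ D} (1/c) (1 + log D)^2 ≤ (1 + log D)^3` (`d = c t`, `∑_{t ≤ D} 1/t ≤ 1 + log D`: `harmonic_le_one_add_log`; compare WL/VaA.lean).
`vbU2`: `|g [g ∣ p - p'] - 1| ≤ g [g ∣ p - p'] + 1`; for each `p` at most `H/g + 1` of the `p' ∈ [1, H]` are `≡ p mod g`; so the sum is at most `g H (H/g + 1) + H^2 = 2 H^2 + g H ≤ g (2 H^2/z + H)` as `z ≤ g`.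
-/

set_option autoImplicit false

open Finset

namespace Pool.Agent.Lib.GU

private theorem vb_h (D : ℕ) : ∑ t ∈ Icc 1 D, 1 / (t : ℝ) ≤ 1 + Real.log D := by
  have h := harmonic_le_one_add_log D
  rw [harmonic_eq_sum_Icc] at h
  push_cast at h
  refine le_trans (le_of_eq (sum_congr rfl fun t _ => ?_)) h
  rw [one_div]

private theorem vb_mult (D c : ℕ) (hc : 1 ≤ c) : ∑ d ∈ Icc 1 D, (if c ∣ d then 1 / (d : ℝ) else 0) ≤
    (1 / (c : ℝ)) * ∑ t ∈ Icc 1 D, 1 / (t : ℝ) := by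
  rw [← sum_filter, mul_sum]
  have hinj : Set.InjOn (fun t : ℕ => c * t) (Icc 1 D : Finset ℕ) := fun a _ b _ h => Nat.eq_of_mul_eq_mul_left hc h
  calc ∑ d ∈ (Icc 1 D).filter (fun d => c ∣ d), 1 / (d : ℝ)
      ≤ ∑ d ∈ (Icc 1 D).image (fun t : ℕ => c * t), 1 / (d : ℝ) := by
        refine sum_le_sum_of_subset_of_nonneg ?_ fun _ _ _ => by positivity
        intro d hd
        rw [mem_filter, mem_Icc] at hd
        obtain ⟨⟨h1, h2⟩, t, rfl⟩ := hd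
        refine mem_image.2 ⟨t, mem_Icc.2 ⟨?_, ?_⟩, rfl⟩
        · by_contra hcon
          have : t = 0 := by omega
          subst this
          simp at h1
        · calc t = 1 * t := (one_mul t).symm
            _ ≤ c * t := Nat.mul_le_mul_right t hc
            _ ≤ D := h2
    _ = ∑ t ∈ Icc 1 D, 1 / ((c * t : ℕ) : ℝ) := sum_image hinj
    _ = ∑ t ∈ Icc 1 D, 1 / (c : ℝ) * (1 / (t : ℝ)) := by
        refine sum_congr rfl fun t _ => ?_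
        push_cast
        rw [div_mul_div_comm, one_mul]

theorem vbU1 (D : ℕ) : ∑ d ∈ Icc 1 D, ∑ d' ∈ Icc 1 D, 1 / (Nat.lcm d d' : ℝ) ≤ (1 + Real.log D) ^ 3 := by
  obtain ⟨h, hh⟩ : ∃ h : ℝ, h = ∑ t ∈ Icc 1 D, 1 / (t : ℝ) := ⟨_, rfl⟩
  have hh0 : 0 ≤ h := by rw [hh]; positivity
  have hh1 : h ≤ 1 + Real.log D := by rw [hh]; exact vb_h D
  have h1 : ∀ d ∈ Icc 1 D, ∀ d' ∈ Icc 1 D, 1 / (Nat.lcm d d' : ℝ) ≤
      ∑ c ∈ Icc 1 D, (c : ℝ) * ((if c ∣ d then 1 / (d : ℝ) else 0) * (if c ∣ d' then 1 / (d' : ℝ) else 0)) := by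
    intro d hd d' hd'
    rw [mem_Icc] at hd hd'
    have hg : 0 < Nat.gcd d d' := Nat.gcd_pos_of_pos_left _ (by omega)
    have hgD : Nat.gcd d d' ∈ Icc 1 D := mem_Icc.2 ⟨hg, (Nat.gcd_le_left _ (by omega)).trans hd.2⟩
    refine le_trans (le_of_eq ?_) (single_le_sum (f := fun c : ℕ => (c : ℝ) * ((if c ∣ d then 1 / (d : ℝ) else 0) *
      (if c ∣ d' then 1 / (d' : ℝ) else 0))) (fun c _ => ?_) hgD)
    · show 1 / (Nat.lcm d d' : ℝ) = (Nat.gcd d d' : ℝ) * ((if Nat.gcd d d' ∣ d then 1 / (d : ℝ) else 0) *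
        (if Nat.gcd d d' ∣ d' then 1 / (d' : ℝ) else 0))
      rw [if_pos (Nat.gcd_dvd_left _ _), if_pos (Nat.gcd_dvd_right _ _)]
      have hm : (Nat.gcd d d' : ℝ) * (Nat.lcm d d' : ℝ) = d * d' := by
        exact_mod_cast Nat.gcd_mul_lcm d d'
      have hd0 : (d : ℝ) ≠ 0 := by
        have : d ≠ 0 := by omega
        exact_mod_cast this
      have hd0' : (d' : ℝ) ≠ 0 := by
        have : d' ≠ 0 := by omega
        exact_mod_cast this
      have hl : (Nat.lcm d d' : ℝ) ≠ 0 := by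
        have : Nat.lcm d d' ≠ 0 := Nat.lcm_ne_zero (by omega) (by omega)
        exact_mod_cast this
      rw [div_mul_div_comm, one_mul, ← mul_div_assoc, mul_one, div_eq_div_iff hl (mul_ne_zero hd0 hd0'), one_mul, hm]
    · positivity
  calc ∑ d ∈ Icc 1 D, ∑ d' ∈ Icc 1 D, 1 / (Nat.lcm d d' : ℝ)
      ≤ ∑ d ∈ Icc 1 D, ∑ d' ∈ Icc 1 D, ∑ c ∈ Icc 1 D,
          (c : ℝ) * ((if c ∣ d then 1 / (d : ℝ) else 0) * (if c ∣ d' then 1 / (d' : ℝ) else 0)) :=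
        sum_le_sum fun d hd => sum_le_sum fun d' hd' => h1 d hd d' hd'
    _ = ∑ c ∈ Icc 1 D, (c : ℝ) * ((∑ d ∈ Icc 1 D, (if c ∣ d then 1 / (d : ℝ) else 0)) *
          (∑ d' ∈ Icc 1 D, (if c ∣ d' then 1 / (d' : ℝ) else 0))) := by
        rw [sum_congr rfl fun d _ => sum_comm, sum_comm]
        refine sum_congr rfl fun c _ => ?_
        rw [sum_mul_sum, mul_sum]
        refine sum_congr rfl fun d _ => ?_
        rw [mul_sum]
    _ ≤ ∑ c ∈ Icc 1 D, (c : ℝ) * ((1 / (c : ℝ) * h) * (1 / (c : ℝ) * h)) := by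
        refine sum_le_sum fun c hc => ?_
        rw [mem_Icc] at hc
        have h2 := vb_mult D c hc.1
        rw [← hh] at h2
        have h3 : 0 ≤ ∑ d ∈ Icc 1 D, (if c ∣ d then 1 / (d : ℝ) else 0) := sum_nonneg fun d _ => by positivity
        exact mul_le_mul_of_nonneg_left (mul_le_mul h2 h2 h3 (h3.trans h2)) (Nat.cast_nonneg _)
    _ = h ^ 3 := by
        have h4 : ∀ c ∈ Icc 1 D, (c : ℝ) * ((1 / (c : ℝ) * h) * (1 / (c : ℝ) * h)) = h ^ 2 * (1 / (c : ℝ)) := by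
          intro c hc
          rw [mem_Icc] at hc
          have hc0 : (c : ℝ) ≠ 0 := by
            have : c ≠ 0 := by omega
            exact_mod_cast this
          field_simp
        rw [sum_congr rfl h4, ← mul_sum, ← hh]
        ring
    _ ≤ (1 + Real.log D) ^ 3 := pow_le_pow_left₀ hh0 hh1 3

private theorem vb_count (H g p : ℕ) (hg : 0 < g) :
    ((((Icc 1 H).filter fun p' : ℕ => (g : ℤ) ∣ (p : ℤ) - p').card : ℕ) : ℝ) ≤ (H : ℝ) / g + 1 := by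
  have h0 : (Icc 1 H).filter (fun p' : ℕ => (g : ℤ) ∣ (p : ℤ) - p') = (Ioc 0 H).filter fun p' : ℕ => p' ≡ p [MOD g] := by
    ext x
    rw [mem_filter, mem_filter, mem_Icc, mem_Ioc]
    have : ((g : ℤ) ∣ (p : ℤ) - x) ↔ x ≡ p [MOD g] := (Nat.modEq_iff_dvd).symm
    rw [this]
    constructor
    · rintro ⟨⟨h1, h2⟩, h3⟩
      exact ⟨⟨by omega, h2⟩, h3⟩
    · rintro ⟨⟨h1, h2⟩, h3⟩
      exact ⟨⟨by omega, h2⟩, h3⟩
  have h1 := Nat.Ioc_filter_modEq_card 0 H hg p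
  rw [h0]
  have h2 : (((((Ioc 0 H).filter fun p' : ℕ => p' ≡ p [MOD g]).card : ℕ) : ℤ) : ℚ) ≤ (H : ℚ) / g + 1 := by
    rw [h1]
    have h3 : (⌊((H : ℚ) - p) / g⌋ : ℚ) ≤ ((H : ℚ) - p) / g := Int.floor_le _
    have h4 : (((0 : ℕ) : ℚ) - p) / g < (⌊(((0 : ℕ) : ℚ) - p) / g⌋ : ℚ) + 1 := Int.lt_floor_add_one _
    have h5 : ((H : ℚ) - p) / g = (H : ℚ) / g + (((0 : ℕ) : ℚ) - p) / g := by
      rw [← add_div]
      congr 1
      push_cast
      ring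
    have h6 : (0 : ℚ) ≤ (H : ℚ) / g + 1 := by positivity
    push_cast
    refine max_le ?_ h6
    push_cast at h4 h5
    linarith
  have h7 : ((((((Ioc 0 H).filter fun p' : ℕ => p' ≡ p [MOD g]).card : ℕ) : ℤ) : ℚ) : ℝ) ≤ (((H : ℚ) / g + 1 : ℚ) : ℝ) :=
    Rat.cast_le.2 h2
  push_cast at h7
  exact h7

theorem vbU2 (H g z : ℕ) (hz : 1 ≤ z) (hg : z < g) :
    ∑ p ∈ Icc 1 H, ∑ p' ∈ Icc 1 H, |(g : ℝ) * (if (g : ℤ) ∣ (p : ℤ) - p' then (1 : ℝ) else 0) - 1| ≤ g * (2 * (H : ℝ) ^ 2 / z + H) := by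
  have hg0 : 0 < g := by omega
  have hgR : (0 : ℝ) < g := by exact_mod_cast hg0
  have hzR : (0 : ℝ) < z := by exact_mod_cast hz
  have hzg : (z : ℝ) ≤ g := by exact_mod_cast hg.le
  have h1 : ∀ p ∈ Icc 1 H, ∑ p' ∈ Icc 1 H, |(g : ℝ) * (if (g : ℤ) ∣ (p : ℤ) - p' then (1 : ℝ) else 0) - 1| ≤ 2 * (H : ℝ) + g := by
    intro p _
    calc ∑ p' ∈ Icc 1 H, |(g : ℝ) * (if (g : ℤ) ∣ (p : ℤ) - p' then (1 : ℝ) else 0) - 1|
        ≤ ∑ p' ∈ Icc 1 H, ((g : ℝ) * (if (g : ℤ) ∣ (p : ℤ) - p' then (1 : ℝ) else 0) + 1) := by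
          refine sum_le_sum fun p' _ => ?_
          have h2 : (0 : ℝ) ≤ (g : ℝ) * (if (g : ℤ) ∣ (p : ℤ) - p' then (1 : ℝ) else 0) := by positivity
          rw [abs_le]
          constructor
          · linarith
          · linarith
      _ = (g : ℝ) * (((Icc 1 H).filter fun p' : ℕ => (g : ℤ) ∣ (p : ℤ) - p').card : ℝ) + H := by
          rw [sum_add_distrib, ← mul_sum, sum_boole, sum_const, Nat.card_Icc, nsmul_eq_mul, mul_one]
          congr 1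
      _ ≤ (g : ℝ) * ((H : ℝ) / g + 1) + H := by
          have := vb_count H g p hg0
          have := mul_le_mul_of_nonneg_left this hgR.le
          linarith
      _ = 2 * (H : ℝ) + g := by
          field_simp
          ring
  calc ∑ p ∈ Icc 1 H, ∑ p' ∈ Icc 1 H, |(g : ℝ) * (if (g : ℤ) ∣ (p : ℤ) - p' then (1 : ℝ) else 0) - 1|
      ≤ ∑ p ∈ Icc 1 H, (2 * (H : ℝ) + g) := sum_le_sum h1
    _ = (H : ℝ) * (2 * (H : ℝ) + g) := by
        rw [sum_const, Nat.card_Icc, nsmul_eq_mul]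
        simp
    _ ≤ g * (2 * (H : ℝ) ^ 2 / z + H) := by
        have h3 : 2 * (H : ℝ) ^ 2 ≤ g * (2 * (H : ℝ) ^ 2 / z) := by
          rw [← mul_div_assoc, le_div_iff₀ hzR]
          have : 0 ≤ 2 * (H : ℝ) ^ 2 := by positivity
          nlinarith
        nlinarith

end Pool.Agent.Lib.GU
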