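import Pool.Agent.Lib.WL.VaA
import Pool.Agent.Lib.GU.Va
import Pool.Agent.Lib.GU.Vb

/-!
# GU, row Vg: as row Vr, with `|up d| ≤ τ(d)` (copy of GU/Vr.lean)

PROOF IN WORDS. Copy of the landed GU/Vr.lean. `∑_{d, d' ≤ D} τ(d) τ(d')/lcm(d, d') = ∑ τ(d) τ(d') gcd(d, d')/(d d') ≤ (1 + log D)^8` (`WL.s2W`) in the place of `vbU1`; the terms `4`: at most `4 H^2 (∑_{d ≤ D} τ(d))^2 (∑_{e ≤ R} τ(e))^2 ≤ 4 H^2 D^4 R^4`.
-/

set_option autoImplicit false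

open Finset

namespace Pool.Agent.Lib.GU

private theorem vg_fac (DD EE : Finset ℕ) (φ ψ : ℕ → ℕ → ℝ) :
    ∑ x ∈ DD ×ˢ EE, ∑ y ∈ DD ×ˢ EE, φ x.1 y.1 * ψ x.2 y.2 =
      (∑ d ∈ DD, ∑ d' ∈ DD, φ d d') * ∑ e ∈ EE, ∑ f ∈ EE, ψ e f := by
  rw [sum_mul_sum, sum_product]
  refine sum_congr rfl fun d _ => sum_congr rfl fun e _ => ?_
  rw [sum_mul_sum, sum_product]

private theorem vg_rearr {α β : Type*} (P : Finset α) (X : Finset β) (F : α × β → α × β → ℝ) :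
    ∑ y ∈ P ×ˢ X, ∑ y' ∈ P ×ˢ X, F y y' = ∑ x ∈ X, ∑ x' ∈ X, ∑ p ∈ P, ∑ p' ∈ P, F (p, x) (p', x') := by
  rw [sum_product_right]
  refine sum_congr rfl fun x _ => ?_
  rw [sum_comm]
  rw [sum_product_right]
  refine sum_congr rfl fun x' _ => ?_
  rw [sum_comm]

private theorem vg_cop (z e d : ℕ) (h1 : ∀ p : ℕ, p.Prime → p ∣ e → z < p) (h2 : ∀ p : ℕ, p.Prime → p ∣ d → p ≤ z) :
    Nat.Coprime e d := by
  by_contra h
  obtain ⟨q, hq, hqe, hqd⟩ := Nat.Prime.not_coprime_iff_dvd.1 h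
  have := h1 q hq hqe
  have := h2 q hq hqd
  omega

private theorem vg_S (H z e f : ℕ) (hz : 1 ≤ z) (he : 1 ≤ e) (h1 : ∀ p : ℕ, p.Prime → p ∣ e → z < p) :
    ∑ p ∈ Icc 1 H, ∑ p' ∈ Icc 1 H, |(Nat.gcd e f : ℝ) * (if ((Nat.gcd e f : ℕ) : ℤ) ∣ (p : ℤ) - p' then (1 : ℝ) else 0) - 1| ≤
      (Nat.gcd e f : ℝ) * (2 * (H : ℝ) ^ 2 / z + H) := by
  have hg0 : 0 < Nat.gcd e f := Nat.gcd_pos_of_pos_left f he
  by_cases hg : Nat.gcd e f = 1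
  · rw [hg]
    have h2 : ∑ p ∈ Icc 1 H, ∑ p' ∈ Icc 1 H, |((1 : ℕ) : ℝ) * (if ((1 : ℕ) : ℤ) ∣ (p : ℤ) - p' then (1 : ℝ) else 0) - 1| = 0 := by
      refine sum_eq_zero fun p _ => sum_eq_zero fun p' _ => ?_
      have h3 : ((1 : ℕ) : ℤ) ∣ (p : ℤ) - p' := by
        rw [Nat.cast_one]
        exact one_dvd _
      rw [if_pos h3]
      norm_num
    rw [h2]
    positivity
  · obtain ⟨q, hq, hqg⟩ := Nat.exists_prime_and_dvd hg
    have h3 := h1 q hq (hqg.trans (Nat.gcd_dvd_left e f))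
    have h4 := Nat.le_of_dvd hg0 hqg
    exact vbU2 H (Nat.gcd e f) z hz (by omega)

private theorem vg_div (T : ℕ) (κ : ℕ → ℝ) (Q : ℕ → Prop) [DecidablePred Q] (h1 : ∀ d, κ d ≠ 0 → 1 ≤ d ∧ d ≤ T ∧ Q d) (n : ℕ) (hn : 1 ≤ n) :
    ∑ d ∈ n.divisors, κ d = ∑ d ∈ (Icc 1 T).filter Q, κ d * (if d ∣ n then (1 : ℝ) else 0) := by
  have h3 : ∑ e ∈ (Icc 1 T).filter Q, κ e * (if e ∣ n then (1 : ℝ) else 0) = ∑ e ∈ ((Icc 1 T).filter Q).filter (fun e => e ∣ n), κ e := by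
    symm
    refine (sum_filter _ _).trans (sum_congr rfl fun e _ => ?_)
    split_ifs <;> simp
  rw [h3]
  symm
  refine sum_subset_zero_on_sdiff ?_ ?_ fun _ _ => rfl
  · intro e he
    have h4 := mem_filter.1 he
    exact Nat.mem_divisors.2 ⟨h4.2, by omega⟩
  · intro e he
    have h4 := mem_sdiff.1 he
    by_contra h5
    have h6 := h1 e h5
    exact h4.2 (mem_filter.2 ⟨mem_filter.2 ⟨mem_Icc.2 ⟨h6.1, h6.2.1⟩, h6.2.2⟩, (Nat.mem_divisors.1 h4.1).1⟩)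

theorem vrG (A V H D R z : ℕ) (hH : H ≤ A) (hz : 1 ≤ z) (b : ℕ → ℝ) (hb : ∀ p, |b p| ≤ 1) (up μ : ℕ → ℝ)
    (h1 : ∀ d, up d ≠ 0 → 1 ≤ d ∧ d ≤ D ∧ ∀ p : ℕ, p.Prime → p ∣ d → p ≤ z) (h2 : ∀ d, |up d| ≤ (d.divisors.card : ℝ))
    (h3 : ∀ e, μ e ≠ 0 → 1 ≤ e ∧ e ≤ R ∧ ∀ p : ℕ, p.Prime → p ∣ e → z < p) (h4 : ∀ e, |μ e| ≤ (e.divisors.card : ℝ)) :
    ∑ N ∈ Ioc A (A + V), (∑ p ∈ Icc 1 H, b p * ((∑ d ∈ (N - p).divisors, up d) *
      (∑ e ∈ (N - p).divisors, μ e - ∑ e ∈ Icc 1 R, μ e / e))) ^ 2 ≤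
      V * (1 + Real.log D) ^ 8 * (1 + Real.log R) ^ 8 * (2 * (H : ℝ) ^ 2 / z + H) + 4 * (H : ℝ) ^ 2 * (D : ℝ) ^ 4 * (R : ℝ) ^ 4 := by
  classical
  obtain ⟨Q1, hQ1⟩ : ∃ Q1 : ℕ → Prop, Q1 = fun d => ∀ p : ℕ, p.Prime → p ∣ d → p ≤ z := ⟨_, rfl⟩
  obtain ⟨Q2, hQ2⟩ : ∃ Q2 : ℕ → Prop, Q2 = fun e => ∀ p : ℕ, p.Prime → p ∣ e → z < p := ⟨_, rfl⟩
  set DD := (Icc 1 D).filter Q1 with hDD
  set EE := (Icc 1 R).filter Q2 with hEE
  set P := Icc 1 H with hP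
  have hDm : ∀ d ∈ DD, 1 ≤ d ∧ d ≤ D ∧ ∀ p : ℕ, p.Prime → p ∣ d → p ≤ z := by
    intro d hd
    have h5 := mem_filter.1 hd
    have h6 := mem_Icc.1 h5.1
    have h7 := h5.2
    rw [hQ1] at h7
    exact ⟨h6.1, h6.2, h7⟩
  have hEm : ∀ e ∈ EE, 1 ≤ e ∧ e ≤ R ∧ ∀ p : ℕ, p.Prime → p ∣ e → z < p := by
    intro d hd
    have h5 := mem_filter.1 hd
    have h6 := mem_Icc.1 h5.1
    have h7 := h5.2
    rw [hQ2] at h7
    exact ⟨h6.1, h6.2, h7⟩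
  have hPm : ∀ p ∈ P, p ≤ A := by
    intro p hp
    have := mem_Icc.1 hp
    omega
  have hm0 : ∑ e ∈ Icc 1 R, μ e / e = ∑ e ∈ EE, μ e * (1 / e) := by
    rw [hEE, sum_filter]
    refine sum_congr rfl fun e _ => ?_
    split_ifs with h5
    · ring
    · have : μ e = 0 := by
        by_contra h6
        refine h5 ?_
        rw [hQ2]
        exact (h3 e h6).2.2
      rw [this]
      simp
  set Y := P ×ˢ (DD ×ˢ EE) with hY
  set c : ℕ × ℕ × ℕ → ℝ := fun y => b y.1 * (up y.2.1 * μ y.2.2) with hc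
  set G : ℕ × ℕ × ℕ → ℕ → ℝ := fun y N => (if y.2.1 ∣ N - y.1 then (1 : ℝ) else 0) *
    ((if y.2.2 ∣ N - y.1 then (1 : ℝ) else 0) - 1 / (y.2.2 : ℝ)) with hG
  have hin : ∀ N ∈ Ioc A (A + V), ∑ p ∈ P, b p * ((∑ d ∈ (N - p).divisors, up d) *
      (∑ e ∈ (N - p).divisors, μ e - ∑ e ∈ Icc 1 R, μ e / e)) = ∑ y ∈ Y, c y * G y N := by
    intro N hN
    have hN1 := mem_Ioc.1 hN
    rw [hY, sum_product]
    refine sum_congr rfl fun p hp => ?_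
    have hp1 := hPm p hp
    have hd : ∑ d ∈ (N - p).divisors, up d = ∑ d ∈ DD, up d * (if d ∣ N - p then (1 : ℝ) else 0) := by
      refine vg_div D up Q1 ?_ (N - p) (by omega)
      intro d hd
      have h5 := h1 d hd
      rw [hQ1]
      exact h5
    have he : ∑ e ∈ (N - p).divisors, μ e = ∑ e ∈ EE, μ e * (if e ∣ N - p then (1 : ℝ) else 0) := by
      refine vg_div R μ Q2 ?_ (N - p) (by omega)
      intro d hd
      have h5 := h3 d hd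
      rw [hQ2]
      exact h5
    rw [hd, he, hm0, ← sum_sub_distrib, sum_mul_sum, mul_sum, sum_product]
    refine sum_congr rfl fun d _ => ?_
    rw [mul_sum]
    refine sum_congr rfl fun e _ => ?_
    simp only [hc, hG]
    ring
  have hsq : ∑ N ∈ Ioc A (A + V), (∑ p ∈ P, b p * ((∑ d ∈ (N - p).divisors, up d) *
      (∑ e ∈ (N - p).divisors, μ e - ∑ e ∈ Icc 1 R, μ e / e))) ^ 2 =
      ∑ y ∈ Y, ∑ y' ∈ Y, c y * c y' * ∑ N ∈ Ioc A (A + V), G y N * G y' N := by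
    rw [sum_congr rfl fun N hN => by rw [hin N hN, sq, sum_mul_sum]]
    rw [sum_comm]
    refine sum_congr rfl fun y _ => ?_
    rw [sum_comm]
    refine sum_congr rfl fun y' _ => ?_
    rw [mul_sum]
    refine sum_congr rfl fun N _ => ?_
    ring
  rw [hsq]
  set K : ℕ × ℕ × ℕ → ℕ × ℕ × ℕ → ℝ := fun y y' => V / (Nat.lcm y.2.1 y'.2.1 : ℝ) * (1 / ((y.2.2 : ℝ) * y'.2.2) *
        |(Nat.gcd y.2.2 y'.2.2 : ℝ) * (if ((Nat.gcd y.2.2 y'.2.2 : ℕ) : ℤ) ∣ (y.1 : ℤ) - y'.1 then (1 : ℝ) else 0) - 1|) + 4 with hK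
  have hK0 : ∀ y y', 0 ≤ K y y' := by
    intro y y'
    simp only [hK]
    positivity
  have hGK : ∀ y ∈ Y, ∀ y' ∈ Y, c y * c y' * ∑ N ∈ Ioc A (A + V), G y N * G y' N ≤
      (|up y.2.1| * |μ y.2.2|) * (|up y'.2.1| * |μ y'.2.2|) * K y y' := by
    intro y hy y' hy'
    have hy1 := mem_product.1 hy
    have hy2 := mem_product.1 hy1.2
    have hy1' := mem_product.1 hy'
    have hy2' := mem_product.1 hy1'.2
    have hd := hDm _ hy2.1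
    have hd' := hDm _ hy2'.1
    have he := hEm _ hy2.2
    have hf := hEm _ hy2'.2
    have h5 := vaU A V y.1 y'.1 y.2.1 y'.2.1 y.2.2 y'.2.2 (hPm _ hy1.1) (hPm _ hy1'.1) hd.1 hd'.1 he.1 hf.1
      (vg_cop z _ _ he.2.2 hd.2.2) (vg_cop z _ _ he.2.2 hd'.2.2) (vg_cop z _ _ hf.2.2 hd.2.2) (vg_cop z _ _ hf.2.2 hd'.2.2)
    have h6 : ∑ N ∈ Ioc A (A + V), G y N * G y' N = ∑ N ∈ Ioc A (A + V), (if y.2.1 ∣ N - y.1 then (1 : ℝ) else 0) *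
        (if y'.2.1 ∣ N - y'.1 then (1 : ℝ) else 0) *
        (((if y.2.2 ∣ N - y.1 then (1 : ℝ) else 0) - 1 / y.2.2) * ((if y'.2.2 ∣ N - y'.1 then (1 : ℝ) else 0) - 1 / y'.2.2)) := by
      refine sum_congr rfl fun N _ => ?_
      simp only [hG]
      ring
    rw [h6]
    refine (le_abs_self _).trans ?_
    rw [abs_mul]
    have h7 : |c y * c y'| ≤ (|up y.2.1| * |μ y.2.2|) * (|up y'.2.1| * |μ y'.2.2|) := by
      have h8 : ∀ w : ℕ × ℕ × ℕ, |c w| ≤ |up w.2.1| * |μ w.2.2| := by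
        intro w
        simp only [hc]
        rw [abs_mul, abs_mul]
        calc |b w.1| * (|up w.2.1| * |μ w.2.2|) ≤ 1 * (|up w.2.1| * |μ w.2.2|) :=
              mul_le_mul_of_nonneg_right (hb _) (by positivity)
          _ = |up w.2.1| * |μ w.2.2| := by ring
      rw [abs_mul]
      exact mul_le_mul (h8 y) (h8 y') (abs_nonneg _) (by positivity)
    exact mul_le_mul h7 h5 (abs_nonneg _) (by positivity)
  set W : ℝ := 2 * (H : ℝ) ^ 2 / z + H with hW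
  have hW0 : 0 ≤ W := by
    rw [hW]
    positivity
  have hcardP : (P.card : ℝ) = H := by
    rw [hP, Nat.card_Icc]
    simp
  -- one quadruple
  have hquad : ∀ x ∈ DD ×ˢ EE, ∀ x' ∈ DD ×ˢ EE,
      ∑ p ∈ P, ∑ p' ∈ P, (|up x.1| * |μ x.2|) * (|up x'.1| * |μ x'.2|) * K (p, x) (p', x') ≤
      V * W * (((x.1.divisors.card : ℝ) * x'.1.divisors.card * (Nat.gcd x.1 x'.1 : ℝ) / (x.1 * x'.1)) *
        ((x.2.divisors.card : ℝ) * x'.2.divisors.card * (Nat.gcd x.2 x'.2 : ℝ) / (x.2 * x'.2))) +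
        4 * (H : ℝ) ^ 2 * ((|up x.1| * |μ x.2|) * (|up x'.1| * |μ x'.2|)) := by
    intro x hx x' hx'
    have he := hEm _ (mem_product.1 hx).2
    have hd := hDm _ (mem_product.1 hx).1
    have hd' := hDm _ (mem_product.1 hx').1
    have h5 := vg_S H z x.2 x'.2 hz he.1 he.2.2
    rw [← hP, ← hW] at h5
    have hlcm : (1 : ℝ) / (Nat.lcm x.1 x'.1 : ℝ) = (Nat.gcd x.1 x'.1 : ℝ) / (x.1 * x'.1) := by
      have e1 : (Nat.gcd x.1 x'.1 : ℝ) * (Nat.lcm x.1 x'.1 : ℝ) = (x.1 : ℝ) * x'.1 := by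
        exact_mod_cast Nat.gcd_mul_lcm x.1 x'.1
      have e2 : (0 : ℝ) < (Nat.lcm x.1 x'.1 : ℝ) := by
        exact_mod_cast Nat.lcm_pos (by omega) (by omega)
      have e3 : (0 : ℝ) < (x.1 : ℝ) * x'.1 := by
        have h8 : (0 : ℝ) < x.1 := by exact_mod_cast hd.1
        have h9 : (0 : ℝ) < x'.1 := by exact_mod_cast hd'.1
        exact mul_pos h8 h9
      rw [div_eq_div_iff e2.ne' e3.ne', one_mul, e1]
    have h6 : ∑ p ∈ P, ∑ p' ∈ P, (|up x.1| * |μ x.2|) * (|up x'.1| * |μ x'.2|) * K (p, x) (p', x') =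
        (|up x.1| * |μ x.2|) * (|up x'.1| * |μ x'.2|) * (V / (Nat.lcm x.1 x'.1 : ℝ) * (1 / ((x.2 : ℝ) * x'.2)) *
          ∑ p ∈ P, ∑ p' ∈ P, |(Nat.gcd x.2 x'.2 : ℝ) * (if ((Nat.gcd x.2 x'.2 : ℕ) : ℤ) ∣ (p : ℤ) - p' then (1 : ℝ) else 0) - 1|) +
        4 * (H : ℝ) ^ 2 * ((|up x.1| * |μ x.2|) * (|up x'.1| * |μ x'.2|)) := by
      have h7 : (4 : ℝ) * (H : ℝ) ^ 2 * ((|up x.1| * |μ x.2|) * (|up x'.1| * |μ x'.2|)) =
          ∑ p ∈ P, ∑ p' ∈ P, 4 * ((|up x.1| * |μ x.2|) * (|up x'.1| * |μ x'.2|)) := by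
        simp only [sum_const, nsmul_eq_mul, hcardP]
        ring
      rw [h7, mul_sum, mul_sum, ← sum_add_distrib]
      refine sum_congr rfl fun p _ => ?_
      rw [mul_sum, mul_sum, ← sum_add_distrib]
      refine sum_congr rfl fun p' _ => ?_
      simp only [hK]
      ring
    rw [h6]
    refine add_le_add ?_ le_rfl
    have h10 : (|up x.1| * |μ x.2|) * (|up x'.1| * |μ x'.2|) ≤
        ((x.1.divisors.card : ℝ) * x.2.divisors.card) * ((x'.1.divisors.card : ℝ) * x'.2.divisors.card) := by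
      refine mul_le_mul ?_ ?_ (by positivity) (by positivity)
      · exact mul_le_mul (h2 _) (h4 _) (abs_nonneg _) (by positivity)
      · exact mul_le_mul (h2 _) (h4 _) (abs_nonneg _) (by positivity)
    calc (|up x.1| * |μ x.2|) * (|up x'.1| * |μ x'.2|) * (V / (Nat.lcm x.1 x'.1 : ℝ) * (1 / ((x.2 : ℝ) * x'.2)) *
          ∑ p ∈ P, ∑ p' ∈ P, |(Nat.gcd x.2 x'.2 : ℝ) * (if ((Nat.gcd x.2 x'.2 : ℕ) : ℤ) ∣ (p : ℤ) - p' then (1 : ℝ) else 0) - 1|)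
        ≤ (((x.1.divisors.card : ℝ) * x.2.divisors.card) * ((x'.1.divisors.card : ℝ) * x'.2.divisors.card)) *
          (V / (Nat.lcm x.1 x'.1 : ℝ) * (1 / ((x.2 : ℝ) * x'.2)) * ((Nat.gcd x.2 x'.2 : ℝ) * W)) := by
          refine mul_le_mul h10 ?_ (by positivity) (by positivity)
          exact mul_le_mul_of_nonneg_left h5 (by positivity)
      _ = V * W * (((x.1.divisors.card : ℝ) * x'.1.divisors.card * (1 / (Nat.lcm x.1 x'.1 : ℝ))) *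
          ((x.2.divisors.card : ℝ) * x'.2.divisors.card * (Nat.gcd x.2 x'.2 : ℝ) / (x.2 * x'.2))) := by
          ring
      _ = V * W * (((x.1.divisors.card : ℝ) * x'.1.divisors.card * (Nat.gcd x.1 x'.1 : ℝ) / (x.1 * x'.1)) *
          ((x.2.divisors.card : ℝ) * x'.2.divisors.card * (Nat.gcd x.2 x'.2 : ℝ) / (x.2 * x'.2))) := by
          rw [hlcm]
          ring
  -- the two total sums
  have hS : ∀ (T : ℕ) (Q : ℕ → Prop) [DecidablePred Q], ∑ e ∈ (Icc 1 T).filter Q, ∑ f ∈ (Icc 1 T).filter Q,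
      (e.divisors.card : ℝ) * f.divisors.card * (Nat.gcd e f : ℝ) / (e * f) ≤ (1 + Real.log T) ^ 8 := by
    intro T Q _
    refine le_trans ?_ (WL.s2W T)
    have hEI : (Icc 1 T).filter Q ⊆ Icc 1 T := filter_subset _ _
    calc ∑ e ∈ (Icc 1 T).filter Q, ∑ f ∈ (Icc 1 T).filter Q, (e.divisors.card : ℝ) * f.divisors.card * (Nat.gcd e f : ℝ) / (e * f)
        ≤ ∑ e ∈ (Icc 1 T).filter Q, ∑ f ∈ Icc 1 T, (e.divisors.card : ℝ) * f.divisors.card * (Nat.gcd e f : ℝ) / (e * f) :=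
          sum_le_sum fun e _ => sum_le_sum_of_subset_of_nonneg hEI fun f _ _ => by positivity
      _ ≤ _ := sum_le_sum_of_subset_of_nonneg hEI fun e _ _ => sum_nonneg fun f _ => by positivity
  have hD1 : ∑ d ∈ DD, ∑ d' ∈ DD, (d.divisors.card : ℝ) * d'.divisors.card * (Nat.gcd d d' : ℝ) / (d * d') ≤ (1 + Real.log D) ^ 8 :=
    hS D Q1
  have hE1 : ∑ e ∈ EE, ∑ f ∈ EE, (e.divisors.card : ℝ) * f.divisors.card * (Nat.gcd e f : ℝ) / (e * f) ≤ (1 + Real.log R) ^ 8 :=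
    hS R Q2
  have hT : ∀ (T : ℕ) (Q : ℕ → Prop) [DecidablePred Q] (κ : ℕ → ℝ), (∀ e, |κ e| ≤ (e.divisors.card : ℝ)) →
      ∑ e ∈ (Icc 1 T).filter Q, |κ e| ≤ (T : ℝ) ^ 2 := by
    intro T Q _ κ hκ
    calc ∑ e ∈ (Icc 1 T).filter Q, |κ e| ≤ ∑ e ∈ (Icc 1 T).filter Q, (T : ℝ) := by
          refine sum_le_sum fun e he => (hκ e).trans ?_
          have h5 := Nat.card_divisors_le_self e
          have h6 := (mem_Icc.1 (mem_filter.1 he).1).2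
          exact_mod_cast h5.trans h6
      _ = ((Icc 1 T).filter Q).card * (T : ℝ) := by rw [sum_const, nsmul_eq_mul]
      _ ≤ T * T := by
          refine mul_le_mul_of_nonneg_right ?_ (by positivity)
          have h5 : ((Icc 1 T).filter Q).card ≤ (Icc 1 T).card := card_le_card (filter_subset _ _)
          rw [Nat.card_Icc] at h5
          have h6 : ((Icc 1 T).filter Q).card ≤ T := by omega
          exact_mod_cast h6
      _ = (T : ℝ) ^ 2 := by ring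
  have hM : ∑ x ∈ DD ×ˢ EE, |up x.1| * |μ x.2| ≤ (D : ℝ) ^ 2 * (R : ℝ) ^ 2 := by
    rw [sum_product]
    change ∑ d ∈ DD, ∑ e ∈ EE, |up d| * |μ e| ≤ _
    rw [← sum_mul_sum]
    exact mul_le_mul (hT D Q1 up h2) (hT R Q2 μ h4) (sum_nonneg fun _ _ => abs_nonneg _) (by positivity)
  have hM0 : 0 ≤ ∑ x ∈ DD ×ˢ EE, |up x.1| * |μ x.2| := sum_nonneg fun _ _ => mul_nonneg (abs_nonneg _) (abs_nonneg _)
  calc ∑ y ∈ Y, ∑ y' ∈ Y, c y * c y' * ∑ N ∈ Ioc A (A + V), G y N * G y' N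
      ≤ ∑ y ∈ Y, ∑ y' ∈ Y, (|up y.2.1| * |μ y.2.2|) * (|up y'.2.1| * |μ y'.2.2|) * K y y' :=
        sum_le_sum fun y hy => sum_le_sum fun y' hy' => hGK y hy y' hy'
    _ = ∑ x ∈ DD ×ˢ EE, ∑ x' ∈ DD ×ˢ EE, ∑ p ∈ P, ∑ p' ∈ P, (|up x.1| * |μ x.2|) * (|up x'.1| * |μ x'.2|) * K (p, x) (p', x') := by
        rw [hY, vg_rearr P (DD ×ˢ EE) (fun y y' => (|up y.2.1| * |μ y.2.2|) * (|up y'.2.1| * |μ y'.2.2|) * K y y')]
    _ ≤ ∑ x ∈ DD ×ˢ EE, ∑ x' ∈ DD ×ˢ EE, (V * W * (((x.1.divisors.card : ℝ) * x'.1.divisors.card * (Nat.gcd x.1 x'.1 : ℝ) / (x.1 * x'.1)) *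
          ((x.2.divisors.card : ℝ) * x'.2.divisors.card * (Nat.gcd x.2 x'.2 : ℝ) / (x.2 * x'.2))) +
        4 * (H : ℝ) ^ 2 * ((|up x.1| * |μ x.2|) * (|up x'.1| * |μ x'.2|))) := sum_le_sum fun x hx => sum_le_sum fun x' hx' => hquad x hx x' hx'
    _ = V * W * (∑ x ∈ DD ×ˢ EE, ∑ x' ∈ DD ×ˢ EE, ((x.1.divisors.card : ℝ) * x'.1.divisors.card * (Nat.gcd x.1 x'.1 : ℝ) / (x.1 * x'.1)) *
          ((x.2.divisors.card : ℝ) * x'.2.divisors.card * (Nat.gcd x.2 x'.2 : ℝ) / (x.2 * x'.2))) +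
        4 * (H : ℝ) ^ 2 * (∑ x ∈ DD ×ˢ EE, |up x.1| * |μ x.2|) ^ 2 := by
        rw [sq (∑ x ∈ DD ×ˢ EE, |up x.1| * |μ x.2|), sum_mul_sum, mul_sum, mul_sum, ← sum_add_distrib]
        refine sum_congr rfl fun x _ => ?_
        rw [sum_add_distrib, mul_sum, mul_sum]
    _ = V * W * ((∑ d ∈ DD, ∑ d' ∈ DD, (d.divisors.card : ℝ) * d'.divisors.card * (Nat.gcd d d' : ℝ) / (d * d')) *
          ∑ e ∈ EE, ∑ f ∈ EE, (e.divisors.card : ℝ) * f.divisors.card * (Nat.gcd e f : ℝ) / (e * f)) +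
        4 * (H : ℝ) ^ 2 * (∑ x ∈ DD ×ˢ EE, |up x.1| * |μ x.2|) ^ 2 := by
        rw [vg_fac DD EE (fun d d' => (d.divisors.card : ℝ) * d'.divisors.card * (Nat.gcd d d' : ℝ) / (d * d'))
          (fun e f => (e.divisors.card : ℝ) * f.divisors.card * (Nat.gcd e f : ℝ) / (e * f))]
    _ ≤ V * W * ((1 + Real.log D) ^ 8 * (1 + Real.log R) ^ 8) + 4 * (H : ℝ) ^ 2 * ((D : ℝ) ^ 2 * (R : ℝ) ^ 2) ^ 2 := by
        refine add_le_add ?_ ?_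
        · refine mul_le_mul_of_nonneg_left ?_ (by positivity)
          have hlogD : 0 ≤ Real.log D := Real.log_natCast_nonneg D
          refine mul_le_mul hD1 hE1 ?_ (pow_nonneg (by linarith) 8)
          exact sum_nonneg fun e _ => sum_nonneg fun f _ => by positivity
        · refine mul_le_mul_of_nonneg_left ?_ (by positivity)
          exact pow_le_pow_left₀ hM0 hM 2
    _ = V * (1 + Real.log D) ^ 8 * (1 + Real.log R) ^ 8 * (2 * (H : ℝ) ^ 2 / z + H) +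
        4 * (H : ℝ) ^ 2 * (D : ℝ) ^ 4 * (R : ℝ) ^ 4 := by
        rw [hW]
        ring

end Pool.Agent.Lib.GU
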