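import Pool.Agent.Lib.GU.Mg
import Pool.Agent.Lib.GU.Fs
import Pool.Agent.Lib.GU.Fh
import Pool.Agent.Lib.GU.Vg
import Pool.Agent.Lib.GU.Nb
import Pool.Agent.Lib.GU.Sb
import Pool.Agent.Lib.G3.Mert5
import Pool.Agent.Lib.G5.Q8

/-!
# GU, row Nc: for almost all even `N` few of the primes `p ≤ H` have `N - p` with exactly `k` prime factors, the least one outside `(z, w]` (compare GU/Ns.lean)

PROOF IN WORDS. `L = log X`, `LH = log H`. `fsU` gives `C2`, `mjG k` gives `C1`, `E` (`U^(k) ≥ g`), `fsG k` gives `C3`. `c1 = max c (A + 80)`, `z = ⌈L^c1⌉₊`, `M = 8 E + 2 k + 24`, `U = ⌊X^(1/M)⌋₊`: `U^k ≤ X`, `log U ≥ L/(2M)`, `w ≤ X^η ≤ U`, `z ≤ w`, `z^(4k + 50) ≤ H`. `Q1 = QR (k-1) w U (U^k)`, `Q2 = QR (k-2) z U (U^k)`, `Sm = (QR (k-1) 0 z (z^k)).filter (2 ≤ ·)`.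
`mjG k` for `Q1` and `Q2` gives `μ1`, `μ2`, `fsU` gives `up1`, `fsG k` gives `up2`. `nbU` (row Nb): `RF ≤ T1 + T2`, `Ti = m_i ∑_p ∑_d up_i d + E_i(N)`, `m_i = ∑_{e ≤ U^E} μ_i e/e`, `E_i` the sum in `vrG` (`b p = 1` for primes `p`, `0` otherwise, `A := X + H`, `V := X - H`, `D = z^(k+12)`, `R = U^E`, `R^4 ≤ √X`; `|up1 d| ≤ 1 ≤ τ(d)`, `2^ω(d) ≤ τ(d)`).
`m_1 ≤ C1 (log z/log U) (1 + sg1 w U)^(k-1)` (`sbU1`), `sg1 w U ≤ log (log U/log w) + 1 ≤ η log L + 1` (`mert5`). So `max m_1 0 ∑_p ∑_d up1 d ≤ C SS N H/(LH L) (2 + η log L)^(k-1) ≤ (ε/8) MF` (`log N ≤ 2L`, `log L ≤ log log N`, `η` small in terms of `ε, k, C`, `X` large).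
`m_2 ≤ C1 (log z/log U) (1 + sg1 z U)^(k-2) ≤ C (log z/L) (2 + log L)^(k-2)`, `∑_p ∑_d up2 d ≤ C3 SS N H/(LH log z) 2^(k-1) (1 + sg1 0 z)^(k-1) + C3 H/LH^3` (`sbU2`), `sg1 0 z ≤ C + log log z`, so the product is at most `C SS N H/(LH L) (log L)^(k-2) (C + log log z)^(k-1) + C (H/LH) (log z/L) (2 + log L)^(k-2)/LH^2 ≤ (ε/8) MF` (`LH ≥ L^(1-η) ≥ L^(1/2)`... `log z ≤ (c1 + 1) log L`).
`MF ≥ (1/2) H/(LH 2 L (k-1)!) =: m` (`q8`, `log log N ≥ 1`). `|E_i(N)| > (ε/8) m` for at most `X/(4 L^A)` of the `N` (as in Ns: `vrG`, Markov, `H^2/m^2 ≤ K LH^2 L^2 ≤ K L^4`, `z ≥ L^c1`, `H ≥ L^(c1)`, `c1 ≥ A + 80`).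
-/

set_option autoImplicit false

open Finset

namespace Pool.Agent.Lib.GU

open Pool.Agent.Lib.G3 (SS)
open Pool.Agent.Lib.G5 (sg1)

private theorem nc_tau (d : ℕ) (hd : 1 ≤ d) : (2 : ℝ) ^ d.primeFactors.card ≤ (d.divisors.card : ℝ) := by
  have h1 : 2 ^ d.primeFactors.card ≤ d.divisors.card := by
    rw [Nat.card_divisors (by omega), ← Finset.prod_const]
    refine Finset.prod_le_prod' fun p hp => ?_
    have : 1 ≤ d.factorization p := by
      have h2 := Nat.mem_primeFactors.1 hp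
      exact (h2.1.dvd_iff_one_le_factorization (by omega)).1 h2.2.1
    omega
  exact_mod_cast h1

/-- Markov for squares -/
private theorem nc_markov (F : Finset ℕ) (b : ℕ → ℝ) (θ s : ℝ) (hθ : 0 < θ) (hs : ∑ i ∈ F, b i ^ 2 ≤ s * θ ^ 2) :
    ((F.filter fun i => θ < |b i|).card : ℝ) ≤ s := by
  classical
  have h1 : ((F.filter fun i => θ < |b i|).card : ℝ) * θ ^ 2 ≤ ∑ i ∈ F, b i ^ 2 := by
    calc ((F.filter fun i => θ < |b i|).card : ℝ) * θ ^ 2 = ∑ i ∈ F.filter fun i => θ < |b i|, θ ^ 2 := by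
          rw [sum_const, nsmul_eq_mul]
      _ ≤ ∑ i ∈ F.filter fun i => θ < |b i|, b i ^ 2 := sum_le_sum fun i hi => by
          have h2 := (mem_filter.1 hi).2
          rw [← sq_abs (b i)]
          exact pow_le_pow_left₀ hθ.le h2.le 2
      _ ≤ _ := sum_le_sum_of_subset_of_nonneg (filter_subset _ _) fun i hi _ => sq_nonneg _
  exact le_of_mul_le_mul_right (h1.trans hs) (by positivity)

/-- the size of `U` -/
private theorem nc_U {M X U : ℕ} (hM : 1 ≤ M) (hX : 3 ≤ (X : ℝ) ^ (1 / (4 * M : ℝ))) (hU : X ≤ (U + 1) ^ (2 * M)) :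
    2 * (X : ℝ) ^ (1 / (4 * M : ℝ)) ≤ U := by
  have hMr : (1 : ℝ) ≤ M := by exact_mod_cast hM
  have h2 : (((X : ℝ) ^ (1 / (4 * M : ℝ))) ^ 2) ^ (2 * M) = X := by
    rw [← pow_mul, ← Real.rpow_natCast, ← Real.rpow_mul (Nat.cast_nonneg _)]
    have : 1 / (4 * M : ℝ) * ((2 * (2 * M) : ℕ) : ℝ) = 1 := by
      push_cast
      field_simp
      norm_num
    rw [this, Real.rpow_one]
  have h3 : (((X : ℝ) ^ (1 / (4 * M : ℝ))) ^ 2) ^ (2 * M) ≤ ((U : ℝ) + 1) ^ (2 * M) := by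
    rw [h2]
    exact_mod_cast hU
  have h4 := le_of_pow_le_pow_left₀ (by omega) (by positivity) h3
  nlinarith

/-- the largest `U` with `U ^ (2 M) ≤ X` -/
private theorem nc_exU (M X : ℕ) (hM : 1 ≤ M) (hX : 1 ≤ X) : ∃ U : ℕ, U ^ (2 * M) ≤ X ∧ X ≤ (U + 1) ^ (2 * M) := by
  have h0 : ∃ U : ℕ, X < (U + 1) ^ (2 * M) := ⟨X, by
    calc X < X + 1 := Nat.lt_succ_self X
      _ ≤ (X + 1) ^ (2 * M) := Nat.le_self_pow (by omega) _⟩
  classical
  refine ⟨Nat.find h0, ?_, (Nat.find_spec h0).le⟩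
  rcases Nat.eq_zero_or_pos (Nat.find h0) with h | h
  · rw [h, zero_pow (by omega)]
    omega
  · have h1 := Nat.find_min h0 (m := Nat.find h0 - 1) (by omega)
    rw [Nat.sub_add_cancel h] at h1
    exact not_lt.1 h1

private theorem nc_num {A : ℕ} {e L z X H V lD lR DR : ℝ} (he : 0 < e) (hL : 1 ≤ L) (hX : 0 ≤ X) (hH : 0 < H)
    (hz : L ^ (A + 23) ≤ z) (hHL : L ^ (A + 23) ≤ H) (hV0 : 0 ≤ V) (hV : V ≤ X) (hD0 : 0 ≤ lD) (hD : lD ≤ 2 * L)
    (hR0 : 0 ≤ lR) (hR : lR ≤ 2 * L) (h1 : 500000000 ≤ e ^ 2 * L) (h2 : 4 * DR * L ^ (A + 23) ≤ X) :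
    V * lD ^ 8 * lR ^ 8 * (2 * H ^ 2 / z + H) + 4 * H ^ 2 * DR ≤ (X / (2 * L ^ A)) * (e / 8 * (H / (4 * L ^ 3))) ^ 2 := by
  have hL0 : 0 < L := by linarith
  obtain ⟨P, hP⟩ : ∃ P : ℝ, P = L ^ (A + 23) := ⟨_, rfl⟩
  have hP0 : 0 < P := by rw [hP]; positivity
  rw [← hP] at hz hHL h2
  have hz0 : 0 < z := by linarith
  have h3 : 2 * H ^ 2 / z + H ≤ 3 * H ^ 2 / P := by
    have h4 : 2 * H ^ 2 / z ≤ 2 * H ^ 2 / P := div_le_div_of_nonneg_left (by positivity) hP0 hz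
    have h5 : H ≤ H ^ 2 / P := by
      rw [le_div_iff₀ hP0]
      nlinarith
    have e1 : 3 * H ^ 2 / P = 2 * H ^ 2 / P + H ^ 2 / P := by ring
    rw [e1]
    linarith
  have h6 : V * lD ^ 8 * lR ^ 8 * (2 * H ^ 2 / z + H) ≤ X * (2 * L) ^ 8 * (2 * L) ^ 8 * (3 * H ^ 2 / P) := by
    gcongr
  have h7 : 4 * H ^ 2 * DR ≤ X * H ^ 2 / P := by
    rw [le_div_iff₀ hP0]
    have := mul_le_mul_of_nonneg_left h2 (sq_nonneg H)
    nlinarith
  have h8 : X * (2 * L) ^ 8 * (2 * L) ^ 8 * (3 * H ^ 2 / P) + X * H ^ 2 / P ≤ X * H ^ 2 * (196609 * L ^ 16) / P := by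
    have e1 : X * (2 * L) ^ 8 * (2 * L) ^ 8 * (3 * H ^ 2 / P) + X * H ^ 2 / P = X * H ^ 2 * (196608 * L ^ 16 + 1) / P := by
      field_simp
      ring
    rw [e1]
    refine div_le_div_of_nonneg_right ?_ hP0.le
    refine mul_le_mul_of_nonneg_left ?_ (by positivity)
    have : 1 ≤ L ^ 16 := one_le_pow₀ hL
    linarith
  have e3 : (X / (2 * L ^ A)) * (e / 8 * (H / (4 * L ^ 3))) ^ 2 = X * H ^ 2 * (e ^ 2 / 2048 * L ^ 17) / P := by
    rw [hP, show A + 23 = A + 6 + 17 by ring, pow_add L (A + 6) 17, pow_add L A 6]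
    field_simp
    ring
  rw [e3]
  have h9 : 196609 * L ^ 16 ≤ e ^ 2 / 2048 * L ^ 17 := by
    have h10 : 196609 ≤ e ^ 2 / 2048 * L := by
      have : e ^ 2 / 2048 * L = e ^ 2 * L / 2048 := by ring
      rw [this, le_div_iff₀ (by norm_num)]
      linarith
    calc 196609 * L ^ 16 ≤ e ^ 2 / 2048 * L * L ^ 16 := mul_le_mul_of_nonneg_right h10 (by positivity)
      _ = e ^ 2 / 2048 * L ^ 17 := by ring
  calc _ ≤ X * (2 * L) ^ 8 * (2 * L) ^ 8 * (3 * H ^ 2 / P) + X * H ^ 2 / P := add_le_add h6 h7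
    _ ≤ X * H ^ 2 * (196609 * L ^ 16) / P := h8
    _ ≤ _ := by
        refine div_le_div_of_nonneg_right ?_ hP0.le
        exact mul_le_mul_of_nonneg_left h9 (by positivity)

/-- the two sums -/
private theorem nc_split {H N R : ℕ} (up μ : ℕ → ℝ) :
    ∑ p ∈ (Icc 1 H).filter Nat.Prime, (∑ d ∈ (N - p).divisors, up d) * (∑ e ∈ (N - p).divisors, μ e) =
      (∑ p ∈ Icc 1 H, (if p.Prime then (1 : ℝ) else 0) * ((∑ d ∈ (N - p).divisors, up d) *
        (∑ e ∈ (N - p).divisors, μ e - ∑ e ∈ Icc 1 R, μ e / e))) +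
      (∑ e ∈ Icc 1 R, μ e / e) * ∑ p ∈ (Icc 1 H).filter Nat.Prime, ∑ d ∈ (N - p).divisors, up d := by
  rw [sum_filter, sum_filter, mul_sum, ← sum_add_distrib]
  refine sum_congr rfl fun p _ => ?_
  split_ifs
  · ring
  · ring

/-- the exceptional `N` of one product -/
private theorem nc_card {A X H z D R : ℕ} {e L : ℝ} {up μ : ℕ → ℝ} (he : 0 < e) (hL1 : 1 ≤ L)
    (hz1 : 1 ≤ z) (hz : L ^ (A + 23) ≤ z) (hHL : L ^ (A + 23) ≤ H) (hHX : H ≤ X)
    (hD : Real.log D ≤ L) (hR : Real.log R ≤ L)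
    (h0 : 500000000 ≤ e ^ 2 * L) (hDR : 4 * ((D : ℝ) ^ 4 * (R : ℝ) ^ 4) * L ^ (A + 23) ≤ X)
    (h1 : ∀ d, up d ≠ 0 → 1 ≤ d ∧ d ≤ D ∧ ∀ p : ℕ, p.Prime → p ∣ d → p ≤ z) (h2 : ∀ d, |up d| ≤ (d.divisors.card : ℝ))
    (h3 : ∀ e, μ e ≠ 0 → 1 ≤ e ∧ e ≤ R ∧ ∀ p : ℕ, p.Prime → p ∣ e → z < p) (h4 : ∀ e, |μ e| ≤ (e.divisors.card : ℝ)) :
    (((Ioc (X + H) (2 * X)).filter fun N => e / 8 * (H / (4 * L ^ 3)) < |∑ p ∈ Icc 1 H, (if p.Prime then (1 : ℝ) else 0) *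
      ((∑ d ∈ (N - p).divisors, up d) * (∑ e ∈ (N - p).divisors, μ e - ∑ e ∈ Icc 1 R, μ e / e))|).card : ℝ) ≤ X / (2 * L ^ A) := by
  have hHr : (0 : ℝ) < H := lt_of_lt_of_le (by positivity) hHL
  have hL0 : 0 < L := by linarith
  have hθ : 0 < e / 8 * (H / (4 * L ^ 3)) := by positivity
  refine nc_markov _ (fun N => ∑ p ∈ Icc 1 H, (if p.Prime then (1 : ℝ) else 0) *
      ((∑ d ∈ (N - p).divisors, up d) * (∑ e ∈ (N - p).divisors, μ e - ∑ e ∈ Icc 1 R, μ e / e))) _ _ hθ ?_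
  have h5 := vrG (X + H) (X - H) H D R z (by omega) hz1 (fun p => if p.Prime then (1 : ℝ) else 0)
    (fun p => by
      show |if p.Prime then (1 : ℝ) else 0| ≤ 1
      split_ifs <;> simp) up μ h1 h2 h3 h4
  have e1 : X + H + (X - H) = 2 * X := by omega
  rw [e1] at h5
  refine h5.trans ?_
  have hlD : 0 ≤ Real.log (D : ℝ) := Real.log_natCast_nonneg _
  have hlR : 0 ≤ Real.log (R : ℝ) := Real.log_natCast_nonneg _
  have h6 := nc_num (A := A) (e := e) (L := L) (z := z) (X := X) (H := H) (V := ((X - H : ℕ) : ℝ))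
    (lD := 1 + Real.log D) (lR := 1 + Real.log R)
    (DR := (D : ℝ) ^ 4 * (R : ℝ) ^ 4) he hL1 (by positivity) hHr hz hHL (by positivity)
    (by exact_mod_cast Nat.sub_le X H) (by linarith) (by linarith) (by linarith) (by linarith) h0 hDR
  refine le_trans (le_of_eq ?_) h6
  ring

private theorem nc_T1 {n : ℕ} {M C1 C2 F e η L l lz lU LH s H σ : ℝ} (hn : 1 ≤ n) (hM : 0 < M) (hC1 : 0 < C1) (hC2 : 0 < C2)
    (hF : 0 < F) (hη : 0 < η) (hη2 : 2 * η ≤ 1) (hηe : η ≤ e / (128 * M * C1 * C2 * F)) (hL : 0 < L) (hl : 2 ≤ η * l)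
    (hlz : 0 < lz) (hU : L / (4 * M) ≤ lU) (hLH : 0 < LH) (hs : 0 ≤ s) (hH : 0 ≤ H) (hσ0 : 0 ≤ σ) (hσ : σ ≤ η * l + 1) :
    (C1 * (lz / lU) * (1 + σ) ^ n) * (C2 * (s * (H / (LH * lz)))) ≤ e / 8 * (s * (H / (LH * (2 * L)) * (l ^ n / F))) := by
  have h0 : 0 < L / (4 * M) := by positivity
  have hl0 : 0 < l := by
    by_contra h
    have := mul_nonpos_of_nonneg_of_nonpos hη.le (not_lt.1 h)
    linarith
  have h1 : lz / lU ≤ lz / (L / (4 * M)) := div_le_div_of_nonneg_left hlz.le h0 hU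
  have h2 : (1 + σ) ^ n ≤ 2 * η * l ^ n := by
    calc (1 + σ) ^ n ≤ (2 * η * l) ^ n := pow_le_pow_left₀ (by linarith) (by linarith) n
      _ = (2 * η) ^ n * l ^ n := mul_pow _ _ _
      _ ≤ 2 * η * l ^ n := by
          refine mul_le_mul_of_nonneg_right ?_ (by positivity)
          exact pow_le_of_le_one (by positivity) hη2 (by omega)
  have h3 : η * (128 * M * C1 * C2 * F) ≤ e := (le_div_iff₀ (by positivity)).1 hηe
  calc (C1 * (lz / lU) * (1 + σ) ^ n) * (C2 * (s * (H / (LH * lz))))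
      ≤ (C1 * (lz / (L / (4 * M))) * (2 * η * l ^ n)) * (C2 * (s * (H / (LH * lz)))) := by gcongr
    _ = (η * (128 * M * C1 * C2 * F)) * (s * (H / (LH * L)) * (l ^ n / (16 * F))) := by
        field_simp
        ring
    _ ≤ e * (s * (H / (LH * L)) * (l ^ n / (16 * F))) := mul_le_mul_of_nonneg_right h3 (by positivity)
    _ = e / 8 * (s * (H / (LH * (2 * L)) * (l ^ n / F))) := by
        field_simp
        ring

private theorem nc_T2 {n : ℕ} {M C1 C3 F e L l lz lU LH s H σ2 σ3 Φ c : ℝ} (hM : 0 < M) (hC1 : 0 < C1) (hC3 : 0 < C3)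
    (hF : 0 < F) (he : 0 < e) (hL : 0 < L) (hl : 2 ≤ l) (hlz : 0 < lz) (hU : L / (4 * M) ≤ lU) (hLH : 0 < LH) (hs : 1 / 2 ≤ s)
    (hH : 0 ≤ H) (hσ0 : 0 ≤ σ2) (hσ : σ2 ≤ l + 1) (hΦ0 : 0 ≤ Φ) (hΦ : Φ ≤ 2 ^ (n + 1) * (1 + σ3) ^ (n + 1))
    (hKA : 1024 * M * C1 * C3 * 4 ^ n * F / e * (1 + σ3) ^ (n + 1) ≤ l) (hc : 0 < c) (hlzc : lz ≤ c * l) (hLH2 : L ≤ LH ^ 2)
    (hKB : 256 * M * C1 * C3 * c * 2 ^ n * F / e ≤ L) :
    (C1 * (lz / lU) * (1 + σ2) ^ n) * (C3 * (s * (H / (LH * lz))) * Φ + C3 * (H / LH ^ 3)) ≤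
      e / 8 * (s * (H / (LH * (2 * L)) * (l ^ (n + 1) / F))) := by
  have h0 : 0 < L / (4 * M) := by positivity
  have hl0 : 0 < l := by linarith
  have hs0 : 0 < s := by linarith
  have h1 : lz / lU ≤ lz / (L / (4 * M)) := div_le_div_of_nonneg_left hlz.le h0 hU
  have h2 : (1 + σ2) ^ n ≤ 2 ^ n * l ^ n := by
    rw [← mul_pow]
    exact pow_le_pow_left₀ (by linarith) (by linarith) n
  have hA : (C1 * (lz / (L / (4 * M))) * (2 ^ n * l ^ n)) * (C3 * (s * (H / (LH * lz))) * Φ) ≤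
      e / 16 * (s * (H / (LH * (2 * L)) * (l ^ (n + 1) / F))) := by
    have h3 : 1024 * M * C1 * C3 * 4 ^ n * F * (1 + σ3) ^ (n + 1) ≤ e * l := by
      have h4 := mul_le_mul_of_nonneg_left hKA he.le
      have h5 : e * (1024 * M * C1 * C3 * 4 ^ n * F / e * (1 + σ3) ^ (n + 1)) =
          1024 * M * C1 * C3 * 4 ^ n * F * (1 + σ3) ^ (n + 1) := by
        field_simp
      rw [h5] at h4
      exact h4
    calc (C1 * (lz / (L / (4 * M))) * (2 ^ n * l ^ n)) * (C3 * (s * (H / (LH * lz))) * Φ)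
        ≤ (C1 * (lz / (L / (4 * M))) * (2 ^ n * l ^ n)) * (C3 * (s * (H / (LH * lz))) * (2 ^ (n + 1) * (1 + σ3) ^ (n + 1))) := by
          gcongr
      _ = (1024 * M * C1 * C3 * 4 ^ n * F * (1 + σ3) ^ (n + 1)) * (s * (H / (LH * L)) * (l ^ n / (128 * F))) := by
          rw [show (4 : ℝ) ^ n = 2 ^ n * 2 ^ n by rw [← mul_pow]; norm_num]
          field_simp
          ring
      _ ≤ (e * l) * (s * (H / (LH * L)) * (l ^ n / (128 * F))) := mul_le_mul_of_nonneg_right h3 (by positivity)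
      _ = 1 / 4 * (e / 16 * (s * (H / (LH * (2 * L)) * (l ^ (n + 1) / F)))) := by
          field_simp
          ring
      _ ≤ e / 16 * (s * (H / (LH * (2 * L)) * (l ^ (n + 1) / F))) := by
          have : 0 ≤ e / 16 * (s * (H / (LH * (2 * L)) * (l ^ (n + 1) / F))) := by positivity
          linarith
  have hB : (C1 * (lz / (L / (4 * M))) * (2 ^ n * l ^ n)) * (C3 * (H / LH ^ 3)) ≤
      e / 16 * (s * (H / (LH * (2 * L)) * (l ^ (n + 1) / F))) := by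
    have h3 : 256 * M * C1 * C3 * c * 2 ^ n * F ≤ e * L := by
      have h4 := mul_le_mul_of_nonneg_left hKB he.le
      have h5 : e * (256 * M * C1 * C3 * c * 2 ^ n * F / e) = 256 * M * C1 * C3 * c * 2 ^ n * F := by
        field_simp
      rw [h5] at h4
      exact h4
    have h6 : H / LH ^ 3 ≤ H / (LH * L) := by
      refine div_le_div_of_nonneg_left hH (by positivity) ?_
      calc LH * L ≤ LH * LH ^ 2 := mul_le_mul_of_nonneg_left hLH2 hLH.le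
        _ = LH ^ 3 := by ring
    calc (C1 * (lz / (L / (4 * M))) * (2 ^ n * l ^ n)) * (C3 * (H / LH ^ 3))
        ≤ (C1 * ((c * l) / (L / (4 * M))) * (2 ^ n * l ^ n)) * (C3 * (H / (LH * L))) := by gcongr
      _ = (256 * M * C1 * C3 * c * 2 ^ n * F) * (H / (LH * L) * (l ^ (n + 1) / (64 * F * L))) := by
          field_simp
          ring
      _ ≤ (e * L) * (H / (LH * L) * (l ^ (n + 1) / (64 * F * L))) := mul_le_mul_of_nonneg_right h3 (by positivity)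
      _ = 1 / 2 * (e / 16 * (H / (LH * (2 * L)) * (l ^ (n + 1) / F))) := by
          field_simp
          ring
      _ ≤ s * (e / 16 * (H / (LH * (2 * L)) * (l ^ (n + 1) / F))) := mul_le_mul_of_nonneg_right hs (by positivity)
      _ = e / 16 * (s * (H / (LH * (2 * L)) * (l ^ (n + 1) / F))) := by ring
  calc (C1 * (lz / lU) * (1 + σ2) ^ n) * (C3 * (s * (H / (LH * lz))) * Φ + C3 * (H / LH ^ 3))
      ≤ (C1 * (lz / (L / (4 * M))) * (2 ^ n * l ^ n)) * (C3 * (s * (H / (LH * lz))) * Φ + C3 * (H / LH ^ 3)) := by gcongr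
    _ = (C1 * (lz / (L / (4 * M))) * (2 ^ n * l ^ n)) * (C3 * (s * (H / (LH * lz))) * Φ) +
        (C1 * (lz / (L / (4 * M))) * (2 ^ n * l ^ n)) * (C3 * (H / LH ^ 3)) := by ring
    _ ≤ _ := by linarith

private theorem nc_ev1 (C K : ℝ) (n : ℕ) : ∀ᶠ y : ℝ in Filter.atTop, K * (C + Real.log y) ^ n ≤ y := by
  have h1 : (fun x : ℝ => Real.log x ^ n) =o[Filter.atTop] id := Real.isLittleO_pow_log_id_atTop
  have h2 := h1.def (show (0 : ℝ) < 1 / (|K| * 2 ^ n + 1) by positivity)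
  filter_upwards [h2, Filter.eventually_ge_atTop 1, Real.tendsto_log_atTop.eventually_ge_atTop (|C|)] with y h3 h4 h5
  have h6 : 0 ≤ Real.log y := (abs_nonneg C).trans h5
  rw [id, Real.norm_of_nonneg (by positivity), Real.norm_of_nonneg (by linarith)] at h3
  have h7 : 0 ≤ C + Real.log y := by
    have := neg_abs_le C
    linarith
  have h8 : (C + Real.log y) ^ n ≤ 2 ^ n * (Real.log y) ^ n := by
    rw [← mul_pow]
    refine pow_le_pow_left₀ h7 ?_ n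
    have := le_abs_self C
    linarith
  calc K * (C + Real.log y) ^ n ≤ |K| * (C + Real.log y) ^ n := mul_le_mul_of_nonneg_right (le_abs_self K) (by positivity)
    _ ≤ |K| * (2 ^ n * (Real.log y) ^ n) := mul_le_mul_of_nonneg_left h8 (abs_nonneg K)
    _ = (|K| * 2 ^ n) * (Real.log y) ^ n := by ring
    _ ≤ (|K| * 2 ^ n + 1) * (Real.log y) ^ n := mul_le_mul_of_nonneg_right (by linarith) (by positivity)
    _ ≤ (|K| * 2 ^ n + 1) * (1 / (|K| * 2 ^ n + 1) * y) := mul_le_mul_of_nonneg_left h3 (by positivity)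
    _ = y := by field_simp

private theorem nc_ev2 (n : ℕ) : ∀ᶠ y : ℝ in Filter.atTop, y ^ n ≤ Real.exp (Real.sqrt y) := by
  have h1 : (fun x : ℝ => x ^ (2 * n)) =o[Filter.atTop] Real.exp := Real.isLittleO_pow_exp_atTop
  have h2 := h1.def (one_pos)
  filter_upwards [Real.tendsto_sqrt_atTop.eventually h2, Filter.eventually_ge_atTop 0] with y h3 h4
  rw [Real.norm_of_nonneg (by positivity), Real.norm_of_nonneg (by positivity), one_mul, pow_mul, Real.sq_sqrt h4] at h3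
  exact h3

/-- Mertens from `0` -/
private theorem nc_sg0 {z0 : ℕ} (hz0 : ∀ u v : ℕ, z0 ≤ u → u ≤ v →
    |∑ p ∈ Pool.Agent.Lib.G3.pi5 u v, (1 : ℝ) / p - Real.log (Real.log v / Real.log u)| ≤ 1) {z : ℕ} (hz : max z0 3 ≤ z) :
    sg1 0 z ≤ (max z0 3 : ℕ) + 1 + Real.log (Real.log z) := by
  obtain ⟨z1, hz1⟩ : ∃ z1 : ℕ, z1 = max z0 3 := ⟨_, rfl⟩
  rw [← hz1] at hz ⊢
  have h03 : z0 ≤ z1 := hz1 ▸ le_max_left _ _
  have h3 : 3 ≤ z1 := hz1 ▸ le_max_right _ _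
  have h1 : Pool.Agent.Lib.G5.PP 0 z ⊆ Pool.Agent.Lib.G5.PP 0 z1 ∪ Pool.Agent.Lib.G3.pi5 z1 z := by
    intro p hp
    unfold Pool.Agent.Lib.G5.PP at hp
    obtain ⟨h4, h5⟩ := mem_filter.1 hp
    obtain ⟨h6, h7⟩ := mem_Ioc.1 h4
    rw [mem_union]
    unfold Pool.Agent.Lib.G5.PP Pool.Agent.Lib.G3.pi5
    by_cases h8 : p ≤ z1
    · exact Or.inl (mem_filter.2 ⟨mem_Ioc.2 ⟨h6, h8⟩, h5⟩)
    · exact Or.inr (mem_filter.2 ⟨mem_Ioc.2 ⟨by omega, h7⟩, h5⟩)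
  have h2 : sg1 0 z ≤ ∑ p ∈ Pool.Agent.Lib.G5.PP 0 z1, (1 : ℝ) / p + ∑ p ∈ Pool.Agent.Lib.G3.pi5 z1 z, (1 : ℝ) / p := by
    unfold Pool.Agent.Lib.G5.sg1
    refine (sum_le_sum_of_subset_of_nonneg h1 fun i _ _ => by positivity).trans ?_
    have h4 := sum_union_inter (s₁ := Pool.Agent.Lib.G5.PP 0 z1) (s₂ := Pool.Agent.Lib.G3.pi5 z1 z) (f := fun p : ℕ => (1 : ℝ) / p)
    have h5 : 0 ≤ ∑ p ∈ Pool.Agent.Lib.G5.PP 0 z1 ∩ Pool.Agent.Lib.G3.pi5 z1 z, (1 : ℝ) / p := sum_nonneg fun i _ => by positivity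
    linarith
  have h4 : ∑ p ∈ Pool.Agent.Lib.G5.PP 0 z1, (1 : ℝ) / p ≤ z1 := by
    calc ∑ p ∈ Pool.Agent.Lib.G5.PP 0 z1, (1 : ℝ) / p ≤ ∑ p ∈ Pool.Agent.Lib.G5.PP 0 z1, (1 : ℝ) := by
          refine sum_le_sum fun p hp => ?_
          unfold Pool.Agent.Lib.G5.PP at hp
          have h6 := (mem_Ioc.1 (mem_filter.1 hp).1).1
          have h7 : (1 : ℝ) ≤ p := by exact_mod_cast h6
          rw [div_le_one (by linarith)]
          exact h7
      _ = ((Pool.Agent.Lib.G5.PP 0 z1).card : ℝ) := by simp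
      _ ≤ z1 := by
          have : (Pool.Agent.Lib.G5.PP 0 z1).card ≤ z1 := by
            unfold Pool.Agent.Lib.G5.PP
            refine (card_filter_le _ _).trans ?_
            simp
          exact_mod_cast this
  have h5 := (abs_le.1 (hz0 z1 z h03 hz)).2
  have h31 : (3 : ℝ) ≤ z1 := by exact_mod_cast h3
  have h6 : 1 ≤ Real.log z1 := by
    rw [Real.le_log_iff_exp_le (by linarith)]
    have := Real.exp_one_lt_d9
    linarith
  have hzr : (z1 : ℝ) ≤ z := by exact_mod_cast hz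
  have h7 : 1 ≤ Real.log z := h6.trans (Real.log_le_log (by linarith) hzr)
  have h8 : Real.log (Real.log z / Real.log z1) ≤ Real.log (Real.log z) := by
    refine Real.log_le_log (by positivity) ?_
    rw [div_le_iff₀ (by linarith)]
    nlinarith
  linarith

theorem ncU (k A c : ℕ) (hk : 2 ≤ k) (ε : ℝ) (hε : 0 < ε) : ∃ c1 : ℕ, c ≤ c1 ∧ ∃ η : ℝ, 0 < η ∧ η < 1 ∧ ∃ X0 : ℕ, ∀ X H w : ℕ, X0 ≤ X →
    (Real.log X) ^ (1 - η) ≤ Real.log w → (w : ℝ) ≤ (X : ℝ) ^ η → Real.exp ((Real.log X) ^ (1 - η)) ≤ H → 2 * (H : ℝ) ≤ Real.sqrt X →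
      (((Ioc (X + H) (2 * X)).filter fun N => Even N ∧ ε * MF k H N < (RF k ⌈(Real.log X) ^ c1⌉₊ w H N : ℝ)).card : ℝ) ≤ X / (Real.log X) ^ A := by
  classical
  obtain ⟨n, rfl⟩ : ∃ n, k = n + 2 := ⟨k - 2, by omega⟩
  obtain ⟨C2, hC2, H0, hfs⟩ := fsU
  obtain ⟨C1, E, hC1, hE, hmj⟩ := mjG (n + 2)
  obtain ⟨C3, hC3, H1, hfg⟩ := fsG (n + 2)
  obtain ⟨z0, hz0⟩ := Pool.Agent.Lib.G3.mert5 1 one_pos
  obtain ⟨M, hM⟩ : ∃ M : ℕ, M = 4 * E + (n + 2) := ⟨_, rfl⟩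
  have hM1 : 1 ≤ M := by omega
  have hMr : (1 : ℝ) ≤ M := by exact_mod_cast hM1
  obtain ⟨F, hF⟩ : ∃ F : ℝ, F = ((n + 1).factorial : ℝ) := ⟨_, rfl⟩
  have hF0 : 0 < F := by
    rw [hF]
    exact_mod_cast Nat.factorial_pos _
  obtain ⟨e, he0, heε, he1⟩ : ∃ e : ℝ, 0 < e ∧ e ≤ ε ∧ e ≤ 1 := ⟨min ε 1, lt_min hε one_pos, min_le_left _ _, min_le_right _ _⟩
  obtain ⟨c1, hc1⟩ : ∃ c1 : ℕ, c1 = c + A + 23 := ⟨_, rfl⟩
  obtain ⟨η, hη0, hηM, hη2, hηe⟩ : ∃ η : ℝ, 0 < η ∧ η ≤ 1 / (4 * M) ∧ 2 * η ≤ 1 ∧ η ≤ e / (128 * M * C1 * C2 * F) := by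
    refine ⟨min (1 / (4 * M)) (e / (128 * M * C1 * C2 * F)), lt_min (by positivity) (by positivity), min_le_left _ _, ?_,
      min_le_right _ _⟩
    have h1 := min_le_left (1 / (4 * (M : ℝ))) (e / (128 * M * C1 * C2 * F))
    have h2 : 1 / (4 * (M : ℝ)) ≤ 1 / 4 := one_div_le_one_div_of_le (by norm_num) (by linarith)
    linarith
  refine ⟨c1, by omega, η, hη0, by linarith, ?_⟩
  obtain ⟨C5, hC5⟩ : ∃ C5 : ℝ, C5 = (max z0 3 : ℕ) + 2 + Real.log (c1 + 1) := ⟨_, rfl⟩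
  obtain ⟨KA, hKA⟩ : ∃ KA : ℝ, KA = 1024 * M * C1 * C3 * 4 ^ n * F / e := ⟨_, rfl⟩
  obtain ⟨KB, hKB⟩ : ∃ KB : ℝ, KB = 256 * M * C1 * C3 * (c1 + 1) * 2 ^ n * F / e := ⟨_, rfl⟩
  have hKA0 : 0 ≤ KA := by rw [hKA]; positivity
  have hKB0 : 0 ≤ KB := by rw [hKB]; positivity
  have hlX : Filter.Tendsto (fun X : ℕ => Real.log X) Filter.atTop Filter.atTop :=
    Real.tendsto_log_atTop.comp tendsto_natCast_atTop_atTop
  have hllX : Filter.Tendsto (fun X : ℕ => Real.log (Real.log X)) Filter.atTop Filter.atTop :=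
    Real.tendsto_log_atTop.comp hlX
  obtain ⟨X2, hX2⟩ := Filter.eventually_atTop.1
    ((Pool.Agent.Lib.SW.ev_log (F + 3 + 500000000 / e ^ 2 + H0 + H1 + (max z0 3 : ℕ) + KB)).and
    ((hllX.eventually_ge_atTop (2 / η + 2)).and ((hllX.eventually (nc_ev1 C5 KA (n + 1))).and
    ((hlX.eventually (nc_ev2 ((c1 + 1) * (4 * (n + 2) + 50)))).and
    ((Pool.Agent.Lib.SW.ev_pow (4 ^ 2) (2 * ((c1 + 1) * (4 * (n + 2 + 12)) + (A + 23)))).and
      (Filter.eventually_ge_atTop (3 ^ (4 * M))))))))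
  refine ⟨X2, fun X H w hX hw1 hw2 hH hHX => ?_⟩
  obtain ⟨ha, hb, hc, hd, hf, hg⟩ := hX2 X hX
  have hX3 : 3 ≤ X := le_trans (by
    calc 3 = 3 ^ 1 := (pow_one 3).symm
      _ ≤ 3 ^ (4 * M) := Nat.pow_le_pow_right (by norm_num) (by omega)) hg
  have hX1 : 1 ≤ X := by omega
  have hX0 : (1 : ℝ) ≤ X := by exact_mod_cast hX1
  have hlogX : ∀ y : ℝ, 0 < y → y ≤ X → Real.log y ≤ Real.log X := fun y h1 h2 => Real.log_le_log h1 h2
  have hlXM : Real.log ((X : ℝ) ^ (1 / (4 * M : ℝ))) = 1 / (4 * M : ℝ) * Real.log X := Real.log_rpow (by linarith) _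
  obtain ⟨L, hL⟩ : ∃ L : ℝ, L = Real.log X := ⟨_, rfl⟩
  rw [← hL] at ha hb hc hd hf hw1 hH hlogX hlXM ⊢
  have hz0c : (0 : ℝ) ≤ ((max z0 3 : ℕ) : ℝ) := Nat.cast_nonneg _
  have hH0c : (0 : ℝ) ≤ (H0 : ℝ) := Nat.cast_nonneg _
  have hH1c : (0 : ℝ) ≤ (H1 : ℝ) := Nat.cast_nonneg _
  have h5e : 0 ≤ 500000000 / e ^ 2 := by positivity
  have hL3 : 3 ≤ L := by linarith
  have hL1 : 1 ≤ L := by linarith
  have hL0 : 0 < L := by linarith
  have hFL : F ≤ L := by linarith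
  have heL : 500000000 ≤ e ^ 2 * L := by
    have h1 : 500000000 / e ^ 2 ≤ L := by linarith
    rw [div_le_iff₀ (by positivity)] at h1
    linarith
  have hKBL : KB ≤ L := by linarith
  obtain ⟨l, hl⟩ : ∃ l : ℝ, l = Real.log L := ⟨_, rfl⟩
  rw [← hl] at hb hc
  have h2η : 0 < 2 / η := by positivity
  have hl2 : 2 ≤ l := by linarith
  have hηl : 2 ≤ η * l := by
    have h1 : 2 / η ≤ l := by linarith
    rw [div_le_iff₀ hη0] at h1
    linarith
  -- `√L ≤ L^(1-η)`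
  have hsL : Real.sqrt L ≤ L ^ (1 - η) := by
    rw [Real.sqrt_eq_rpow]
    exact Real.rpow_le_rpow_of_exponent_le hL1 (by linarith)
  have hexp : L ^ ((c1 + 1) * (4 * (n + 2) + 50)) ≤ Real.exp (L ^ (1 - η)) := hd.trans (Real.exp_le_exp.2 hsL)
  have hHbig : L ^ ((c1 + 1) * (4 * (n + 2) + 50)) ≤ H := hexp.trans hH
  have hLη0 : 0 < L ^ (1 - η) := by positivity
  have hw0 : (0 : ℝ) < w := by
    rcases Nat.eq_zero_or_pos w with h | h
    · exfalso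
      rw [h, Nat.cast_zero, Real.log_zero] at hw1
      linarith
    · exact_mod_cast h
  have hwbig : L ^ ((c1 + 1) * (4 * (n + 2) + 50)) ≤ w := by
    refine hexp.trans ?_
    exact (Real.le_log_iff_exp_le hw0).1 hw1
  -- the sifting level
  obtain ⟨z, hz⟩ : ∃ z : ℕ, z = ⌈L ^ c1⌉₊ := ⟨_, rfl⟩
  rw [← hz]
  have hzl : L ^ c1 ≤ z := hz ▸ Nat.le_ceil _
  have hLc : L ≤ L ^ c1 := le_self_pow₀ hL1 (by omega)
  have hLz : L ≤ z := hLc.trans hzl
  have hzu : (z : ℝ) < L ^ (c1 + 1) := by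
    have h1 : (z : ℝ) < L ^ c1 + 1 := by
      rw [hz]
      exact Nat.ceil_lt_add_one (by positivity)
    have h2 : L ^ (c1 + 1) = L ^ c1 * L := pow_succ _ _
    have h3 : L ^ c1 * 2 ≤ L ^ c1 * L := mul_le_mul_of_nonneg_left (by linarith) (by positivity)
    rw [h2]
    linarith
  have hz3 : 3 ≤ z := by
    have : (3 : ℝ) ≤ z := hL3.trans hLz
    exact_mod_cast this
  have hzr : (3 : ℝ) ≤ z := by exact_mod_cast hz3
  have hzz1 : max z0 3 ≤ z := by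
    have : ((max z0 3 : ℕ) : ℝ) ≤ z := by linarith
    exact_mod_cast this
  have hlz1 : 1 ≤ Real.log z := by
    rw [Real.le_log_iff_exp_le (by linarith)]
    have := Real.exp_one_lt_d9
    linarith
  have hlz0 : 0 < Real.log z := by linarith
  have hlzl : Real.log z ≤ (c1 + 1) * l := by
    calc Real.log z ≤ Real.log (L ^ (c1 + 1)) := Real.log_le_log (by linarith) hzu.le
      _ = (c1 + 1) * l := by
          rw [Real.log_pow, ← hl]
          push_cast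
          ring
  have hzP : L ^ (A + 23) ≤ z := (pow_le_pow_right₀ hL1 (by omega)).trans hzl
  have hzpow : (z : ℝ) ^ (4 * (n + 2) + 50) ≤ L ^ ((c1 + 1) * (4 * (n + 2) + 50)) := by
    rw [pow_mul]
    exact pow_le_pow_left₀ (by positivity) hzu.le _
  have hzH : z ^ (4 * (n + 2) + 50) ≤ H := by
    have := hzpow.trans hHbig
    exact_mod_cast this
  have hz50 : z ^ 50 ≤ H := (Nat.pow_le_pow_right (by omega) (by omega)).trans hzH
  have hzw : z ≤ w := by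
    have h1 : (z : ℝ) ≤ (z : ℝ) ^ (4 * (n + 2) + 50) := le_self_pow₀ (by linarith) (by omega)
    have : (z : ℝ) ≤ w := (h1.trans hzpow).trans hwbig
    exact_mod_cast this
  have hHL : L ^ (A + 23) ≤ H := by
    have h1 : (z : ℝ) ≤ (z : ℝ) ^ (4 * (n + 2) + 50) := le_self_pow₀ (by linarith) (by omega)
    exact hzP.trans ((h1.trans hzpow).trans hHbig)
  have hzH1 : z ≤ H := by
    have h1 : z ≤ z ^ 50 := Nat.le_self_pow (by norm_num) _
    omega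
  have hLH : L ≤ H := by
    have : (z : ℝ) ≤ H := by exact_mod_cast hzH1
    linarith
  have hH3 : 3 ≤ H := by omega
  have hHr : (0 : ℝ) < H := by
    have : 0 < H := by omega
    exact_mod_cast this
  have hH0' : H0 ≤ H := by
    have : (H0 : ℝ) ≤ H := by linarith
    exact_mod_cast this
  have hH1' : H1 ≤ H := by
    have : (H1 : ℝ) ≤ H := by linarith
    exact_mod_cast this
  have hsX : √(X : ℝ) * √X = X := Real.mul_self_sqrt (by positivity)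
  have hs1 : 1 ≤ √(X : ℝ) := Real.one_le_sqrt.2 hX0
  have hsXX : √(X : ℝ) ≤ X := by
    calc √(X : ℝ) = √(X : ℝ) * 1 := (mul_one _).symm
      _ ≤ √(X : ℝ) * √X := mul_le_mul_of_nonneg_left hs1 (Real.sqrt_nonneg _)
      _ = X := hsX
  have hHleX : H ≤ X := by
    have : (H : ℝ) ≤ X := by linarith
    exact_mod_cast this
  obtain ⟨LH, hLHd⟩ : ∃ LH : ℝ, LH = Real.log H := ⟨_, rfl⟩
  have hlH : 0 < LH := by
    rw [hLHd]
    exact Real.log_pos (by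
      have : 1 < H := by omega
      exact_mod_cast this)
  have hlHL : LH ≤ L := by
    rw [hLHd]
    exact hlogX H hHr (by exact_mod_cast hHleX)
  have hLH2 : L ≤ LH ^ 2 := by
    have h1 : L ^ (1 - η) ≤ LH := by
      rw [hLHd, Real.le_log_iff_exp_le hHr]
      exact hH
    have h2 : Real.sqrt L ≤ LH := hsL.trans h1
    calc L = Real.sqrt L ^ 2 := (Real.sq_sqrt hL0.le).symm
      _ ≤ LH ^ 2 := pow_le_pow_left₀ (Real.sqrt_nonneg _) h2 2
  -- the size of U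
  obtain ⟨U, hU1, hU2⟩ := nc_exU M X hM1 hX1
  have hy3 : 3 ≤ (X : ℝ) ^ (1 / (4 * M : ℝ)) := by
    have h3 : ((3 : ℝ) ^ (4 * M)) ^ (1 / (4 * M : ℝ)) = 3 := by
      rw [← Real.rpow_natCast, ← Real.rpow_mul (by norm_num)]
      have : ((4 * M : ℕ) : ℝ) * (1 / (4 * M : ℝ)) = 1 := by
        push_cast
        field_simp
      rw [this, Real.rpow_one]
    calc (3 : ℝ) = ((3 : ℝ) ^ (4 * M)) ^ (1 / (4 * M : ℝ)) := h3.symm
      _ ≤ _ := Real.rpow_le_rpow (by positivity) (by exact_mod_cast hg) (by positivity)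
  have hUy := nc_U hM1 hy3 hU2
  have hlogU : L / (4 * M) ≤ Real.log U := by
    have hpos : (0 : ℝ) < (X : ℝ) ^ (1 / (4 * M : ℝ)) := by linarith
    have := Real.log_le_log hpos (show (X : ℝ) ^ (1 / (4 * M : ℝ)) ≤ U by linarith)
    rw [hlXM] at this
    rw [div_eq_mul_one_div, mul_comm]
    exact this
  have hwU : w ≤ U := by
    have h1 : (w : ℝ) ≤ (X : ℝ) ^ (1 / (4 * M : ℝ)) := hw2.trans (Real.rpow_le_rpow_of_exponent_le hX0 hηM)
    have : (w : ℝ) ≤ U := by linarith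
    exact_mod_cast this
  have hU0 : 1 ≤ U := by omega
  have hUr : (1 : ℝ) ≤ U := by exact_mod_cast hU0
  have hU2M : (U : ℝ) ^ (2 * M) ≤ X := by exact_mod_cast hU1
  have hUM : (U : ℝ) ^ M ≤ √X := by
    refine Real.le_sqrt_of_sq_le ?_
    rw [← pow_mul, mul_comm M 2]
    exact hU2M
  have hUk : U ^ (n + 2) ≤ X := (Nat.pow_le_pow_right hU0 (by omega)).trans hU1
  have hlUL : Real.log U ≤ L := by
    refine hlogX _ (by linarith) ?_
    exact (le_self_pow₀ hUr (by omega)).trans hU2M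
  have hR4 : (((U ^ E : ℕ) : ℝ)) ^ 4 ≤ √X := by
    push_cast
    rw [← pow_mul]
    exact (pow_le_pow_right₀ hUr (by omega)).trans hUM
  have hlR : Real.log ((U ^ E : ℕ) : ℝ) ≤ L := by
    refine hlogX _ (by exact_mod_cast Nat.pow_pos hU0) ?_
    push_cast
    exact (pow_le_pow_right₀ hUr (by omega)).trans hU2M
  have hpw : 4 * L ^ ((c1 + 1) * (4 * (n + 2 + 12)) + (A + 23)) ≤ √X := by
    refine Real.le_sqrt_of_sq_le ?_
    rw [mul_pow, ← pow_mul, mul_comm ((c1 + 1) * (4 * (n + 2 + 12)) + (A + 23)) 2]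
    exact hf
  have hzD : (((z ^ (n + 2 + 12) : ℕ) : ℝ)) ^ 4 ≤ L ^ ((c1 + 1) * (4 * (n + 2 + 12))) := by
    push_cast
    calc ((z : ℝ) ^ (n + 2 + 12)) ^ 4 = (z : ℝ) ^ (4 * (n + 2 + 12)) := by rw [← pow_mul]; ring_nf
      _ ≤ (L ^ (c1 + 1)) ^ (4 * (n + 2 + 12)) := pow_le_pow_left₀ (by positivity) hzu.le _
      _ = L ^ ((c1 + 1) * (4 * (n + 2 + 12))) := by rw [← pow_mul]
  have hlD : Real.log ((z ^ (n + 2 + 12) : ℕ) : ℝ) ≤ L := by
    have h1 : (1 : ℝ) ≤ ((z ^ (n + 2 + 12) : ℕ) : ℝ) := by exact_mod_cast Nat.one_le_pow _ _ (by omega)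
    refine hlogX _ (by linarith) ?_
    have h2 : ((z ^ (n + 2 + 12) : ℕ) : ℝ) ≤ (((z ^ (n + 2 + 12) : ℕ) : ℝ)) ^ 4 := le_self_pow₀ h1 (by norm_num)
    have h3 : L ^ ((c1 + 1) * (4 * (n + 2 + 12))) ≤ L ^ ((c1 + 1) * (4 * (n + 2 + 12)) + (A + 23)) :=
      pow_le_pow_right₀ hL1 (by omega)
    have h4 : (0 : ℝ) < L ^ ((c1 + 1) * (4 * (n + 2 + 12))) := by positivity
    linarith
  have hDR : 4 * ((((z ^ (n + 2 + 12) : ℕ) : ℝ)) ^ 4 * (((U ^ E : ℕ) : ℝ)) ^ 4) * L ^ (A + 23) ≤ X := by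
    calc 4 * ((((z ^ (n + 2 + 12) : ℕ) : ℝ)) ^ 4 * (((U ^ E : ℕ) : ℝ)) ^ 4) * L ^ (A + 23)
        ≤ 4 * (L ^ ((c1 + 1) * (4 * (n + 2 + 12))) * √X) * L ^ (A + 23) := by gcongr
      _ = 4 * L ^ ((c1 + 1) * (4 * (n + 2 + 12)) + (A + 23)) * √X := by
          rw [pow_add]
          ring
      _ ≤ √X * √X := mul_le_mul_of_nonneg_right hpw (by positivity)
      _ = X := hsX
  -- the sums of `1/p`
  have hσ0 : ∀ u v : ℕ, 0 ≤ sg1 u v := fun u v => by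
    unfold Pool.Agent.Lib.G5.sg1
    exact sum_nonneg fun p _ => by positivity
  have hz0z : z0 ≤ z := (le_max_left _ _).trans hzz1
  have hσ1 : sg1 w U ≤ η * l + 1 := by
    have h1 := (abs_le.1 (hz0 w U (hz0z.trans hzw) hwU)).2
    have h2 : sg1 w U = ∑ p ∈ Pool.Agent.Lib.G3.pi5 w U, (1 : ℝ) / p := rfl
    rw [h2]
    have hlw0 : 0 < Real.log w := lt_of_lt_of_le hLη0 hw1
    have hlU0 : 0 < Real.log U := lt_of_lt_of_le (by positivity) hlogU
    have h3 : Real.log (Real.log U / Real.log w) ≤ η * l := by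
      have h4 : Real.log U / Real.log w ≤ L ^ η := by
        rw [div_le_iff₀ hlw0]
        calc Real.log U ≤ L := hlUL
          _ = L ^ η * L ^ (1 - η) := by
              rw [← Real.rpow_add hL0]
              simp
          _ ≤ L ^ η * Real.log w := mul_le_mul_of_nonneg_left hw1 (by positivity)
      calc Real.log (Real.log U / Real.log w) ≤ Real.log (L ^ η) := Real.log_le_log (by positivity) h4
        _ = η * l := by rw [Real.log_rpow hL0, ← hl]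
    linarith
  have hσ2 : sg1 z U ≤ l + 1 := by
    have h1 := (abs_le.1 (hz0 z U hz0z (hzw.trans hwU))).2
    have h2 : sg1 z U = ∑ p ∈ Pool.Agent.Lib.G3.pi5 z U, (1 : ℝ) / p := rfl
    rw [h2]
    have hlU0 : 0 < Real.log U := lt_of_lt_of_le (by positivity) hlogU
    have h3 : Real.log (Real.log U / Real.log z) ≤ l := by
      rw [hl]
      refine Real.log_le_log (by positivity) ?_
      rw [div_le_iff₀ hlz0]
      calc Real.log U ≤ L := hlUL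
        _ = L * 1 := (mul_one _).symm
        _ ≤ L * Real.log z := mul_le_mul_of_nonneg_left hlz1 hL0.le
    linarith
  have hσ3 : 1 + sg1 0 z ≤ C5 + Real.log l := by
    have h1 := nc_sg0 hz0 hzz1
    have h2 : Real.log (Real.log z) ≤ Real.log (c1 + 1) + Real.log l := by
      rw [← Real.log_mul (by positivity) (by linarith)]
      exact Real.log_le_log hlz0 hlzl
    rw [hC5]
    linarith
  have hKAl : KA * (1 + sg1 0 z) ^ (n + 1) ≤ l := by
    refine le_trans ?_ hc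
    refine mul_le_mul_of_nonneg_left ?_ hKA0
    exact pow_le_pow_left₀ (by linarith [hσ0 0 z]) hσ3 _
  -- the sets
  obtain ⟨Sm, hSm⟩ : ∃ Sm : Finset ℕ, Sm = (QR (n + 1) 0 z (z ^ (n + 2))).filter (2 ≤ ·) := ⟨_, rfl⟩
  obtain ⟨μ, hμ1, hμ2, hμ3, hμ4, hμ5⟩ := hmj z U (QR (n + 1) w U (U ^ (n + 2))) (by omega) (by omega) (by omega) (fun g hg => by
    unfold QR at hg
    obtain ⟨h1, h2, h3⟩ := mem_filter.1 hg
    obtain ⟨h4, h5⟩ := mem_Icc.1 h1
    exact ⟨h4, h5, fun p hp hpg => lt_of_le_of_lt hzw (h3 p (Nat.mem_primeFactors.2 ⟨hp, hpg, by omega⟩)).1⟩)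
  obtain ⟨μ', hν1, hν2, hν3, hν4, hν5⟩ := hmj z U (QR n z U (U ^ (n + 2))) (by omega) (by omega) (by omega) (fun g hg => by
    unfold QR at hg
    obtain ⟨h1, h2, h3⟩ := mem_filter.1 hg
    obtain ⟨h4, h5⟩ := mem_Icc.1 h1
    exact ⟨h4, h5, fun p hp hpg => (h3 p (Nat.mem_primeFactors.2 ⟨hp, hpg, by omega⟩)).1⟩)
  obtain ⟨up, hu1, hu2, hu3, hu4, hu5⟩ := hfs H z hH0' (by omega) hz50
  obtain ⟨up', hv1, hv2, hv3, hv4, hv5⟩ := hfg H z Sm hH1' (by omega) hzH (fun s hs => by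
    rw [hSm] at hs
    obtain ⟨hs1, hs2⟩ := mem_filter.1 hs
    unfold QR at hs1
    obtain ⟨h1, h2, h3⟩ := mem_filter.1 hs1
    obtain ⟨h4, h5⟩ := mem_Icc.1 h1
    exact ⟨h4, h5, fun p hp hpg => (h3 p (Nat.mem_primeFactors.2 ⟨hp, hpg, by omega⟩)).2⟩)
  have hu1' : ∀ d, up d ≠ 0 → 1 ≤ d ∧ d ≤ z ^ (n + 2 + 12) ∧ ∀ p : ℕ, p.Prime → p ∣ d → p ≤ z := fun d hd => by
    obtain ⟨h1, h2, h3⟩ := hu1 d hd
    exact ⟨h1, h2.trans (Nat.pow_le_pow_right (by omega) (by omega)), h3⟩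
  have hu2' : ∀ d, |up d| ≤ (d.divisors.card : ℝ) := fun d => by
    by_cases hd : up d = 0
    · rw [hd, abs_zero]
      exact Nat.cast_nonneg _
    · have h1 : 1 ≤ d.divisors.card := card_pos.2 ⟨1, Nat.one_mem_divisors.2 (by
        have := (hu1 d hd).1
        omega)⟩
      have h2 : (1 : ℝ) ≤ (d.divisors.card : ℝ) := by exact_mod_cast h1
      exact (hu2 d).trans h2
  have hv2' : ∀ d, |up' d| ≤ (d.divisors.card : ℝ) := fun d => by
    by_cases hd : up' d = 0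
    · rw [hd, abs_zero]
      exact Nat.cast_nonneg _
    · exact (hv2 d).trans (nc_tau d (hv1 d hd).1)
  -- the two exceptional sets
  obtain ⟨EE, hEE⟩ : ∃ EE : (ℕ → ℝ) → (ℕ → ℝ) → ℕ → ℝ, ∀ u m N, EE u m N = ∑ p ∈ Icc 1 H, (if p.Prime then (1 : ℝ) else 0) *
      ((∑ d ∈ (N - p).divisors, u d) * (∑ e ∈ (N - p).divisors, m e - ∑ e ∈ Icc 1 (U ^ E), m e / e)) := ⟨_, fun _ _ _ => rfl⟩
  have hcard1 : (((Ioc (X + H) (2 * X)).filter fun N => e / 8 * (H / (4 * L ^ 3)) < |EE up μ N|).card : ℝ) ≤ X / (2 * L ^ A) := by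
    simp only [hEE]
    exact nc_card he0 hL1 (by omega) hzP hHL hHleX hlD hlR heL hDR hu1' hu2' hμ1 hμ2
  have hcard2 : (((Ioc (X + H) (2 * X)).filter fun N => e / 8 * (H / (4 * L ^ 3)) < |EE up' μ' N|).card : ℝ) ≤ X / (2 * L ^ A) := by
    simp only [hEE]
    exact nc_card he0 hL1 (by omega) hzP hHL hHleX hlD hlR heL hDR hv1 hv2' hν1 hν2
  have hsub : ((Ioc (X + H) (2 * X)).filter fun N => Even N ∧ ε * MF (n + 2) H N < (RF (n + 2) z w H N : ℝ)) ⊆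
      ((Ioc (X + H) (2 * X)).filter fun N => e / 8 * (H / (4 * L ^ 3)) < |EE up μ N|) ∪
      ((Ioc (X + H) (2 * X)).filter fun N => e / 8 * (H / (4 * L ^ 3)) < |EE up' μ' N|) := by
    intro N hN
    obtain ⟨hN1, hNe, hN2⟩ := mem_filter.1 hN
    have hN3 := mem_Ioc.1 hN1
    by_contra hcon
    rw [mem_union, not_or, mem_filter, mem_filter] at hcon
    obtain ⟨hc1, hc2⟩ := hcon
    have hc1' : |EE up μ N| ≤ e / 8 * (H / (4 * L ^ 3)) := by
      by_contra h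
      exact hc1 ⟨hN1, not_le.1 h⟩
    have hc2' : |EE up' μ' N| ≤ e / 8 * (H / (4 * L ^ 3)) := by
      by_contra h
      exact hc2 ⟨hN1, not_le.1 h⟩
    have hnb := nbU (n + 2) U z w X H N up μ up' μ' Sm hk (by omega) hzw hwU hUk hN3.1 hu3 hu4 hμ3 hμ4 hv3 hv4 hν3 hν4
      (fun s h1 h2 h3 h4 => by
        rw [hSm]
        refine mem_filter.2 ⟨?_, h1⟩
        unfold QR
        exact mem_filter.2 ⟨mem_Icc.2 ⟨by omega, h2⟩, h3, fun p hp => ⟨(Nat.prime_of_mem_primeFactors hp).pos, h4 p hp⟩⟩)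
    rw [nc_split (R := U ^ E), nc_split (R := U ^ E), ← hEE, ← hEE] at hnb
    have hS1 : 0 ≤ ∑ p ∈ (Icc 1 H).filter Nat.Prime, ∑ d ∈ (N - p).divisors, up d := by
      refine sum_nonneg fun p hp => hu3 _ ?_
      have := mem_Icc.1 (mem_filter.1 hp).1
      omega
    have hS2 : 0 ≤ ∑ p ∈ (Icc 1 H).filter Nat.Prime, ∑ d ∈ (N - p).divisors, up' d := by
      refine sum_nonneg fun p hp => hv3 _ ?_
      have := mem_Icc.1 (mem_filter.1 hp).1
      omega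
    have hB1 := hu5 N hNe (by omega)
    have hB2 := hv5 N hNe (by omega)
    rw [← hLHd] at hB1 hB2
    have hSS : 1 / 2 ≤ SS N := Pool.Agent.Lib.G5.q8 N hNe
    have hlU0 : 0 < Real.log U := lt_of_lt_of_le (by positivity) hlogU
    have hm1 : ∑ e ∈ Icc 1 (U ^ E), μ e / e ≤ C1 * (Real.log z / Real.log U) * (1 + sg1 w U) ^ (n + 1) :=
      hμ5.trans (mul_le_mul_of_nonneg_left (sbU1 (n + 1) w U (U ^ (n + 2))) (by positivity))
    have hm2 : ∑ e ∈ Icc 1 (U ^ E), μ' e / e ≤ C1 * (Real.log z / Real.log U) * (1 + sg1 z U) ^ n :=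
      hν5.trans (mul_le_mul_of_nonneg_left (sbU1 n z U (U ^ (n + 2))) (by positivity))
    have hσw := hσ0 w U
    have hσz := hσ0 z U
    have hσ00 := hσ0 0 z
    have hM1' : 0 ≤ C1 * (Real.log z / Real.log U) * (1 + sg1 w U) ^ (n + 1) := by positivity
    have hM2' : 0 ≤ C1 * (Real.log z / Real.log U) * (1 + sg1 z U) ^ n := by positivity
    have hΦ : ∑ s ∈ Sm, 1 / (Nat.totient s : ℝ) ≤ 2 ^ (n + 1) * (1 + sg1 0 z) ^ (n + 1) := by
      refine le_trans ?_ (sbU2 (n + 1) z (z ^ (n + 2)))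
      rw [hSm]
      exact sum_le_sum_of_subset_of_nonneg (filter_subset _ _) fun i _ _ => by positivity
    have hΦ0 : 0 ≤ ∑ s ∈ Sm, 1 / (Nat.totient s : ℝ) := sum_nonneg fun i _ => by positivity
    have hT1 : (∑ e ∈ Icc 1 (U ^ E), μ e / e) * ∑ p ∈ (Icc 1 H).filter Nat.Prime, ∑ d ∈ (N - p).divisors, up d ≤
        e / 8 * (SS N * (H / (LH * (2 * L)) * (l ^ (n + 1) / F))) := by
      calc _ ≤ (C1 * (Real.log z / Real.log U) * (1 + sg1 w U) ^ (n + 1)) *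
            ∑ p ∈ (Icc 1 H).filter Nat.Prime, ∑ d ∈ (N - p).divisors, up d := mul_le_mul_of_nonneg_right hm1 hS1
        _ ≤ (C1 * (Real.log z / Real.log U) * (1 + sg1 w U) ^ (n + 1)) * (C2 * (SS N * (H / (LH * Real.log z)))) :=
            mul_le_mul_of_nonneg_left hB1 hM1'
        _ ≤ _ := nc_T1 (by omega) (by linarith) hC1 hC2 hF0 hη0 hη2 hηe hL0 hηl hlz0 hlogU hlH (by linarith) hHr.le hσw hσ1
    have hT2 : (∑ e ∈ Icc 1 (U ^ E), μ' e / e) * ∑ p ∈ (Icc 1 H).filter Nat.Prime, ∑ d ∈ (N - p).divisors, up' d ≤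
        e / 8 * (SS N * (H / (LH * (2 * L)) * (l ^ (n + 1) / F))) := by
      calc _ ≤ (C1 * (Real.log z / Real.log U) * (1 + sg1 z U) ^ n) *
            ∑ p ∈ (Icc 1 H).filter Nat.Prime, ∑ d ∈ (N - p).divisors, up' d := mul_le_mul_of_nonneg_right hm2 hS2
        _ ≤ (C1 * (Real.log z / Real.log U) * (1 + sg1 z U) ^ n) *
            (C3 * (SS N * (H / (LH * Real.log z))) * (∑ s ∈ Sm, 1 / (Nat.totient s : ℝ)) + C3 * (H / LH ^ 3)) :=
            mul_le_mul_of_nonneg_left hB2 hM2'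
        _ ≤ _ := nc_T2 (M := (M : ℝ)) (c := (c1 : ℝ) + 1) (by linarith) hC1 hC3 hF0 he0 hL0 hl2 hlz0 hlogU hlH hSS hHr.le hσz hσ2 hΦ0 hΦ
            (by rw [← hKA]; exact hKAl) (by positivity) hlzl hLH2 (by rw [← hKB]; exact hKBL)
    -- the main term
    obtain ⟨T0, hT0⟩ : ∃ T0 : ℝ, T0 = SS N * (H / (LH * (2 * L)) * (l ^ (n + 1) / F)) := ⟨_, rfl⟩
    rw [← hT0] at hT1 hT2
    have hmT : H / (4 * L ^ 3) ≤ T0 := by
      have h1 : (H : ℝ) / (L * (2 * L)) ≤ H / (LH * (2 * L)) := by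
        refine div_le_div_of_nonneg_left hHr.le (by positivity) ?_
        exact mul_le_mul_of_nonneg_right hlHL (by positivity)
      have h2 : 1 / L ≤ l ^ (n + 1) / F := by
        rw [div_le_div_iff₀ hL0 hF0]
        have h3 : 1 ≤ l ^ (n + 1) := one_le_pow₀ (by linarith)
        calc 1 * F = F := one_mul F
          _ ≤ L := hFL
          _ = 1 * L := (one_mul L).symm
          _ ≤ l ^ (n + 1) * L := mul_le_mul_of_nonneg_right h3 hL0.le
      have h3 : (H : ℝ) / (L * (2 * L)) * (1 / L) ≤ H / (LH * (2 * L)) * (l ^ (n + 1) / F) :=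
        mul_le_mul h1 h2 (by positivity) (by positivity)
      have e1 : (H : ℝ) / (4 * L ^ 3) = 1 / 2 * ((H : ℝ) / (L * (2 * L)) * (1 / L)) := by
        field_simp
        ring
      rw [e1, hT0]
      exact mul_le_mul hSS h3 (by positivity) (by linarith)
    have hN0 : (0 : ℝ) < N := by
      have : 0 < N := by omega
      exact_mod_cast this
    have hXN : (X : ℝ) ≤ N := by
      have : X ≤ N := by omega
      exact_mod_cast this
    have hlN1 : L ≤ Real.log N := by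
      rw [hL]
      exact Real.log_le_log (by linarith) hXN
    have hlN2 : Real.log N ≤ 2 * L := by
      have h1 : (N : ℝ) ≤ (X : ℝ) ^ 2 := by
        have : N ≤ X ^ 2 := by
          calc N ≤ 2 * X := hN3.2
            _ ≤ X * X := Nat.mul_le_mul_right X (by omega)
            _ = X ^ 2 := (sq X).symm
        exact_mod_cast this
      calc Real.log N ≤ Real.log ((X : ℝ) ^ 2) := Real.log_le_log hN0 h1
        _ = 2 * L := by rw [Real.log_pow, hL]; norm_num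
    have hTM : T0 ≤ MF (n + 2) H N := by
      have h1 : (H : ℝ) / (LH * (2 * L)) ≤ H / (LH * Real.log N) := by
        refine div_le_div_of_nonneg_left hHr.le (mul_pos hlH (by linarith)) ?_
        exact mul_le_mul_of_nonneg_left hlN2 hlH.le
      have h2 : l ≤ Real.log (Real.log N) := by
        rw [hl]
        exact Real.log_le_log hL0 hlN1
      have h3 : l ^ (n + 1) / F ≤ (Real.log (Real.log N)) ^ (n + 1) / F :=
        div_le_div_of_nonneg_right (pow_le_pow_left₀ (by linarith) h2 _) hF0.le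
      unfold MF
      rw [hT0, ← hLHd, show n + 2 - 1 = n + 1 from rfl, ← hF]
      refine mul_le_mul_of_nonneg_left ?_ (by linarith)
      exact mul_le_mul h1 h3 (by positivity) (div_nonneg hHr.le (mul_nonneg hlH.le (by linarith)))
    have hm0 : (0 : ℝ) < H / (4 * L ^ 3) := by positivity
    have hT00 : 0 ≤ T0 := hm0.le.trans hmT
    have h8 : e / 8 * (H / (4 * L ^ 3)) ≤ e / 8 * T0 := mul_le_mul_of_nonneg_left hmT (by positivity)
    have hE1 := le_abs_self (EE up μ N)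
    have hE2 := le_abs_self (EE up' μ' N)
    have h9 : e * T0 ≤ ε * MF (n + 2) H N := mul_le_mul heε hTM hT00 hε.le
    have h10 : 0 ≤ e * T0 := mul_nonneg he0.le hT00
    linarith
  have hfin : (((Ioc (X + H) (2 * X)).filter fun N => Even N ∧ ε * MF (n + 2) H N < (RF (n + 2) z w H N : ℝ)).card : ℝ) ≤
      (((Ioc (X + H) (2 * X)).filter fun N => e / 8 * (H / (4 * L ^ 3)) < |EE up μ N|).card : ℝ) +
      (((Ioc (X + H) (2 * X)).filter fun N => e / 8 * (H / (4 * L ^ 3)) < |EE up' μ' N|).card : ℝ) := by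
    exact_mod_cast (card_le_card hsub).trans (card_union_le _ _)
  have e5 : (X : ℝ) / L ^ A = X / (2 * L ^ A) + X / (2 * L ^ A) := by
    field_simp
    ring
  rw [e5]
  linarith

end Pool.Agent.Lib.GU
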