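import Pool.Agent.Lib.GU.Mn
import Pool.Agent.Lib.GU.Mt
import Pool.Agent.Lib.GU.Nc

/-!
# GU, row Mf: a tiny prime plus a number with exactly `k` prime factors, the full count
-/

set_option autoImplicit false

open Finset

namespace Pool.Agent.Lib.GU

open Pool.Agent.Lib.G3 (SS)
open Pool.Agent.Lib.G5 (q8)
open Pool.Agent.Lib.G8 (mL)
open Pool.Agent.Lib.G9 (CZ MZ)

/-- growth -/
private theorem mf_ev (η θ : ℝ) (hη : 0 < η) (hη4 : η ≤ 1 / 4) (hθ : 0 < θ) (C n : ℕ) : ∃ X0 : ℕ, ∀ X : ℕ, X0 ≤ X →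
    16 ≤ Real.log X ∧ (Real.log X) ^ n ≤ Real.sqrt X ∧ (Real.log X) ^ (1 - 2 * η) ≤ θ * Real.log X ∧
      1 + (Real.log X) ^ (1 - 4 * η) ≤ (Real.log X) ^ (1 - 2 * η) ∧
      C * Real.log (Real.log X) + (Real.log X) ^ (1 - 2 * η) ≤ (Real.log X) ^ (1 - η) := by
  have e1 : ∀ᶠ x : ℝ in Filter.atTop, (Real.log x) ^ (n : ℝ) ≤ 1 * x ^ (1 / 2 : ℝ) := by
    have h1 := (isLittleO_log_rpow_rpow_atTop (s := 1 / 2) (n : ℝ) (by norm_num)).bound (c := 1) (by norm_num)
    filter_upwards [h1, Filter.eventually_ge_atTop (1 : ℝ)] with x hx hx1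
    rwa [Real.norm_of_nonneg (Real.rpow_nonneg (Real.log_nonneg hx1) _), Real.norm_of_nonneg (by positivity)] at hx
  have e2 : ∀ᶠ l : ℝ in Filter.atTop, l ^ (-(2 * η)) < θ :=
    (tendsto_rpow_neg_atTop (by positivity)).eventually (gt_mem_nhds hθ)
  have e3 : ∀ᶠ l : ℝ in Filter.atTop, 2 ≤ l ^ η := (tendsto_rpow_atTop hη).eventually (Filter.eventually_ge_atTop _)
  have e4 : ∀ᶠ l : ℝ in Filter.atTop, (C : ℝ) * Real.log l ≤ l ^ (1 / 2 : ℝ) := by
    have h1 := (isLittleO_log_rpow_atTop (r := 1 / 2) (by norm_num)).bound (c := 1 / (C + 1)) (by positivity)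
    filter_upwards [h1, Filter.eventually_ge_atTop (1 : ℝ)] with x hx hx1
    rw [Real.norm_of_nonneg (Real.log_nonneg hx1), Real.norm_of_nonneg (by positivity)] at hx
    have h2 : (0 : ℝ) ≤ C := Nat.cast_nonneg _
    have h3 : 0 ≤ x ^ (1 / 2 : ℝ) := by positivity
    calc (C : ℝ) * Real.log x ≤ C * (1 / (C + 1) * x ^ (1 / 2 : ℝ)) := mul_le_mul_of_nonneg_left hx h2
      _ = C / (C + 1) * x ^ (1 / 2 : ℝ) := by ring
      _ ≤ 1 * x ^ (1 / 2 : ℝ) := by
          refine mul_le_mul_of_nonneg_right ?_ h3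
          rw [div_le_one (by positivity)]
          linarith
      _ = x ^ (1 / 2 : ℝ) := one_mul _
  have e5 := (((e2.and e3).and e4).and (Filter.eventually_ge_atTop (16 : ℝ)))
  obtain ⟨x1, hx1⟩ := Filter.eventually_atTop.1 ((Real.tendsto_log_atTop.eventually e5).and (e1.and (Filter.eventually_ge_atTop (1 : ℝ))))
  refine ⟨⌈x1⌉₊, fun X hX => ?_⟩
  have hX' : x1 ≤ X := (Nat.le_ceil _).trans (by exact_mod_cast hX)
  obtain ⟨⟨⟨⟨g2, g3⟩, g4⟩, g5⟩, g1, -⟩ := hx1 X hX'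
  rw [Real.rpow_natCast, one_mul, ← Real.sqrt_eq_rpow] at g1
  obtain ⟨l, hl⟩ : ∃ l : ℝ, l = Real.log X := ⟨_, rfl⟩
  rw [← hl] at g1 g2 g3 g4 g5 ⊢
  have hl0 : 0 < l := by linarith
  have hl1 : 1 ≤ l := by linarith
  have h4 : 1 ≤ l ^ (1 - 4 * η) := Real.one_le_rpow hl1 (by linarith)
  have h24 : l ^ (1 - 2 * η) = l ^ (1 - 4 * η) * (l ^ η * l ^ η) := by
    rw [← Real.rpow_add hl0, ← Real.rpow_add hl0]
    congr 1
    ring
  have h12 : l ^ (1 - η) = l ^ (1 - 2 * η) * l ^ η := by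
    rw [← Real.rpow_add hl0]
    congr 1
    ring
  have h2p : 0 < l ^ (1 - 2 * η) := by positivity
  refine ⟨g5, g1, ?_, ?_, ?_⟩
  · have : l ^ (1 - 2 * η) = l ^ (-(2 * η)) * l := by
      nth_rewrite 3 [← Real.rpow_one l]
      rw [← Real.rpow_add hl0]
      congr 1
      ring
    rw [this]
    exact mul_le_mul_of_nonneg_right g2.le hl0.le
  · rw [h24]
    have q1 : (4 : ℝ) ≤ l ^ η * l ^ η := by nlinarith
    have q2 := mul_le_mul_of_nonneg_left q1 (by linarith : (0 : ℝ) ≤ l ^ (1 - 4 * η))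
    linarith
  · rw [h12]
    have h5 : (C : ℝ) * Real.log l ≤ l ^ (1 - 2 * η) :=
      g4.trans (Real.rpow_le_rpow_of_exponent_le hl1 (by linarith))
    have q3 := mul_le_mul_of_nonneg_left g3 h2p.le
    linarith

theorem g9f (k A : ℕ) (hk : 2 ≤ k) (ε : ℝ) (hε : 0 < ε) : ∃ η : ℝ, 0 < η ∧ η < 1 ∧ ∃ X0 : ℕ, ∀ X H : ℕ, X0 ≤ X →
    Real.exp ((Real.log X) ^ (1 - η)) ≤ H → 2 * (H : ℝ) ≤ Real.sqrt X →
      (((Ioc X (2 * X)).filter fun N => Even N ∧ ε * MF k H N < |(CF k H N : ℝ) - MF k H N|).card : ℝ) ≤ X / (Real.log X) ^ A := by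
  classical
  obtain ⟨ε', hε'⟩ : ∃ ε' : ℝ, ε' = min ε 1 := ⟨_, rfl⟩
  have hε'0 : 0 < ε' := by rw [hε']; exact lt_min hε one_pos
  have hε'1 : ε' ≤ 1 := by rw [hε']; exact min_le_right _ _
  have hε'ε : ε' ≤ ε := by rw [hε']; exact min_le_left _ _
  obtain ⟨c0, C, h1⟩ := g9y k (A + 1) 1 hk
  obtain ⟨η1, hη1, X1, h1⟩ := h1 (ε' / 8) (by positivity)
  obtain ⟨η2, hη2, hη2', X2, h2⟩ := mtU k c0 hk (ε' / 8) (by positivity)
  obtain ⟨c1, hc1, η3, hη3, hη3', X3, h3⟩ := ncU k (A + 1) c0 hk (ε' / 8) (by positivity)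
  obtain ⟨η, hη⟩ : ∃ η : ℝ, η = min (min η1 1) (min η2 η3) / 4 := ⟨_, rfl⟩
  have hm0 : 0 < min (min η1 1) (min η2 η3) := lt_min (lt_min hη1 one_pos) (lt_min hη2 hη3)
  have hη0 : 0 < η := by rw [hη]; positivity
  have hηa : 4 * η ≤ η1 := by
    have := (min_le_left (min η1 1) (min η2 η3)).trans (min_le_left _ _)
    rw [hη]; linarith
  have hηb : 4 * η ≤ 1 := by
    have := (min_le_left (min η1 1) (min η2 η3)).trans (min_le_right _ _)
    rw [hη]; linarith
  have hηc : 4 * η ≤ η2 := by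
    have := (min_le_right (min η1 1) (min η2 η3)).trans (min_le_left _ _)
    rw [hη]; linarith
  have hηd : 4 * η ≤ η3 := by
    have := (min_le_right (min η1 1) (min η2 η3)).trans (min_le_right _ _)
    rw [hη]; linarith
  obtain ⟨θ, hθ⟩ : ∃ θ : ℝ, θ = min (min η1 η3) (1 / 2) := ⟨_, rfl⟩
  have hθ0 : 0 < θ := by rw [hθ]; exact lt_min (lt_min hη1 hη3) (by norm_num)
  have hθa : θ ≤ η1 := by rw [hθ]; exact (min_le_left _ _).trans (min_le_left _ _)
  have hθb : θ ≤ η3 := by rw [hθ]; exact (min_le_left _ _).trans (min_le_right _ _)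
  have hθc : θ ≤ 1 / 2 := by rw [hθ]; exact min_le_right _ _
  obtain ⟨X4, h4⟩ := mf_ev η θ hη0 (by linarith) hθ0 C (A + 1)
  refine ⟨η, hη0, by linarith, max (max X1 X2) (max (max X3 X4) 1), fun X H hX hH1 hH2 => ?_⟩
  simp only [max_le_iff] at hX
  obtain ⟨⟨hX1, hX2⟩, ⟨hX3, hX4⟩, hX1n⟩ := hX
  obtain ⟨g1, g2, g3, g4, g5⟩ := h4 X hX4
  obtain ⟨l, hl⟩ : ∃ l : ℝ, l = Real.log X := ⟨_, rfl⟩
  have h2X := h2 X
  have hX0 : (0 : ℝ) < X := by exact_mod_cast hX1n
  have hXone : (1 : ℝ) ≤ X := by exact_mod_cast hX1n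
  rw [← hl] at g1 g2 g3 g4 g5 hH1
  have hl0 : 0 < l := by linarith
  have hl1 : 1 ≤ l := by linarith
  obtain ⟨y, hy⟩ : ∃ y : ℝ, y = l ^ (1 - 2 * η) := ⟨_, rfl⟩
  rw [← hy] at g3 g4 g5
  have hy4 : 1 ≤ l ^ (1 - 4 * η) := Real.one_le_rpow hl1 (by linarith)
  have hy1 : 1 ≤ y := by linarith
  obtain ⟨w, hw⟩ : ∃ w : ℕ, w = ⌊Real.exp y⌋₊ := ⟨_, rfl⟩
  have hwa : (w : ℝ) ≤ Real.exp y := by rw [hw]; exact Nat.floor_le (Real.exp_pos _).le
  have hwb : Real.exp (y - 1) ≤ w := by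
    have e1 : Real.exp y < (w : ℝ) + 1 := by rw [hw]; exact Nat.lt_floor_add_one _
    have e2 : Real.exp y = Real.exp (y - 1) * Real.exp 1 := by
      rw [← Real.exp_add]
      congr 1
      ring
    have e3 : 1 ≤ Real.exp (y - 1) := Real.one_le_exp (by linarith)
    have e4 := Real.add_one_le_exp (1 : ℝ)
    nlinarith
  have hw0 : (0 : ℝ) < w := lt_of_lt_of_le (Real.exp_pos _) hwb
  have hlw1 : y - 1 ≤ Real.log w := by
    rw [Real.le_log_iff_exp_le hw0]
    exact hwb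
  have hlw2 : Real.log w ≤ y := by
    rw [← Real.log_exp y]
    exact Real.log_le_log hw0 hwa
  have hmono : ∀ t : ℝ, 4 * η ≤ t → l ^ (1 - t) ≤ Real.log w := by
    intro t ht
    have : l ^ (1 - t) ≤ l ^ (1 - 4 * η) := Real.rpow_le_rpow_of_exponent_le hl1 (by linarith)
    linarith
  have hwX : ∀ t : ℝ, θ ≤ t → (w : ℝ) ≤ (X : ℝ) ^ t := by
    intro t ht
    refine hwa.trans ?_
    rw [Real.rpow_def_of_pos hX0, ← hl]
    refine Real.exp_le_exp.2 ?_
    have : θ * l ≤ t * l := mul_le_mul_of_nonneg_right ht hl0.le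
    linarith
  have hwC : (w : ℝ) * l ^ C ≤ H := by
    refine le_trans ?_ hH1
    have e1 : l ^ C = Real.exp (C * Real.log l) := by
      rw [mul_comm, Real.exp_mul, Real.exp_log hl0, Real.rpow_natCast]
    rw [e1]
    calc (w : ℝ) * Real.exp (C * Real.log l) ≤ Real.exp y * Real.exp (C * Real.log l) :=
          mul_le_mul_of_nonneg_right hwa (Real.exp_pos _).le
      _ = Real.exp (C * Real.log l + y) := by
          rw [← Real.exp_add]
          congr 1
          ring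
      _ ≤ Real.exp (l ^ (1 - η)) := Real.exp_le_exp.2 g5
  have hH3 : Real.exp (l ^ (1 - η3)) ≤ H := by
    refine le_trans (Real.exp_le_exp.2 ?_) hH1
    exact Real.rpow_le_rpow_of_exponent_le hl1 (by linarith)
  -- the set of the least primes
  obtain ⟨S, hS⟩ : ∃ S : Finset ℕ, S = SP X c0 w := ⟨_, rfl⟩
  have hlw3 : Real.log w ≤ 1 / 2 * Real.log X := by
    rw [← hl]
    have : θ * l ≤ 1 / 2 * l := mul_le_mul_of_nonneg_right hθc hl0.le
    linarith
  have hMt : ∀ N : ℕ, X ≤ N → N ≤ 2 * X →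
      |mL k S N / (Nat.factorial (k - 2) : ℝ) - (Real.log (Real.log N)) ^ (k - 1) / (Nat.factorial (k - 1) : ℝ)| ≤
        ε' / 8 * ((Real.log (Real.log N)) ^ (k - 1) / (Nat.factorial (k - 1) : ℝ)) ∧ 1 ≤ ∑ q ∈ S, 1 / (q : ℝ) := by
    intro N hN1 hN2
    rw [hS]
    exact h2 X N w hX2 hN1 hN2 (by rw [← hl]; exact hmono η2 hηc) hlw3
  have hSq : ∀ q ∈ S, q.Prime ∧ (Real.log X) ^ c0 ≤ q ∧ (q : ℝ) ≤ (w : ℝ) := by
    intro q hq
    rw [hS] at hq
    unfold SP at hq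
    rw [mem_filter, mem_Icc] at hq
    exact ⟨hq.2.1, hq.2.2, by exact_mod_cast hq.1.2⟩
  have hsum : 1 / (Real.log X) ^ 1 ≤ ∑ q ∈ S, 1 / (q : ℝ) := by
    refine le_trans ?_ (hMt X le_rfl (by omega)).2
    rw [pow_one, ← hl, div_le_one hl0]
    exact hl1
  have k1 := h1 X H w S hX1 hSq (hwX η1 hθa) (by rw [← hl]; exact hwC) hH2 hsum
  have k3 := h3 X H w hX3 (by rw [← hl]; exact hmono η3 hηd) (hwX η3 hθb) (by rw [← hl]; exact hH3) hH2
  obtain ⟨bad1, hbad1⟩ : ∃ bad1 : Finset ℕ, bad1 = ((Ioc X (2 * X)).filter fun N => Even N ∧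
    ε' / 8 * MZ k S H N < |(CZ k S H N : ℝ) - MZ k S H N|) := ⟨_, rfl⟩
  obtain ⟨z, hz⟩ : ∃ z : ℕ, z = ⌈(Real.log X) ^ c1⌉₊ := ⟨_, rfl⟩
  rw [← hz] at k3
  obtain ⟨bad2, hbad2⟩ : ∃ bad2 : Finset ℕ, bad2 = ((Ioc (X + H) (2 * X)).filter fun N => Even N ∧
    ε' / 8 * MF k H N < (RF k z w H N : ℝ)) := ⟨_, rfl⟩
  rw [← hbad1, ← hl] at k1
  rw [← hbad2, ← hl] at k3
  have hzl : l ^ c0 ≤ z := by
    have e1 : l ^ c0 ≤ l ^ c1 := pow_le_pow_right₀ hl1 hc1
    rw [hz, ← hl]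
    exact e1.trans (Nat.le_ceil _)
  -- the two comparisons
  have hC1 : ∀ N : ℕ, (CZ k S H N : ℝ) ≤ CF k H N := by
    intro N
    have : CZ k S H N ≤ CF k H N := by
      unfold CZ CF
      refine card_le_card fun p hp => ?_
      rw [mem_filter] at hp ⊢
      exact ⟨hp.1, hp.2.1, hp.2.2.1⟩
    exact_mod_cast this
  have hC2 : ∀ N : ℕ, (CF k H N : ℝ) ≤ CZ k S H N + RF k z w H N := by
    intro N
    have : CF k H N ≤ CZ k S H N + RF k z w H N := by
      unfold CZ CF RF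
      refine le_trans (card_le_card ?_) (card_union_le _ _)
      intro p hp
      rw [mem_filter] at hp
      rw [mem_union, mem_filter, mem_filter]
      obtain ⟨a1, a2, a3⟩ := hp
      by_cases a4 : z < (N - p).minFac ∧ (N - p).minFac ≤ w
      · refine Or.inl ⟨a1, a2, a3, ?_⟩
        rw [hS]
        unfold SP
        rw [mem_filter, mem_Icc]
        have a5 : N - p ≠ 1 := by
          intro h
          rw [h, ArithmeticFunction.cardFactors_one] at a3
          omega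
        have a6 := Nat.minFac_prime a5
        refine ⟨⟨a6.one_lt.le, a4.2⟩, a6, ?_⟩
        rw [← hl]
        refine hzl.trans ?_
        exact_mod_cast a4.1.le
      · exact Or.inr ⟨a1, a2, a3, a4⟩
    exact_mod_cast this
  have hrr : Real.sqrt X * Real.sqrt X = X := Real.mul_self_sqrt hX0.le
  have hr0 : 0 ≤ Real.sqrt X := Real.sqrt_nonneg _
  have hHone : (1 : ℝ) ≤ H := le_trans (Real.one_le_exp (by positivity)) hH1
  have hkey : ∀ N : ℕ, X < N → N ≤ 2 * X → Even N → 0 ≤ MF k H N ∧ |MZ k S H N - MF k H N| ≤ ε' / 8 * MF k H N := by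
    intro N hN1 hN2 hev
    have hNr : (X : ℝ) ≤ N := by exact_mod_cast hN1.le
    have hlN : l ≤ Real.log N := by rw [hl]; exact Real.log_le_log hX0 hNr
    have hSS := q8 N hev
    have hlH : 0 ≤ Real.log H := Real.log_nonneg hHone
    have hlN0 : 0 < Real.log N := by linarith
    have hll : 0 ≤ Real.log (Real.log N) := Real.log_nonneg (by linarith)
    obtain ⟨P, hP⟩ : ∃ P : ℝ, P = SS N * (H / (Real.log H * Real.log N)) := ⟨_, rfl⟩
    have hP0 : 0 ≤ P := by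
      rw [hP]
      exact mul_nonneg (by linarith) (by positivity)
    have e1 : MF k H N = P * ((Real.log (Real.log N)) ^ (k - 1) / (Nat.factorial (k - 1) : ℝ)) := by
      unfold MF
      rw [hP]
      ring
    have e2 : MZ k S H N = P * (mL k S N / (Nat.factorial (k - 2) : ℝ)) := by
      unfold MZ
      rw [hP]
      ring
    constructor
    · rw [e1]
      positivity
    · rw [e1, e2, ← mul_sub, abs_mul, abs_of_nonneg hP0]
      calc P * |mL k S N / (Nat.factorial (k - 2) : ℝ) - (Real.log (Real.log N)) ^ (k - 1) / (Nat.factorial (k - 1) : ℝ)| ≤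
            P * (ε' / 8 * ((Real.log (Real.log N)) ^ (k - 1) / (Nat.factorial (k - 1) : ℝ))) :=
              mul_le_mul_of_nonneg_left (hMt N hN1.le hN2).1 hP0
        _ = _ := by ring
  have hcov : ((H : ℝ) + bad1.card + bad2.card) ≤ X / l ^ A := by
    have e0 : (X : ℝ) / l ^ (A + 1) = X / l ^ A / l := by
      rw [pow_succ, div_div]
    have e1 : (H : ℝ) ≤ X / l ^ (A + 1) := by
      rw [le_div_iff₀ (by positivity)]
      calc (H : ℝ) * l ^ (A + 1) ≤ Real.sqrt X * Real.sqrt X := by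
            refine mul_le_mul ?_ g2 (by positivity) hr0
            linarith [(Nat.cast_nonneg H : (0 : ℝ) ≤ H)]
        _ = X := hrr
    have e2 : 0 ≤ (X : ℝ) / l ^ A := by positivity
    have e3 : (X : ℝ) / l ^ (A + 1) ≤ X / l ^ A / 4 := by
      rw [e0]
      exact div_le_div_of_nonneg_left e2 (by norm_num) (by linarith)
    linarith
  have hs : (Ioc X (2 * X)).filter (fun N => Even N ∧ ε * MF k H N < |(CF k H N : ℝ) - MF k H N|) ⊆
      Ioc X (X + H) ∪ bad1 ∪ bad2 := by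
    intro N hN
    rw [mem_filter, mem_Ioc] at hN
    obtain ⟨⟨hN0, hN2⟩, hev, hlt⟩ := hN
    rw [mem_union, mem_union, mem_Ioc]
    by_cases a1 : N ≤ X + H
    · exact Or.inl (Or.inl ⟨hN0, a1⟩)
    · by_cases a2 : N ∈ bad1
      · exact Or.inl (Or.inr a2)
      · right
        by_contra a3
        rw [not_le] at a1
        obtain ⟨b1, b2⟩ := hkey N hN0 hN2 hev
        have b3 : |(CZ k S H N : ℝ) - MZ k S H N| ≤ ε' / 8 * MZ k S H N := by
          by_contra h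
          rw [not_le] at h
          refine a2 ?_
          rw [hbad1, mem_filter, mem_Ioc]
          exact ⟨⟨hN0, hN2⟩, hev, h⟩
        have b4 : (RF k z w H N : ℝ) ≤ ε' / 8 * MF k H N := by
          by_contra h
          rw [not_le] at h
          refine a3 ?_
          rw [hbad2, mem_filter, mem_Ioc]
          exact ⟨⟨a1, hN2⟩, hev, h⟩
        have b5 := hC1 N
        have b6 := hC2 N
        obtain ⟨b7, b8⟩ := abs_le.1 b2
        obtain ⟨b9, b10⟩ := abs_le.1 b3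
        have b11 : ε' * MF k H N ≤ ε * MF k H N := mul_le_mul_of_nonneg_right hε'ε b1
        have b12 : 0 ≤ ε' * MF k H N := mul_nonneg hε'0.le b1
        have b13 : MZ k S H N ≤ 2 * MF k H N := by
          have : ε' / 8 * MF k H N ≤ 1 * MF k H N := mul_le_mul_of_nonneg_right (by linarith) b1
          linarith
        have b14 : ε' / 8 * MZ k S H N ≤ ε' / 8 * (2 * MF k H N) := mul_le_mul_of_nonneg_left b13 (by positivity)
        have b15 : |(CF k H N : ℝ) - MF k H N| ≤ ε * MF k H N := by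
          rw [abs_le]
          constructor <;> linarith
        linarith
  have m1 := (card_le_card hs).trans ((card_union_le _ _).trans (Nat.add_le_add_right (card_union_le _ _) _))
  rw [Nat.card_Ioc, show X + H - X = H by omega] at m1
  have m2 : (((Ioc X (2 * X)).filter fun N => Even N ∧ ε * MF k H N < |(CF k H N : ℝ) - MF k H N|).card : ℝ) ≤
      (H : ℝ) + bad1.card + bad2.card := by exact_mod_cast m1
  rw [← hl]
  exact m2.trans hcov

end Pool.Agent.Lib.GU
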