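import Pool.Agent.Lib.GU.Mj

/-!
# GU, row Mg: a sieve majorant of type I, general set `Q` (copy of GU/Mj.lean with a general `Q`)

PROOF IN WORDS. Copy of the landed GU/Mj.lean: `Q` in the place of `QE (k-1) U T (U^k)`, `E = K + 12`. `P` = the primes in `(z, U]`, `μ e = ∑_{g ∈ Q} ∑_{d ∈ P.powerset} [g ∏ d = e] up d`. If `g ∈ Q`, `g ∣ n` and no prime of `(z, U]` divides `n/g`, then the inner sum of `g` is `≥ 1`; all the others are `≥ 0`.
-/

set_option autoImplicit false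

open Finset

namespace Pool.Agent.Lib.GU

private noncomputable def mgMu (Q P : Finset ℕ) (up : Finset ℕ → ℝ) (e : ℕ) : ℝ :=
  ∑ g ∈ Q, ∑ d ∈ P.powerset, if g * ∏ r ∈ d, r = e then up d else 0

private theorem mg_sum (Q P : Finset ℕ) (up : Finset ℕ → ℝ) (D : Finset ℕ) (f : ℕ → ℝ) :
    ∑ e ∈ D, mgMu Q P up e * f e =
      ∑ g ∈ Q, ∑ d ∈ P.powerset, if g * ∏ r ∈ d, r ∈ D then up d * f (g * ∏ r ∈ d, r) else 0 := by
  unfold mgMu
  simp only [Finset.sum_mul]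
  rw [Finset.sum_comm]
  refine Finset.sum_congr rfl fun g hg => ?_
  rw [Finset.sum_comm]
  refine Finset.sum_congr rfl fun d hd => ?_
  simp only [ite_mul, zero_mul]
  rw [Finset.sum_ite_eq]

private theorem mg_div (Q P : Finset ℕ) (hQ : ∀ g ∈ Q, 1 ≤ g) (hP : ∀ r ∈ P, r.Prime) (up : Finset ℕ → ℝ) (n : ℕ)
    (hn : 1 ≤ n) : ∑ e ∈ n.divisors, mgMu Q P up e =
      ∑ g ∈ Q.filter (fun g => g ∣ n), ∑ d ∈ (P.filter fun r => r ∣ n / g).powerset, up d := by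
  have h := mg_sum Q P up n.divisors (fun _ => 1)
  simp only [mul_one] at h
  rw [h, Finset.sum_filter]
  refine Finset.sum_congr rfl fun g hg => ?_
  split_ifs with hgn
  · obtain ⟨m, rfl⟩ := hgn
    have hg0 : 0 < g := hQ g hg
    rw [Nat.mul_div_cancel_left m hg0, ← Finset.sum_filter]
    refine Finset.sum_congr ?_ fun _ _ => rfl
    ext d
    simp only [mem_filter, mem_powerset, Nat.mem_divisors]
    constructor
    · rintro ⟨hd, hdv, -⟩
      have hdm : ∏ r ∈ d, r ∣ m := (Nat.mul_dvd_mul_iff_left hg0).mp hdv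
      intro r hr
      exact mem_filter.mpr ⟨hd hr, (Finset.dvd_prod_of_mem _ hr).trans hdm⟩
    · intro hd
      have h1 : d ⊆ P := fun r hr => (mem_filter.mp (hd hr)).1
      exact ⟨h1, Nat.mul_dvd_mul_left g (Finset.prod_primes_dvd m (fun r hr => (hP r (h1 hr)).prime)
        fun r hr => (mem_filter.mp (hd hr)).2), by omega⟩
  · apply Finset.sum_eq_zero
    intro d hd
    rw [if_neg]
    intro h'
    exact hgn ((Dvd.intro _ rfl).trans (Nat.dvd_of_mem_divisors h'))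

private theorem mg_tau (Q P : Finset ℕ) (hQ : ∀ g ∈ Q, 1 ≤ g) (hP : ∀ r ∈ P, r.Prime) (up : Finset ℕ → ℝ)
    (hup : ∀ d, |up d| ≤ 1) (e : ℕ) : |mgMu Q P up e| ≤ (e.divisors.card : ℝ) := by
  have h1 : |mgMu Q P up e| ≤ ∑ g ∈ Q, if g ∈ e.divisors then (1 : ℝ) else 0 := by
    unfold mgMu
    refine (Finset.abs_sum_le_sum_abs _ _).trans (Finset.sum_le_sum fun g hg => ?_)
    refine (Finset.abs_sum_le_sum_abs _ _).trans ?_
    have h2 : ∀ d ∈ P.powerset, |if g * ∏ r ∈ d, r = e then up d else 0| ≤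
        if g * ∏ r ∈ d, r = e then (1 : ℝ) else 0 := by
      intro d hd
      split_ifs
      · exact hup d
      · simp
    refine (Finset.sum_le_sum h2).trans ?_
    by_cases hge : ∃ d ∈ P.powerset, g * ∏ r ∈ d, r = e
    · obtain ⟨d0, hd0, h0⟩ := hge
      have hpos : ∀ d ∈ P.powerset, 0 < ∏ r ∈ d, r :=
        fun d hd => Finset.prod_pos fun r hr => (hP r (mem_powerset.mp hd hr)).pos
      have hge : g ∈ e.divisors := by
        rw [Nat.mem_divisors]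
        refine ⟨⟨_, h0.symm⟩, ?_⟩
        rw [← h0]
        exact (Nat.mul_pos (hQ g hg) (hpos d0 hd0)).ne'
      rw [if_pos hge, Finset.sum_eq_single_of_mem d0 hd0, if_pos h0]
      intro d hd hne
      rw [if_neg]
      intro h3
      apply hne
      have h4 : ∏ r ∈ d, r = ∏ r ∈ d0, r := Nat.eq_of_mul_eq_mul_left (hQ g hg) (h3.trans h0.symm)
      rw [← Nat.primeFactors_prod (fun p hp => hP p (mem_powerset.mp hd hp)), h4,
        Nat.primeFactors_prod (fun p hp => hP p (mem_powerset.mp hd0 hp))]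
    · rw [Finset.sum_eq_zero]
      · split_ifs <;> norm_num
      · intro d hd
        exact if_neg fun h => hge ⟨d, hd, h⟩
  refine h1.trans ?_
  rw [← Finset.sum_filter, Finset.sum_const, nsmul_eq_mul, mul_one]
  exact_mod_cast Finset.card_le_card fun g hg => (mem_filter.mp hg).2

/-- Mertens product between `z` and `U` -/
private theorem mg_ms : ∃ C : ℝ, 0 < C ∧ ∀ z U : ℕ, 2 ≤ z → z ≤ U →
    ∏ p ∈ (Icc 1 U).filter (fun p => p.Prime ∧ z < p), (1 - 1 / (p : ℝ)) ≤ C * (Real.log z / Real.log U) := by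
  obtain ⟨C, hC, hinv⟩ := GT.V_inv_le
  refine ⟨C, hC, fun z U hz hU => ?_⟩
  have hV : 0 < GT.V z := GT.V_pos z
  have hs : GT.V z * ∏ p ∈ (Icc 1 U).filter (fun p => p.Prime ∧ z < p), (1 - 1 / (p : ℝ)) = GT.V U := by
    unfold GT.V
    rw [← Finset.prod_filter_mul_prod_filter_not (GT.pr U) (fun p => p ≤ z)]
    congr 1
    · refine Finset.prod_congr ?_ fun _ _ => rfl
      ext p
      simp only [GT.pr, mem_filter, mem_range]
      constructor
      · rintro ⟨h1, h2⟩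
        exact ⟨⟨by omega, h2⟩, by omega⟩
      · rintro ⟨⟨h1, h2⟩, h3⟩
        exact ⟨by omega, h2⟩
    · refine Finset.prod_congr ?_ fun _ _ => rfl
      ext p
      simp only [GT.pr, mem_filter, mem_range, mem_Icc, not_le]
      constructor
      · rintro ⟨⟨h1, h2⟩, h3, h4⟩
        exact ⟨⟨by omega, h3⟩, h4⟩
      · rintro ⟨⟨h1, h2⟩, h3⟩
        exact ⟨⟨h2.one_le, by omega⟩, h2, h3⟩
  have h1 : ∏ p ∈ (Icc 1 U).filter (fun p => p.Prime ∧ z < p), (1 - 1 / (p : ℝ)) = (GT.V z)⁻¹ * GT.V U := by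
    rw [← hs, inv_mul_cancel_left₀ hV.ne']
  rw [h1]
  have h2 := GT.V_le U (by omega)
  have h3 := hinv z hz
  have hz2 : (2 : ℝ) ≤ z := by exact_mod_cast hz
  have hlz : 0 < Real.log z := Real.log_pos (by linarith)
  calc (GT.V z)⁻¹ * GT.V U ≤ (C * Real.log z) * (1 / Real.log U) :=
        mul_le_mul h3 h2 (GT.V_pos U).le (by positivity)
    _ = C * (Real.log z / Real.log U) := by ring

theorem mjG (K : ℕ) : ∃ (C : ℝ) (E : ℕ), 0 < C ∧ 1 ≤ E ∧ ∀ (z U : ℕ) (Q : Finset ℕ), 2 ≤ z → z ≤ U → 3 ≤ U →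
    (∀ g ∈ Q, 1 ≤ g ∧ g ≤ U ^ K ∧ ∀ p : ℕ, p.Prime → p ∣ g → z < p) →
    ∃ μ : ℕ → ℝ, (∀ e, μ e ≠ 0 → 1 ≤ e ∧ e ≤ U ^ E ∧ ∀ p : ℕ, p.Prime → p ∣ e → z < p) ∧ (∀ e, |μ e| ≤ (e.divisors.card : ℝ)) ∧
      (∀ n : ℕ, 1 ≤ n → 0 ≤ ∑ e ∈ n.divisors, μ e) ∧
      (∀ n : ℕ, 1 ≤ n → ∀ g ∈ Q, g ∣ n → (∀ p : ℕ, p.Prime → z < p → p ≤ U → ¬ p ∣ n / g) → 1 ≤ ∑ e ∈ n.divisors, μ e) ∧
      ∑ e ∈ Icc 1 (U ^ E), μ e / e ≤ C * (Real.log z / Real.log U) * ∑ g ∈ Q, (1 : ℝ) / g := by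
  obtain ⟨K1, hK, hfl⟩ := Pool.Agent.Lib.TC.flm 1 zero_le_one
  obtain ⟨C0, hC0, hms⟩ := mg_ms
  refine ⟨(1 + K1 / 2) * C0, K + 12, by positivity, by omega, fun z U Q hz hXU hU hQ => ?_⟩
  set P : Finset ℕ := (Icc 1 U).filter (fun p => p.Prime ∧ z < p) with hPdef
  have hP : ∀ r ∈ P, r.Prime ∧ r ≤ U := by
    intro r hr
    rw [hPdef, mem_filter, mem_Icc] at hr
    exact ⟨hr.2.1, hr.1.2⟩
  have hPw : ∀ r ∈ P, z < r := by
    intro r hr
    rw [hPdef, mem_filter] at hr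
    exact hr.2.2
  have hPp : ∀ r ∈ P, r.Prime := fun r hr => (hP r hr).1
  obtain ⟨up, lo, hup, hsup, hB, hdens⟩ := hfl 1 le_rfl U (by omega) P hP
  have hQ1 : ∀ g ∈ Q, 1 ≤ g := fun g hg => (hQ g hg).1
  have hcop : ∀ g ∈ Q, ∀ d ∈ P.powerset, ∀ p : ℕ, p.Prime → p ∣ g * ∏ r ∈ d, r → z < p := by
    intro g hg d hd p hp hpd
    rcases (hp.dvd_mul).mp hpd with h1 | h1
    · exact (hQ g hg).2.2 p hp h1
    · obtain ⟨r, hr, hpr⟩ := (hp.prime.dvd_finsetProd_iff _).mp h1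
      have h2 := hPw r (mem_powerset.mp hd hr)
      rw [(Nat.prime_dvd_prime_iff_eq hp (hPp r (mem_powerset.mp hd hr))).mp hpr]
      exact h2
  have hdpos : ∀ d ∈ P.powerset, 0 < ∏ r ∈ d, r :=
    fun d hd => Finset.prod_pos fun r hr => (hPp r (mem_powerset.mp hd hr)).pos
  have hsz : ∀ g ∈ Q, ∀ d ∈ P.powerset, up d ≠ 0 → 1 ≤ g * ∏ r ∈ d, r ∧ g * ∏ r ∈ d, r ≤ U ^ (K + 12) := by
    intro g hg d hd hu
    refine ⟨Nat.mul_pos (hQ1 g hg) (hdpos d hd), ?_⟩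
    have h1 : ((∏ r ∈ d, r : ℕ) : ℝ) ≤ ((U ^ 12 : ℕ) : ℝ) := by
      have := hsup d (mem_powerset.mp hd) (Or.inl hu)
      push_cast at this ⊢
      simpa using this
    have h2 : ∏ r ∈ d, r ≤ U ^ 12 := by exact_mod_cast h1
    rw [pow_add]
    exact Nat.mul_le_mul (hQ g hg).2.1 h2
  refine ⟨mgMu Q P up, ?_, mg_tau Q P hQ1 hPp up fun d => (hup d).1, ?_, ?_, ?_⟩
  · intro e he
    unfold mgMu at he
    obtain ⟨g, hg, he⟩ := Finset.exists_ne_zero_of_sum_ne_zero he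
    obtain ⟨d, hd, he⟩ := Finset.exists_ne_zero_of_sum_ne_zero he
    split_ifs at he with h
    · rw [← h]
      obtain ⟨h1, h2⟩ := hsz g hg d hd he
      exact ⟨h1, h2, hcop g hg d hd⟩
    · exact absurd rfl he
  · intro n hn
    rw [mg_div Q P hQ1 hPp up n hn]
    refine Finset.sum_nonneg fun g hg => ?_
    refine le_trans ?_ (hB _ (filter_subset _ _)).2
    split_ifs <;> norm_num
  · intro n hn g0 hg0 hgn hfree
    rw [mg_div Q P hQ1 hPp up n hn]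
    have hmem : g0 ∈ Q.filter (fun g => g ∣ n) := mem_filter.mpr ⟨hg0, hgn⟩
    have hemp : (P.filter fun r => r ∣ n / g0) = ∅ := by
      rw [Finset.filter_eq_empty_iff]
      intro r hr hdv
      exact hfree r (hPp r hr) (hPw r hr) (hP r hr).2 hdv
    have h1 : (1 : ℝ) ≤ ∑ d ∈ (P.filter fun r => r ∣ n / g0).powerset, up d := by
      have := (hB (P.filter fun r => r ∣ n / g0) (filter_subset _ _)).2
      rwa [if_pos hemp] at this
    refine h1.trans ?_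
    refine Finset.single_le_sum (f := fun g => ∑ d ∈ (P.filter fun r => r ∣ n / g).powerset, up d) (fun g hg => ?_) hmem
    refine le_trans ?_ (hB _ (filter_subset _ _)).2
    split_ifs <;> norm_num
  · have h1 : ∑ e ∈ Icc 1 (U ^ (K + 12)), mgMu Q P up e / e =
        (∑ g ∈ Q, (1 : ℝ) / g) * ∑ d ∈ P.powerset, up d * ∏ r ∈ d, (1 / (r : ℝ)) := by
      have h2 := mg_sum Q P up (Icc 1 (U ^ (K + 12))) (fun e => 1 / (e : ℝ))
      have h3 : ∑ e ∈ Icc 1 (U ^ (K + 12)), mgMu Q P up e / e =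
          ∑ e ∈ Icc 1 (U ^ (K + 12)), mgMu Q P up e * (1 / (e : ℝ)) :=
        Finset.sum_congr rfl fun e _ => by ring
      rw [h3, h2, Finset.sum_mul_sum]
      refine Finset.sum_congr rfl fun g hg => Finset.sum_congr rfl fun d hd => ?_
      by_cases hu : up d = 0
      · rw [hu]
        simp
      · rw [if_pos (mem_Icc.mpr (hsz g hg d hd hu))]
        push_cast
        rw [Finset.prod_div_distrib, Finset.prod_const_one]
        field_simp
    rw [h1]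
    have h4 := (hdens (fun r => 1 / (r : ℝ)) fun r hr => by
      have h2 : (2 : ℝ) ≤ r := by exact_mod_cast (hPp r hr).two_le
      refine ⟨by positivity, le_refl _, ?_⟩
      rw [div_le_div_iff₀ (by linarith) (by norm_num)]
      linarith).1
    have h5 := (abs_le.mp h4).2
    have h6 := hms z U hz hXU
    have h7 : ∑ d ∈ P.powerset, up d * ∏ r ∈ d, (1 / (r : ℝ)) ≤ (1 + K1 / 2) * (C0 * (Real.log z / Real.log U)) := by
      have h8 : ∑ d ∈ P.powerset, up d * ∏ r ∈ d, (1 / (r : ℝ)) ≤ (1 + K1 / 2) * ∏ r ∈ P, (1 - 1 / (r : ℝ)) := by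
        have : K1 * (1 / 2 : ℝ) ^ 1 * ∏ r ∈ P, (1 - 1 / (r : ℝ)) = K1 / 2 * ∏ r ∈ P, (1 - 1 / (r : ℝ)) := by ring
        linarith
      exact h8.trans (mul_le_mul_of_nonneg_left h6 (by positivity))
    have h9 : 0 ≤ ∑ g ∈ Q, (1 : ℝ) / g := Finset.sum_nonneg fun g _ => by positivity
    calc (∑ g ∈ Q, (1 : ℝ) / g) * ∑ d ∈ P.powerset, up d * ∏ r ∈ d, (1 / (r : ℝ))
        ≤ (∑ g ∈ Q, (1 : ℝ) / g) * ((1 + K1 / 2) * (C0 * (Real.log z / Real.log U))) := mul_le_mul_of_nonneg_left h7 h9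
      _ = _ := by ring

end Pool.Agent.Lib.GU
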