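import Pool.Agent.Lib.G9.ZDefs
import Pool.Agent.Lib.T8.Sp

/-!
# GU, row Na: the non-typical numbers `N - p` and the two majorants, for one `N`

PROOF IN WORDS. Let `p` be counted by `NZ k U S H N`, `n = N - p`, `n > X ≥ U^k`. `Ω(n) = n.primeFactorsList.length` (`ArithmeticFunction.cardFactors_apply`). `spZ` (T8/Sp.lean) with `z := U`, `w := z`: (i) `s^2 ∣ n` for a prime `s > z`, or (ii) `smo U n ∈ QE (k-1) U S (U^k)`, so `1 ≤ ∑_{e ∣ n} μ e`; and all prime factors of `n` are `≥ n.minFac > z`, so `1 ≤ ∑_{d ∣ n} up d`: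
the product is `≥ 1`. All products are `≥ 0`.
-/

set_option autoImplicit false

open Finset

namespace Pool.Agent.Lib.GU

open Pool.Agent.Lib.G8 (EL)
open Pool.Agent.Lib.VKT (smo)
open Pool.Agent.Lib.T8 (QE)

open Classical in
/-- number of the primes `p ≤ H` such that `N - p` has exactly `k` prime factors, the least one in `S`, but is not typical -/
noncomputable def NZ (k U : ℕ) (S : Finset ℕ) (H N : ℕ) : ℕ :=
  ((Icc 1 H).filter fun p => p.Prime ∧ ArithmeticFunction.cardFactors (N - p) = k ∧ (N - p).minFac ∈ S ∧ ¬ EL k U S (N - p)).card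

private theorem na_card {T A P : Finset ℕ} (f : ℕ → ℝ) (h : ∀ p ∈ T, p ∈ A ∨ (p ∈ P ∧ 1 ≤ f p)) (hf : ∀ p ∈ P, 0 ≤ f p) :
    (T.card : ℝ) ≤ (A.card : ℝ) + ∑ p ∈ P, f p := by
  classical
  have h1 : T ⊆ A ∪ P.filter fun p => 1 ≤ f p := by
    intro p hp
    rw [Finset.mem_union, Finset.mem_filter]
    exact h p hp
  have h2 : (T.card : ℝ) ≤ (A.card : ℝ) + ((P.filter fun p => 1 ≤ f p).card : ℝ) := by
    exact_mod_cast (Finset.card_le_card h1).trans (Finset.card_union_le _ _)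
  have h3 : ((P.filter fun p => 1 ≤ f p).card : ℝ) ≤ ∑ p ∈ P, f p := by
    rw [Finset.card_eq_sum_ones, Nat.cast_sum]
    refine (Finset.sum_le_sum (g := f) fun p hp => ?_).trans
      (Finset.sum_le_sum_of_subset_of_nonneg (Finset.filter_subset _ _) fun p hp _ => hf p hp)
    rw [Nat.cast_one]
    exact (Finset.mem_filter.1 hp).2
  linarith

open Classical in
theorem naU (k U z X H N : ℕ) (S : Finset ℕ) (up μ : ℕ → ℝ) (hk : 2 ≤ k) (hS : ∀ q ∈ S, q.Prime ∧ z < q ∧ 2 * q ≤ U) (hU : U ^ k ≤ X) (hN : X + H < N)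
    (h1 : ∀ n : ℕ, 1 ≤ n → 0 ≤ ∑ d ∈ n.divisors, up d) (h2 : ∀ n : ℕ, 1 ≤ n → (∀ p : ℕ, p.Prime → p ∣ n → z < p) → 1 ≤ ∑ d ∈ n.divisors, up d)
    (h3 : ∀ n : ℕ, 1 ≤ n → 0 ≤ ∑ e ∈ n.divisors, μ e) (h4 : ∀ n : ℕ, 1 ≤ n → smo U n ∈ QE (k - 1) U S (U ^ k) → 1 ≤ ∑ e ∈ n.divisors, μ e) :
    (NZ k U S H N : ℝ) ≤ (((Icc 1 H).filter fun p => ∃ s : ℕ, z < s ∧ s ^ 2 ∣ N - p).card : ℝ) +
      ∑ p ∈ (Icc 1 H).filter Nat.Prime, (∑ d ∈ (N - p).divisors, up d) * (∑ e ∈ (N - p).divisors, μ e) := by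
  unfold NZ
  refine na_card (fun p => (∑ d ∈ (N - p).divisors, up d) * (∑ e ∈ (N - p).divisors, μ e)) ?_ ?_
  · intro p hp
    rw [Finset.mem_filter, Finset.mem_Icc] at hp
    obtain ⟨⟨hp1, hp2⟩, hpp, hcf, hmS, hE⟩ := hp
    have hn1 : 1 ≤ N - p := by omega
    have hn : U ^ k < N - p := by omega
    have hl : (N - p).primeFactorsList.length = k := by
      rw [← ArithmeticFunction.cardFactors_apply]
      exact hcf
    have hzm := (hS _ hmS).2.1
    have hall : ∀ q : ℕ, q.Prime → q ∣ N - p → z < q := fun q hq hqd =>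
      lt_of_lt_of_le hzm (Nat.minFac_le_of_dvd hq.two_le hqd)
    rcases (Pool.Agent.Lib.T8.spZ (w := z) hk hS le_rfl hn hl hmS).2 hE with ⟨s, -, hzs, hsd⟩ | hQ
    · left
      rw [Finset.mem_filter, Finset.mem_Icc]
      exact ⟨⟨hp1, hp2⟩, s, hzs, hsd⟩
    · right
      refine ⟨?_, ?_⟩
      · rw [Finset.mem_filter, Finset.mem_Icc]
        exact ⟨⟨hp1, hp2⟩, hpp⟩
      · have e1 := h2 (N - p) hn1 hall
        have e2 := h4 (N - p) hn1 hQ
        show 1 ≤ (∑ d ∈ (N - p).divisors, up d) * (∑ e ∈ (N - p).divisors, μ e)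
        nlinarith
  · intro p hp
    rw [Finset.mem_filter, Finset.mem_Icc] at hp
    have hn1 : 1 ≤ N - p := by omega
    exact mul_nonneg (h1 _ hn1) (h3 _ hn1)

end Pool.Agent.Lib.GU
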