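import Mathlib

/-!
# GU, row Sq: few `N` have many `p ≤ H` such that `N - p` is divisible by the square of a number `> z`

PROOF IN WORDS. Markov: the left side is at most `∑_{N ∈ (X+H, 2X]} #{p ≤ H : ...} ≤ H · #{n ∈ (X, 2X] : s^2 ∣ n for some s > z}` (`n = N - p`, for each `p` the map `N ↦ N - p` is injective) and the number of these `n` is at most `∑_{s > z} 2X/s^2 ≤ 2X/z` (`s ≤ 2X`; `sum_Ioo_inv_sq_le` or the lemma `bs_sq`/`l8a` in WL/Bs.lean, G8/L8a.lean, copy).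
-/

set_option autoImplicit false

open Finset

namespace Pool.Agent.Lib.GU

/-- the numbers up to `Y` divisible by the square of a number `> z` are few -/
private theorem sq_cnt (Y z : ℕ) (hz : 1 ≤ z) (s : Finset ℕ) (hs : ∀ n ∈ s, 1 ≤ n ∧ n ≤ Y ∧ ∃ q : ℕ, z < q ∧ q ^ 2 ∣ n) :
    (s.card : ℝ) ≤ Y / z := by
  classical
  have h1 : s ⊆ (Ioc z (max z Y)).biUnion fun q => (Ioc 0 Y).filter fun x => q ^ 2 ∣ x := by
    intro n hn
    obtain ⟨h2, h3, q, hq, h4⟩ := hs n hn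
    have h5 : q ≤ Y := ((Nat.le_self_pow (by norm_num) q).trans (Nat.le_of_dvd h2 h4)).trans h3
    rw [mem_biUnion]
    exact ⟨q, mem_Ioc.2 ⟨hq, h5.trans (le_max_right _ _)⟩, mem_filter.2 ⟨mem_Ioc.2 ⟨h2, h3⟩, h4⟩⟩
  have h2 : (((Ioc z (max z Y)).biUnion fun q => (Ioc 0 Y).filter fun x => q ^ 2 ∣ x).card : ℝ) ≤
      ∑ q ∈ Ioc z (max z Y), (Y : ℝ) * ((q : ℝ) ^ 2)⁻¹ := by
    refine (Nat.cast_le.2 (card_biUnion_le (s := Ioc z (max z Y)) (t := fun q => (Ioc 0 Y).filter fun x => q ^ 2 ∣ x))).trans ?_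
    rw [Nat.cast_sum]
    refine sum_le_sum fun q _ => ?_
    rw [Nat.Ioc_filter_dvd_card_eq_div]
    refine Nat.cast_div_le.trans ?_
    rw [Nat.cast_pow, div_eq_mul_inv]
  have h4 := sum_Ioc_inv_sq_le_sub (α := ℝ) (k := z) (n := max z Y) (by omega) (le_max_left _ _)
  have h5 : (0 : ℝ) ≤ ((max z Y : ℕ) : ℝ)⁻¹ := by positivity
  rw [← mul_sum] at h2
  calc (s.card : ℝ) ≤ _ := Nat.cast_le.2 (card_le_card h1)
    _ ≤ _ := h2
    _ ≤ Y * ((z : ℝ)⁻¹) := by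
        refine mul_le_mul_of_nonneg_left ?_ (Nat.cast_nonneg _)
        linarith
    _ = Y / z := (div_eq_mul_inv _ _).symm

open Classical in
theorem sqU (X H z : ℕ) (T : ℝ) (hz : 1 ≤ z) (hT : 0 < T) :
    (((Ioc (X + H) (2 * X)).filter fun N => T < (((Icc 1 H).filter fun p => ∃ s : ℕ, z < s ∧ s ^ 2 ∣ N - p).card : ℝ)).card : ℝ) * T ≤
      H * (2 * X / z) := by
  have h1 : (((Ioc (X + H) (2 * X)).filter fun N => T < (((Icc 1 H).filter fun p => ∃ s : ℕ, z < s ∧ s ^ 2 ∣ N - p).card : ℝ)).card : ℝ) * T ≤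
      ∑ N ∈ Ioc (X + H) (2 * X), (((Icc 1 H).filter fun p => ∃ s : ℕ, z < s ∧ s ^ 2 ∣ N - p).card : ℝ) := by
    rw [← nsmul_eq_mul, ← sum_const]
    refine (sum_le_sum fun N hN => (mem_filter.1 hN).2.le).trans ?_
    exact sum_le_sum_of_subset_of_nonneg (filter_subset _ _) fun _ _ _ => Nat.cast_nonneg _
  have h2 : ∑ N ∈ Ioc (X + H) (2 * X), (((Icc 1 H).filter fun p => ∃ s : ℕ, z < s ∧ s ^ 2 ∣ N - p).card : ℝ) =
      ∑ p ∈ Icc 1 H, (((Ioc (X + H) (2 * X)).filter fun N => ∃ s : ℕ, z < s ∧ s ^ 2 ∣ N - p).card : ℝ) := by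
    simp only [card_filter, Nat.cast_sum]
    exact sum_comm
  have h3 : ∀ p ∈ Icc 1 H, (((Ioc (X + H) (2 * X)).filter fun N => ∃ s : ℕ, z < s ∧ s ^ 2 ∣ N - p).card : ℝ) ≤ 2 * X / z := by
    intro p hp
    have hp1 := mem_Icc.1 hp
    have h4 : (((Ioc (X + H) (2 * X)).filter fun N => ∃ s : ℕ, z < s ∧ s ^ 2 ∣ N - p).image fun N => N - p).card =
        ((Ioc (X + H) (2 * X)).filter fun N => ∃ s : ℕ, z < s ∧ s ^ 2 ∣ N - p).card := by
      refine card_image_of_injOn fun N hN N' hN' h => ?_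
      have h5 := mem_Ioc.1 (mem_filter.1 (mem_coe.1 hN)).1
      have h6 := mem_Ioc.1 (mem_filter.1 (mem_coe.1 hN')).1
      have h7 : N - p = N' - p := h
      omega
    rw [← h4]
    have h5 := sq_cnt (2 * X) z hz (((Ioc (X + H) (2 * X)).filter fun N => ∃ s : ℕ, z < s ∧ s ^ 2 ∣ N - p).image fun N => N - p)
      (fun n hn => by
        obtain ⟨N, hN, rfl⟩ := mem_image.1 hn
        obtain ⟨h6, h7⟩ := mem_filter.1 hN
        have h8 := mem_Ioc.1 h6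
        exact ⟨by omega, by omega, h7⟩)
    push_cast at h5
    exact h5
  refine h1.trans ?_
  rw [h2]
  refine (sum_le_sum h3).trans ?_
  rw [sum_const, Nat.card_Icc, Nat.add_sub_cancel, nsmul_eq_mul]

end Pool.Agent.Lib.GU
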