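import Pool.Agent.Lib.WL.VaA
import Pool.Agent.Lib.GU.Va
import Pool.Agent.Lib.GU.Vb

/-!
# GU, row Vr: the variance over a long interval of `N` of the sum over `p ≤ H` of a small sieve times a centred type I function

PROOF IN WORDS. `m0 = ∑_{e ≤ R} μ e/e`. For `n ≥ 1`: `∑_{e ∣ n} μ e - m0 = ∑_{e ≤ R} μ e ([e ∣ n] - 1/e)`, `∑_{d ∣ n} up d = ∑_{d ≤ D} up d [d ∣ n]` (supports; `n = N - p ≥ 1`). Expand the square: `∑_{p, p'} b b' ∑_{d, d'} up up' ∑_{e, f} μ μ S(p, p', d, d', e, f)`, where `S` is the sum in `vaU` (row Va) (`e`, `f` are coprime to `d`, `d'`: primes `> z` and `≤ z`),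
so `|S| ≤ (V/lcm(d, d')) (1/(e f)) |g [g ∣ p - p'] - 1| + 4`, `g = gcd(e, f)`. If `g = 1` the first part is `0`. If `g > 1` then `g > z` (a prime factor of `g` divides `e`, so it is `> z`), and `vbU2` gives `∑_{p, p'} |g [g ∣ p - p'] - 1| ≤ g (2 H^2/z + H)`. `vbU1`: `∑_{d, d' ≤ D} 1/lcm(d, d') ≤ (1 + log D)^3`.
`∑_{e, f ≤ R} τ(e) τ(f) g/(e f) ≤ (1 + log R)^8` (`WL.s2W` in WL/VaA.lean). The terms `4`: at most `4 H^2 D^2 (∑_{e ≤ R} τ(e))^2 ≤ 4 H^2 D^2 R^4` (`τ(e) ≤ e ≤ R`). Compare WL/Va.lean.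
-/

set_option autoImplicit false

open Finset

namespace Pool.Agent.Lib.GU

private theorem vr_fac (DD EE : Finset ℕ) (φ ψ : ℕ → ℕ → ℝ) :
    ∑ x ∈ DD ×ˢ EE, ∑ y ∈ DD ×ˢ EE, φ x.1 y.1 * ψ x.2 y.2 =
      (∑ d ∈ DD, ∑ d' ∈ DD, φ d d') * ∑ e ∈ EE, ∑ f ∈ EE, ψ e f := by
  rw [sum_mul_sum, sum_product]
  refine sum_congr rfl fun d _ => sum_congr rfl fun e _ => ?_
  rw [sum_mul_sum, sum_product]

private theorem vr_rearr {α β : Type*} (P : Finset α) (X : Finset β) (F : α × β → α × β → ℝ) :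
    ∑ y ∈ P ×ˢ X, ∑ y' ∈ P ×ˢ X, F y y' = ∑ x ∈ X, ∑ x' ∈ X, ∑ p ∈ P, ∑ p' ∈ P, F (p, x) (p', x') := by
  rw [sum_product_right]
  refine sum_congr rfl fun x _ => ?_
  rw [sum_comm]
  rw [sum_product_right]
  refine sum_congr rfl fun x' _ => ?_
  rw [sum_comm]

private theorem vr_cop (z e d : ℕ) (h1 : ∀ p : ℕ, p.Prime → p ∣ e → z < p) (h2 : ∀ p : ℕ, p.Prime → p ∣ d → p ≤ z) :
    Nat.Coprime e d := by
  by_contra h
  obtain ⟨q, hq, hqe, hqd⟩ := Nat.Prime.not_coprime_iff_dvd.1 h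
  have := h1 q hq hqe
  have := h2 q hq hqd
  omega

private theorem vr_S (H z e f : ℕ) (hz : 1 ≤ z) (he : 1 ≤ e) (h1 : ∀ p : ℕ, p.Prime → p ∣ e → z < p) :
    ∑ p ∈ Icc 1 H, ∑ p' ∈ Icc 1 H, |(Nat.gcd e f : ℝ) * (if ((Nat.gcd e f : ℕ) : ℤ) ∣ (p : ℤ) - p' then (1 : ℝ) else 0) - 1| ≤
      (Nat.gcd e f : ℝ) * (2 * (H : ℝ) ^ 2 / z + H) := by
  have hg0 : 0 < Nat.gcd e f := Nat.gcd_pos_of_pos_left f he
  by_cases hg : Nat.gcd e f = 1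
  · rw [hg]
    have h2 : ∑ p ∈ Icc 1 H, ∑ p' ∈ Icc 1 H, |((1 : ℕ) : ℝ) * (if ((1 : ℕ) : ℤ) ∣ (p : ℤ) - p' then (1 : ℝ) else 0) - 1| = 0 := by
      refine sum_eq_zero fun p _ => sum_eq_zero fun p' _ => ?_
      have h3 : ((1 : ℕ) : ℤ) ∣ (p : ℤ) - p' := by
        rw [Nat.cast_one]
        exact one_dvd _
      rw [if_pos h3]
      norm_num
    rw [h2]
    positivity
  · obtain ⟨q, hq, hqg⟩ := Nat.exists_prime_and_dvd hg
    have h3 := h1 q hq (hqg.trans (Nat.gcd_dvd_left e f))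
    have h4 := Nat.le_of_dvd hg0 hqg
    exact vbU2 H (Nat.gcd e f) z hz (by omega)

private theorem vr_div (T : ℕ) (κ : ℕ → ℝ) (Q : ℕ → Prop) [DecidablePred Q] (h1 : ∀ d, κ d ≠ 0 → 1 ≤ d ∧ d ≤ T ∧ Q d) (n : ℕ) (hn : 1 ≤ n) :
    ∑ d ∈ n.divisors, κ d = ∑ d ∈ (Icc 1 T).filter Q, κ d * (if d ∣ n then (1 : ℝ) else 0) := by
  have h3 : ∑ e ∈ (Icc 1 T).filter Q, κ e * (if e ∣ n then (1 : ℝ) else 0) = ∑ e ∈ ((Icc 1 T).filter Q).filter (fun e => e ∣ n), κ e := by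
    symm
    refine (sum_filter _ _).trans (sum_congr rfl fun e _ => ?_)
    split_ifs <;> simp
  rw [h3]
  symm
  refine sum_subset_zero_on_sdiff ?_ ?_ fun _ _ => rfl
  · intro e he
    have h4 := mem_filter.1 he
    exact Nat.mem_divisors.2 ⟨h4.2, by omega⟩
  · intro e he
    have h4 := mem_sdiff.1 he
    by_contra h5
    have h6 := h1 e h5
    exact h4.2 (mem_filter.2 ⟨mem_filter.2 ⟨mem_Icc.2 ⟨h6.1, h6.2.1⟩, h6.2.2⟩, (Nat.mem_divisors.1 h4.1).1⟩)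

theorem vrU (A V H D R z : ℕ) (hH : H ≤ A) (hz : 1 ≤ z) (b : ℕ → ℝ) (hb : ∀ p, |b p| ≤ 1) (up μ : ℕ → ℝ)
    (h1 : ∀ d, up d ≠ 0 → 1 ≤ d ∧ d ≤ D ∧ ∀ p : ℕ, p.Prime → p ∣ d → p ≤ z) (h2 : ∀ d, |up d| ≤ 1)
    (h3 : ∀ e, μ e ≠ 0 → 1 ≤ e ∧ e ≤ R ∧ ∀ p : ℕ, p.Prime → p ∣ e → z < p) (h4 : ∀ e, |μ e| ≤ (e.divisors.card : ℝ)) :
    ∑ N ∈ Ioc A (A + V), (∑ p ∈ Icc 1 H, b p * ((∑ d ∈ (N - p).divisors, up d) *
      (∑ e ∈ (N - p).divisors, μ e - ∑ e ∈ Icc 1 R, μ e / e))) ^ 2 ≤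
      V * (1 + Real.log D) ^ 3 * (1 + Real.log R) ^ 8 * (2 * (H : ℝ) ^ 2 / z + H) + 4 * (H : ℝ) ^ 2 * (D : ℝ) ^ 2 * (R : ℝ) ^ 4 := by
  classical
  obtain ⟨Q1, hQ1⟩ : ∃ Q1 : ℕ → Prop, Q1 = fun d => ∀ p : ℕ, p.Prime → p ∣ d → p ≤ z := ⟨_, rfl⟩
  obtain ⟨Q2, hQ2⟩ : ∃ Q2 : ℕ → Prop, Q2 = fun e => ∀ p : ℕ, p.Prime → p ∣ e → z < p := ⟨_, rfl⟩
  set DD := (Icc 1 D).filter Q1 with hDD
  set EE := (Icc 1 R).filter Q2 with hEE
  set P := Icc 1 H with hP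
  have hDm : ∀ d ∈ DD, 1 ≤ d ∧ d ≤ D ∧ ∀ p : ℕ, p.Prime → p ∣ d → p ≤ z := by
    intro d hd
    have h5 := mem_filter.1 hd
    have h6 := mem_Icc.1 h5.1
    have h7 := h5.2
    rw [hQ1] at h7
    exact ⟨h6.1, h6.2, h7⟩
  have hEm : ∀ e ∈ EE, 1 ≤ e ∧ e ≤ R ∧ ∀ p : ℕ, p.Prime → p ∣ e → z < p := by
    intro d hd
    have h5 := mem_filter.1 hd
    have h6 := mem_Icc.1 h5.1
    have h7 := h5.2
    rw [hQ2] at h7
    exact ⟨h6.1, h6.2, h7⟩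
  have hPm : ∀ p ∈ P, p ≤ A := by
    intro p hp
    have := mem_Icc.1 hp
    omega
  have hm0 : ∑ e ∈ Icc 1 R, μ e / e = ∑ e ∈ EE, μ e * (1 / e) := by
    rw [hEE, sum_filter]
    refine sum_congr rfl fun e _ => ?_
    split_ifs with h5
    · ring
    · have : μ e = 0 := by
        by_contra h6
        refine h5 ?_
        rw [hQ2]
        exact (h3 e h6).2.2
      rw [this]
      simp
  set Y := P ×ˢ (DD ×ˢ EE) with hY
  set c : ℕ × ℕ × ℕ → ℝ := fun y => b y.1 * (up y.2.1 * μ y.2.2) with hc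
  set G : ℕ × ℕ × ℕ → ℕ → ℝ := fun y N => (if y.2.1 ∣ N - y.1 then (1 : ℝ) else 0) *
    ((if y.2.2 ∣ N - y.1 then (1 : ℝ) else 0) - 1 / (y.2.2 : ℝ)) with hG
  have hin : ∀ N ∈ Ioc A (A + V), ∑ p ∈ P, b p * ((∑ d ∈ (N - p).divisors, up d) *
      (∑ e ∈ (N - p).divisors, μ e - ∑ e ∈ Icc 1 R, μ e / e)) = ∑ y ∈ Y, c y * G y N := by
    intro N hN
    have hN1 := mem_Ioc.1 hN
    rw [hY, sum_product]
    refine sum_congr rfl fun p hp => ?_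
    have hp1 := hPm p hp
    have hd : ∑ d ∈ (N - p).divisors, up d = ∑ d ∈ DD, up d * (if d ∣ N - p then (1 : ℝ) else 0) := by
      refine vr_div D up Q1 ?_ (N - p) (by omega)
      intro d hd
      have h5 := h1 d hd
      rw [hQ1]
      exact h5
    have he : ∑ e ∈ (N - p).divisors, μ e = ∑ e ∈ EE, μ e * (if e ∣ N - p then (1 : ℝ) else 0) := by
      refine vr_div R μ Q2 ?_ (N - p) (by omega)
      intro d hd
      have h5 := h3 d hd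
      rw [hQ2]
      exact h5
    rw [hd, he, hm0, ← sum_sub_distrib, sum_mul_sum, mul_sum, sum_product]
    refine sum_congr rfl fun d _ => ?_
    rw [mul_sum]
    refine sum_congr rfl fun e _ => ?_
    simp only [hc, hG]
    ring
  have hsq : ∑ N ∈ Ioc A (A + V), (∑ p ∈ P, b p * ((∑ d ∈ (N - p).divisors, up d) *
      (∑ e ∈ (N - p).divisors, μ e - ∑ e ∈ Icc 1 R, μ e / e))) ^ 2 =
      ∑ y ∈ Y, ∑ y' ∈ Y, c y * c y' * ∑ N ∈ Ioc A (A + V), G y N * G y' N := by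
    rw [sum_congr rfl fun N hN => by rw [hin N hN, sq, sum_mul_sum]]
    rw [sum_comm]
    refine sum_congr rfl fun y _ => ?_
    rw [sum_comm]
    refine sum_congr rfl fun y' _ => ?_
    rw [mul_sum]
    refine sum_congr rfl fun N _ => ?_
    ring
  rw [hsq]
  set K : ℕ × ℕ × ℕ → ℕ × ℕ × ℕ → ℝ := fun y y' => V / (Nat.lcm y.2.1 y'.2.1 : ℝ) * (1 / ((y.2.2 : ℝ) * y'.2.2) *
        |(Nat.gcd y.2.2 y'.2.2 : ℝ) * (if ((Nat.gcd y.2.2 y'.2.2 : ℕ) : ℤ) ∣ (y.1 : ℤ) - y'.1 then (1 : ℝ) else 0) - 1|) + 4 with hK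
  have hK0 : ∀ y y', 0 ≤ K y y' := by
    intro y y'
    simp only [hK]
    positivity
  have hGK : ∀ y ∈ Y, ∀ y' ∈ Y, c y * c y' * ∑ N ∈ Ioc A (A + V), G y N * G y' N ≤ |μ y.2.2| * |μ y'.2.2| * K y y' := by
    intro y hy y' hy'
    have hy1 := mem_product.1 hy
    have hy2 := mem_product.1 hy1.2
    have hy1' := mem_product.1 hy'
    have hy2' := mem_product.1 hy1'.2
    have hd := hDm _ hy2.1
    have hd' := hDm _ hy2'.1
    have he := hEm _ hy2.2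
    have hf := hEm _ hy2'.2
    have h5 := vaU A V y.1 y'.1 y.2.1 y'.2.1 y.2.2 y'.2.2 (hPm _ hy1.1) (hPm _ hy1'.1) hd.1 hd'.1 he.1 hf.1
      (vr_cop z _ _ he.2.2 hd.2.2) (vr_cop z _ _ he.2.2 hd'.2.2) (vr_cop z _ _ hf.2.2 hd.2.2) (vr_cop z _ _ hf.2.2 hd'.2.2)
    have h6 : ∑ N ∈ Ioc A (A + V), G y N * G y' N = ∑ N ∈ Ioc A (A + V), (if y.2.1 ∣ N - y.1 then (1 : ℝ) else 0) *
        (if y'.2.1 ∣ N - y'.1 then (1 : ℝ) else 0) *
        (((if y.2.2 ∣ N - y.1 then (1 : ℝ) else 0) - 1 / y.2.2) * ((if y'.2.2 ∣ N - y'.1 then (1 : ℝ) else 0) - 1 / y'.2.2)) := by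
      refine sum_congr rfl fun N _ => ?_
      simp only [hG]
      ring
    rw [h6]
    refine (le_abs_self _).trans ?_
    rw [abs_mul]
    have h7 : |c y * c y'| ≤ |μ y.2.2| * |μ y'.2.2| := by
      have h8 : ∀ w : ℕ × ℕ × ℕ, |c w| ≤ |μ w.2.2| := by
        intro w
        simp only [hc]
        rw [abs_mul, abs_mul]
        calc |b w.1| * (|up w.2.1| * |μ w.2.2|) ≤ 1 * (1 * |μ w.2.2|) := by
              refine mul_le_mul (hb _) ?_ (by positivity) zero_le_one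
              exact mul_le_mul_of_nonneg_right (h2 _) (abs_nonneg _)
          _ = |μ w.2.2| := by ring
      rw [abs_mul]
      exact mul_le_mul (h8 y) (h8 y') (abs_nonneg _) (abs_nonneg _)
    exact mul_le_mul h7 h5 (abs_nonneg _) (by positivity)
  set W : ℝ := 2 * (H : ℝ) ^ 2 / z + H with hW
  have hW0 : 0 ≤ W := by
    rw [hW]
    positivity
  have hcardP : (P.card : ℝ) = H := by
    rw [hP, Nat.card_Icc]
    simp
  -- one quadruple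
  have hquad : ∀ x ∈ DD ×ˢ EE, ∀ x' ∈ DD ×ˢ EE, ∑ p ∈ P, ∑ p' ∈ P, |μ x.2| * |μ x'.2| * K (p, x) (p', x') ≤
      V * W * (1 / (Nat.lcm x.1 x'.1 : ℝ) * ((x.2.divisors.card : ℝ) * x'.2.divisors.card * (Nat.gcd x.2 x'.2 : ℝ) / (x.2 * x'.2))) +
        4 * (H : ℝ) ^ 2 * (|μ x.2| * |μ x'.2|) := by
    intro x hx x' hx'
    have he := hEm _ (mem_product.1 hx).2
    have h5 := vr_S H z x.2 x'.2 hz he.1 he.2.2
    rw [← hP, ← hW] at h5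
    have h6 : ∑ p ∈ P, ∑ p' ∈ P, |μ x.2| * |μ x'.2| * K (p, x) (p', x') =
        |μ x.2| * |μ x'.2| * (V / (Nat.lcm x.1 x'.1 : ℝ) * (1 / ((x.2 : ℝ) * x'.2)) *
          ∑ p ∈ P, ∑ p' ∈ P, |(Nat.gcd x.2 x'.2 : ℝ) * (if ((Nat.gcd x.2 x'.2 : ℕ) : ℤ) ∣ (p : ℤ) - p' then (1 : ℝ) else 0) - 1|) +
        4 * (H : ℝ) ^ 2 * (|μ x.2| * |μ x'.2|) := by
      have h7 : (4 : ℝ) * (H : ℝ) ^ 2 * (|μ x.2| * |μ x'.2|) = ∑ p ∈ P, ∑ p' ∈ P, 4 * (|μ x.2| * |μ x'.2|) := by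
        simp only [sum_const, nsmul_eq_mul, hcardP]
        ring
      rw [h7, mul_sum, mul_sum, ← sum_add_distrib]
      refine sum_congr rfl fun p _ => ?_
      rw [mul_sum, mul_sum, ← sum_add_distrib]
      refine sum_congr rfl fun p' _ => ?_
      simp only [hK]
      ring
    rw [h6]
    refine add_le_add ?_ le_rfl
    calc |μ x.2| * |μ x'.2| * (V / (Nat.lcm x.1 x'.1 : ℝ) * (1 / ((x.2 : ℝ) * x'.2)) *
          ∑ p ∈ P, ∑ p' ∈ P, |(Nat.gcd x.2 x'.2 : ℝ) * (if ((Nat.gcd x.2 x'.2 : ℕ) : ℤ) ∣ (p : ℤ) - p' then (1 : ℝ) else 0) - 1|)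
        ≤ ((x.2.divisors.card : ℝ) * x'.2.divisors.card) * (V / (Nat.lcm x.1 x'.1 : ℝ) * (1 / ((x.2 : ℝ) * x'.2)) *
          ((Nat.gcd x.2 x'.2 : ℝ) * W)) := by
          refine mul_le_mul ?_ ?_ (by positivity) (by positivity)
          · exact mul_le_mul (h4 _) (h4 _) (abs_nonneg _) (by positivity)
          · exact mul_le_mul_of_nonneg_left h5 (by positivity)
      _ = V * W * (1 / (Nat.lcm x.1 x'.1 : ℝ) * ((x.2.divisors.card : ℝ) * x'.2.divisors.card * (Nat.gcd x.2 x'.2 : ℝ) / (x.2 * x'.2))) := by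
          ring
  -- the two total sums
  have hD1 : ∑ d ∈ DD, ∑ d' ∈ DD, 1 / (Nat.lcm d d' : ℝ) ≤ (1 + Real.log D) ^ 3 := by
    refine le_trans ?_ (vbU1 D)
    have hEI : DD ⊆ Icc 1 D := filter_subset _ _
    calc ∑ d ∈ DD, ∑ d' ∈ DD, 1 / (Nat.lcm d d' : ℝ) ≤ ∑ d ∈ DD, ∑ d' ∈ Icc 1 D, 1 / (Nat.lcm d d' : ℝ) :=
          sum_le_sum fun e _ => sum_le_sum_of_subset_of_nonneg hEI fun f _ _ => by positivity
      _ ≤ _ := sum_le_sum_of_subset_of_nonneg hEI fun e _ _ => sum_nonneg fun f _ => by positivity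
  have hE1 : ∑ e ∈ EE, ∑ f ∈ EE, (e.divisors.card : ℝ) * f.divisors.card * (Nat.gcd e f : ℝ) / (e * f) ≤ (1 + Real.log R) ^ 8 := by
    refine le_trans ?_ (WL.s2W R)
    have hEI : EE ⊆ Icc 1 R := filter_subset _ _
    calc ∑ e ∈ EE, ∑ f ∈ EE, (e.divisors.card : ℝ) * f.divisors.card * (Nat.gcd e f : ℝ) / (e * f)
        ≤ ∑ e ∈ EE, ∑ f ∈ Icc 1 R, (e.divisors.card : ℝ) * f.divisors.card * (Nat.gcd e f : ℝ) / (e * f) :=
          sum_le_sum fun e _ => sum_le_sum_of_subset_of_nonneg hEI fun f _ _ => by positivity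
      _ ≤ _ := sum_le_sum_of_subset_of_nonneg hEI fun e _ _ => sum_nonneg fun f _ => by positivity
  have hM : ∑ x ∈ DD ×ˢ EE, |μ x.2| ≤ D * (R : ℝ) ^ 2 := by
    rw [sum_product]
    change ∑ _d ∈ DD, ∑ e ∈ EE, |μ e| ≤ _
    rw [sum_const, nsmul_eq_mul]
    have hc1 : (DD.card : ℝ) ≤ D := by
      have h5 : DD.card ≤ (Icc 1 D).card := card_le_card (filter_subset _ _)
      rw [Nat.card_Icc] at h5
      have h6 : DD.card ≤ D := by omega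
      exact_mod_cast h6
    have hc2 : ∑ e ∈ EE, |μ e| ≤ (R : ℝ) ^ 2 := by
      calc ∑ e ∈ EE, |μ e| ≤ ∑ e ∈ EE, (R : ℝ) := by
            refine sum_le_sum fun e he => (h4 e).trans ?_
            have h5 := Nat.card_divisors_le_self e
            have h6 := (hEm e he).2.1
            exact_mod_cast h5.trans h6
        _ = EE.card * (R : ℝ) := by rw [sum_const, nsmul_eq_mul]
        _ ≤ R * R := by
            refine mul_le_mul_of_nonneg_right ?_ (by positivity)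
            have h5 : EE.card ≤ (Icc 1 R).card := card_le_card (filter_subset _ _)
            rw [Nat.card_Icc] at h5
            have h6 : EE.card ≤ R := by omega
            exact_mod_cast h6
        _ = (R : ℝ) ^ 2 := by ring
    exact mul_le_mul hc1 hc2 (sum_nonneg fun _ _ => abs_nonneg _) (by positivity)
  have hM0 : 0 ≤ ∑ x ∈ DD ×ˢ EE, |μ x.2| := sum_nonneg fun _ _ => abs_nonneg _
  calc ∑ y ∈ Y, ∑ y' ∈ Y, c y * c y' * ∑ N ∈ Ioc A (A + V), G y N * G y' N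
      ≤ ∑ y ∈ Y, ∑ y' ∈ Y, |μ y.2.2| * |μ y'.2.2| * K y y' := sum_le_sum fun y hy => sum_le_sum fun y' hy' => hGK y hy y' hy'
    _ = ∑ x ∈ DD ×ˢ EE, ∑ x' ∈ DD ×ˢ EE, ∑ p ∈ P, ∑ p' ∈ P, |μ x.2| * |μ x'.2| * K (p, x) (p', x') := by
        rw [hY, vr_rearr P (DD ×ˢ EE) (fun y y' => |μ y.2.2| * |μ y'.2.2| * K y y')]
    _ ≤ ∑ x ∈ DD ×ˢ EE, ∑ x' ∈ DD ×ˢ EE, (V * W * (1 / (Nat.lcm x.1 x'.1 : ℝ) *
          ((x.2.divisors.card : ℝ) * x'.2.divisors.card * (Nat.gcd x.2 x'.2 : ℝ) / (x.2 * x'.2))) +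
        4 * (H : ℝ) ^ 2 * (|μ x.2| * |μ x'.2|)) := sum_le_sum fun x hx => sum_le_sum fun x' hx' => hquad x hx x' hx'
    _ = V * W * (∑ x ∈ DD ×ˢ EE, ∑ x' ∈ DD ×ˢ EE, 1 / (Nat.lcm x.1 x'.1 : ℝ) *
          ((x.2.divisors.card : ℝ) * x'.2.divisors.card * (Nat.gcd x.2 x'.2 : ℝ) / (x.2 * x'.2))) +
        4 * (H : ℝ) ^ 2 * (∑ x ∈ DD ×ˢ EE, |μ x.2|) ^ 2 := by
        rw [sq (∑ x ∈ DD ×ˢ EE, |μ x.2|), sum_mul_sum, mul_sum, mul_sum, ← sum_add_distrib]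
        refine sum_congr rfl fun x _ => ?_
        rw [sum_add_distrib, mul_sum, mul_sum]
    _ = V * W * ((∑ d ∈ DD, ∑ d' ∈ DD, 1 / (Nat.lcm d d' : ℝ)) *
          ∑ e ∈ EE, ∑ f ∈ EE, (e.divisors.card : ℝ) * f.divisors.card * (Nat.gcd e f : ℝ) / (e * f)) +
        4 * (H : ℝ) ^ 2 * (∑ x ∈ DD ×ˢ EE, |μ x.2|) ^ 2 := by
        rw [vr_fac DD EE (fun d d' => 1 / (Nat.lcm d d' : ℝ))
          (fun e f => (e.divisors.card : ℝ) * f.divisors.card * (Nat.gcd e f : ℝ) / (e * f))]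
    _ ≤ V * W * ((1 + Real.log D) ^ 3 * (1 + Real.log R) ^ 8) + 4 * (H : ℝ) ^ 2 * (D * (R : ℝ) ^ 2) ^ 2 := by
        refine add_le_add ?_ ?_
        · refine mul_le_mul_of_nonneg_left ?_ (by positivity)
          have hlogD : 0 ≤ Real.log D := Real.log_natCast_nonneg D
          refine mul_le_mul hD1 hE1 ?_ (by positivity)
          exact sum_nonneg fun e _ => sum_nonneg fun f _ => by positivity
        · refine mul_le_mul_of_nonneg_left ?_ (by positivity)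
          exact pow_le_pow_left₀ hM0 hM 2
    _ = V * (1 + Real.log D) ^ 3 * (1 + Real.log R) ^ 8 * (2 * (H : ℝ) ^ 2 / z + H) +
        4 * (H : ℝ) ^ 2 * (D : ℝ) ^ 2 * (R : ℝ) ^ 4 := by
        rw [hW]
        ring

end Pool.Agent.Lib.GU
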