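import Pool.Agent.Lib.GU.Mj
import Pool.Agent.Lib.GU.Fs
import Pool.Agent.Lib.GU.Vr
import Pool.Agent.Lib.GU.Sq
import Pool.Agent.Lib.GU.Na
import Pool.Agent.Lib.WL.Qs
import Pool.Agent.Lib.G5.Q8

/-!
# GU, row Ns: for almost all even `N` few of the primes `p ≤ H` have `N - p` with exactly `k` prime factors, the least one in `S`, but not typical

PROOF IN WORDS. `L = log X`, `LH = log H ≤ L`. `fsU` gives `C2`, `H0`; `mjU k` gives `C1`, `E`. `c1 = A + 2 B + 40`, `z = ⌈L^c1⌉₊`, `c0 = c1 + 1` (so `z < q` for `q ∈ S`), `C = 51 c1 + 1` (`z^50 ≤ H`), `M1 = 8 E + k + 24`. For `M ≥ M1`, `ε` (w.l.o.g. `≤ 1`): `qsW k M ε'`, `ε' = ε/(64 M C1 C2 (k-2)! ...)` small, gives `η'`; `η = min η' (1/(4M))`, so `2 q ≤ 2 X^η ≤ U`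
(`U ≥ X^(1/(2M)) - 1`), `z ≤ U`, `3 ≤ U`. `D = z^12`, `R = U^E`, `R^4 ≤ X^(1/4)` (`U^(2M) ≤ X`, `2M ≥ 16 E`), `μ` of `mjU`, `up` of `fsU`. `m0 = ∑_{e ≤ R} μ e/e ≤ C1 (log z/log U) ε' dT k S X`, `log U ≥ L/(4M)`.
Let `X + H < N ≤ 2X`, `N` even. `naU` (row Na): `NZ ≤ #(i) + ∑_{p ≤ H prime} (∑_{d ∣ N-p} up d)(∑_{e ∣ N-p} μ e)`, (i) = the `p ≤ H` such that `s^2 ∣ N - p` for some `s > z` (`U^k ≤ X` as `k ≤ 2M`). The second sum is `m0 ∑_p ∑_d up d + E(N) ≤ (max m0 0) C2 SS N H/(LH log z) + |E(N)|`, `E(N)` the sum in `vrU` with `b p = 1` for primes `p`, `0` otherwise (`A := X + H`, `V := X - H`). First term `≤ C1 C2 4M ε' dT k S X SS N H/(LH L) ≤ (ε/4) MZ k S H N`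
(`dT k S X = mL k S X/(k-2)! ≤ mL k S N/(k-2)!`, `log N ≤ 2 L`). `MZ ≥ (1/2) H/(LH 2 L) L^(-B)/(k-2)! =: m` (`q8`, `log (log N/log q) ≥ 1`, `q ≤ X^(1/8)`). (i): `sqU` with `T = (ε/4) m`: at most `H (2X/z)/T ≤ X/(4 L^A)` of the `N`. `|E(N)| > (ε/4) m`: by `vrU` and Markov at most
`(16/(ε^2 m^2)) [X (1 + 12 log z)^3 (1 + L)^8 (2 H^2/z + H) + 4 H^2 z^24 X^(1/4)] ≤ X/(4 L^A)` (`H ≥ L^C`, `z ≥ L^c1`, `H^2/m^2 ≤ K L^(2B + 4)`). For the other `N` the number is at most `(ε/4) MZ + (ε/4) m + (ε/4) m ≤ ε MZ`.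
-/

set_option autoImplicit false

open Finset

namespace Pool.Agent.Lib.GU

open Pool.Agent.Lib.G9 (MZ)
open Pool.Agent.Lib.G3 (SS)
open Pool.Agent.Lib.G8 (mL)
open Pool.Agent.Lib.T8 (dT QE)
open Pool.Agent.Lib.VKT (smo)

/-- `log (log Y/log q) ≥ 1` -/
private theorem ns_lq {M X Y q : ℕ} {η : ℝ} (hM : 1 ≤ M) (hη : η ≤ 1 / (4 * M)) (hL1 : 1 ≤ Real.log X) (hX : 1 ≤ X) (hXY : X ≤ Y)
    (hq2 : 2 ≤ q) (hq : (q : ℝ) ≤ (X : ℝ) ^ η) : 0 < Real.log q ∧ 1 ≤ Real.log (Real.log X / Real.log q) ∧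
      Real.log (Real.log X / Real.log q) ≤ Real.log (Real.log Y / Real.log q) := by
  have hq0 : (0 : ℝ) < q := by
    have : 0 < q := by omega
    exact_mod_cast this
  have hlq : 0 < Real.log q := Real.log_pos (by
    have : 1 < q := by omega
    exact_mod_cast this)
  have hX0 : (0 : ℝ) < X := by exact_mod_cast hX
  have h4 : Real.log q ≤ η * Real.log X := by
    rw [← Real.log_rpow hX0]
    exact Real.log_le_log hq0 hq
  have hMr : (1 : ℝ) ≤ M := by exact_mod_cast hM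
  have h5 : Real.log q ≤ 1 / 4 * Real.log X := by
    refine h4.trans (mul_le_mul_of_nonneg_right (hη.trans ?_) (by linarith))
    exact one_div_le_one_div_of_le (by norm_num) (by linarith)
  have h6 : 4 ≤ Real.log X / Real.log q := by
    rw [le_div_iff₀ hlq]
    linarith
  refine ⟨hlq, ?_, ?_⟩
  · rw [Real.le_log_iff_exp_le (by linarith)]
    have := Real.exp_one_lt_d9
    linarith
  · refine Real.log_le_log (by linarith) (div_le_div_of_nonneg_right ?_ hlq.le)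
    exact Real.log_le_log hX0 (by exact_mod_cast hXY)

private theorem ns_dT {k B M X : ℕ} {T : Finset ℕ} {η : ℝ} (hM : 1 ≤ M) (hη : η ≤ 1 / (4 * M))
    (hL : ((k - 2).factorial : ℝ) ≤ Real.log X) (hL1 : 1 ≤ Real.log X) (hX : 1 ≤ X)
    (hT : ∀ q ∈ T, 2 ≤ q ∧ (q : ℝ) ≤ (X : ℝ) ^ η) (hs : 1 / (Real.log X) ^ B ≤ ∑ q ∈ T, 1 / (q : ℝ)) :
    1 / (Real.log X) ^ (B + 1) ≤ dT k T X := by
  have hf : (0 : ℝ) < ((k - 2).factorial : ℝ) := by exact_mod_cast Nat.factorial_pos _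
  have h1 : ∀ q ∈ T, 1 / (q : ℝ) * (1 / Real.log X) ≤
      1 / (q : ℝ) * ((Real.log (Real.log X / Real.log q)) ^ (k - 2) / ((k - 2).factorial : ℝ)) := by
    intro q hq
    obtain ⟨h2, h3⟩ := hT q hq
    obtain ⟨hlq, h7, -⟩ := ns_lq hM hη hL1 hX le_rfl h2 h3
    refine mul_le_mul_of_nonneg_left ?_ (by positivity)
    calc 1 / Real.log X ≤ 1 / ((k - 2).factorial : ℝ) := one_div_le_one_div_of_le hf hL
      _ ≤ _ := div_le_div_of_nonneg_right (one_le_pow₀ h7) hf.le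
  unfold dT
  refine le_trans ?_ (sum_le_sum h1)
  rw [← sum_mul, pow_succ, ← one_div_mul_one_div]
  exact mul_le_mul_of_nonneg_right hs (by positivity)

/-- lower bound of the main term -/
private theorem ns_MZ {k M X H N : ℕ} {S : Finset ℕ} {η : ℝ} (hM : 1 ≤ M) (hη : η ≤ 1 / (4 * M)) (hL1 : 1 ≤ Real.log X)
    (hX : 2 ≤ X) (hH : 2 ≤ H) (hN1 : X ≤ N) (hN2 : N ≤ 2 * X) (hS : ∀ q ∈ S, 2 ≤ q ∧ (q : ℝ) ≤ (X : ℝ) ^ η) (hE : Even N) :
    SS N * (H / (Real.log H * (2 * Real.log X)) * dT k S X) ≤ MZ k S H N := by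
  have hf : (0 : ℝ) < ((k - 2).factorial : ℝ) := by exact_mod_cast Nat.factorial_pos _
  have hX1 : 1 ≤ X := by omega
  have hSS : 1 / 2 ≤ SS N := Pool.Agent.Lib.G5.q8 N hE
  have hlH : 0 < Real.log H := Real.log_pos (by
    have : 1 < H := by omega
    exact_mod_cast this)
  have hX0 : (0 : ℝ) < X := by exact_mod_cast hX1
  have hN0 : (0 : ℝ) < N := by
    have : 0 < N := by omega
    exact_mod_cast this
  have hlN0 : Real.log X ≤ Real.log N := Real.log_le_log hX0 (by exact_mod_cast hN1)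
  have hlN : Real.log N ≤ 2 * Real.log X := by
    have h1 : (N : ℝ) ≤ (X : ℝ) ^ 2 := by
      have : N ≤ X ^ 2 := by nlinarith
      exact_mod_cast this
    calc Real.log N ≤ Real.log ((X : ℝ) ^ 2) := Real.log_le_log hN0 h1
      _ = 2 * Real.log X := by rw [Real.log_pow]; norm_num
  have hD : dT k S X ≤ mL k S N / ((k - 2).factorial : ℝ) := by
    unfold dT mL
    rw [sum_div]
    refine sum_le_sum fun q hq => ?_
    obtain ⟨h2, h3⟩ := hS q hq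
    obtain ⟨hlq, h7, h8⟩ := ns_lq hM hη hL1 hX1 hN1 h2 h3
    rw [mul_div_assoc]
    refine mul_le_mul_of_nonneg_left (div_le_div_of_nonneg_right ?_ hf.le) (by positivity)
    exact pow_le_pow_left₀ (by linarith) h8 _
  have hD0 : 0 ≤ dT k S X := by
    unfold dT
    refine sum_nonneg fun q hq => ?_
    obtain ⟨h2, h3⟩ := hS q hq
    obtain ⟨hlq, h7, h8⟩ := ns_lq hM hη hL1 hX1 hN1 h2 h3
    have : 0 ≤ Real.log (Real.log X / Real.log q) := by linarith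
    positivity
  have hq : (H : ℝ) / (Real.log H * (2 * Real.log X)) ≤ H / (Real.log H * Real.log N) := by
    refine div_le_div_of_nonneg_left (Nat.cast_nonneg _) (mul_pos hlH (by linarith)) ?_
    exact mul_le_mul_of_nonneg_left hlN hlH.le
  unfold MZ
  refine mul_le_mul_of_nonneg_left ?_ (by linarith)
  refine mul_le_mul hq hD hD0 ?_
  have : 0 < Real.log N := by linarith
  positivity

/-- Markov for squares -/
private theorem ns_markov (F : Finset ℕ) (b : ℕ → ℝ) (θ s : ℝ) (hθ : 0 < θ) (hs : ∑ i ∈ F, b i ^ 2 ≤ s * θ ^ 2) :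
    ((F.filter fun i => θ < |b i|).card : ℝ) ≤ s := by
  classical
  have h1 : ((F.filter fun i => θ < |b i|).card : ℝ) * θ ^ 2 ≤ ∑ i ∈ F, b i ^ 2 := by
    calc ((F.filter fun i => θ < |b i|).card : ℝ) * θ ^ 2 = ∑ i ∈ F.filter fun i => θ < |b i|, θ ^ 2 := by
          rw [sum_const, nsmul_eq_mul]
      _ ≤ ∑ i ∈ F.filter fun i => θ < |b i|, b i ^ 2 := sum_le_sum fun i hi => by
          have h2 := (mem_filter.1 hi).2
          rw [← sq_abs (b i)]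
          exact pow_le_pow_left₀ hθ.le h2.le 2
      _ ≤ _ := sum_le_sum_of_subset_of_nonneg (filter_subset _ _) fun i hi _ => sq_nonneg _
  exact le_of_mul_le_mul_right (h1.trans hs) (by positivity)

/-- the size of `U` -/
private theorem ns_U {M X U : ℕ} (hM : 1 ≤ M) (hX : 3 ≤ (X : ℝ) ^ (1 / (4 * M : ℝ))) (hU : X ≤ (U + 1) ^ (2 * M)) :
    2 * (X : ℝ) ^ (1 / (4 * M : ℝ)) ≤ U := by
  have hMr : (1 : ℝ) ≤ M := by exact_mod_cast hM
  have h2 : (((X : ℝ) ^ (1 / (4 * M : ℝ))) ^ 2) ^ (2 * M) = X := by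
    rw [← pow_mul, ← Real.rpow_natCast, ← Real.rpow_mul (Nat.cast_nonneg _)]
    have : 1 / (4 * M : ℝ) * ((2 * (2 * M) : ℕ) : ℝ) = 1 := by
      push_cast
      field_simp
      norm_num
    rw [this, Real.rpow_one]
  have h3 : (((X : ℝ) ^ (1 / (4 * M : ℝ))) ^ 2) ^ (2 * M) ≤ ((U : ℝ) + 1) ^ (2 * M) := by
    rw [h2]
    exact_mod_cast hU
  have h4 := le_of_pow_le_pow_left₀ (by omega) (by positivity) h3
  nlinarith

/-- the first numerical inequality -/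
private theorem ns_num1 {A B : ℕ} {e L z X H : ℝ} (he : 0 < e) (hL : 1 ≤ L) (hX : 0 ≤ X) (hH : 0 ≤ H)
    (hz : L ^ (A + 2 * B + 18) ≤ z) (h1 : 64 ≤ e * L) :
    H * (2 * X / z) ≤ (X / (2 * L ^ A)) * (e / 4 * (H / (4 * L ^ (B + 3)))) := by
  have hL0 : 0 < L := by linarith
  have h2 : H * (2 * X / z) ≤ H * (2 * X / L ^ (A + 2 * B + 18)) := by
    refine mul_le_mul_of_nonneg_left ?_ hH
    exact div_le_div_of_nonneg_left (by positivity) (by positivity) hz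
  refine h2.trans ?_
  have e1 : (X / (2 * L ^ A)) * (e / 4 * (H / (4 * L ^ (B + 3)))) = X * H * (e * L ^ (B + 15)) / (32 * L ^ (A + 2 * B + 18)) := by
    rw [show A + 2 * B + 18 = A + (B + 3) + (B + 15) by ring, pow_add L (A + (B + 3)) (B + 15), pow_add L A (B + 3)]
    field_simp
    ring
  have e2 : H * (2 * X / L ^ (A + 2 * B + 18)) = X * H * 64 / (32 * L ^ (A + 2 * B + 18)) := by
    field_simp
    ring
  rw [e1, e2]
  refine div_le_div_of_nonneg_right ?_ (by positivity)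
  refine mul_le_mul_of_nonneg_left ?_ (by positivity)
  calc (64 : ℝ) ≤ e * L := h1
    _ ≤ e * L ^ (B + 15) := by
        refine mul_le_mul_of_nonneg_left ?_ he.le
        exact le_self_pow₀ hL (by omega)

/-- the second numerical inequality -/
private theorem ns_num2 {A B : ℕ} {e L z X H V lD lR DR : ℝ} (he : 0 < e) (hL : 1 ≤ L) (hX : 0 ≤ X) (hH : 0 < H)
    (hz : L ^ (A + 2 * B + 18) ≤ z) (hHL : L ^ (A + 2 * B + 18) ≤ H) (hV0 : 0 ≤ V) (hV : V ≤ X) (hD0 : 0 ≤ lD) (hD : lD ≤ 2 * L)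
    (hR0 : 0 ≤ lR) (hR : lR ≤ 2 * L) (h1 : 3200000 ≤ e ^ 2 * L) (h2 : 4 * DR * L ^ (A + 2 * B + 18) ≤ X) :
    V * lD ^ 3 * lR ^ 8 * (2 * H ^ 2 / z + H) + 4 * H ^ 2 * DR ≤ (X / (2 * L ^ A)) * (e / 4 * (H / (4 * L ^ (B + 3)))) ^ 2 := by
  have hL0 : 0 < L := by linarith
  obtain ⟨P, hP⟩ : ∃ P : ℝ, P = L ^ (A + 2 * B + 18) := ⟨_, rfl⟩
  have hP0 : 0 < P := by rw [hP]; positivity
  rw [← hP] at hz hHL h2
  have hz0 : 0 < z := by linarith
  have h3 : 2 * H ^ 2 / z + H ≤ 3 * H ^ 2 / P := by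
    have h4 : 2 * H ^ 2 / z ≤ 2 * H ^ 2 / P := div_le_div_of_nonneg_left (by positivity) hP0 hz
    have h5 : H ≤ H ^ 2 / P := by
      rw [le_div_iff₀ hP0]
      nlinarith
    have e1 : 3 * H ^ 2 / P = 2 * H ^ 2 / P + H ^ 2 / P := by ring
    rw [e1]
    linarith
  have h6 : V * lD ^ 3 * lR ^ 8 * (2 * H ^ 2 / z + H) ≤ X * (2 * L) ^ 3 * (2 * L) ^ 8 * (3 * H ^ 2 / P) := by
    gcongr
  have h7 : 4 * H ^ 2 * DR ≤ X * H ^ 2 / P := by
    rw [le_div_iff₀ hP0]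
    have := mul_le_mul_of_nonneg_left h2 (sq_nonneg H)
    nlinarith
  have h8 : X * (2 * L) ^ 3 * (2 * L) ^ 8 * (3 * H ^ 2 / P) + X * H ^ 2 / P ≤ X * H ^ 2 * (6145 * L ^ 11) / P := by
    have e1 : X * (2 * L) ^ 3 * (2 * L) ^ 8 * (3 * H ^ 2 / P) + X * H ^ 2 / P = X * H ^ 2 * (6144 * L ^ 11 + 1) / P := by
      field_simp
      ring
    rw [e1]
    refine div_le_div_of_nonneg_right ?_ hP0.le
    refine mul_le_mul_of_nonneg_left ?_ (by positivity)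
    have : 1 ≤ L ^ 11 := one_le_pow₀ hL
    linarith
  have e3 : (X / (2 * L ^ A)) * (e / 4 * (H / (4 * L ^ (B + 3)))) ^ 2 = X * H ^ 2 * (e ^ 2 / 512 * L ^ 12) / P := by
    rw [hP, show A + 2 * B + 18 = A + 2 * (B + 3) + 12 by ring, pow_add L (A + 2 * (B + 3)) 12, pow_add L A (2 * (B + 3)),
      pow_mul' L 2 (B + 3)]
    field_simp
    ring
  rw [e3]
  have h9 : 6145 * L ^ 11 ≤ e ^ 2 / 512 * L ^ 12 := by
    have h10 : 6145 ≤ e ^ 2 / 512 * L := by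
      have : e ^ 2 / 512 * L = e ^ 2 * L / 512 := by ring
      rw [this, le_div_iff₀ (by norm_num)]
      linarith
    calc 6145 * L ^ 11 ≤ e ^ 2 / 512 * L * L ^ 11 := mul_le_mul_of_nonneg_right h10 (by positivity)
      _ = e ^ 2 / 512 * L ^ 12 := by ring
  calc _ ≤ X * (2 * L) ^ 3 * (2 * L) ^ 8 * (3 * H ^ 2 / P) + X * H ^ 2 / P := add_le_add h6 h7
    _ ≤ X * H ^ 2 * (6145 * L ^ 11) / P := h8
    _ ≤ _ := by
        refine div_le_div_of_nonneg_right ?_ hP0.le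
        exact mul_le_mul_of_nonneg_left h9 (by positivity)

/-- the main part -/
private theorem ns_main {M C1 C2 e L lz lU lH D s H : ℝ} (hM : 0 < M) (hC1 : 0 < C1) (hC2 : 0 < C2) (he : 0 < e) (hL : 0 < L)
    (hlz : 0 < lz) (hU : L / (4 * M) ≤ lU) (hH : 0 < lH) (hD : 0 ≤ D) (hs : 0 ≤ s) (hH0 : 0 ≤ H) :
    (C1 * (lz / lU) * (e / (32 * M * C1 * C2) * D)) * (C2 * (s * (H / (lH * lz)))) ≤ e / 4 * (s * (H / (lH * (2 * L)) * D)) := by
  have h0 : 0 < L / (4 * M) := by positivity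
  have h1 : lz / lU ≤ lz / (L / (4 * M)) := div_le_div_of_nonneg_left hlz.le h0 hU
  calc (C1 * (lz / lU) * (e / (32 * M * C1 * C2) * D)) * (C2 * (s * (H / (lH * lz))))
      ≤ (C1 * (lz / (L / (4 * M))) * (e / (32 * M * C1 * C2) * D)) * (C2 * (s * (H / (lH * lz)))) := by gcongr
    _ = e / 4 * (s * (H / (lH * (2 * L)) * D)) := by
        field_simp
        ring

/-- the two sums -/
private theorem ns_split {H N R : ℕ} (up μ : ℕ → ℝ) :
    ∑ p ∈ (Icc 1 H).filter Nat.Prime, (∑ d ∈ (N - p).divisors, up d) * (∑ e ∈ (N - p).divisors, μ e) =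
      (∑ p ∈ Icc 1 H, (if p.Prime then (1 : ℝ) else 0) * ((∑ d ∈ (N - p).divisors, up d) *
        (∑ e ∈ (N - p).divisors, μ e - ∑ e ∈ Icc 1 R, μ e / e))) +
      (∑ e ∈ Icc 1 R, μ e / e) * ∑ p ∈ (Icc 1 H).filter Nat.Prime, ∑ d ∈ (N - p).divisors, up d := by
  rw [sum_filter, sum_filter, mul_sum, ← sum_add_distrib]
  refine sum_congr rfl fun p _ => ?_
  split_ifs
  · ring
  · ring

theorem nsU (k A B : ℕ) (hk : 2 ≤ k) : ∃ c0 C M1 : ℕ, ∀ M : ℕ, M1 ≤ M → ∀ ε : ℝ, 0 < ε → ∃ η : ℝ, 0 < η ∧ ∃ X0 : ℕ, ∀ (X H U : ℕ) (S : Finset ℕ),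
    X0 ≤ X → U ^ (2 * M) ≤ X → X ≤ (U + 1) ^ (2 * M) → (∀ q ∈ S, q.Prime ∧ (Real.log X) ^ c0 ≤ q ∧ (q : ℝ) ≤ (X : ℝ) ^ η) →
    1 / (Real.log X) ^ B ≤ ∑ q ∈ S, 1 / (q : ℝ) → (Real.log X) ^ C ≤ H → 2 * (H : ℝ) ≤ Real.sqrt X →
      (((Ioc (X + H) (2 * X)).filter fun N => Even N ∧ ε * MZ k S H N < (NZ k U S H N : ℝ)).card : ℝ) ≤ X / (Real.log X) ^ A := by
  classical
  obtain ⟨C2, hC2, H0, hfs⟩ := fsU
  obtain ⟨C1, E, hC1, hE, hmj⟩ := mjU k hk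
  refine ⟨A + 2 * B + 19, 50 * (A + 2 * B + 19), 4 * E + k, fun M hM ε hε => ?_⟩
  have hM1 : 1 ≤ M := by omega
  have hMr : (1 : ℝ) ≤ M := by exact_mod_cast hM1
  obtain ⟨e, he0, heε, he1⟩ : ∃ e : ℝ, 0 < e ∧ e ≤ ε ∧ e ≤ 1 := ⟨min ε 1, lt_min hε one_pos, min_le_left _ _, min_le_right _ _⟩
  obtain ⟨ε', hε'⟩ : ∃ ε' : ℝ, ε' = e / (32 * M * C1 * C2) := ⟨_, rfl⟩
  have hε'0 : 0 < ε' := by rw [hε']; positivity
  obtain ⟨η', hη', X1, hqs⟩ := Pool.Agent.Lib.WL.qsW k M hk (by omega) ε' hε'0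
  refine ⟨min η' (1 / (4 * M)), lt_min hη' (by positivity), ?_⟩
  obtain ⟨X2, hX2⟩ := Filter.eventually_atTop.1 (((Pool.Agent.Lib.SW.ev_log ((k - 2).factorial : ℝ)).and (Pool.Agent.Lib.SW.ev_log 2)).and
    ((Pool.Agent.Lib.SW.ev_log (3200000 / e ^ 2)).and ((Pool.Agent.Lib.SW.ev_log (H0 : ℝ)).and
      ((Pool.Agent.Lib.SW.ev_pow (4 ^ 2) (2 * (24 * (A + 2 * B + 19) + (A + 2 * B + 18)))).and (Filter.eventually_ge_atTop (3 ^ (4 * M)))))))
  refine ⟨max X1 X2, fun X H U S hX hU1 hU2 hS hSs hH hHX => ?_⟩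
  obtain ⟨⟨ha, hb⟩, hc, hd, hf, hg⟩ := hX2 X ((le_max_right _ _).trans hX)
  have hXX1 : X1 ≤ X := (le_max_left _ _).trans hX
  have hX3 : 3 ≤ X := le_trans (by
    calc 3 = 3 ^ 1 := (pow_one 3).symm
      _ ≤ 3 ^ (4 * M) := Nat.pow_le_pow_right (by norm_num) (by omega)) hg
  have hX1 : 1 ≤ X := by omega
  have hX0 : (1 : ℝ) ≤ X := by exact_mod_cast hX1
  obtain ⟨η, hη⟩ : ∃ η : ℝ, η = min η' (1 / (4 * M)) := ⟨_, rfl⟩
  have hηM : η ≤ 1 / (4 * M) := hη ▸ min_le_right _ _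
  rw [← hη] at hS
  have hS2 : ∀ q ∈ S, 2 ≤ q ∧ (q : ℝ) ≤ (X : ℝ) ^ η := fun q hq => ⟨(hS q hq).1.two_le, (hS q hq).2.2⟩
  have hrp : ∀ q ∈ S, (q : ℝ) ≤ (X : ℝ) ^ (1 / (4 * M : ℝ)) ∧ (q : ℝ) ≤ (X : ℝ) ^ η' := fun q hq =>
    ⟨(hS q hq).2.2.trans (Real.rpow_le_rpow_of_exponent_le hX0 hηM),
      (hS q hq).2.2.trans (Real.rpow_le_rpow_of_exponent_le hX0 (hη ▸ min_le_left _ _))⟩
  have hDL := ns_dT (k := k) (B := B) (X := X) (T := S) hM1 hηM ha (by linarith) hX1 hS2 hSs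
  have hMZ : ∀ N : ℕ, 2 ≤ H → X ≤ N → N ≤ 2 * X → Even N → SS N * (H / (Real.log H * (2 * Real.log X)) * dT k S X) ≤ MZ k S H N :=
    fun N h1 h2 h3 h4 => ns_MZ hM1 hηM (by linarith) (by omega) h1 h2 h3 hS2 h4
  have hqs' := hqs X U S hXX1 hU1 hU2
  have hlogX : ∀ y : ℝ, 0 < y → y ≤ X → Real.log y ≤ Real.log X := fun y h1 h2 => Real.log_le_log h1 h2
  have hlX : Real.log ((X : ℝ) ^ (1 / (4 * M : ℝ))) = 1 / (4 * M : ℝ) * Real.log X := Real.log_rpow (by linarith) _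
  obtain ⟨L, hL⟩ : ∃ L : ℝ, L = Real.log X := ⟨_, rfl⟩
  rw [← hL] at ha hb hc hd hf hS hSs hH hDL hMZ hqs' hlogX hlX ⊢
  have hL1 : 1 ≤ L := by linarith
  have hL0 : 0 < L := by linarith
  obtain ⟨D, hD⟩ : ∃ D : ℝ, D = dT k S X := ⟨_, rfl⟩
  rw [← hD] at hDL hMZ hqs'
  have hD0 : 0 ≤ D := le_trans (by positivity) hDL
  -- the sifting level
  obtain ⟨z, hz⟩ : ∃ z : ℕ, z = ⌈L ^ (A + 2 * B + 18)⌉₊ := ⟨_, rfl⟩
  have hzl : L ^ (A + 2 * B + 18) ≤ z := hz ▸ Nat.le_ceil _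
  have hLc : 2 ≤ L ^ (A + 2 * B + 18) := by
    calc (2 : ℝ) ≤ L := hb
      _ ≤ _ := le_self_pow₀ hL1 (by omega)
  have hzu : (z : ℝ) < L ^ (A + 2 * B + 19) := by
    have h1 : (z : ℝ) < L ^ (A + 2 * B + 18) + 1 := by
      rw [hz]
      exact Nat.ceil_lt_add_one (by positivity)
    have h2 : L ^ (A + 2 * B + 19) = L ^ (A + 2 * B + 18) * L := by
      rw [← pow_succ]
    have h3 : L ^ (A + 2 * B + 18) * 2 ≤ L ^ (A + 2 * B + 18) * L := mul_le_mul_of_nonneg_left hb (by positivity)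
    rw [h2]
    linarith
  have hz2 : 2 ≤ z := by
    have : (2 : ℝ) ≤ z := hLc.trans hzl
    exact_mod_cast this
  have hz1 : 1 ≤ z := by omega
  have hz0 : (1 : ℝ) ≤ z := by exact_mod_cast hz1
  have hlz : 0 < Real.log z := Real.log_pos (by
    have : 1 < z := by omega
    exact_mod_cast this)
  have hz50 : z ^ 50 ≤ H := by
    have h1 : (z : ℝ) ^ 50 ≤ H := by
      calc (z : ℝ) ^ 50 ≤ (L ^ (A + 2 * B + 19)) ^ 50 := pow_le_pow_left₀ (by positivity) hzu.le 50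
        _ = L ^ (50 * (A + 2 * B + 19)) := by rw [← pow_mul, mul_comm]
        _ ≤ H := hH
    exact_mod_cast h1
  have hHL : L ^ (A + 2 * B + 18) ≤ H := (pow_le_pow_right₀ hL1 (by omega)).trans hH
  have hH2 : 2 ≤ H := by
    have : (2 : ℝ) ≤ H := hLc.trans hHL
    exact_mod_cast this
  have hHr : (0 : ℝ) < H := by
    have : 0 < H := by omega
    exact_mod_cast this
  have hH0' : H0 ≤ H := by
    have h1 : L ≤ L ^ (A + 2 * B + 18) := le_self_pow₀ hL1 (by omega)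
    have : (H0 : ℝ) ≤ H := by linarith
    exact_mod_cast this
  have hsX : √(X : ℝ) * √X = X := Real.mul_self_sqrt (by positivity)
  have hs1 : 1 ≤ √(X : ℝ) := Real.one_le_sqrt.2 hX0
  have hsXX : √(X : ℝ) ≤ X := by nlinarith
  have hHleX : H ≤ X := by
    have : (H : ℝ) ≤ X := by linarith
    exact_mod_cast this
  have hlH : 0 < Real.log H := Real.log_pos (by
    have : 1 < H := by omega
    exact_mod_cast this)
  have hlHL : Real.log H ≤ L := hlogX H hHr (by exact_mod_cast hHleX)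
  -- the size of U
  have hy3 : 3 ≤ (X : ℝ) ^ (1 / (4 * M : ℝ)) := by
    have h3 : ((3 : ℝ) ^ (4 * M)) ^ (1 / (4 * M : ℝ)) = 3 := by
      rw [← Real.rpow_natCast, ← Real.rpow_mul (by norm_num)]
      have : ((4 * M : ℕ) : ℝ) * (1 / (4 * M : ℝ)) = 1 := by
        push_cast
        field_simp
      rw [this, Real.rpow_one]
    calc (3 : ℝ) = ((3 : ℝ) ^ (4 * M)) ^ (1 / (4 * M : ℝ)) := h3.symm
      _ ≤ _ := Real.rpow_le_rpow (by positivity) (by exact_mod_cast hg) (by positivity)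
  have hUy := ns_U hM1 hy3 hU2
  have hlogU : L / (4 * M) ≤ Real.log U := by
    have hpos : (0 : ℝ) < (X : ℝ) ^ (1 / (4 * M : ℝ)) := by linarith
    have := Real.log_le_log hpos (show (X : ℝ) ^ (1 / (4 * M : ℝ)) ≤ U by linarith)
    rw [hlX] at this
    rw [div_eq_mul_one_div, mul_comm]
    exact this
  have hSq : ∀ q ∈ S, q.Prime ∧ z < q ∧ 2 * q ≤ U := fun q hq => ⟨(hS q hq).1, by
    have h2 : (z : ℝ) < q := hzu.trans_le (hS q hq).2.1
    exact_mod_cast h2, by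
    have h1 := (hrp q hq).1
    have h2 : (2 * q : ℝ) ≤ U := by linarith
    exact_mod_cast h2⟩
  have hSne : S.Nonempty := by
    by_contra h
    rw [not_nonempty_iff_eq_empty] at h
    rw [h, sum_empty] at hSs
    have : 0 < 1 / L ^ B := by positivity
    linarith
  obtain ⟨q0, hq0⟩ := hSne
  obtain ⟨-, hq0z, hq0U⟩ := hSq q0 hq0
  obtain ⟨μ, hμ1, hμ2, hμ3, hμ4, hμ5⟩ := hmj z U S hz2 (by omega) (by omega) (fun q hq => ⟨(hS q hq).1, (hSq q hq).2.1, by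
    have := (hSq q hq).2.2
    omega⟩)
  obtain ⟨up, hu1, hu2, hu3, hu4, hu5⟩ := hfs H z hH0' hz2 hz50
  have hqe := hqs' (fun q hq => ⟨(hS q hq).1, by
    have h1 := (hS q hq).2.1
    have h2 : L ≤ L ^ (A + 2 * B + 19) := le_self_pow₀ hL1 (by omega)
    linarith, (hrp q hq).2⟩)
  have hU0 : 1 ≤ U := by omega
  have hUr : (1 : ℝ) ≤ U := by exact_mod_cast hU0
  have hU2M : (U : ℝ) ^ (2 * M) ≤ X := by exact_mod_cast hU1
  have hUM : (U : ℝ) ^ M ≤ √X := by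
    refine Real.le_sqrt_of_sq_le ?_
    rw [← pow_mul, mul_comm M 2]
    exact hU2M
  have hUk : U ^ k ≤ X := (Nat.pow_le_pow_right hU0 (by omega)).trans hU1
  have hR4 : (((U ^ E : ℕ) : ℝ)) ^ 4 ≤ √X := by
    push_cast
    rw [← pow_mul]
    exact (pow_le_pow_right₀ hUr (by omega)).trans hUM
  have hlR0 : 0 ≤ Real.log ((U ^ E : ℕ) : ℝ) := Real.log_natCast_nonneg _
  have hlR : Real.log ((U ^ E : ℕ) : ℝ) ≤ L := by
    refine hlogX _ (by exact_mod_cast Nat.pow_pos hU0) ?_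
    push_cast
    exact (pow_le_pow_right₀ hUr (by omega)).trans hU2M
  have hpw : 4 * L ^ (24 * (A + 2 * B + 19) + (A + 2 * B + 18)) ≤ √X := by
    refine Real.le_sqrt_of_sq_le ?_
    rw [mul_pow, ← pow_mul, mul_comm (24 * (A + 2 * B + 19) + (A + 2 * B + 18)) 2]
    exact hf
  have hzD : (((z ^ 12 : ℕ) : ℝ)) ^ 2 ≤ L ^ (24 * (A + 2 * B + 19)) := by
    push_cast
    calc ((z : ℝ) ^ 12) ^ 2 = (z : ℝ) ^ 24 := by ring
      _ ≤ (L ^ (A + 2 * B + 19)) ^ 24 := pow_le_pow_left₀ (by positivity) hzu.le 24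
      _ = L ^ (24 * (A + 2 * B + 19)) := by rw [← pow_mul, mul_comm]
  have hlD0 : 0 ≤ Real.log ((z ^ 12 : ℕ) : ℝ) := Real.log_natCast_nonneg _
  have hlD : Real.log ((z ^ 12 : ℕ) : ℝ) ≤ L := by
    have h1 : (1 : ℝ) ≤ ((z ^ 12 : ℕ) : ℝ) := by exact_mod_cast Nat.one_le_pow _ _ hz1
    refine hlogX _ (by linarith) ?_
    have h2 : ((z ^ 12 : ℕ) : ℝ) ≤ (((z ^ 12 : ℕ) : ℝ)) ^ 2 := le_self_pow₀ h1 (by norm_num)
    have h3 : L ^ (24 * (A + 2 * B + 19)) ≤ L ^ (24 * (A + 2 * B + 19) + (A + 2 * B + 18)) := pow_le_pow_right₀ hL1 (by omega)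
    have h4 : (0 : ℝ) < L ^ (24 * (A + 2 * B + 19)) := by positivity
    linarith
  have hDR : 4 * ((((z ^ 12 : ℕ) : ℝ)) ^ 2 * (((U ^ E : ℕ) : ℝ)) ^ 4) * L ^ (A + 2 * B + 18) ≤ X := by
    calc 4 * ((((z ^ 12 : ℕ) : ℝ)) ^ 2 * (((U ^ E : ℕ) : ℝ)) ^ 4) * L ^ (A + 2 * B + 18)
        ≤ 4 * (L ^ (24 * (A + 2 * B + 19)) * √X) * L ^ (A + 2 * B + 18) := by gcongr
      _ = 4 * L ^ (24 * (A + 2 * B + 19) + (A + 2 * B + 18)) * √X := by
          rw [pow_add]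
          ring
      _ ≤ √X * √X := mul_le_mul_of_nonneg_right hpw (by positivity)
      _ = X := hsX
  have hcL2 : 3200000 ≤ e ^ 2 * L := by
    rw [div_le_iff₀ (by positivity)] at hc
    linarith
  have hcL1 : 64 ≤ e * L := by
    have h1 : e ^ 2 ≤ e := by nlinarith
    have h2 : e ^ 2 * L ≤ e * L := mul_le_mul_of_nonneg_right h1 hL0.le
    linarith
  -- the small quantity
  obtain ⟨m, hm⟩ : ∃ m : ℝ, m = H / (4 * L ^ (B + 3)) := ⟨_, rfl⟩
  have hm0 : 0 < m := by rw [hm]; positivity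
  have hθ : 0 < e / 4 * m := by positivity
  obtain ⟨EE, hEE⟩ : ∃ EE : ℕ → ℝ, ∀ N, EE N = ∑ p ∈ Icc 1 H, (if p.Prime then (1 : ℝ) else 0) * ((∑ d ∈ (N - p).divisors, up d) *
      (∑ e ∈ (N - p).divisors, μ e - ∑ e ∈ Icc 1 (U ^ E), μ e / e)) := ⟨_, fun _ => rfl⟩
  -- the two exceptional sets
  have hcard1 : (((Ioc (X + H) (2 * X)).filter fun N => e / 4 * m < (((Icc 1 H).filter fun p => ∃ s : ℕ, z < s ∧ s ^ 2 ∣ N - p).card : ℝ)).card : ℝ) ≤
      X / (2 * L ^ A) := by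
    have h1 := sqU X H z (e / 4 * m) hz1 hθ
    refine le_of_mul_le_mul_right (h1.trans ?_) hθ
    rw [hm]
    exact ns_num1 he0 hL1 (by positivity) hHr.le hzl hcL1
  have hcard2 : (((Ioc (X + H) (2 * X)).filter fun N => e / 4 * m < |EE N|).card : ℝ) ≤ X / (2 * L ^ A) := by
    refine ns_markov _ EE _ _ hθ ?_
    have h1 := vrU (X + H) (X - H) H (z ^ 12) (U ^ E) z (by omega) hz1 (fun p => if p.Prime then (1 : ℝ) else 0)
      (fun p => by
        show |if p.Prime then (1 : ℝ) else 0| ≤ 1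
        split_ifs <;> simp) up μ hu1 hu2 hμ1 hμ2
    have e1 : X + H + (X - H) = 2 * X := by omega
    rw [e1] at h1
    have h2 : ∑ N ∈ Ioc (X + H) (2 * X), EE N ^ 2 = ∑ N ∈ Ioc (X + H) (2 * X), (∑ p ∈ Icc 1 H, (if p.Prime then (1 : ℝ) else 0) *
        ((∑ d ∈ (N - p).divisors, up d) * (∑ e ∈ (N - p).divisors, μ e - ∑ e ∈ Icc 1 (U ^ E), μ e / e))) ^ 2 :=
      sum_congr rfl fun N _ => by rw [hEE]
    rw [h2]
    refine h1.trans ?_
    rw [hm]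
    have h3 := ns_num2 (A := A) (B := B) (e := e) (L := L) (z := z) (X := X) (H := H) (V := ((X - H : ℕ) : ℝ))
      (lD := 1 + Real.log ((z ^ 12 : ℕ) : ℝ)) (lR := 1 + Real.log ((U ^ E : ℕ) : ℝ))
      (DR := (((z ^ 12 : ℕ) : ℝ)) ^ 2 * (((U ^ E : ℕ) : ℝ)) ^ 4) he0 hL1 (by positivity) hHr hzl hHL (by positivity)
      (by exact_mod_cast Nat.sub_le X H) (by linarith) (by linarith) (by linarith) (by linarith) hcL2 hDR
    refine le_trans (le_of_eq ?_) h3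
    ring
  have hsub : ((Ioc (X + H) (2 * X)).filter fun N => Even N ∧ ε * MZ k S H N < (NZ k U S H N : ℝ)) ⊆
      ((Ioc (X + H) (2 * X)).filter fun N => e / 4 * m < (((Icc 1 H).filter fun p => ∃ s : ℕ, z < s ∧ s ^ 2 ∣ N - p).card : ℝ)) ∪
      ((Ioc (X + H) (2 * X)).filter fun N => e / 4 * m < |EE N|) := by
    intro N hN
    obtain ⟨hN1, hNe, hN2⟩ := mem_filter.1 hN
    have hN3 := mem_Ioc.1 hN1
    by_contra hcon
    rw [mem_union, not_or, mem_filter, mem_filter] at hcon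
    obtain ⟨hc1, hc2⟩ := hcon
    have hc1' : (((Icc 1 H).filter fun p => ∃ s : ℕ, z < s ∧ s ^ 2 ∣ N - p).card : ℝ) ≤ e / 4 * m := by
      by_contra h
      exact hc1 ⟨hN1, not_le.1 h⟩
    have hc2' : |EE N| ≤ e / 4 * m := by
      by_contra h
      exact hc2 ⟨hN1, not_le.1 h⟩
    have hna := naU k U z X H N S up μ hk hSq hUk hN3.1 hu3 hu4 hμ3 hμ4
    rw [ns_split (R := U ^ E), ← hEE] at hna
    have hSg0 : 0 ≤ ∑ p ∈ (Icc 1 H).filter Nat.Prime, ∑ d ∈ (N - p).divisors, up d := by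
      refine sum_nonneg fun p hp => hu3 _ ?_
      have := mem_Icc.1 (mem_filter.1 hp).1
      omega
    have hSg := hu5 N hNe (by omega)
    have hSS : 1 / 2 ≤ SS N := Pool.Agent.Lib.G5.q8 N hNe
    have hlU : 0 < Real.log U := lt_of_lt_of_le (by positivity) hlogU
    have hm1 : ∑ e ∈ Icc 1 (U ^ E), μ e / e ≤ C1 * (Real.log z / Real.log U) * (ε' * D) :=
      hμ5.trans (mul_le_mul_of_nonneg_left hqe (by positivity))
    have hM0 : 0 ≤ C1 * (Real.log z / Real.log U) * (ε' * D) := by positivity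
    have hmain : (∑ e ∈ Icc 1 (U ^ E), μ e / e) * ∑ p ∈ (Icc 1 H).filter Nat.Prime, ∑ d ∈ (N - p).divisors, up d ≤
        e / 4 * (SS N * (H / (Real.log H * (2 * L)) * D)) := by
      calc _ ≤ (C1 * (Real.log z / Real.log U) * (ε' * D)) * ∑ p ∈ (Icc 1 H).filter Nat.Prime, ∑ d ∈ (N - p).divisors, up d :=
            mul_le_mul_of_nonneg_right hm1 hSg0
        _ ≤ (C1 * (Real.log z / Real.log U) * (ε' * D)) * (C2 * (SS N * (H / (Real.log H * Real.log z)))) :=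
            mul_le_mul_of_nonneg_left hSg hM0
        _ ≤ _ := by
            rw [hε']
            exact ns_main (by linarith) hC1 hC2 he0 hL0 hlz hlogU hlH hD0 (by linarith) hHr.le
    have hZ := hMZ N hH2 (by omega) hN3.2 hNe
    have hmτ : m ≤ SS N * (H / (Real.log H * (2 * L)) * D) := by
      have h1 : (H : ℝ) / (L * (2 * L)) ≤ H / (Real.log H * (2 * L)) := by
        refine div_le_div_of_nonneg_left hHr.le (by positivity) ?_
        exact mul_le_mul_of_nonneg_right hlHL (by positivity)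
      have h2 : (H : ℝ) / (L * (2 * L)) * (1 / L ^ (B + 1)) ≤ H / (Real.log H * (2 * L)) * D :=
        mul_le_mul h1 hDL (by positivity) (by positivity)
      have e1 : m = 1 / 2 * ((H : ℝ) / (L * (2 * L)) * (1 / L ^ (B + 1))) := by
        rw [hm, show B + 3 = B + 1 + 2 by ring, pow_add L (B + 1) 2]
        field_simp
        ring
      rw [e1]
      exact mul_le_mul hSS h2 (by positivity) (by linarith)
    have hEl := le_abs_self (EE N)
    have h1 : e / 4 * m ≤ e / 4 * (SS N * (H / (Real.log H * (2 * L)) * D)) := mul_le_mul_of_nonneg_left hmτ (by positivity)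
    have h2 : e / 4 * (SS N * (H / (Real.log H * (2 * L)) * D)) ≤ e / 4 * MZ k S H N := mul_le_mul_of_nonneg_left hZ (by positivity)
    have hMZ0 : 0 ≤ MZ k S H N := le_trans (le_trans hm0.le hmτ) hZ
    have h3 : e * MZ k S H N ≤ ε * MZ k S H N := mul_le_mul_of_nonneg_right heε hMZ0
    have h4 : 0 ≤ e * MZ k S H N := mul_nonneg he0.le hMZ0
    linarith
  have hfin : (((Ioc (X + H) (2 * X)).filter fun N => Even N ∧ ε * MZ k S H N < (NZ k U S H N : ℝ)).card : ℝ) ≤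
      (((Ioc (X + H) (2 * X)).filter fun N => e / 4 * m < (((Icc 1 H).filter fun p => ∃ s : ℕ, z < s ∧ s ^ 2 ∣ N - p).card : ℝ)).card : ℝ) +
      (((Ioc (X + H) (2 * X)).filter fun N => e / 4 * m < |EE N|).card : ℝ) := by
    exact_mod_cast (card_le_card hsub).trans (card_union_le _ _)
  have e5 : (X : ℝ) / L ^ A = X / (2 * L ^ A) + X / (2 * L ^ A) := by
    field_simp
    ring
  rw [e5]
  linarith

end Pool.Agent.Lib.GU
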